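import Pool.Agent.N785.PC.Stmts

/-!
# Project PC: assembly of the Hamiltonian path (helper478)
-/

set_option autoImplicit false

namespace Pool.Agent.N785.PC.ASM_

open Finset

/-! ### Lists -/

/-- the successors in a list without repetitions are different from the head -/
theorem chain_tail {α : Type} (R : α → α → Prop) (u : α) : ∀ (t : List α) (a : α),
    (a :: t).IsChain R → u ∉ t → (a :: t).IsChain (fun x y => R x y ∧ y ≠ u)
  | [], a, _, _ => List.isChain_singleton a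
  | b :: t, a, h, hu => by
    rw [List.isChain_cons_cons] at h ⊢
    rw [List.mem_cons, not_or] at hu
    exact ⟨⟨h.1, fun h' => hu.1 h'.symm⟩, chain_tail R u t b h.2 hu.2⟩

/-! ### Blocks -/

/-- the data of the blocks -/
structure Dat (α : Type) where
  /-- the first vertex -/
  X : α → ℕ
  /-- the second vertex -/
  Y : α → ℕ
  /-- the first index -/
  I : α → ℕ
  /-- the second index -/
  J : α → ℕ
  /-- the index of the absorbed pair -/
  e : α → ℕ
  /-- the connections -/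
  T : α → Prop
  /-- the absorbed pairs -/
  D : α → Prop
  /-- the odd numbers of the reservoir -/
  a : ℕ → ℕ
  /-- the even numbers of the reservoir -/
  b : ℕ → ℕ
  /-- the number of pairs -/
  r : ℕ

variable {α : Type} (d : Dat α)

/-- the index `i` occurs in the block of `x` -/
def Dat.Own (x : α) (i : ℕ) : Prop := (d.T x ∧ (i = d.I x ∨ i = d.J x)) ∨ (d.D x ∧ i = d.e x)

open Classical in
/-- the block of `x` -/
noncomputable def Dat.blk (x : α) : List ℕ :=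
  d.X x :: ((if d.T x then [d.b (d.I x), d.a (d.I x), d.b (d.J x), d.a (d.J x)] else []) ++
    d.Y x :: (if d.D x then [d.a (d.e x), d.b (d.e x)] else []))

/-- the conditions on the data -/
structure Dat.Ok : Prop where
  aI : ∀ i < d.r, ∀ j < d.r, d.a i = d.a j → i = j
  bI : ∀ i < d.r, ∀ j < d.r, d.b i = d.b j → i = j
  ab : ∀ i < d.r, ∀ j < d.r, d.a i ≠ d.b j
  Xa : ∀ x, ∀ i < d.r, d.X x ≠ d.a i
  Xb : ∀ x, ∀ i < d.r, d.X x ≠ d.b i
  Ya : ∀ x, ∀ i < d.r, d.Y x ≠ d.a i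
  Yb : ∀ x, ∀ i < d.r, d.Y x ≠ d.b i
  XY : ∀ x x', d.X x ≠ d.Y x'
  Xi : ∀ x x', d.X x = d.X x' → x = x'
  Yi : ∀ x x', d.Y x = d.Y x' → x = x'
  T1 : ∀ x, d.T x → d.I x < d.r ∧ d.J x < d.r ∧ d.I x ≠ d.J x
  T2 : ∀ x x', d.T x → d.T x' → x ≠ x' → d.I x ≠ d.I x' ∧ d.J x ≠ d.J x' ∧ d.I x ≠ d.J x'
  D1 : ∀ x, d.D x → d.e x < d.r ∧ ∀ x', d.T x' → d.e x ≠ d.I x' ∧ d.e x ≠ d.J x'
  D2 : ∀ x x', d.D x → d.D x' → d.e x = d.e x' → x = x'

variable {d}

theorem mem_blk (x : α) (z : ℕ) : z ∈ d.blk x ↔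
    z = d.X x ∨ z = d.Y x ∨ ∃ i, d.Own x i ∧ (z = d.a i ∨ z = d.b i) := by
  classical
  unfold Dat.blk Dat.Own
  by_cases hT : d.T x <;> by_cases hD : d.D x <;>
    simp only [hT, hD, if_true, if_false, List.mem_cons, List.mem_append, List.not_mem_nil, or_false,
      true_and, false_and, false_or, List.nil_append, exists_false] <;>
  constructor
  · rintro (h | (h | h | h | h) | h | h | h)
    · exact Or.inl h
    · exact Or.inr (Or.inr ⟨_, Or.inl (Or.inl rfl), Or.inr h⟩)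
    · exact Or.inr (Or.inr ⟨_, Or.inl (Or.inl rfl), Or.inl h⟩)
    · exact Or.inr (Or.inr ⟨_, Or.inl (Or.inr rfl), Or.inr h⟩)
    · exact Or.inr (Or.inr ⟨_, Or.inl (Or.inr rfl), Or.inl h⟩)
    · exact Or.inr (Or.inl h)
    · exact Or.inr (Or.inr ⟨_, Or.inr rfl, Or.inl h⟩)
    · exact Or.inr (Or.inr ⟨_, Or.inr rfl, Or.inr h⟩)
  · rintro (h | h | ⟨i, ((rfl | rfl) | rfl), (h | h)⟩) <;> simp [h]
  · rintro (h | (h | h | h | h) | h)
    · exact Or.inl h
    · exact Or.inr (Or.inr ⟨_, (Or.inl rfl), Or.inr h⟩)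
    · exact Or.inr (Or.inr ⟨_, (Or.inl rfl), Or.inl h⟩)
    · exact Or.inr (Or.inr ⟨_, (Or.inr rfl), Or.inr h⟩)
    · exact Or.inr (Or.inr ⟨_, (Or.inr rfl), Or.inl h⟩)
    · exact Or.inr (Or.inl h)
  · rintro (h | h | ⟨i, (rfl | rfl), (h | h)⟩) <;> simp [h]
  · rintro (h | h | h | h)
    · exact Or.inl h
    · exact Or.inr (Or.inl h)
    · exact Or.inr (Or.inr ⟨_, rfl, Or.inl h⟩)
    · exact Or.inr (Or.inr ⟨_, rfl, Or.inr h⟩)
  · rintro (h | h | ⟨i, rfl, (h | h)⟩) <;> simp [h]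

theorem own_lt (ok : d.Ok) {x : α} {i : ℕ} (h : d.Own x i) : i < d.r := by
  rcases h with ⟨t, rfl | rfl⟩ | ⟨t, rfl⟩
  · exact (ok.T1 x t).1
  · exact (ok.T1 x t).2.1
  · exact (ok.D1 x t).1

theorem own_inj (ok : d.Ok) {x x' : α} {i : ℕ} (h : d.Own x i) (h' : d.Own x' i) : x = x' := by
  by_contra hne
  rcases h with ⟨t, ht⟩ | ⟨t, ht⟩ <;> rcases h' with ⟨t', ht'⟩ | ⟨t', ht'⟩
  · have h1 := ok.T2 x x' t t' hne
    have h2 := ok.T2 x' x t' t (Ne.symm hne)
    omega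
  · have h1 := (ok.D1 x' t').2 x t
    omega
  · have h1 := (ok.D1 x t).2 x' t'
    omega
  · exact hne (ok.D2 x x' t t' (ht.symm.trans ht'))

theorem disj_blk (ok : d.Ok) {x x' : α} (hne : x ≠ x') : List.Disjoint (d.blk x) (d.blk x') := by
  intro z hz hz'
  rw [mem_blk] at hz hz'
  rcases hz with rfl | rfl | ⟨i, hi, (rfl | rfl)⟩
  · rcases hz' with h | h | ⟨j, hj, (h | h)⟩
    · exact hne (ok.Xi _ _ h)
    · exact ok.XY _ _ h
    · exact ok.Xa _ _ (own_lt ok hj) h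
    · exact ok.Xb _ _ (own_lt ok hj) h
  · rcases hz' with h | h | ⟨j, hj, (h | h)⟩
    · exact ok.XY _ _ h.symm
    · exact hne (ok.Yi _ _ h)
    · exact ok.Ya _ _ (own_lt ok hj) h
    · exact ok.Yb _ _ (own_lt ok hj) h
  · rcases hz' with h | h | ⟨j, hj, (h | h)⟩
    · exact ok.Xa _ _ (own_lt ok hi) h.symm
    · exact ok.Ya _ _ (own_lt ok hi) h.symm
    · have := ok.aI _ (own_lt ok hi) _ (own_lt ok hj) h
      subst this
      exact hne (own_inj ok hi hj)
    · exact ok.ab _ (own_lt ok hi) _ (own_lt ok hj) h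
  · rcases hz' with h | h | ⟨j, hj, (h | h)⟩
    · exact ok.Xb _ _ (own_lt ok hi) h.symm
    · exact ok.Yb _ _ (own_lt ok hi) h.symm
    · exact ok.ab _ (own_lt ok hj) _ (own_lt ok hi) h.symm
    · have := ok.bI _ (own_lt ok hi) _ (own_lt ok hj) h
      subst this
      exact hne (own_inj ok hi hj)

theorem nodup_blk (ok : d.Ok) (x : α) : (d.blk x).Nodup := by
  classical
  have hXY := ok.XY x x
  unfold Dat.blk
  by_cases hT : d.T x <;> by_cases hD : d.D x
  · obtain ⟨i1, j1, ij⟩ := ok.T1 x hT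
    obtain ⟨e1, e2⟩ := ok.D1 x hD
    obtain ⟨eI, eJ⟩ := e2 x hT
    have f1 := ok.Xa x _ i1
    have f2 := ok.Xa x _ j1
    have f3 := ok.Xa x _ e1
    have f4 := ok.Xb x _ i1
    have f5 := ok.Xb x _ j1
    have f6 := ok.Xb x _ e1
    have f7 := (ok.Ya x _ i1).symm
    have f8 := (ok.Ya x _ j1).symm
    have f9 := ok.Ya x _ e1
    have f10 := (ok.Yb x _ i1).symm
    have f11 := (ok.Yb x _ j1).symm
    have f12 := ok.Yb x _ e1
    have f13 := (ok.ab _ i1 _ i1).symm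
    have f14 := (ok.ab _ j1 _ i1).symm
    have f15 := (ok.ab _ e1 _ i1).symm
    have f16 := ok.ab _ i1 _ j1
    have f17 := ok.ab _ i1 _ e1
    have f18 := (ok.ab _ j1 _ j1).symm
    have f19 := (ok.ab _ e1 _ j1).symm
    have f20 := ok.ab _ j1 _ e1
    have f21 := ok.ab _ e1 _ e1
    have f22 : d.a (d.I x) ≠ d.a (d.J x) := fun h => ij (ok.aI _ i1 _ j1 h)
    have f23 : d.b (d.I x) ≠ d.b (d.J x) := fun h => ij (ok.bI _ i1 _ j1 h)
    have f24 : d.a (d.I x) ≠ d.a (d.e x) := fun h => eI (ok.aI _ i1 _ e1 h).symm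
    have f25 : d.b (d.I x) ≠ d.b (d.e x) := fun h => eI (ok.bI _ i1 _ e1 h).symm
    have f26 : d.a (d.J x) ≠ d.a (d.e x) := fun h => eJ (ok.aI _ j1 _ e1 h).symm
    have f27 : d.b (d.J x) ≠ d.b (d.e x) := fun h => eJ (ok.bI _ j1 _ e1 h).symm
    simp [hT, hD, hXY, f1, f2, f3, f4, f5, f6, f7, f8, f9, f10, f11, f12, f13, f14, f15, f16, f17,
      f18, f19, f20, f21, f22, f23, f24, f25, f26, f27]
  · obtain ⟨i1, j1, ij⟩ := ok.T1 x hT
    have f1 := ok.Xa x _ i1
    have f2 := ok.Xa x _ j1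
    have f4 := ok.Xb x _ i1
    have f5 := ok.Xb x _ j1
    have f7 := (ok.Ya x _ i1).symm
    have f8 := (ok.Ya x _ j1).symm
    have f10 := (ok.Yb x _ i1).symm
    have f11 := (ok.Yb x _ j1).symm
    have f13 := (ok.ab _ i1 _ i1).symm
    have f14 := (ok.ab _ j1 _ i1).symm
    have f16 := ok.ab _ i1 _ j1
    have f18 := (ok.ab _ j1 _ j1).symm
    have f22 : d.a (d.I x) ≠ d.a (d.J x) := fun h => ij (ok.aI _ i1 _ j1 h)
    have f23 : d.b (d.I x) ≠ d.b (d.J x) := fun h => ij (ok.bI _ i1 _ j1 h)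
    simp [hT, hD, hXY, f1, f2, f4, f5, f7, f8, f10, f11, f13, f14, f16, f18, f22, f23]
  · obtain ⟨e1, e2⟩ := ok.D1 x hD
    have f3 := ok.Xa x _ e1
    have f6 := ok.Xb x _ e1
    have f9 := ok.Ya x _ e1
    have f12 := ok.Yb x _ e1
    have f21 := ok.ab _ e1 _ e1
    simp [hT, hD, hXY, f3, f6, f9, f12, f21]
  · simp [hT, hD, hXY]

theorem chain_blk (Q : ℕ → ℕ → Prop) (x : α) (h0 : ¬ d.T x → Q (d.X x) (d.Y x))
    (h1 : d.T x → Q (d.X x) (d.b (d.I x)) ∧ Q (d.b (d.I x)) (d.a (d.I x)) ∧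
      Q (d.a (d.I x)) (d.b (d.J x)) ∧ Q (d.b (d.J x)) (d.a (d.J x)) ∧ Q (d.a (d.J x)) (d.Y x))
    (h2 : d.D x → Q (d.Y x) (d.a (d.e x)) ∧ Q (d.a (d.e x)) (d.b (d.e x))) :
    (d.blk x).IsChain Q := by
  classical
  unfold Dat.blk
  by_cases hT : d.T x <;> by_cases hD : d.D x
  · obtain ⟨a1, a2, a3, a4, a5⟩ := h1 hT
    obtain ⟨b1, b2⟩ := h2 hD
    simp [hT, hD, a1, a2, a3, a4, a5, b1, b2]
  · obtain ⟨a1, a2, a3, a4, a5⟩ := h1 hT
    simp [hT, hD, a1, a2, a3, a4, a5]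
  · obtain ⟨b1, b2⟩ := h2 hD
    have a1 := h0 hT
    simp [hT, hD, a1, b1, b2]
  · have a1 := h0 hT
    simp [hT, hD, a1]

open Classical in
theorem last_blk (x : α) : (d.blk x).getLast? = some (if d.D x then d.b (d.e x) else d.Y x) := by
  unfold Dat.blk
  by_cases hT : d.T x <;> by_cases hD : d.D x <;> simp [hT, hD]

theorem head_blk (x : α) : (d.blk x).head? = some (d.X x) := rfl

theorem filter_blk (ok : d.Ok) (q : ℕ → Bool) (x : α) (hX : q (d.X x) = true)
    (hY : q (d.Y x) = true) (ha : ∀ i < d.r, q (d.a i) = false) (hb : ∀ i < d.r, q (d.b i) = false) :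
    (d.blk x).filter q = [d.X x, d.Y x] := by
  classical
  unfold Dat.blk
  by_cases hT : d.T x <;> by_cases hD : d.D x
  · obtain ⟨i1, j1, ij⟩ := ok.T1 x hT
    obtain ⟨e1, e2⟩ := ok.D1 x hD
    simp [hT, hD, hX, hY, ha _ i1, ha _ j1, ha _ e1, hb _ i1, hb _ j1, hb _ e1]
  · obtain ⟨i1, j1, ij⟩ := ok.T1 x hT
    simp [hT, hD, hX, hY, ha _ i1, ha _ j1, hb _ i1, hb _ j1]
  · obtain ⟨e1, e2⟩ := ok.D1 x hD
    simp [hT, hD, hX, hY, ha _ e1, hb _ e1]
  · simp [hT, hD, hX, hY]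

/-! ### Arithmetic -/

theorem aa_lo (m i : ℕ) : m ≤ aa m i := by unfold aa; omega

theorem aa_hi {m i r : ℕ} (hi : i < r) : aa m i + 1 ≤ m + 2 * r := by unfold aa; omega

theorem aa_odd (m i : ℕ) : aa m i % 2 = 1 := by unfold aa; omega

theorem aa_inj {m i j : ℕ} (h : aa m i = aa m j) : i = j := by unfold aa at h; omega

theorem aa_sub {m i j r : ℕ} (hi : i < r) : aa m i + 2 ≤ aa m j + 2 * r := by unfold aa; omega

theorem mem_AA {m r x : ℕ} : x ∈ AA m r ↔ (1 ≤ x ∧ x ≤ 2 * m) ∧ x % 2 = 1 ∧ ∀ i < r, aa m i ≠ x := by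
  unfold AA Od
  simp only [mem_sdiff, mem_filter, mem_Icc, mem_image, mem_range, not_exists, not_and]
  tauto

theorem mem_BB {m r P y : ℕ} : y ∈ BB m r P ↔
    (1 ≤ y ∧ y ≤ 2 * m) ∧ y % 2 = 0 ∧ ∀ i < r, P - aa m i ≠ y := by
  unfold BB Ev
  simp only [mem_sdiff, mem_filter, mem_Icc, mem_image, mem_range, not_exists, not_and]
  tauto

theorem fn_coe {A B : Finset ℕ} (f : A ≃ B) (x : A) : fn f (x : ℕ) = (f x : ℕ) := by
  unfold fn
  exact dif_pos x.2

section gad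

variable {m r P p h : ℕ} (G : Gad m r P p h)
include G

theorem P_odd : P % 2 = 1 := by
  rcases G.P1.eq_two_or_odd with h1 | h1
  · have := G.low
    have := G.hm
    omega
  · exact h1

theorem p_odd : p % 2 = 1 := by
  rcases G.p1.eq_two_or_odd with h1 | h1
  · have := G.low
    have := G.hm
    have := G.sep
    omega
  · exact h1

theorem bfacts {i : ℕ} (hi : i < r) : P - aa m i + aa m i = P ∧ (P - aa m i) % 2 = 0 ∧
    3 * m ≤ 4 * (P - aa m i) ∧ 10 * (P - aa m i) ≤ 9 * m := by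
  have h1 := aa_lo m i
  have h2 := aa_hi (m := m) hi
  have h3 := aa_odd m i
  have h4 := P_odd G
  have h5 := G.hr
  have h6 := G.low
  have h7 := G.sep
  have h8 := G.upp
  have h9 := G.hm
  refine ⟨by omega, by omega, by omega, by omega⟩

theorem bfacts' {i : ℕ} (hi : i < r) : p - aa m i + aa m i = p ∧ (p - aa m i) % 2 = 0 ∧
    3 * m ≤ 4 * (p - aa m i) ∧ 10 * (p - aa m i) ≤ 9 * m ∧ ∀ j < r, P - aa m j ≠ p - aa m i := by
  have h1 := aa_lo m i
  have h2 := aa_hi (m := m) hi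
  have h3 := aa_odd m i
  have h4 := p_odd G
  have h5 := G.hr
  have h6 := G.low
  have h7 := G.sep
  have h8 := G.upp
  have h9 := G.hm
  refine ⟨by omega, by omega, by omega, by omega, fun j hj => ?_⟩
  have h10 := aa_sub (m := m) (i := i) (j := j) hi
  have h11 := aa_lo m j
  have h12 := aa_hi (m := m) hj
  omega

theorem b'_mem {i : ℕ} (hi : i < r) : p - aa m i ∈ BB m r P := by
  obtain ⟨h1, h2, h3, h4, h5⟩ := bfacts' G hi
  have h9 := G.hm
  exact mem_BB.mpr ⟨⟨by omega, by omega⟩, h2, h5⟩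

end gad

/-! ### The data of the problem -/

/-- the index `i` is unused and is absorbed after `x` -/
def Dp {m r P : ℕ} (p : ℕ) (f : AA m r ≃ BB m r P) (τ : Equiv.Perm (AA m r)) (I J : ℕ → ℕ)
    (x : AA m r) (i : ℕ) : Prop :=
  i < r ∧ (∀ x' : AA m r, τ x' ≠ x' → i ≠ I x' ∧ i ≠ J x') ∧ (f (τ x) : ℕ) = p - aa m i

open Classical in
/-- the data -/
noncomputable def dat {m r P : ℕ} (p : ℕ) (f : AA m r ≃ BB m r P) (τ : Equiv.Perm (AA m r))
    (I J : ℕ → ℕ) : Dat (AA m r) where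
  X x := x
  Y x := f (τ x)
  I x := I x
  J x := J x
  e x := if hx : ∃ i, Dp p f τ I J x i then hx.choose else 0
  T x := τ x ≠ x
  D x := ∃ i, Dp p f τ I J x i
  a := aa m
  b i := P - aa m i
  r := r

theorem dat_D {m r P p : ℕ} {f : AA m r ≃ BB m r P} {τ : Equiv.Perm (AA m r)} {I J : ℕ → ℕ}
    {x : AA m r} (hx : (dat p f τ I J).D x) : Dp p f τ I J x ((dat p f τ I J).e x) := by
  have h1 : (dat p f τ I J).e x = hx.choose := dif_pos hx
  rw [h1]
  exact hx.choose_spec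

theorem mem_sup {m r : ℕ} {τ : Equiv.Perm (AA m r)} {x : AA m r} (hx : τ x ≠ x) :
    (x : ℕ) ∈ τ.support.map (Function.Embedding.subtype _) :=
  Finset.mem_map.mpr ⟨x, Equiv.Perm.mem_support.mpr hx, rfl⟩

section main

variable {m r P p h : ℕ} (G : Gad m r P p h) (f : AA m r ≃ BB m r P) (τ : Equiv.Perm (AA m r))
  (I J : ℕ → ℕ)
include G

theorem dat_ok (hC : Conn m r P (τ.support.map (Function.Embedding.subtype _)) (fn (τ.trans f)) I J) :
    (dat p f τ I J).Ok where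
  aI i _ j _ h := aa_inj h
  bI i hi j hj h := by
    have h1 := bfacts G hi
    have h2 := bfacts G hj
    have h3 : P - aa m i = P - aa m j := h
    exact aa_inj (m := m) (by omega)
  ab i hi j hj := by
    have h1 := (bfacts G hj).2.1
    have h2 := aa_odd m i
    show aa m i ≠ P - aa m j
    omega
  Xa x i hi := ((mem_AA.mp x.2).2.2 i hi).symm
  Xb x i hi := by
    have h1 := (mem_AA.mp x.2).2.1
    have h2 := (bfacts G hi).2.1
    show (x : ℕ) ≠ P - aa m i
    omega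
  Ya x i hi := by
    have h1 := (mem_BB.mp (f (τ x)).2).2.1
    have h2 := aa_odd m i
    show (f (τ x) : ℕ) ≠ aa m i
    omega
  Yb x i hi := ((mem_BB.mp (f (τ x)).2).2.2 i hi).symm
  XY x x' := by
    have h1 := (mem_AA.mp x.2).2.1
    have h2 := (mem_BB.mp (f (τ x')).2).2.1
    show (x : ℕ) ≠ (f (τ x') : ℕ)
    omega
  Xi x x' h := Subtype.ext h
  Yi x x' h := τ.injective (f.injective (Subtype.ext h))
  T1 x hx := hC.lt x (mem_sup hx)
  T2 x x' hx hx' hne := hC.ne x (mem_sup hx) x' (mem_sup hx') fun h => hne (Subtype.ext h)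
  D1 x hx := ⟨(dat_D hx).1, (dat_D hx).2.1⟩
  D2 x x' hx hx' he := by
    have h1 := (dat_D hx).2.2
    have h2 := (dat_D hx').2.2
    rw [he] at h1
    exact τ.injective (f.injective (Subtype.ext (h1.trans h2.symm)))

theorem cover {i : ℕ} (hi : i < r) : ∃ x, (dat p f τ I J).Own x i := by
  by_cases hu : ∃ x' : AA m r, τ x' ≠ x' ∧ (i = I x' ∨ i = J x')
  · obtain ⟨x', h1, h2⟩ := hu
    exact ⟨x', Or.inl ⟨h1, h2⟩⟩
  · have hx' : ∀ x' : AA m r, τ x' ≠ x' → i ≠ I x' ∧ i ≠ J x' := fun x' h1 =>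
      ⟨fun h2 => hu ⟨x', h1, Or.inl h2⟩, fun h2 => hu ⟨x', h1, Or.inr h2⟩⟩
    have hy : (f (τ (τ.symm (f.symm ⟨p - aa m i, b'_mem G hi⟩))) : ℕ) = p - aa m i := by simp
    have hD : ∃ k, Dp p f τ I J (τ.symm (f.symm ⟨p - aa m i, b'_mem G hi⟩)) k := ⟨i, hi, hx', hy⟩
    refine ⟨_, Or.inr ⟨hD, ?_⟩⟩
    have h3 := dat_D (p := p) (f := f) (τ := τ) (I := I) (J := J) hD
    have h4 := bfacts' G hi
    have h5 := bfacts' G h3.1
    have h6 := h3.2.2
    rw [hy] at h6
    exact aa_inj (m := m) (by omega)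

end main

end Pool.Agent.N785.PC.ASM_

namespace Pool.Agent.N785.PC

open Finset ASM_

/-- the Hamiltonian path -/
theorem t_ASM (hA : S_LA) (hB : S_LB) : S_ASM := by
  classical
  intro m r P p h u v G E g hg f hf τ hcyc I J hC
  have ok : (dat p f τ I J).Ok := dat_ok G f τ I J hC
  have hm := G.hm
  have hr := G.hr
  have hOd : (1 ≤ u ∧ u ≤ 2 * m) ∧ u % 2 = 1 := by
    have := E.u1
    unfold Od at this
    rwa [mem_filter, mem_Icc] at this
  have hEv : (1 ≤ v ∧ v ≤ 2 * m) ∧ v % 2 = 0 := by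
    have := E.v1
    unfold Ev at this
    rwa [mem_filter, mem_Icc] at this
  have hu : u ∈ AA m r := by
    refine mem_AA.mpr ⟨hOd.1, hOd.2, fun i hi => ?_⟩
    have h1 := aa_lo m i
    have h2 := aa_hi (m := m) hi
    have h3 := E.u2
    omega
  have hv : v ∈ BB m r P := by
    refine mem_BB.mpr ⟨hEv.1, hEv.2, fun i hi => ?_⟩
    have h1 := bfacts G hi
    have h3 := E.v2
    omega
  have hvb : ∀ i < r, v ≠ p - aa m i := by
    intro i hi
    have h1 := bfacts' G hi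
    have h3 := E.v2
    omega
  have guv : g ⟨v, hv⟩ = ⟨u, hu⟩ := Subtype.ext (hg.uv ⟨v, hv⟩ rfl)
  obtain ⟨L, Ln, Lm, Lh, Lc, Ll⟩ := hA (AA m r) ((f.trans g : Equiv.Perm (AA m r)) * τ) ⟨u, hu⟩ hcyc
  obtain ⟨t, rfl⟩ := List.head?_eq_some_iff.mp Lh
  have hut : (⟨u, hu⟩ : AA m r) ∉ t := (List.nodup_cons.mp Ln).1
  have Lc' := chain_tail _ (⟨u, hu⟩ : AA m r) t _ Lc hut
  set L : List (AA m r) := ⟨u, hu⟩ :: t with hL
  have hlink : L.IsChain (fun x y => ∀ a ∈ ((dat p f τ I J).blk x).getLast?,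
      ∀ b ∈ ((dat p f τ I J).blk y).head?, (a + b).Prime) := by
    refine Lc'.imp ?_
    rintro x y ⟨hy, hyu⟩ a ha b hb
    rw [last_blk] at ha
    rw [head_blk] at hb
    have ha' := (Option.mem_some_iff.mp ha)
    have hb' := (Option.mem_some_iff.mp hb)
    subst hb'
    have hy' : y = g (f (τ x)) := hy
    have hX : (dat p f τ I J).X y = (g (f (τ x)) : ℕ) := by
      rw [hy']
      rfl
    rw [hX, ← ha']
    by_cases hD : (dat p f τ I J).D x
    · rw [if_pos hD]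
      have h1 := dat_D hD
      have h2 := hg.gad _ h1.1 (f (τ x)) h1.2.2
      rw [h2]
      have h3 := bfacts G h1.1
      have h4 : (dat p f τ I J).b ((dat p f τ I J).e x) + (aa m ((dat p f τ I J).e x) + h) =
          P + h := by
        show (P - aa m ((dat p f τ I J).e x)) + (aa m ((dat p f τ I J).e x) + h) = P + h
        omega
      rw [h4]
      exact G.Ph
    · rw [if_neg hD]
      refine hg.pr (f (τ x)) fun h1 => hyu ?_
      have h2 : f (τ x) = ⟨v, hv⟩ := Subtype.ext h1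
      rw [hy', h2, guv]
  have hmemb : ∀ z, z ∈ L.flatMap (dat p f τ I J).blk ↔ 1 ≤ z ∧ z ≤ 2 * m := by
    intro z
    rw [List.mem_flatMap]
    constructor
    · rintro ⟨x, -, hx⟩
      rw [mem_blk] at hx
      rcases hx with rfl | rfl | ⟨i, hi, (rfl | rfl)⟩
      · exact (mem_AA.mp x.2).1
      · exact (mem_BB.mp (f (τ x)).2).1
      · have h0 : i < r := own_lt ok hi
        have h1 := aa_lo m i
        have h2 := aa_hi (m := m) h0
        show 1 ≤ aa m i ∧ aa m i ≤ 2 * m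
        omega
      · have h0 : i < r := own_lt ok hi
        have h1 := bfacts G h0
        show 1 ≤ P - aa m i ∧ P - aa m i ≤ 2 * m
        omega
    · intro hz
      rcases Nat.mod_two_eq_zero_or_one z with h2 | h2
      · by_cases hi : ∃ i < r, P - aa m i = z
        · obtain ⟨i, hi, rfl⟩ := hi
          obtain ⟨x, hx⟩ := cover G f τ I J hi
          exact ⟨x, Lm x, (mem_blk x _).mpr (Or.inr (Or.inr ⟨i, hx, Or.inr rfl⟩))⟩
        · have hB : z ∈ BB m r P := mem_BB.mpr ⟨hz, h2, fun i h3 h4 => hi ⟨i, h3, h4⟩⟩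
          refine ⟨τ.symm (f.symm ⟨z, hB⟩), Lm _, (mem_blk _ _).mpr (Or.inr (Or.inl ?_))⟩
          show z = (f (τ (τ.symm (f.symm ⟨z, hB⟩))) : ℕ)
          simp
      · by_cases hi : ∃ i < r, aa m i = z
        · obtain ⟨i, hi, rfl⟩ := hi
          obtain ⟨x, hx⟩ := cover G f τ I J hi
          exact ⟨x, Lm x, (mem_blk x _).mpr (Or.inr (Or.inr ⟨i, hx, Or.inl rfl⟩))⟩
        · have hA : z ∈ AA m r := mem_AA.mpr ⟨hz, h2, fun i h3 h4 => hi ⟨i, h3, h4⟩⟩
          exact ⟨⟨z, hA⟩, Lm _, (mem_blk _ _).mpr (Or.inl rfl)⟩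
  have hNC := hB (AA m r) ℕ L (dat p f τ I J).blk (fun x y => (x + y).Prime) Ln (fun x _ => by
    refine ⟨List.cons_ne_nil _ _, nodup_blk ok x, chain_blk _ x ?_ ?_ ?_⟩
    · intro hT
      have hT' : τ x = x := not_not.mp hT
      show ((x : ℕ) + (f (τ x) : ℕ)).Prime
      rw [hT']
      exact hf x
    · intro hT
      obtain ⟨c1, c2, c3⟩ := hC.pr x (mem_sup hT)
      obtain ⟨l1, l2, l3⟩ := hC.lt x (mem_sup hT)
      have h1 := bfacts G l1
      have h2 := bfacts G l2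
      refine ⟨c1, ?_, c2, ?_, ?_⟩
      · show ((P - aa m (I x)) + aa m (I x)).Prime
        rw [h1.1]
        exact G.P1
      · show ((P - aa m (J x)) + aa m (J x)).Prime
        rw [h2.1]
        exact G.P1
      · rw [fn_coe] at c3
        exact c3
    · intro hD
      have h1 := dat_D hD
      have h2 := bfacts G h1.1
      have h3 := bfacts' G h1.1
      constructor
      · show ((f (τ x) : ℕ) + aa m ((dat p f τ I J).e x)).Prime
        rw [h1.2.2, h3.1]
        exact G.p1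
      · show (aa m ((dat p f τ I J).e x) + (P - aa m ((dat p f τ I J).e x))).Prime
        rw [add_comm, h2.1]
        exact G.P1) (fun x _ y _ hne => disj_blk ok hne) hlink
  have hfilter : (L.flatMap (dat p f τ I J).blk).filter
      (fun z => decide (z ∈ AA m r ∪ BB m r P)) =
      L.flatMap (fun x : AA m r => [(x : ℕ), (f (τ x) : ℕ)]) := by
    rw [List.filter_flatMap]
    congr 1
    funext x
    refine filter_blk ok _ x ?_ ?_ ?_ ?_
    · exact decide_eq_true (mem_union_left _ x.2)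
    · exact decide_eq_true (mem_union_right _ (f (τ x)).2)
    · intro i hi
      refine decide_eq_false ?_
      rw [mem_union, not_or]
      refine ⟨fun h1 => (mem_AA.mp h1).2.2 i hi rfl, fun h1 => ?_⟩
      have h2 := (mem_BB.mp h1).2.1
      have h3 := aa_odd m i
      have h4 : (dat p f τ I J).a i = aa m i := rfl
      omega
    · intro i hi
      refine decide_eq_false ?_
      rw [mem_union, not_or]
      refine ⟨fun h1 => ?_, fun h1 => (mem_BB.mp h1).2.2 i hi rfl⟩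
      have h2 := (mem_AA.mp h1).2.1
      have h3 := (bfacts G hi).2.1
      have h4 : (dat p f τ I J).b i = P - aa m i := rfl
      omega
  have hlast : ∀ w, L.getLast? = some w → f (τ w) = ⟨v, hv⟩ := by
    intro w hw
    have h1 : g (f (τ w)) = g ⟨v, hv⟩ := (Ll w hw).trans guv.symm
    exact g.injective h1
  refine ⟨L.flatMap (dat p f τ I J).blk, ⟨hNC.1, hmemb, ?_, ?_, hNC.2⟩, ?_, ?_⟩
  · rw [hL, List.flatMap_cons]
    rfl
  · obtain ⟨w, hw⟩ : ∃ w, L.getLast? = some w := ⟨_, List.getLast?_eq_getLast_of_ne_nil (List.cons_ne_nil _ _)⟩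
    obtain ⟨s, hs⟩ := List.getLast?_eq_some_iff.mp hw
    have h1 := hlast w hw
    rw [hs, List.flatMap_append, List.flatMap_singleton, List.getLast?_append, last_blk, if_neg]
    · show some (f (τ w) : ℕ) = some v
      rw [h1]
    · rintro ⟨i, hi, -, h2⟩
      rw [h1] at h2
      exact hvb i hi h2
  · intro x
    obtain ⟨s, t', hs⟩ := List.append_of_mem (Lm x)
    unfold Nx
    rw [hfilter, hs, List.flatMap_append, List.flatMap_cons]
    exact ⟨_, _, rfl⟩
  · intro y hy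
    have hyx : f (τ (τ.symm (f.symm y))) = y := by simp
    obtain ⟨s, t', hs⟩ := List.append_of_mem (Lm (τ.symm (f.symm y)))
    unfold Nx
    rcases t' with _ | ⟨x', t''⟩
    · exfalso
      have h1 := hlast (τ.symm (f.symm y)) (by rw [hs]; simp)
      rw [hyx] at h1
      exact hy (congrArg Subtype.val h1)
    · have h2 : x' = g y := by
        rw [hs] at Lc
        have h3 := (List.isChain_append.mp Lc).2.1
        rw [List.isChain_cons_cons] at h3
        have h4 : x' = g (f (τ (τ.symm (f.symm y)))) := h3.1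
        rw [h4, hyx]
      rw [hfilter, hs, List.flatMap_append, List.flatMap_cons, List.flatMap_cons]
      refine ⟨s.flatMap (fun x : AA m r => [(x : ℕ), (f (τ x) : ℕ)]) ++ [(τ.symm (f.symm y) : ℕ)],
        (f (τ x') : ℕ) :: t''.flatMap (fun x : AA m r => [(x : ℕ), (f (τ x) : ℕ)]), ?_⟩
      rw [h2, hyx]
      simp

end Pool.Agent.N785.PC
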