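import Pool.Agent.N785.PC.Defs

/-!
# Project PC: the statements (without the analytic ones)
-/

set_option autoImplicit false

namespace Pool.Agent.N785.PC

open Finset

open Classical in
/-- ternary Goldbach with windows -/
def S_NTG : Prop := ∃ c : ℝ, 0 < c ∧ ∃ N₀ : ℕ, ∀ N H : ℕ, N₀ ≤ N → H ≤ N → (N : ℝ) ≤ H * Real.log N ^ 5 →
  ∀ σ : ℤ, (σ = 1 ∨ σ = -1) → ∀ α β : ℤ, ∀ s₀ t₀ : ℕ, 1 ≤ s₀ → 1 ≤ t₀ → s₀ + 2 * H ≤ 5 * N → t₀ + 2 * H ≤ 5 * N →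
  (∀ i : ℕ, i < H → 1 ≤ α + σ * (s₀ + 2 * i) ∧ α + σ * (s₀ + 2 * i) ≤ 10 * N) →
  (∀ j : ℕ, j < H → 1 ≤ β + σ * (t₀ + 2 * j) ∧ β + σ * (t₀ + 2 * j) ≤ 10 * N) →
  Odd (α + σ * s₀) → Odd (s₀ + t₀) → Odd (β + σ * t₀) →
  c * H ^ 2 / Real.log N ^ 3 ≤ (((range H ×ˢ range H).filter fun w : ℕ × ℕ =>
    (α + σ * (s₀ + 2 * w.1)).toNat.Prime ∧ (s₀ + 2 * w.1 + (t₀ + 2 * w.2)).Prime ∧
    (β + σ * (t₀ + 2 * w.2)).toNat.Prime).card : ℝ)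

open Classical in
/-- paths with three edges -/
def S_T2 : Prop := ∃ c : ℝ, 0 < c ∧ ∃ m₀ : ℕ, ∀ m : ℕ, m₀ ≤ m → ∀ x ∈ Od m, ∀ y ∈ Ev m,
  c * m ^ 2 / Real.log m ^ 3 ≤ (((Od m ×ˢ Ev m).filter fun w : ℕ × ℕ =>
    (x + w.2).Prime ∧ (w.1 + w.2).Prime ∧ (w.1 + y).Prime).card : ℝ)

open Classical in
/-- connections through the reservoir -/
def S_T3 : Prop := ∃ c : ℝ, 0 < c ∧ ∃ m₀ : ℕ, ∀ m : ℕ, m₀ ≤ m → ∀ P : ℕ, 18 * m < 10 * P → 10 * P ≤ 19 * m → Odd P →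
  ∀ x ∈ Od m, ∀ y ∈ Ev m,
  c * (rr m) ^ 2 / Real.log m ^ 3 ≤ (((range (rr m) ×ˢ range (rr m)).filter fun w : ℕ × ℕ =>
    (x + (P - aa m w.1)).Prime ∧ (aa m w.1 + (P - aa m w.2)).Prime ∧ (aa m w.2 + y).Prime).card : ℝ)

open Classical in
/-- the degrees in the prime sum graph -/
def S_DEG : Prop := ∀ δ : ℝ, 0 < δ → ∃ m₀ : ℕ, ∀ m : ℕ, m₀ ≤ m →
  (∀ x ∈ Od m, |(((Ev m).filter fun y => (x + y).Prime).card : ℝ) - dd m| ≤ δ * dd m) ∧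
  (∀ y ∈ Ev m, |(((Od m).filter fun x => (x + y).Prime).card : ℝ) - dd m| ≤ δ * dd m)

open Classical in
/-- regular spanning subgraphs of bipartite graphs (Ore, Ryser) -/
def S_KRa : Prop := ∀ (X Y : Type) [Fintype X] [Fintype Y] (G : X → Finset Y) (k : ℕ),
  Fintype.card X = Fintype.card Y →
  (∀ (S : Finset X) (T : Finset Y), k * S.card + k * T.card ≤ ∑ x ∈ S, (G x ∩ T).card + k * Fintype.card Y) →
  ∃ K : X → Finset Y, (∀ x, K x ⊆ G x ∧ (K x).card = k) ∧ ∀ y, (univ.filter fun x => y ∈ K x).card = k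

open Classical in
/-- the cut condition from the degrees and the paths with three edges -/
def S_KRb : Prop := ∀ (X Y : Type) [Fintype X] [Fintype Y] (G : X → Finset Y) (k : ℕ) (d δ ε γ : ℝ),
  Fintype.card X = Fintype.card Y → 0 < d → 0 < ε → ε ≤ 1 → 0 < γ → 0 ≤ δ → δ ≤ 1 → δ ≤ ε * γ / 200 →
  (∀ x, (1 - δ) * d ≤ ((G x).card : ℝ) ∧ ((G x).card : ℝ) ≤ (1 + δ) * d) →
  (∀ y, (1 - δ) * d ≤ ((univ.filter fun x => y ∈ G x).card : ℝ) ∧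
    ((univ.filter fun x => y ∈ G x).card : ℝ) ≤ (1 + δ) * d) →
  (∀ (x : X) (y : Y), γ * d ^ 3 / Fintype.card X ≤
    ((univ.filter fun w : X × Y => w.2 ∈ G x ∧ w.2 ∈ G w.1 ∧ y ∈ G w.1).card : ℝ)) →
  (k : ℝ) ≤ (1 - ε) * d →
  ∀ (S : Finset X) (T : Finset Y), k * S.card + k * T.card ≤ ∑ x ∈ S, (G x ∩ T).card + k * Fintype.card Y

open Classical in
/-- regular spanning subgraphs of the prime sum graph without a few vertices -/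
def S_KR : Prop := ∀ ε : ℝ, 0 < ε → ε < 1 → ∃ m₀ : ℕ, ∀ m : ℕ, m₀ ≤ m → ∀ A B : Finset ℕ, A ⊆ Od m → B ⊆ Ev m →
  A.card = B.card → (m : ℝ) ≤ A.card + m / Real.log m ^ 3 →
  ∃ k : ℕ, (1 - ε) * dd m ≤ k ∧ (k : ℝ) ≤ dd m ∧ ∃ K : A → Finset B,
    (∀ x : A, (K x).card = k ∧ ∀ y ∈ K x, ((x : ℕ) + (y : ℕ)).Prime) ∧
    ∀ y : B, (univ.filter fun x : A => y ∈ K x).card = k

open Classical in
/-- van der Waerden's bound for the number of perfect matchings of a regular bipartite graph -/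
def S_VDW : Prop := ∀ (X Y : Type) [Fintype X] [Fintype Y] (K : X → Finset Y) (k : ℕ),
  Fintype.card X = Fintype.card Y → (∀ x, (K x).card = k) → (∀ y, (univ.filter fun x => y ∈ K x).card = k) →
  ((k : ℝ) / Real.exp 1) ^ Fintype.card X ≤ ((univ.filter fun f : X ≃ Y => ∀ x, f x ∈ K x).card : ℝ)

open Classical in
/-- a permutation with many cycles has many short cycles -/
def S_FC1 : Prop := ∀ (α : Type) [Fintype α] (σ : Equiv.Perm α) (q j ℓ : ℕ), q < ncyc σ → 2 * j ≤ q →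
  2 * Fintype.card α ≤ ℓ * q →
  ∃ V : Finset α, V.card = j ∧ (∀ v ∈ V, Function.minimalPeriod σ v ≤ ℓ) ∧
    ∀ v ∈ V, ∀ w ∈ V, v ≠ w → ¬ σ.SameCycle v w

open Classical in
/-- Bregman's inequality for the permutations with prescribed values on an invariant set -/
def S_FC2 : Prop := ∀ (α : Type) [Fintype α] (S : α → Finset α) (k : ℕ), 1 ≤ k →
  (∀ x, (S x).card = k) → (∀ y, (univ.filter fun x => y ∈ S x).card = k) →
  ∀ (U : Finset α) (ρ : α → α), 2 * U.card ≤ k →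
  ((univ.filter fun σ : Equiv.Perm α => (∀ x, σ x ∈ S x) ∧ (∀ x ∈ U, σ x = ρ x) ∧ ∀ x ∈ U, σ x ∈ U).card : ℝ) ≤
    (k : ℝ) ^ (Fintype.card α - U.card) * Real.exp (-(Fintype.card α : ℝ) + (U.card : ℝ) ^ 2 / k +
      2 * Fintype.card α * (1 + Real.log k) / k)

open Classical in
/-- the union bound over the short cycles -/
def S_FC3 : Prop := ∀ (α : Type) [Fintype α] (S : α → Finset α) (k j ℓ : ℕ) (C : ℝ), 1 ≤ k → 0 ≤ C →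
  (∀ x, (S x).card = k) → j * ℓ ≤ Fintype.card α →
  (∀ (U : Finset α) (ρ : α → α), U.card ≤ j * ℓ →
    ((univ.filter fun σ : Equiv.Perm α => (∀ x, σ x ∈ S x) ∧ (∀ x ∈ U, σ x = ρ x) ∧ ∀ x ∈ U, σ x ∈ U).card : ℝ) ≤
      (k : ℝ) ^ (Fintype.card α - U.card) * C) →
  ((univ.filter fun σ : Equiv.Perm α => (∀ x, σ x ∈ S x) ∧ ∃ V : Finset α, V.card = j ∧
      (∀ v ∈ V, Function.minimalPeriod σ v ≤ ℓ) ∧ ∀ v ∈ V, ∀ w ∈ V, v ≠ w → ¬ σ.SameCycle v w).card : ℝ) ≤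
    ((Fintype.card α).choose j : ℝ) * (ℓ : ℝ) ^ j * (k : ℝ) ^ (Fintype.card α - j) * C

open Classical in
/-- few permutations have many cycles -/
def S_FC : Prop := ∃ n₀ : ℕ, ∀ (α : Type) [Fintype α] (S : α → Finset α) (k : ℕ), n₀ ≤ Fintype.card α →
  (Fintype.card α : ℝ) ≤ k * Real.log (Fintype.card α) ^ 2 →
  (∀ x, (S x).card = k) → (∀ y, (univ.filter fun x => y ∈ S x).card = k) →
  ((univ.filter fun σ : Equiv.Perm α => (∀ x, σ x ∈ S x) ∧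
    (Fintype.card α : ℝ) / Real.log (Fintype.card α) ^ 9 < ncyc σ).card : ℝ) ≤
    1 / 2 * ((k : ℝ) / Real.exp 1) ^ Fintype.card α

open Classical in
/-- many matchings `f` such that the union with `g` has few cycles -/
def S_CNT : Prop := ∀ ε : ℝ, 0 < ε → ε < 1 → ∃ m₀ : ℕ, ∀ m : ℕ, m₀ ≤ m → ∀ A B : Finset ℕ, A ⊆ Od m → B ⊆ Ev m →
  A.card = B.card → (m : ℝ) ≤ A.card + m / Real.log m ^ 3 → ∀ g : B ≃ A,
  1 / 2 * ((1 - ε) * dd m / Real.exp 1) ^ A.card ≤ ((univ.filter fun f : A ≃ B =>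
    (∀ x : A, ((x : ℕ) + (f x : ℕ)).Prime) ∧ (ncyc (f.trans g) : ℝ) ≤ m / Real.log m ^ 8).card : ℝ)

/-- the gadgets -/
def S_GAD : Prop := ∃ m₀ : ℕ, ∀ m : ℕ, m₀ ≤ m → ∃ P p h : ℕ, Gad m (rr m) P p h

/-- disjoint connections -/
def S_CON : Prop := ∃ m₀ : ℕ, ∀ m : ℕ, m₀ ≤ m → ∀ P : ℕ, 18 * m < 10 * P → 10 * P ≤ 19 * m → Odd P →
  ∀ X : Finset ℕ, X ⊆ Od m → (X.card : ℝ) ≤ m / Real.log m ^ 8 → ∀ y : ℕ → ℕ, (∀ x ∈ X, y x ∈ Ev m) →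
  ∃ I J : ℕ → ℕ, Conn m (rr m) P X y I J

/-- cycles are merged by a permutation with small support -/
def S_MERGE : Prop := ∀ (α : Type) [Fintype α] [DecidableEq α] (σ : Equiv.Perm α), ∃ τ : Equiv.Perm α,
  τ.support.card ≤ ncyc σ ∧ ∀ x y, (σ * τ).SameCycle x y

open Classical in
/-- the number of permutations with small support -/
def S_TAU : Prop := ∀ (α : Type) [Fintype α] (q : ℕ),
  (univ.filter fun τ : Equiv.Perm α => τ.support.card ≤ q).card ≤ (Fintype.card α + 1) ^ (2 * q)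

/-- the list of a cyclic permutation -/
def S_LA : Prop := ∀ (α : Type) [Fintype α] (π : Equiv.Perm α) (u : α), (∀ x y, π.SameCycle x y) →
  ∃ L : List α, L.Nodup ∧ (∀ x, x ∈ L) ∧ L.head? = some u ∧ L.IsChain (fun x y => y = π x) ∧
    ∀ w, L.getLast? = some w → π w = u

/-- concatenation of blocks -/
def S_LB : Prop := ∀ (α β : Type) (L : List α) (blk : α → List β) (Q : β → β → Prop), L.Nodup →
  (∀ x ∈ L, blk x ≠ [] ∧ (blk x).Nodup ∧ (blk x).IsChain Q) →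
  (∀ x ∈ L, ∀ y ∈ L, x ≠ y → List.Disjoint (blk x) (blk y)) →
  L.IsChain (fun x y => ∀ a ∈ (blk x).getLast?, ∀ b ∈ (blk y).head?, Q a b) →
  (L.flatMap blk).Nodup ∧ (L.flatMap blk).IsChain Q

/-- the Hamiltonian path of a pair of matchings -/
def S_ASM : Prop := ∀ m r P p h u v : ℕ, Gad m r P p h → Ends m u v → ∀ g : BB m r P ≃ AA m r, GG m r P p h u v g →
  ∀ f : AA m r ≃ BB m r P, (∀ x : AA m r, ((x : ℕ) + (f x : ℕ)).Prime) → ∀ τ : Equiv.Perm (AA m r),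
  (∀ x y : AA m r, Equiv.Perm.SameCycle ((f.trans g : Equiv.Perm (AA m r)) * τ) x y) → ∀ I J : ℕ → ℕ,
  Conn m r P (τ.support.map (Function.Embedding.subtype _)) (fn (τ.trans f)) I J →
  ∃ l ∈ HP m u v, (∀ x : AA m r, Nx (AA m r) (BB m r P) l x (f (τ x))) ∧
    ∀ y : BB m r P, (y : ℕ) ≠ v → Nx (AA m r) (BB m r P) l y (g y)

open Classical in
/-- the number of admissible matchings `g` -/
def S_GGN : Prop := ∀ ε : ℝ, 0 < ε → ε < 1 → ∃ m₀ : ℕ, ∀ m : ℕ, m₀ ≤ m → ∀ P p h u v : ℕ, Gad m (rr m) P p h →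
  Ends m u v → 1 / 2 * ((1 - ε) * dd m / Real.exp 1) ^ (m - 2 * rr m - 1) ≤
    ((univ.filter fun g : BB m (rr m) P ≃ AA m (rr m) => GG m (rr m) P p h u v g).card : ℝ)

/-- the main inequality -/
def S_MAINC : Prop := ∀ ε : ℝ, 0 < ε → ε < 1 → ∃ m₀ : ℕ, ∀ m : ℕ, m₀ ≤ m → ∀ u v : ℕ, Ends m u v →
  1 / 4 * ((1 - ε) * dd m / Real.exp 1) ^ (2 * m - 3 * rr m - 1) ≤
    ((HP m u v).ncard : ℝ) * ((m : ℝ) + 1) ^ (2 * ⌊(m : ℝ) / Real.log m ^ 8⌋₊)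

/-- the main theorem: the number of Hamiltonian paths in the prime sum graph -/
def S_MAIN : Prop := ∀ ε : ℝ, 0 < ε → ε < 1 → ∃ m₀ : ℕ, ∀ m : ℕ, m₀ ≤ m → ∀ u v : ℕ, Ends m u v →
  ((1 - ε) * (2 * m) / (Real.exp 1 * Real.log (2 * m))) ^ (2 * m) ≤ ((HP m u v).ncard : ℝ)

/-- prime circles from paths -/
def S_CIR : Prop := ∀ m : ℕ, 2 ≤ m → (HP m 1 2).ncard ≤ NC m

/-- the upper bound for prime circles -/
def S_CIRU : Prop := ∀ ε : ℝ, 0 < ε → ∃ m₀ : ℕ, ∀ m : ℕ, m₀ ≤ m →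
  (NC m : ℝ) ≤ ((1 + ε) * (2 * m) / (Real.exp 1 * Real.log (2 * m))) ^ (2 * m)

/-- the lower bound for the prime pyramid -/
def S_PYRL : Prop := ∀ ε : ℝ, 0 < ε → ε < 1 → ∃ n₀ : ℕ, ∀ n : ℕ, n₀ ≤ n →
  ((1 - ε) * n / (Real.exp 1 * Real.log n)) ^ n ≤ (R n : ℝ)

/-- the upper bound for the prime pyramid -/
def S_PYRU : Prop := ∀ ε : ℝ, 0 < ε → ∃ n₀ : ℕ, ∀ n : ℕ, n₀ ≤ n →
  (R n : ℝ) ≤ ((1 + ε) * n / (Real.exp 1 * Real.log n)) ^ n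

end Pool.Agent.N785.PC
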