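import Mathlib
import Pool.Agent.N785.PC.Stmts

/-!
# Prime circles from Hamiltonian paths of the prime sum graph
-/

set_option autoImplicit false

open Finset

namespace Pool.Agent.N785.PC.CIR_

/-- the cyclic arrangement given by a list -/
def arr (m : ℕ) (l : List ℕ) (i : ZMod (2 * m)) : ℕ := l.getD i.val 0

theorem length_eq {n u v : ℕ} {l : List ℕ} (hl : l ∈ HPn n u v) : l.length = n := by
  obtain ⟨hn, hm, -⟩ := hl
  have h1 : l.toFinset = Icc 1 n := by
    ext x
    rw [List.mem_toFinset, hm, mem_Icc]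
  rw [← List.toFinset_card_of_nodup hn, h1, Nat.card_Icc]
  omega

theorem getD_inj {l : List ℕ} (hn : l.Nodup) {i j : ℕ} (hi : i < l.length) (hj : j < l.length)
    (h : l.getD i 0 = l.getD j 0) : i = j := by
  rw [List.getD_eq_getElem _ _ hi, List.getD_eq_getElem _ _ hj] at h
  exact (hn.getElem_inj_iff).1 h

theorem getD_zero {n u v : ℕ} {l : List ℕ} (hl : l ∈ HPn n u v) : l.getD 0 0 = u := by
  obtain ⟨-, -, hh, -⟩ := hl
  cases l with
  | nil => simp at hh
  | cons a t => simpa using hh

theorem getD_last {n u v : ℕ} {l : List ℕ} (hl : l ∈ HPn n u v) (hn : 1 ≤ n) :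
    l.getD (n - 1) 0 = v := by
  have hlen := length_eq hl
  obtain ⟨-, -, -, hh, -⟩ := hl
  have hne : l ≠ [] := by
    intro h
    rw [h] at hh
    simp at hh
  rw [List.getLast?_eq_some_getLast hne, Option.some.injEq, List.getLast_eq_getElem] at hh
  rw [List.getD_eq_getElem _ _ (by omega), ← hh]
  congr 1
  omega

theorem val_succ {m : ℕ} (hm : 2 ≤ m) (i : ZMod (2 * m)) :
    (i + 1).val = if i.val + 1 < 2 * m then i.val + 1 else 0 := by
  have : NeZero (2 * m) := ⟨by omega⟩
  have : Fact (1 < 2 * m) := ⟨by omega⟩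
  have hlt := ZMod.val_lt i
  rw [ZMod.val_add, ZMod.val_one]
  split_ifs with h
  · exact Nat.mod_eq_of_lt h
  · rw [show i.val + 1 = 2 * m by omega, Nat.mod_self]

theorem circle {m : ℕ} (hm : 2 ≤ m) {l : List ℕ} (hl : l ∈ HP m 1 2) :
    IsPrimeCircle m (arr m l) := by
  have : NeZero (2 * m) := ⟨by omega⟩
  have hlen : l.length = 2 * m := length_eq hl
  have h0 : l.getD 0 0 = 1 := getD_zero hl
  have h1 : l.getD (2 * m - 1) 0 = 2 := getD_last hl (by omega)
  obtain ⟨hn, hmem, -, -, hch⟩ := hl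
  refine ⟨⟨?_, ?_, ?_⟩, ?_⟩
  · intro i _
    have hi : i.val < l.length := by rw [hlen]; exact ZMod.val_lt i
    rw [arr, List.getD_eq_getElem _ _ hi]
    exact (hmem _).1 (List.getElem_mem hi)
  · intro i _ j _ hij
    have hi : i.val < l.length := by rw [hlen]; exact ZMod.val_lt i
    have hj : j.val < l.length := by rw [hlen]; exact ZMod.val_lt j
    exact ZMod.val_injective _ (getD_inj hn hi hj hij)
  · intro x hx
    obtain ⟨k, hk, hkx⟩ := List.getElem_of_mem ((hmem x).2 hx)
    refine ⟨(k : ZMod (2 * m)), Set.mem_univ _, ?_⟩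
    rw [arr, ZMod.val_natCast, Nat.mod_eq_of_lt (by omega), List.getD_eq_getElem _ _ hk, hkx]
  · intro i
    have hi : i.val < 2 * m := ZMod.val_lt i
    rw [arr, arr, val_succ hm]
    split_ifs with h
    · rw [List.getD_eq_getElem _ _ (by omega), List.getD_eq_getElem _ _ (by omega)]
      exact List.isChain_iff_getElem.1 hch _ (by omega)
    · rw [show i.val = 2 * m - 1 by omega, h1, h0]
      norm_num

theorem mem_edges {m : ℕ} (hm : 2 ≤ m) {l : List ℕ} {x y : ℕ} (h : s(x, y) ∈ edges (arr m l)) :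
    ∃ j < 2 * m, (x = l.getD j 0 ∧ y = l.getD (if j + 1 < 2 * m then j + 1 else 0) 0) ∨
      (x = l.getD (if j + 1 < 2 * m then j + 1 else 0) 0 ∧ y = l.getD j 0) := by
  have : NeZero (2 * m) := ⟨by omega⟩
  obtain ⟨i, hi⟩ := h
  refine ⟨i.val, ZMod.val_lt i, ?_⟩
  simp only [arr, val_succ hm, Sym2.eq_iff] at hi
  rcases hi with ⟨h1, h2⟩ | ⟨h1, h2⟩
  · exact Or.inl ⟨h1.symm, h2.symm⟩
  · exact Or.inr ⟨h2.symm, h1.symm⟩

theorem edge_mem {m : ℕ} (hm : 2 ≤ m) {l : List ℕ} {k : ℕ} (hk : k + 1 < 2 * m) :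
    s(l.getD k 0, l.getD (k + 1) 0) ∈ edges (arr m l) := by
  have : NeZero (2 * m) := ⟨by omega⟩
  refine ⟨(k : ZMod (2 * m)), ?_⟩
  simp only [arr, val_succ hm]
  rw [ZMod.val_natCast, Nat.mod_eq_of_lt (by omega), if_pos hk]

theorem injOn {m : ℕ} (hm : 2 ≤ m) : Set.InjOn (fun l => edges (arr m l)) (HP m 1 2) := by
  intro l hl l' hl' hE
  have hlen : l.length = 2 * m := length_eq hl
  have hlen' : l'.length = 2 * m := length_eq hl'
  have h0 : l.getD 0 0 = 1 := getD_zero hl
  have h1 : l.getD (2 * m - 1) 0 = 2 := getD_last hl (by omega)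
  have h0' : l'.getD 0 0 = 1 := getD_zero hl'
  have h1' : l'.getD (2 * m - 1) 0 = 2 := getD_last hl' (by omega)
  have hn := hl.1
  have hn' := hl'.1
  have key : ∀ k, k < 2 * m → l.getD k 0 = l'.getD k 0 := by
    intro k
    induction k using Nat.strong_induction_on with
    | _ k ih =>
      intro hk
      rcases Nat.eq_zero_or_pos k with rfl | hpos
      · rw [h0, h0']
      · obtain ⟨k, rfl⟩ : ∃ k', k = k' + 1 := ⟨k - 1, by omega⟩
        have e1 : s(l.getD k 0, l.getD (k + 1) 0) ∈ edges (arr m l') := by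
          have := edge_mem hm (l := l) hk
          simp only at hE
          rwa [hE] at this
        have ek := ih k (by omega) (by omega)
        obtain ⟨j, hj, h | h⟩ := mem_edges hm e1
        · obtain ⟨ha, hb⟩ := h
          rw [ek] at ha
          have hkj := getD_inj hn' (by omega) (by omega) ha
          subst hkj
          rw [if_pos hk] at hb
          exact hb
        · exfalso
          obtain ⟨ha, hb⟩ := h
          rw [ek] at ha
          split_ifs at ha with hc
          · have hkj := getD_inj hn' (by omega) (by omega) ha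
            subst hkj
            rw [← ih j (by omega) (by omega)] at hb
            have := getD_inj hn (by omega) (by omega) hb
            omega
          · have hkj := getD_inj hn' (by omega) (by omega) ha
            subst hkj
            rw [show j = 2 * m - 1 by omega, h1', ← h1] at hb
            have := getD_inj hn (by omega) (by omega) hb
            omega
  refine List.ext_getElem (by omega) ?_
  intro i hi hi'
  have := key i (by omega)
  rwa [List.getD_eq_getElem _ _ hi, List.getD_eq_getElem _ _ hi'] at this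

theorem finite {m : ℕ} (hm : 2 ≤ m) :
    {E : Set (Sym2 ℕ) | ∃ a : ZMod (2 * m) → ℕ, IsPrimeCircle m a ∧ E = edges a}.Finite := by
  have : NeZero (2 * m) := ⟨by omega⟩
  have h1 : {a : ZMod (2 * m) → ℕ | ∀ i, a i ∈ Set.Icc 1 (2 * m)}.Finite :=
    Set.Finite.pi' fun _ => Set.finite_Icc 1 (2 * m)
  refine Set.Finite.subset (h1.image edges) ?_
  rintro E ⟨a, ha, rfl⟩
  exact ⟨a, fun i => ha.bij.mapsTo (Set.mem_univ i), rfl⟩

end Pool.Agent.N785.PC.CIR_

namespace Pool.Agent.N785.PC

theorem t_CIR : S_CIR := by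
  intro m hm
  rw [NC]
  refine Set.ncard_le_ncard_of_injOn (fun l => edges (CIR_.arr m l)) ?_ (CIR_.injOn hm)
    (CIR_.finite hm)
  intro l hl
  exact ⟨CIR_.arr m l, CIR_.circle hm hl, rfl⟩

end Pool.Agent.N785.PC
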