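import Pool.Agent.N785.PC.Stmts

/-!
# Project PC: the statements with explicit error terms
-/

set_option autoImplicit false

namespace Pool.Agent.N785.PC

open Finset

open Classical in
/-- the degrees in the prime sum graph, with a rate -/
def S_DEG2 : Prop := ∃ C : ℝ, 0 < C ∧ ∃ m₀ : ℕ, ∀ m : ℕ, m₀ ≤ m →
  (∀ x ∈ Od m, |(((Ev m).filter fun y => (x + y).Prime).card : ℝ) - dd m| ≤ C / Real.log m * dd m) ∧
  (∀ y ∈ Ev m, |(((Od m).filter fun x => (x + y).Prime).card : ℝ) - dd m| ≤ C / Real.log m * dd m)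

open Classical in
/-- regular spanning subgraphs of the prime sum graph without a few vertices, with a rate -/
def S_KR2 : Prop := ∃ C : ℝ, 0 < C ∧ ∃ m₀ : ℕ, ∀ m : ℕ, m₀ ≤ m → ∀ A B : Finset ℕ, A ⊆ Od m → B ⊆ Ev m →
  A.card = B.card → (m : ℝ) ≤ A.card + m / Real.log m ^ 3 →
  ∃ k : ℕ, (1 - C / Real.log m) * dd m ≤ k ∧ (k : ℝ) ≤ dd m ∧ ∃ K : A → Finset B,
    (∀ x : A, (K x).card = k ∧ ∀ y ∈ K x, ((x : ℕ) + (y : ℕ)).Prime) ∧
    ∀ y : B, (univ.filter fun x : A => y ∈ K x).card = k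

open Classical in
/-- many matchings `f` such that the union with `g` has few cycles, with a rate -/
def S_CNT2 : Prop := ∃ C : ℝ, 0 < C ∧ ∃ m₀ : ℕ, ∀ m : ℕ, m₀ ≤ m → ∀ A B : Finset ℕ, A ⊆ Od m → B ⊆ Ev m →
  A.card = B.card → (m : ℝ) ≤ A.card + m / Real.log m ^ 3 → ∀ g : B ≃ A,
  1 / 2 * ((1 - C / Real.log m) * dd m / Real.exp 1) ^ A.card ≤ ((univ.filter fun f : A ≃ B =>
    (∀ x : A, ((x : ℕ) + (f x : ℕ)).Prime) ∧ (ncyc (f.trans g) : ℝ) ≤ m / Real.log m ^ 8).card : ℝ)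

open Classical in
/-- the number of admissible matchings `g`, with a rate -/
def S_GGN2 : Prop := ∃ C : ℝ, 0 < C ∧ ∃ m₀ : ℕ, ∀ m : ℕ, m₀ ≤ m → ∀ P p h u v : ℕ, Gad m (rr m) P p h →
  Ends m u v → 1 / 2 * ((1 - C / Real.log m) * dd m / Real.exp 1) ^ (m - 2 * rr m - 1) ≤
    ((univ.filter fun g : BB m (rr m) P ≃ AA m (rr m) => GG m (rr m) P p h u v g).card : ℝ)

/-- the main inequality, with a rate -/
def S_MAINC2 : Prop := ∃ C : ℝ, 0 < C ∧ ∃ m₀ : ℕ, ∀ m : ℕ, m₀ ≤ m → ∀ u v : ℕ, Ends m u v →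
  1 / 4 * ((1 - C / Real.log m) * dd m / Real.exp 1) ^ (2 * m - 3 * rr m - 1) ≤
    ((HP m u v).ncard : ℝ) * ((m : ℝ) + 1) ^ (2 * ⌊(m : ℝ) / Real.log m ^ 8⌋₊)

/-- the main term `n (log n - log log n - 1)` -/
noncomputable def mt (n : ℕ) : ℝ := n * (Real.log n - Real.log (Real.log n) - 1)

/-- the main theorem, with a rate -/
def S_MAIN2 : Prop := ∃ C : ℝ, 0 < C ∧ ∃ m₀ : ℕ, ∀ m : ℕ, m₀ ≤ m → ∀ u v : ℕ, Ends m u v →
  Real.exp (mt (2 * m) - C * m / Real.log m) ≤ ((HP m u v).ncard : ℝ)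

/-- the upper bound for prime circles, with a rate -/
def S_CIRU2 : Prop := ∃ C : ℝ, 0 < C ∧ ∃ m₀ : ℕ, ∀ m : ℕ, m₀ ≤ m →
  (NC m : ℝ) ≤ Real.exp (mt (2 * m) + C * m / Real.log m)

/-- the lower bound for the prime pyramid, with a rate -/
def S_PYRL2 : Prop := ∃ C : ℝ, 0 < C ∧ ∃ n₀ : ℕ, ∀ n : ℕ, n₀ ≤ n →
  Real.exp (mt n - C * n / Real.log n) ≤ (R n : ℝ)

/-- the upper bound for the prime pyramid, with a rate -/
def S_PYRU2 : Prop := ∃ C : ℝ, 0 < C ∧ ∃ n₀ : ℕ, ∀ n : ℕ, n₀ ≤ n →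
  (R n : ℝ) ≤ Real.exp (mt n + C * n / Real.log n)

end Pool.Agent.N785.PC
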