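import Pool.Agent.N785.PC.CIRU
import Pool.Agent.N785.PC.Stmts3

/-!
# PC/CIRU2 (helper456): an upper bound for the number of prime circles, with a rate
-/

set_option autoImplicit false

namespace Pool.Agent.N785.PC

open Finset Filter Topology
open Pool.Agent.Y372.PC

namespace CIRU2_

open Classical in
/-- the degree in terms of the positions -/
theorem card_S_le (m : ℕ) (D : ℝ)
    (h1 : ∀ x ∈ Od m, (((Ev m).filter fun y => (x + y).Prime).card : ℝ) ≤ D)
    (h2 : ∀ y ∈ Ev m, (((Od m).filter fun x => (x + y).Prime).card : ℝ) ≤ D) (x : Fin (2 * m)) :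
    ((CIRU_.S (2 * m) x).card : ℝ) ≤ D + 1 := by
  have hx2 := x.2
  have hinj : Function.Injective fun y : Fin (2 * m) => ((y : ℕ) + 1) := by
    intro y z h
    refine Fin.ext ?_
    simp only at h
    omega
  rcases Nat.mod_two_eq_zero_or_one ((x : ℕ) + 1) with hx | hx
  · have hm : (x : ℕ) + 1 ∈ Ev m := by
      rw [Ev, mem_filter, mem_Icc]
      exact ⟨⟨by omega, by omega⟩, hx⟩
    have hsub : (CIRU_.S (2 * m) x).image (fun y : Fin (2 * m) => ((y : ℕ) + 1)) ⊆
        insert 1 ((Od m).filter fun z => (z + ((x : ℕ) + 1)).Prime) := by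
      intro z hz
      rw [mem_image] at hz
      obtain ⟨y, hy, rfl⟩ := hz
      rw [CIRU_.S, mem_filter] at hy
      have hy2 := y.2
      rcases Nat.mod_two_eq_zero_or_one ((y : ℕ) + 1) with hyy | hyy
      · exfalso
        have h3 := hy.2.eq_two_or_odd
        omega
      · rw [mem_insert, mem_filter]
        right
        refine ⟨?_, ?_⟩
        · rw [Od, mem_filter, mem_Icc]
          exact ⟨⟨by omega, by omega⟩, hyy⟩
        · rw [add_comm]
          exact hy.2
    have h3 := Finset.card_le_card hsub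
    rw [Finset.card_image_of_injective _ hinj] at h3
    have h4 := h3.trans (Finset.card_insert_le _ _)
    have h5 : ((CIRU_.S (2 * m) x).card : ℝ) ≤
        ((((Od m).filter fun z => (z + ((x : ℕ) + 1)).Prime).card + 1 : ℕ) : ℝ) := by
      exact_mod_cast h4
    push_cast at h5
    linarith [h2 _ hm]
  · have hm : (x : ℕ) + 1 ∈ Od m := by
      rw [Od, mem_filter, mem_Icc]
      exact ⟨⟨by omega, by omega⟩, hx⟩
    have hsub : (CIRU_.S (2 * m) x).image (fun y : Fin (2 * m) => ((y : ℕ) + 1)) ⊆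
        insert 1 ((Ev m).filter fun z => (((x : ℕ) + 1) + z).Prime) := by
      intro z hz
      rw [mem_image] at hz
      obtain ⟨y, hy, rfl⟩ := hz
      rw [CIRU_.S, mem_filter] at hy
      have hy2 := y.2
      rcases Nat.mod_two_eq_zero_or_one ((y : ℕ) + 1) with hyy | hyy
      · rw [mem_insert, mem_filter]
        right
        refine ⟨?_, hy.2⟩
        rw [Ev, mem_filter, mem_Icc]
        exact ⟨⟨by omega, by omega⟩, hyy⟩
      · rw [mem_insert]
        left
        have h3 := hy.2.eq_two_or_odd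
        omega
    have h3 := Finset.card_le_card hsub
    rw [Finset.card_image_of_injective _ hinj] at h3
    have h4 := h3.trans (Finset.card_insert_le _ _)
    have h5 : ((CIRU_.S (2 * m) x).card : ℝ) ≤
        ((((Ev m).filter fun z => (((x : ℕ) + 1) + z).Prime).card + 1 : ℕ) : ℝ) := by
      exact_mod_cast h4
    push_cast at h5
    linarith [h1 _ hm]

/-- `(1 + log D) / D` is at most `2 / sqrt D` -/
theorem err_le (D : ℝ) (hD : 1 ≤ D) : (1 + Real.log D) / D ≤ 2 / Real.sqrt D := by
  have hs : 0 < Real.sqrt D := Real.sqrt_pos.2 (by linarith)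
  have hD' : Real.sqrt D * Real.sqrt D = D := Real.mul_self_sqrt (by linarith)
  have h1 : Real.log D = 2 * Real.log (Real.sqrt D) := by
    rw [Real.log_sqrt (by linarith)]
    ring
  have h2 := Real.log_le_sub_one_of_pos hs
  rw [div_le_div_iff₀ (by linarith) hs]
  nlinarith

/-- the degree is large -/
theorem dd_large : ∀ᶠ m : ℕ in atTop, 4 * Real.log m ^ 2 + Real.log m + 1 ≤ dd m ∧ 1 ≤ Real.log m := by
  have h1 : ∀ᶠ x : ℝ in atTop, Real.log x ^ 3 ≤ (1 / 8) * x := by
    have h := (isLittleO_log_rpow_atTop (show (0 : ℝ) < 1 / 3 by norm_num)).bound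
      (show (0 : ℝ) < 1 / 2 by norm_num)
    filter_upwards [h, eventually_ge_atTop 1] with x hx hx1
    have hl : 0 ≤ Real.log x := Real.log_nonneg hx1
    rw [Real.norm_of_nonneg hl, Real.norm_of_nonneg (Real.rpow_nonneg (by linarith) _)] at hx
    have h2 := pow_le_pow_left₀ hl hx 3
    have h3 : (x ^ ((1 : ℝ) / 3)) ^ 3 = x := by
      rw [← Real.rpow_natCast, ← Real.rpow_mul (by linarith)]
      norm_num
    rw [mul_pow, h3] at h2
    norm_num at h2
    linarith
  have h2 : ∀ᶠ x : ℝ in atTop, 1 ≤ Real.log x := Real.tendsto_log_atTop.eventually_ge_atTop 1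
  have h3 : ∀ᶠ x : ℝ in atTop, 2 ≤ x := eventually_ge_atTop 2
  have h4 := (tendsto_natCast_atTop_atTop (R := ℝ)).eventually (h1.and (h2.and h3))
  filter_upwards [h4] with m hm
  obtain ⟨a1, a2, a3⟩ := hm
  refine ⟨?_, a2⟩
  have hl2 : Real.log (2 * (m : ℝ)) ≤ 2 * Real.log m := by
    have : Real.log (2 * (m : ℝ)) ≤ Real.log ((m : ℝ) * m) :=
      Real.log_le_log (by linarith) (by nlinarith)
    have e : Real.log ((m : ℝ) * m) = 2 * Real.log m := by
      rw [Real.log_mul (by linarith) (by linarith)]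
      ring
    linarith
  have hl0 : 0 < Real.log (2 * (m : ℝ)) := Real.log_pos (by linarith)
  have h5 : (m : ℝ) / Real.log m ≤ dd m := by
    unfold dd
    rw [div_le_div_iff₀ (by linarith) hl0]
    have : (m : ℝ) * Real.log (2 * m) ≤ m * (2 * Real.log m) :=
      mul_le_mul_of_nonneg_left hl2 (by linarith)
    linarith
  refine le_trans ?_ h5
  rw [le_div_iff₀ (by linarith)]
  nlinarith [sq_nonneg (Real.log (m : ℝ)), mul_nonneg (sub_nonneg.2 a2) (sub_nonneg.2 a2),
    mul_nonneg (mul_nonneg (sub_nonneg.2 a2) (sub_nonneg.2 a2)) (sub_nonneg.2 a2)]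

end CIRU2_

open CIRU2_ in
theorem t_CIRU2 (h : S_DEG2) : S_CIRU2 := by
  classical
  obtain ⟨C, hC, m₀, hm₀⟩ := h
  obtain ⟨m₁, hm₁⟩ := eventually_atTop.1 dd_large
  refine ⟨2 * (C + 2), by linarith, max (max m₀ m₁) 2, fun m hm => ?_⟩
  have hmm0 : m₀ ≤ m := ((le_max_left _ _).trans (le_max_left _ _)).trans hm
  have hmm1 : m₁ ≤ m := ((le_max_right _ _).trans (le_max_left _ _)).trans hm
  have hmm2 : 2 ≤ m := (le_max_right _ _).trans hm
  obtain ⟨q1, q2⟩ := hm₁ m hmm1
  obtain ⟨d1, d2⟩ := hm₀ m hmm0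
  have hm2 : (2 : ℝ) ≤ m := by exact_mod_cast hmm2
  set L : ℝ := Real.log m with hL
  have hL0 : 0 < L := by linarith
  have hdd : 0 < dd m := by nlinarith [sq_nonneg L]
  have hl0 : 0 < Real.log (2 * (m : ℝ)) := Real.log_pos (by linarith)
  set B : ℝ := (1 + (C + 1) / L) * dd m with hB
  have hB1 : dd m ≤ B := by
    rw [hB]
    have : 0 ≤ (C + 1) / L * dd m := by positivity
    linarith
  have hLd : 1 ≤ 1 / L * dd m := by
    rw [one_div, inv_mul_eq_div, le_div_iff₀ hL0]
    nlinarith [sq_nonneg L]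
  set D : ℕ := ⌊B⌋₊ with hD
  have hcard : ∀ x : Fin (2 * m), (CIRU_.S (2 * m) x).card ≤ D := by
    intro x
    rw [hD]
    refine Nat.le_floor ?_
    have := card_S_le m (dd m + C / L * dd m)
      (fun x hx => by have := (abs_le.1 (d1 x hx)).2; linarith)
      (fun x hx => by have := (abs_le.1 (d2 x hx)).2; linarith) x
    refine this.trans ?_
    rw [hB]
    have e : (1 + (C + 1) / L) * dd m = dd m + C / L * dd m + 1 / L * dd m := by ring
    rw [e]
    linarith
  have hB0 : 0 < B := by linarith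
  have hDle : (D : ℝ) ≤ B := Nat.floor_le hB0.le
  have hDge : 4 * L ^ 2 ≤ (D : ℝ) := by
    have := Nat.lt_floor_add_one B
    rw [← hD] at this
    linarith
  have hD1 : (1 : ℝ) ≤ D := by nlinarith
  have hDn1 : 1 ≤ D := by exact_mod_cast hD1
  have hsum : ∑ x : Fin (2 * m), Real.log ((CIRU_.S (2 * m) x).card.factorial : ℝ) /
      (CIRU_.S (2 * m) x).card ≤ (2 * m : ℕ) * gf D := by
    calc ∑ x : Fin (2 * m), Real.log ((CIRU_.S (2 * m) x).card.factorial : ℝ) /
          (CIRU_.S (2 * m) x).card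
        ≤ ∑ _x : Fin (2 * m), gf D := Finset.sum_le_sum fun x _ => gf_mono (hcard x)
      _ = (2 * m : ℕ) * gf D := by
        rw [Finset.sum_const, Finset.card_univ, Fintype.card_fin, nsmul_eq_mul]
  have herr : (1 + Real.log D) / D ≤ 1 / L := by
    refine (err_le D hD1).trans ?_
    have hs : 2 * L ≤ Real.sqrt D := by
      refine Real.le_sqrt_of_sq_le ?_
      nlinarith
    rw [div_le_div_iff₀ (by linarith) hL0]
    linarith
  have hlogD : Real.log D ≤ Real.log (2 * m) - Real.log (Real.log (2 * m)) + (C + 1) / L := by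
    have k1 : Real.log D ≤ Real.log B := Real.log_le_log (by linarith) hDle
    have k2 : Real.log B = Real.log (1 + (C + 1) / L) + Real.log (dd m) := by
      rw [hB, Real.log_mul (by positivity) hdd.ne']
    have k3 : Real.log (1 + (C + 1) / L) ≤ (C + 1) / L := by
      have := Real.log_le_sub_one_of_pos (show 0 < 1 + (C + 1) / L by positivity)
      linarith
    have k4 : Real.log (dd m) = Real.log (2 * m) - Real.log (Real.log (2 * m)) := by
      unfold dd
      rw [Real.log_div (by positivity) hl0.ne']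
    linarith
  have hgf : gf D ≤ Real.log (2 * m) - Real.log (Real.log (2 * m)) - 1 + (C + 2) / L := by
    have k1 := gf_up D hDn1
    have e : (C + 2) / L = (C + 1) / L + 1 / L := by ring
    rw [e]
    linarith
  calc (NC m : ℝ) ≤ ((adm (CIRU_.S (2 * m))).card : ℝ) := by
        exact_mod_cast CIRU_.N_le m (by omega)
    _ ≤ Real.exp (∑ x : Fin (2 * m), Real.log ((CIRU_.S (2 * m) x).card.factorial : ℝ) /
          (CIRU_.S (2 * m) x).card) := bregman _
    _ ≤ Real.exp (mt (2 * m) + 2 * (C + 2) * m / L) := by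
        refine Real.exp_le_exp.2 (hsum.trans ?_)
        refine (mul_le_mul_of_nonneg_left hgf (Nat.cast_nonneg _)).trans ?_
        unfold mt
        push_cast
        refine le_of_eq ?_
        ring

end Pool.Agent.N785.PC
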