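import Pool.Agent.N785.PC.Stmts3
import Pool.Agent.N785.PC.CNT

/-!
# PC/CNT2 (helper570, after helper335): many matchings such that the union with a given one has few
cycles, with a rate
-/

set_option autoImplicit false

namespace Pool.Agent.N785.PC

open Finset

open CNT_ in
theorem t_CNT2 (h1 : S_KR2) (h2 : S_VDW) (h3 : S_FC) : S_CNT2 := by
  classical
  obtain ⟨C, hC, m₁, hm₁⟩ := h1
  obtain ⟨n₀, hn₀⟩ := h3
  have hlog : ∀ᶠ m : ℕ in Filter.atTop, max 512 (2 * C) ≤ Real.log (m : ℝ) :=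
    (Real.tendsto_log_atTop.comp tendsto_natCast_atTop_atTop).eventually_ge_atTop _
  obtain ⟨m₂, hm₂⟩ := Filter.eventually_atTop.1 hlog
  refine ⟨C, hC, max (max m₁ m₂) (max (2 * n₀) 1), fun m hm A B hA hB hAB hmA g => ?_⟩
  have hmm1 : m₁ ≤ m := (le_max_left _ _).trans ((le_max_left _ _).trans hm)
  have hmm2 : m₂ ≤ m := (le_max_right _ _).trans ((le_max_left _ _).trans hm)
  have hmn : 2 * n₀ ≤ m := (le_max_left _ _).trans ((le_max_right _ _).trans hm)
  have hm1 : 1 ≤ m := (le_max_right _ _).trans ((le_max_right _ _).trans hm)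
  obtain ⟨L, hL⟩ : ∃ L : ℝ, L = Real.log m := ⟨_, rfl⟩
  have hL1 : 512 ≤ L := by rw [hL]; exact (le_max_left _ _).trans (hm₂ m hmm2)
  have hL3 : 2 * C ≤ L := by rw [hL]; exact (le_max_right _ _).trans (hm₂ m hmm2)
  have hL0 : 0 < L := by linarith
  obtain ⟨ε, hε⟩ : ∃ ε : ℝ, ε = C / Real.log m := ⟨_, rfl⟩
  have hε0 : 0 < ε := by rw [hε, ← hL]; positivity
  have hε2 : ε ≤ 1 / 2 := by
    rw [hε, ← hL, div_le_iff₀ hL0]
    linarith
  have hε1 : ε < 1 := by linarith
  have hL2 : 4 / (1 - ε) ≤ L := by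
    rw [div_le_iff₀ (by linarith)]
    nlinarith
  have hmR : (1 : ℝ) ≤ m := by exact_mod_cast hm1
  have hm0 : (0 : ℝ) < m := by linarith
  obtain ⟨k, hk1, hk2, K, hK1, hK2⟩ := hm₁ m hmm1 A B hA hB hAB hmA
  rw [← hε] at hk1 ⊢
  -- the size of `A`
  obtain ⟨n, hn⟩ : ∃ n : ℕ, n = A.card := ⟨_, rfl⟩
  have hnm : n ≤ m := by rw [hn]; exact (card_le_card hA).trans (card_Od m)
  have hnmR : (n : ℝ) ≤ m := by exact_mod_cast hnm
  have hn2 : (m : ℝ) ≤ 2 * n := by
    rw [← hn, ← hL] at hmA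
    have h4 : (m : ℝ) / L ^ 3 ≤ m / 2 := by
      apply div_le_div_of_nonneg_left hm0.le (by norm_num)
      have h5 : L ^ 1 ≤ L ^ 3 := pow_le_pow_right₀ (by linarith) (by norm_num)
      rw [pow_one] at h5
      linarith
    linarith
  have hnn : n₀ ≤ n := by
    have : m ≤ 2 * n := by exact_mod_cast hn2
    omega
  have hnR : (0 : ℝ) < n := by linarith
  have hlogn : L / 2 ≤ Real.log n := by
    have h4 : Real.log (m / 2) ≤ Real.log n :=
      Real.log_le_log (by positivity) (by linarith)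
    rw [Real.log_div hm0.ne' (by norm_num), ← hL] at h4
    have h5 : Real.log 2 ≤ 1 := by
      have := Real.log_two_lt_d9
      linarith
    linarith
  have hlogn0 : 0 < Real.log n := by linarith
  have hlog2m : Real.log (2 * m) ≤ 2 * L := by
    rw [Real.log_mul (by norm_num) hm0.ne', ← hL]
    have := Real.log_two_lt_d9
    linarith
  have hlog2m0 : 0 < Real.log (2 * m) := Real.log_pos (by linarith)
  have hkL : (1 - ε) * (m / L) ≤ k := by
    refine le_trans ?_ hk1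
    refine mul_le_mul_of_nonneg_left ?_ (by linarith)
    unfold dd
    rw [div_le_div_iff₀ hL0 hlog2m0]
    nlinarith
  have hnk : (n : ℝ) ≤ k * Real.log n ^ 2 := by
    have h4 : (L / 2) ^ 2 ≤ Real.log n ^ 2 := pow_le_pow_left₀ (by positivity) hlogn 2
    have h5 : (1 - ε) * (m / L) * (L / 2) ^ 2 ≤ k * Real.log n ^ 2 :=
      mul_le_mul hkL h4 (by positivity) (by positivity)
    have h6 : (1 - ε) * (m / L) * (L / 2) ^ 2 = (m : ℝ) * ((1 - ε) * L) / 4 := by
      field_simp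
      ring
    have h7 : 4 ≤ (1 - ε) * L := by
      rw [div_le_iff₀ (by linarith)] at hL2
      linarith
    have h8 : (m : ℝ) * 4 ≤ m * ((1 - ε) * L) := mul_le_mul_of_nonneg_left h7 hm0.le
    linarith
  have hcyc : (n : ℝ) / Real.log n ^ 9 ≤ m / L ^ 8 := by
    have h4 : L ^ 8 ≤ Real.log n ^ 9 := by
      have h5 : (L / 2) ^ 9 ≤ Real.log n ^ 9 := pow_le_pow_left₀ (by positivity) hlogn 9
      have h6 : (L / 2) ^ 9 = L ^ 8 * (L / 512) := by ring
      have h7 : L ^ 8 * 1 ≤ L ^ 8 * (L / 512) :=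
        mul_le_mul_of_nonneg_left (by linarith) (by positivity)
      linarith
    exact div_le_div₀ hm0.le hnmR (by positivity) h4
  -- van der Waerden
  have hcA : Fintype.card A = n := by rw [Fintype.card_coe, hn]
  have hcAB : Fintype.card A = Fintype.card B := by rw [Fintype.card_coe, Fintype.card_coe, hAB]
  have hV : ((k : ℝ) / Real.exp 1) ^ n ≤ ({f : A ≃ B | ∀ x, f x ∈ K x}.ncard : ℝ) := by
    have h4 := h2 A B K k hcAB (fun x => (hK1 x).1) (fun y => by convert hK2 y)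
    rw [fc, hcA] at h4
    exact h4
  -- the permutations
  obtain ⟨S, hSdef⟩ : ∃ S : A → Finset A, S = fun x => (K x).image g := ⟨_, rfl⟩
  have hS1 : ∀ x, (S x).card = k := by
    intro x
    rw [hSdef]
    simp only
    rw [card_image_of_injective _ g.injective, (hK1 x).1]
  have hS2 : ∀ y, (univ.filter fun x => y ∈ S x).card = k := by
    intro y
    rw [← hK2 (g.symm y)]
    rw [fc, fc]
    congr 1
    ext x
    simp only [Set.mem_ofPred_eq]
    rw [hSdef]
    simp only [mem_image]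
    constructor
    · rintro ⟨z, hz, rfl⟩
      rwa [Equiv.symm_apply_apply]
    · intro h
      exact ⟨_, h, by rw [Equiv.apply_symm_apply]⟩
  have hF : ({σ : Equiv.Perm A | (∀ x, σ x ∈ S x) ∧
      (n : ℝ) / Real.log n ^ 9 < ncyc σ}.ncard : ℝ) ≤ 1 / 2 * ((k : ℝ) / Real.exp 1) ^ n := by
    have h4 := hn₀ A S k (by rw [hcA]; exact hnn) (by rw [hcA]; exact hnk) hS1
      (fun y => by convert hS2 y)
    rw [fc, hcA] at h4
    exact h4
  rw [fc, ← hn]
  obtain ⟨good, hgood⟩ : ∃ good : Set (A ≃ B), good = {f : A ≃ B |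
    (∀ x : A, ((x : ℕ) + (f x : ℕ)).Prime) ∧
      (ncyc (f.trans g) : ℝ) ≤ m / Real.log m ^ 8} := ⟨_, rfl⟩
  rw [← hgood]
  have hsub : {f : A ≃ B | ∀ x, f x ∈ K x} ⊆ good ∪
      {f : A ≃ B | (∀ x, f x ∈ K x) ∧ (m : ℝ) / L ^ 8 < ncyc (f.trans g)} := by
    intro f hf
    by_cases h : (m : ℝ) / L ^ 8 < ncyc (f.trans g)
    · exact Or.inr ⟨hf, h⟩
    · left
      rw [hgood]
      refine ⟨fun x => (hK1 x).2 _ (hf x), ?_⟩
      rw [← hL]
      exact not_lt.1 h
  have hcard : {f : A ≃ B | ∀ x, f x ∈ K x}.ncard ≤ good.ncard +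
      {σ : Equiv.Perm A | (∀ x, σ x ∈ S x) ∧ (n : ℝ) / Real.log n ^ 9 < ncyc σ}.ncard := by
    refine (Set.ncard_le_ncard hsub (Set.toFinite _)).trans ((Set.ncard_union_le _ _).trans ?_)
    refine Nat.add_le_add_left ?_ _
    refine Set.ncard_le_ncard_of_injOn (fun f => f.trans g) ?_ ?_ (Set.toFinite _)
    · rintro f ⟨hf1, hf2⟩
      refine ⟨fun x => ?_, lt_of_le_of_lt hcyc hf2⟩
      rw [hSdef]
      exact mem_image.2 ⟨f x, hf1 x, rfl⟩
    · intro f _ f' _ hff
      ext x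
      have h4 := congrArg (fun e : A ≃ A => e x) hff
      simp only [Equiv.trans_apply] at h4
      rw [g.injective h4]
  have hcardR : ({f : A ≃ B | ∀ x, f x ∈ K x}.ncard : ℝ) ≤ good.ncard +
      ({σ : Equiv.Perm A | (∀ x, σ x ∈ S x) ∧
        (n : ℝ) / Real.log n ^ 9 < ncyc σ}.ncard : ℝ) := by exact_mod_cast hcard
  have hfin : ((1 - ε) * dd m / Real.exp 1) ^ n ≤ ((k : ℝ) / Real.exp 1) ^ n := by
    refine pow_le_pow_left₀ ?_ ?_ n
    · unfold dd
      have : 0 < 1 - ε := by linarith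
      positivity
    · exact div_le_div_of_nonneg_right hk1 (Real.exp_pos 1).le
  linarith

end Pool.Agent.N785.PC
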