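import Pool.Agent.N785.PC.Stmts

/-!
# Project PC, task CON: disjoint connections (helper284)
-/

set_option autoImplicit false

namespace Pool.Agent.N785.PC

open Finset

namespace CON_

open Filter Topology in
theorem large {c : ℝ} (hc : 0 < c) : ∃ m₁ : ℕ, ∀ m : ℕ, m₁ ≤ m → 1 ≤ Real.log m ∧
    16 < c * Real.log m ∧ 4 * Real.log m ^ 7 < c * m ∧ 2 * Real.log m ^ 4 ≤ m := by
  have t1 : Tendsto (fun m : ℕ => Real.log m) atTop atTop :=
    Real.tendsto_log_atTop.comp tendsto_natCast_atTop_atTop
  have t2 : ∀ n : ℕ, ∀ δ : ℝ, 0 < δ → ∀ᶠ m : ℕ in atTop, Real.log m ^ n ≤ δ * m := by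
    intro n δ hδ
    have h1 := (Real.isLittleO_pow_log_id_atTop (n := n)).bound hδ
    filter_upwards [tendsto_natCast_atTop_atTop.eventually h1] with m hm
    refine (le_abs_self _).trans ?_
    simpa using hm
  have h := (t1.eventually_ge_atTop 1).and ((t1.eventually_gt_atTop (16 / c)).and
    ((t2 7 (c / 8) (by positivity)).and ((t2 4 (1 / 2) (by norm_num)).and
      (eventually_ge_atTop 1))))
  obtain ⟨m₁, hm₁⟩ := eventually_atTop.1 h
  refine ⟨m₁, fun m hm => ?_⟩
  obtain ⟨a1, a2, a3, a4, a5⟩ := hm₁ m hm
  have a6 : (1 : ℝ) ≤ m := by exact_mod_cast a5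
  refine ⟨a1, ?_, ?_, ?_⟩
  · rw [div_lt_iff₀ hc] at a2
    linarith
  · have : 0 < c * m := by positivity
    linarith
  · linarith

theorem pick {r : ℕ} (T : Finset (ℕ × ℕ)) (hT : T ⊆ range r ×ˢ range r) (U : Finset ℕ)
    (h : (2 * U.card + 1) * r < T.card) : ∃ w ∈ T, w.1 ∉ U ∧ w.2 ∉ U ∧ w.1 ≠ w.2 := by
  by_contra hcon
  push Not at hcon
  have h1 : T ⊆ (U ×ˢ range r ∪ range r ×ˢ U) ∪ (range r).image (fun i => (i, i)) := by
    intro w hw
    have h2 := mem_product.1 (hT hw)
    rw [mem_union, mem_union, mem_product, mem_product, mem_image]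
    by_cases a : w.1 ∈ U
    · exact Or.inl (Or.inl ⟨a, h2.2⟩)
    by_cases b : w.2 ∈ U
    · exact Or.inl (Or.inr ⟨h2.1, b⟩)
    · have h3 := hcon w hw a b
      exact Or.inr ⟨w.1, h2.1, Prod.ext rfl h3⟩
  have h2 : T.card ≤ U.card * r + r * U.card + r := by
    calc T.card ≤ _ := card_le_card h1
      _ ≤ (U ×ˢ range r ∪ range r ×ˢ U).card + ((range r).image (fun i => (i, i))).card :=
        card_union_le _ _
      _ ≤ ((U ×ˢ range r).card + (range r ×ˢ U).card) + (range r).card :=
        add_le_add (card_union_le _ _) card_image_le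
      _ = U.card * r + r * U.card + r := by
        rw [card_product, card_product, card_range]
  nlinarith

end CON_

theorem t_CON (h : S_T3) : S_CON := by
  classical
  obtain ⟨c, hc, m₀, hT⟩ := h
  obtain ⟨m₁, hm₁⟩ := CON_.large hc
  refine ⟨max (max m₀ m₁) 1, fun m hm P hP1 hP2 hP X => ?_⟩
  have hm0 : m₀ ≤ m := ((le_max_left _ _).trans (le_max_left _ _)).trans hm
  obtain ⟨a1, a2, a3, a4⟩ := hm₁ m (((le_max_right _ _).trans (le_max_left _ _)).trans hm)
  have hm1 : 1 ≤ m := (le_max_right _ _).trans hm
  have hmr : (0 : ℝ) < m := by exact_mod_cast hm1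
  set L := Real.log m with hL
  have hL0 : 0 < L := by linarith
  -- the size of the reservoir
  have r1 : (m : ℝ) / L ^ 4 < rr m + 1 := by
    unfold rr
    exact Nat.lt_floor_add_one _
  have r2 : 2 ≤ (m : ℝ) / L ^ 4 := by
    rw [le_div_iff₀ (by positivity)]
    exact a4
  have r3 : (m : ℝ) / L ^ 4 / 2 < rr m := by linarith
  have r4 : (0 : ℝ) < rr m := by linarith
  induction X using Finset.induction_on with
  | empty =>
    intro _ _ y _
    exact ⟨fun _ => 0, fun _ => 0, ⟨fun x hx => absurd hx (notMem_empty x),
      fun x hx => absurd hx (notMem_empty x), fun x hx => absurd hx (notMem_empty x)⟩⟩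
  | insert x X hxX ih =>
    intro hX hcard y hy
    have hXs : X ⊆ insert x X := subset_insert x X
    have hle : (X.card : ℝ) ≤ (insert x X).card := by exact_mod_cast card_le_card hXs
    obtain ⟨I, J, hIJ⟩ := ih (hXs.trans hX) (hle.trans hcard) y (fun z hz => hy z (hXs hz))
    have hTx := hT m hm0 P hP1 hP2 hP x (hX (mem_insert_self x X)) (y x)
      (hy x (mem_insert_self x X))
    have hU : (X.image I ∪ X.image J).card ≤ 2 * X.card := by
      calc _ ≤ (X.image I).card + (X.image J).card := card_union_le _ _
        _ ≤ X.card + X.card := add_le_add card_image_le card_image_le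
        _ = 2 * X.card := by ring
    obtain ⟨w, hw, w1, w2, w3⟩ := CON_.pick _ (filter_subset _ _) (X.image I ∪ X.image J) (by
      have g1 : ((2 * (X.image I ∪ X.image J).card + 1) * rr m : ℝ) < c * rr m ^ 2 / L ^ 3 := by
        have g2 : (((X.image I ∪ X.image J).card : ℕ) : ℝ) ≤ 2 * X.card := by exact_mod_cast hU
        have g3 : (X.card : ℝ) ≤ m / L ^ 8 := hle.trans hcard
        have g4 : 4 * (m / L ^ 8) < c * (m / L ^ 7) / 4 := by
          have e1 : 4 * (m / L ^ 8) = 4 / L * (m / L ^ 7) := by
            field_simp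
          have e2 : 0 < m / L ^ 7 := by positivity
          have e3 : 4 / L < c / 4 := by
            rw [div_lt_div_iff₀ hL0 (by norm_num)]
            linarith
          rw [e1]
          calc 4 / L * (m / L ^ 7) < c / 4 * (m / L ^ 7) := mul_lt_mul_of_pos_right e3 e2
            _ = c * (m / L ^ 7) / 4 := by ring
        have g5 : 1 < c * (m / L ^ 7) / 4 := by
          rw [lt_div_iff₀ (by norm_num), ← mul_div_assoc, lt_div_iff₀ (by positivity)]
          linarith
        have g6 : c * (m / L ^ 7) / 2 ≤ c * rr m / L ^ 3 := by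
          have e1 : c * (m / L ^ 7) / 2 = c * (m / L ^ 4 / 2) / L ^ 3 := by
            field_simp
          rw [e1]
          exact div_le_div_of_nonneg_right (mul_le_mul_of_nonneg_left r3.le hc.le)
            (by positivity)
        have g7 : 2 * (((X.image I ∪ X.image J).card : ℕ) : ℝ) + 1 < c * rr m / L ^ 3 := by
          linarith
        calc _ < c * rr m / L ^ 3 * rr m := mul_lt_mul_of_pos_right g7 r4
          _ = c * rr m ^ 2 / L ^ 3 := by ring
      have g8 := g1.trans_le hTx
      exact_mod_cast g8)
    rw [mem_filter, mem_product, mem_range, mem_range] at hw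
    obtain ⟨⟨b1, b2⟩, b3, b4, b5⟩ := hw
    rw [mem_union, mem_image, mem_image] at w1 w2
    push Not at w1 w2
    refine ⟨Function.update I x w.1, Function.update J x w.2, ?_, ?_, ?_⟩
    · intro z hz
      by_cases hzx : z = x
      · subst hzx
        rw [Function.update_self, Function.update_self]
        exact ⟨b1, b2, w3⟩
      · rw [Function.update_of_ne hzx, Function.update_of_ne hzx]
        exact hIJ.lt z ((mem_insert.1 hz).resolve_left hzx)
    · intro z hz z' hz' hne
      by_cases hzx : z = x
      · subst hzx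
        have hz'x : z' ≠ z := fun e => hne e.symm
        have hz'X := (mem_insert.1 hz').resolve_left hz'x
        rw [Function.update_self, Function.update_self, Function.update_of_ne hz'x,
          Function.update_of_ne hz'x]
        exact ⟨fun e => w1.1 z' hz'X e.symm, fun e => w2.2 z' hz'X e.symm,
          fun e => w1.2 z' hz'X e.symm⟩
      · have hzX := (mem_insert.1 hz).resolve_left hzx
        by_cases hzx' : z' = x
        · subst hzx'
          rw [Function.update_self, Function.update_self, Function.update_of_ne hzx,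
            Function.update_of_ne hzx]
          exact ⟨fun e => w1.1 z hzX e, fun e => w2.2 z hzX e, fun e => w2.1 z hzX e⟩
        · rw [Function.update_of_ne hzx, Function.update_of_ne hzx, Function.update_of_ne hzx',
            Function.update_of_ne hzx']
          exact hIJ.ne z hzX z' ((mem_insert.1 hz').resolve_left hzx') hne
    · intro z hz
      by_cases hzx : z = x
      · subst hzx
        rw [Function.update_self, Function.update_self]
        exact ⟨b3, b4, b5⟩
      · rw [Function.update_of_ne hzx, Function.update_of_ne hzx]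
        exact hIJ.pr z ((mem_insert.1 hz).resolve_left hzx)

end Pool.Agent.N785.PC
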