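import Pool.Agent.N785.PC.Stmts
import Pool.Agent.Helper507.PNT

/-!
# Project PC: the degrees in the prime sum graph
-/

set_option autoImplicit false

namespace Pool.Agent.N785.PC

open Finset Filter Topology

namespace DEG_

/-- the number of primes in a long window -/
theorem window (ε : ℝ) (hε : 0 < ε) : ∃ N₀ : ℕ, ∀ N : ℕ, N₀ ≤ N → ∀ x : ℕ, x ≤ N →
    |((Nat.primeCounting (x + N) : ℝ) - Nat.primeCounting x) - N / Real.log N| ≤
      ε * (N / Real.log N) := by
  set η : ℝ := min (1 / 2) (ε / 20) with hη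
  have hη0 : 0 < η := by positivity
  have hη1 : η ≤ 1 / 2 := min_le_left _ _
  have hη2 : 20 * η ≤ ε := by
    have := min_le_right (1 / 2 : ℝ) (ε / 20)
    rw [← hη] at this
    linarith
  have h2 := (Helper507.PNT.pi_tendsto.eventually
    (Icc_mem_nhds (show 1 - η < 1 by linarith) (show 1 < 1 + η by linarith)))
  obtain ⟨u₀, hu₀⟩ := eventually_atTop.1 h2
  have e3 : ∀ᶠ x : ℝ in atTop, u₀ ≤ η * x :=
    (tendsto_id.const_mul_atTop hη0).eventually_ge_atTop u₀
  have e6 : ∀ᶠ x : ℝ in atTop, 2 ≤ η * x :=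
    (tendsto_id.const_mul_atTop hη0).eventually_ge_atTop 2
  have e7 : ∀ᶠ x : ℝ in atTop, Real.log 2 ≤ η * Real.log x :=
    (Real.tendsto_log_atTop.const_mul_atTop hη0).eventually_ge_atTop _
  have e8 : ∀ᶠ x : ℝ in atTop, -((1 + η) * Real.log η) ≤ η * Real.log x :=
    (Real.tendsto_log_atTop.const_mul_atTop hη0).eventually_ge_atTop _
  obtain ⟨x₀, hx₀⟩ := eventually_atTop.1
    (tendsto_natCast_atTop_atTop (R := ℝ) |>.eventually (e3.and (e6.and (e7.and e8))))
  refine ⟨x₀, fun N hN x hx => ?_⟩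
  obtain ⟨f3, f6, f7, f8⟩ := hx₀ N hN
  have hN4 : (4 : ℝ) ≤ N := by nlinarith
  have hN0 : (0 : ℝ) < N := by linarith
  have hlN : 0 < Real.log N := Real.log_pos (by linarith)
  have hxN : (x : ℝ) ≤ N := by exact_mod_cast hx
  have hx0 : (0 : ℝ) ≤ x := Nat.cast_nonneg x
  have hηN : η * N ≤ N := by nlinarith
  -- the bounds for the prime counting function
  have hb : ∀ t : ℝ, η * N ≤ t → (1 - η) * t ≤ (Nat.primeCounting ⌊t⌋₊ : ℝ) * Real.log t ∧
      (Nat.primeCounting ⌊t⌋₊ : ℝ) * Real.log t ≤ (1 + η) * t := by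
    intro t ht
    have ht0 : 0 < t := by linarith
    have h := hu₀ t (by linarith)
    exact ⟨(le_div_iff₀ ht0).1 h.1, (div_le_iff₀ ht0).1 h.2⟩
  -- the upper bound for the sum
  have g0 := hb ((x + N : ℕ) : ℝ) (by push_cast; linarith)
  rw [Nat.floor_natCast] at g0
  push_cast at g0
  set A : ℝ := (Nat.primeCounting (x + N) : ℝ) with hA
  set B : ℝ := (Nat.primeCounting x : ℝ) with hB
  have hA0 : 0 ≤ A := Nat.cast_nonneg _
  have hB0 : 0 ≤ B := Nat.cast_nonneg _
  have hL1 : Real.log N ≤ Real.log ((x : ℝ) + N) := Real.log_le_log hN0 (by linarith)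
  have hL2 : Real.log ((x : ℝ) + N) ≤ (1 + η) * Real.log N := by
    have h3 : Real.log ((x : ℝ) + N) ≤ Real.log (2 * N) :=
      Real.log_le_log (by linarith) (by linarith)
    rw [Real.log_mul two_ne_zero hN0.ne'] at h3
    linarith
  have g1 : A * Real.log N ≤ (1 + η) * (x + N) :=
    (mul_le_mul_of_nonneg_left hL1 hA0).trans g0.2
  have g2 : (1 - 2 * η) * (x + N) ≤ A * Real.log N := by
    have h3 : (1 - η) * (x + N) ≤ A * ((1 + η) * Real.log N) :=
      g0.1.trans (mul_le_mul_of_nonneg_left hL2 hA0)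
    have h4 : 0 ≤ A * Real.log N := by positivity
    have h5 : (1 - η) * ((1 - η) * (x + N)) ≤ (1 - η) * (A * ((1 + η) * Real.log N)) :=
      mul_le_mul_of_nonneg_left h3 (by linarith)
    have h6 : (1 - η) * (A * ((1 + η) * Real.log N)) ≤ A * Real.log N := by
      have e : (1 - η) * (A * ((1 + η) * Real.log N)) =
        A * Real.log N - η * η * (A * Real.log N) := by ring
      have h7 : 0 ≤ η * η * (A * Real.log N) := by positivity
      linarith
    have h7 : (1 - 2 * η) * (x + N) ≤ (1 - η) * ((1 - η) * (x + N)) := by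
      have : 0 ≤ η * η * (x + N) := by positivity
      nlinarith
    linarith
  -- the bounds for the smaller number
  have g3 : B * Real.log N ≤ x + 9 * η * N := by
    have hl : Real.log N ≤ (1 + η) * Real.log (η * N) := by
      rw [Real.log_mul hη0.ne' hN0.ne']
      linarith
    have hl0 : 0 < Real.log (η * N) := Real.log_pos (by linarith)
    have h4 : B * Real.log (η * N) ≤ (1 + η) * (x + η * N) := by
      rcases le_total (η * N) x with h | h
      · have h5 := (hb (x : ℝ) h).2
        rw [Nat.floor_natCast] at h5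
        have h6 : Real.log (η * N) ≤ Real.log x := Real.log_le_log (by linarith) h
        have h7 : 0 ≤ (1 + η) * (η * N) := by positivity
        have h8 := mul_le_mul_of_nonneg_left h6 hB0
        linarith
      · have h5 := (hb (η * N) le_rfl).2
        have h6 : B ≤ (Nat.primeCounting ⌊η * N⌋₊ : ℝ) := by
          rw [hB]
          exact_mod_cast Nat.monotone_primeCounting (Nat.le_floor h)
        have h7 : 0 ≤ (1 + η) * x := by positivity
        have h8 := mul_le_mul_of_nonneg_right h6 hl0.le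
        linarith
    have h5 : B * Real.log N ≤ B * ((1 + η) * Real.log (η * N)) :=
      mul_le_mul_of_nonneg_left hl hB0
    have h6 : B * ((1 + η) * Real.log (η * N)) ≤ (1 + η) * ((1 + η) * (x + η * N)) := by
      have := mul_le_mul_of_nonneg_left h4 (by linarith : (0 : ℝ) ≤ 1 + η)
      linarith
    have h7 : (1 + η) * ((1 + η) * (x + η * N)) ≤ x + 9 * η * N := by
      have e : (1 + η) * ((1 + η) * (x + η * N)) =
          x + (2 * η + η * η) * x + (1 + η) * (1 + η) * (η * N) := by ring
      have h8 : (2 * η + η * η) * x ≤ (3 * η) * N := by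
        apply mul_le_mul _ hxN hx0 (by linarith)
        nlinarith
      have h9 : (1 + η) * (1 + η) * (η * N) ≤ 6 * (η * N) := by
        apply mul_le_mul_of_nonneg_right _ (by positivity)
        nlinarith
      rw [e]
      linarith
    linarith
  have g4 : x - 3 * η * N ≤ B * Real.log N := by
    rcases le_total (η * N) x with h | h
    · have h5 := (hb (x : ℝ) h).1
      rw [Nat.floor_natCast] at h5
      have h6 : Real.log x ≤ Real.log N := Real.log_le_log (by linarith) hxN
      have h8 := mul_le_mul_of_nonneg_left h6 hB0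
      nlinarith
    · have : 0 ≤ B * Real.log N := by positivity
      nlinarith
  rw [abs_le, ← mul_div_assoc]
  constructor
  · have h3 : (1 - ε) * N / Real.log N ≤ A - B := by
      rw [div_le_iff₀ hlN]
      nlinarith
    have e : (1 - ε) * N / Real.log N = N / Real.log N - ε * N / Real.log N := by ring
    linarith
  · have h3 : A - B ≤ (1 + ε) * N / Real.log N := by
      rw [le_div_iff₀ hlN]
      nlinarith
    have e : (1 + ε) * N / Real.log N = N / Real.log N + ε * N / Real.log N := by ring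
    linarith

/-- the primes of a window -/
theorem pi_card (x N : ℕ) : Nat.primeCounting (x + N) =
    Nat.primeCounting x + ((Ioc x (x + N)).filter Nat.Prime).card := by
  have h : ∀ n : ℕ, Nat.primeCounting n = ((Icc 1 n).filter Nat.Prime).card := by
    intro n
    rw [← Nat.primesLE_card_eq_primeCounting]
    congr 1
    ext p
    rw [Nat.mem_primesLE, mem_filter, mem_Icc]
    exact ⟨fun h => ⟨⟨h.2.one_lt.le, h.1⟩, h.2⟩, fun h => ⟨h.1.2, h.2⟩⟩
  rw [h, h, ← card_union_of_disjoint]
  · congr 1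
    ext p
    simp only [mem_filter, mem_union, mem_Icc, mem_Ioc]
    constructor
    · rintro ⟨h1, h2⟩
      rcases le_or_gt p x with h3 | h3
      · exact Or.inl ⟨⟨h1.1, h3⟩, h2⟩
      · exact Or.inr ⟨⟨h3, h1.2⟩, h2⟩
    · rintro (⟨h1, h2⟩ | ⟨h1, h2⟩)
      · exact ⟨⟨h1.1, by omega⟩, h2⟩
      · exact ⟨⟨h2.one_lt.le, h1.2⟩, h2⟩
  · rw [disjoint_left]
    intro p hp hq
    rw [mem_filter, mem_Icc] at hp
    rw [mem_filter, mem_Ioc] at hq
    omega

/-- the degree of a vertex -/
theorem deg (N x r : ℕ) (hr : (x + r) % 2 = 1) (hr2 : r < 2) :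
    (((Icc 1 N).filter (fun y => y % 2 = r)).filter fun y => (x + y).Prime).card ≤
      ((Ioc x (x + N)).filter Nat.Prime).card ∧
    ((Ioc x (x + N)).filter Nat.Prime).card ≤
      (((Icc 1 N).filter (fun y => y % 2 = r)).filter fun y => (x + y).Prime).card + 1 := by
  classical
  constructor
  · refine card_le_card_of_injOn (fun y => x + y) ?_ ?_
    · intro y hy
      rw [mem_coe, mem_filter, mem_filter, mem_Icc] at hy
      rw [mem_coe, mem_filter, mem_Ioc]
      refine ⟨⟨?_, ?_⟩, hy.2⟩ <;> dsimp only <;> omega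
    · intro y _ z _ h
      exact Nat.add_left_cancel h
  · have h1 : (Ioc x (x + N)).filter Nat.Prime ⊆
        insert 2 ((((Icc 1 N).filter (fun y => y % 2 = r)).filter
          fun y => (x + y).Prime).image (fun y => x + y)) := by
      intro p hp
      rw [mem_filter, mem_Ioc] at hp
      rw [mem_insert]
      rcases hp.2.eq_two_or_odd with h | h
      · exact Or.inl h
      · right
        rw [mem_image]
        refine ⟨p - x, ?_, by omega⟩
        have e : x + (p - x) = p := by omega
        rw [mem_filter, mem_filter, mem_Icc, e]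
        exact ⟨⟨⟨by omega, by omega⟩, by omega⟩, hp.2⟩
    refine (card_le_card h1).trans ((card_insert_le _ _).trans ?_)
    exact Nat.add_le_add_right card_image_le 1

/-- the comparison -/
theorem comp (δ : ℝ) (hδ : 0 < δ) : ∃ m₀ : ℕ, ∀ m : ℕ, m₀ ≤ m → ∀ x r : ℕ, x ≤ 2 * m →
    (x + r) % 2 = 1 → r < 2 →
    |(((((Icc 1 (2 * m)).filter (fun y => y % 2 = r)).filter fun y => (x + y).Prime).card : ℕ) : ℝ) -
      dd m| ≤ δ * dd m := by
  obtain ⟨N₀, hN₀⟩ := window (δ / 2) (by positivity)
  have h1 : Tendsto (fun u : ℝ => u / Real.log u) atTop atTop := by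
    have h : Tendsto (fun b : ℝ => Real.log b / b) atTop (𝓝[>] 0) := by
      refine tendsto_nhdsWithin_iff.2 ⟨?_, ?_⟩
      · have := Real.isLittleO_log_id_atTop.tendsto_div_nhds_zero
        simpa using this
      · filter_upwards [eventually_gt_atTop (1 : ℝ)] with b hb
        have : 0 < b := by linarith
        exact div_pos (Real.log_pos hb) this
    have := h.inv_tendsto_nhdsGT_zero
    refine this.congr fun b => ?_
    rw [Pi.inv_apply, inv_div]
  obtain ⟨u₀, hu₀⟩ := eventually_atTop.1 (h1.eventually_ge_atTop (2 / δ))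
  obtain ⟨n₁, hn₁⟩ := exists_nat_ge u₀
  refine ⟨max N₀ n₁, fun m hm x r hx hr hr2 => ?_⟩
  have hm1 : N₀ ≤ m := (le_max_left _ _).trans hm
  have hm2 : n₁ ≤ m := (le_max_right _ _).trans hm
  have h2 := hN₀ (2 * m) (by omega) x hx
  have h3 := hu₀ ((2 * m : ℕ) : ℝ) (by
    have h4 : (n₁ : ℝ) ≤ ((2 * m : ℕ) : ℝ) := by exact_mod_cast (by omega : n₁ ≤ 2 * m)
    linarith)
  have hdd : dd m = ((2 * m : ℕ) : ℝ) / Real.log ((2 * m : ℕ) : ℝ) := by
    unfold dd
    push_cast
    rfl
  rw [← hdd] at h2 h3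
  rw [div_le_iff₀ hδ] at h3
  obtain ⟨h5, h6⟩ := deg (2 * m) x r hr hr2
  rw [pi_card x (2 * m)] at h2
  set C := (((Icc 1 (2 * m)).filter (fun y => y % 2 = r)).filter fun y => (x + y).Prime).card
    with hC
  set W := ((Ioc x (x + 2 * m)).filter Nat.Prime).card with hW
  have h7 : (C : ℝ) ≤ W := by exact_mod_cast h5
  have h8 : (W : ℝ) ≤ C + 1 := by exact_mod_cast h6
  push_cast at h2
  rw [abs_le] at h2 ⊢
  constructor <;> linarith

end DEG_

/-- **DEG.** -/
theorem t_DEG : S_DEG := by
  classical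
  intro δ hδ
  obtain ⟨m₀, hm₀⟩ := DEG_.comp δ hδ
  refine ⟨m₀, fun m hm => ⟨fun x hx => ?_, fun y hy => ?_⟩⟩
  · unfold Od at hx
    rw [mem_filter, mem_Icc] at hx
    have h := hm₀ m hm x 0 hx.1.2 (by omega) (by omega)
    unfold Ev
    convert h using 4
  · unfold Ev at hy
    rw [mem_filter, mem_Icc] at hy
    have h := hm₀ m hm y 1 hy.1.2 (by omega) (by omega)
    unfold Od
    have e : ∀ x : ℕ, (x + y).Prime ↔ (y + x).Prime := fun x => by rw [Nat.add_comm]
    simp only [e]
    convert h using 4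

end Pool.Agent.N785.PC
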