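import Pool.Agent.N785.PC.Stmts3
import Pool.Agent.N785.PC.DEG
import Pool.Agent.N735.CL.Eta

/-!
# Project PC: the degrees in the prime sum graph, with a rate (helper933 for helper785)
-/

set_option autoImplicit false

namespace Pool.Agent.N785.PC

open Finset Filter Topology

namespace DEG2_

open Pool.Agent.H442R2.EHI (lis)
open Pool.Agent.N735.CL (lis_succ lis_le pi_lis lis_diff)

theorem lis_low (M : ℝ) (hM : 0 < M) (x : ℕ) (hx : 1 ≤ x) : ∀ k : ℕ,
    Real.log ((x : ℝ) + k) ≤ M → (k : ℝ) / M ≤ lis (x + k) - lis x := by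
  intro k
  induction k with
  | zero =>
    intro _
    simp
  | succ k ih =>
    intro h
    have hx1 : (1 : ℝ) ≤ x := by exact_mod_cast hx
    have hk0 : (0 : ℝ) ≤ k := Nat.cast_nonneg k
    have h1 : Real.log ((x : ℝ) + k) ≤ M := by
      refine le_trans (Real.log_le_log (by linarith) ?_) h
      push_cast
      linarith
    have h2 := ih h1
    rw [← add_assoc, lis_succ (x + k) (by omega)]
    push_cast at h ⊢
    have h3 : 0 < Real.log ((x : ℝ) + k + 1) := Real.log_pos (by linarith)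
    have h4 : 1 / M ≤ 1 / Real.log ((x : ℝ) + k + 1) :=
      one_div_le_one_div_of_le h3 (by rw [add_assoc]; exact h)
    rw [add_div]
    linarith

theorem window2 : ∃ C : ℝ, 0 < C ∧ ∃ N₀ : ℕ, ∀ N : ℕ, N₀ ≤ N → ∀ x : ℕ, 1 ≤ x → x ≤ N →
    |((Nat.primeCounting (x + N) : ℝ) - Nat.primeCounting x) - N / Real.log N| ≤
      C * (N / Real.log N ^ 2) := by
  obtain ⟨C1, hC1, h1⟩ := pi_lis
  obtain ⟨C2, hC2, h2⟩ := lis_le
  obtain ⟨N₁, hN₁⟩ := eventually_atTop.1 h1
  refine ⟨2 * C1 + 2 * C2 + 2, by positivity, max N₁ 3, fun N hN x hx1 hx => ?_⟩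
  have hNN : N₁ ≤ N := (le_max_left _ _).trans hN
  have hN3 : 3 ≤ N := (le_max_right _ _).trans hN
  have hN3r : (3 : ℝ) ≤ N := by exact_mod_cast hN3
  set L := Real.log (N : ℝ) with hL
  have hL0 : 0 < L := Real.log_pos (by linarith)
  have hLN : L ≤ N := (Real.log_le_self (by linarith))
  have a1 := hN₁ N hNN (x + N) (by omega)
  have a2 := hN₁ N hNN x (by omega)
  have hl2 : Real.log 2 ≤ 1 := by
    have := Real.log_two_lt_d9
    linarith
  have hl2' : 0 < Real.log 2 := Real.log_pos (by norm_num)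
  -- lower bound
  have b1 : (N : ℝ) / L - N / L ^ 2 ≤ lis (x + N) - lis x := by
    have c1 : Real.log ((x : ℝ) + N) ≤ L + Real.log 2 := by
      rw [hL, ← Real.log_mul (by linarith) (by norm_num)]
      have : (x : ℝ) ≤ N := by exact_mod_cast hx
      exact Real.log_le_log (by linarith [Nat.cast_nonneg (α := ℝ) x]) (by linarith)
    have c2 := lis_low (L + Real.log 2) (by linarith) x hx1 N c1
    refine le_trans ?_ c2
    have c3 : (N : ℝ) / L - N / L ^ 2 = N * ((L - 1) / L ^ 2) := by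
      field_simp
    rw [c3, div_eq_mul_inv (N : ℝ)]
    refine mul_le_mul_of_nonneg_left ?_ (by linarith)
    rw [← one_div, div_le_div_iff₀ (by positivity) (by linarith)]
    nlinarith
  -- upper bound
  have b2 : lis (x + N) - lis x ≤ (N : ℝ) / L + (2 * C2 + 1) * (N / L ^ 2) := by
    have c1 := lis_diff N x
    have c2 := h2 (N + 1) (by omega)
    push_cast at c2
    have c3 : L ≤ Real.log ((N : ℝ) + 1) := Real.log_le_log (by linarith) (by linarith)
    have c4 : ((N : ℝ) + 1) / Real.log ((N : ℝ) + 1) ≤ ((N : ℝ) + 1) / L :=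
      div_le_div_of_nonneg_left (by linarith) hL0 c3
    have c5 : ((N : ℝ) + 1) / Real.log ((N : ℝ) + 1) ^ 2 ≤ (2 * N) / L ^ 2 :=
      div_le_div₀ (by linarith) (by linarith) (by positivity) (pow_le_pow_left₀ hL0.le c3 2)
    have c6 : 1 / L ≤ (N : ℝ) / L ^ 2 := by
      rw [div_le_div_iff₀ hL0 (by positivity)]
      nlinarith
    have c7 := mul_le_mul_of_nonneg_left c5 hC2.le
    have c8 : ((N : ℝ) + 1) / L = N / L + 1 / L := add_div _ _ _
    have c9 : C2 * (2 * (N : ℝ) / L ^ 2) = 2 * C2 * (N / L ^ 2) := by ring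
    linarith
  have hp : 0 ≤ (N : ℝ) / L ^ 2 := by positivity
  rw [abs_le] at a1 a2 ⊢
  have e1 : (2 * C1 + 2 * C2 + 2) * ((N : ℝ) / L ^ 2) =
      2 * (C1 * (N / L ^ 2)) + (2 * C2 + 1) * (N / L ^ 2) + N / L ^ 2 := by ring
  have e2 : 0 ≤ (2 * C2 + 1) * ((N : ℝ) / L ^ 2) := by positivity
  rw [e1]
  constructor <;> linarith [a1.1, a1.2, a2.1, a2.2]

theorem comp2 : ∃ C : ℝ, 0 < C ∧ ∃ m₀ : ℕ, ∀ m : ℕ, m₀ ≤ m → ∀ x r : ℕ, 1 ≤ x → x ≤ 2 * m →
    (x + r) % 2 = 1 → r < 2 →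
    |(((((Icc 1 (2 * m)).filter (fun y => y % 2 = r)).filter fun y => (x + y).Prime).card : ℕ) : ℝ) -
      dd m| ≤ C / Real.log m * dd m := by
  obtain ⟨C, hC, N₀, hN₀⟩ := window2
  have h1 : ∀ᶠ u : ℝ in atTop, Real.log u ^ 2 ≤ u := by
    have h2 := (Real.isLittleO_pow_log_id_atTop (n := 2)).bound (zero_lt_one)
    filter_upwards [h2, eventually_ge_atTop 1] with u hu hu1
    rw [one_mul, Real.norm_eq_abs, abs_of_nonneg (by positivity), id, Real.norm_eq_abs,
      abs_of_nonneg (by linarith)] at hu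
    exact hu
  obtain ⟨u₀, hu₀⟩ := eventually_atTop.1 h1
  obtain ⟨n₁, hn₁⟩ := exists_nat_ge u₀
  refine ⟨C + 1, by positivity, max (max N₀ n₁) 2, fun m hm x r hx1 hx hr hr2 => ?_⟩
  have hm1 : N₀ ≤ m := (le_max_left _ _).trans ((le_max_left _ _).trans hm)
  have hm2 : n₁ ≤ m := (le_max_right _ _).trans ((le_max_left _ _).trans hm)
  have hm3 : 2 ≤ m := (le_max_right _ _).trans hm
  have hm3r : (2 : ℝ) ≤ m := by exact_mod_cast hm3
  have h2 := hN₀ (2 * m) (by omega) x hx1 hx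
  have h3 := hu₀ ((2 * m : ℕ) : ℝ) (by
    have h4 : (n₁ : ℝ) ≤ ((2 * m : ℕ) : ℝ) := by exact_mod_cast (by omega : n₁ ≤ 2 * m)
    linarith)
  push_cast at h2 h3
  obtain ⟨h5, h6⟩ := DEG_.deg (2 * m) x r hr hr2
  have hpc := DEG_.pi_card x (2 * m)
  set D := (((Icc 1 (2 * m)).filter (fun y => y % 2 = r)).filter fun y => (x + y).Prime).card
    with hD
  set W := ((Ioc x (x + 2 * m)).filter Nat.Prime).card with hW
  have h7 : (D : ℝ) ≤ W := by exact_mod_cast h5
  have h8 : (W : ℝ) ≤ D + 1 := by exact_mod_cast h6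
  have h9 : (Nat.primeCounting (x + 2 * m) : ℝ) = Nat.primeCounting x + W := by exact_mod_cast hpc
  rw [h9] at h2
  set l := Real.log (m : ℝ) with hl
  set L := Real.log (2 * (m : ℝ)) with hL
  have hl0 : 0 < l := Real.log_pos (by linarith)
  have hlL : l ≤ L := Real.log_le_log (by linarith) (by linarith)
  have hL0 : 0 < L := by linarith
  have hdd : dd m = 2 * m / L := rfl
  have e1 : (2 * (m : ℝ)) / L ^ 2 = dd m / L := by
    rw [hdd]
    field_simp
  have hdd0 : 0 ≤ dd m := by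
    rw [hdd]
    positivity
  have e2 : dd m / L ≤ dd m / l := div_le_div_of_nonneg_left hdd0 hl0 hlL
  have e3 : 1 ≤ dd m / l := by
    refine le_trans ?_ e2
    rw [← e1, le_div_iff₀ (by positivity)]
    linarith
  rw [e1, ← hdd] at h2
  have e4 : (C + 1) / l * dd m = C * (dd m / l) + dd m / l := by ring
  have e5 := mul_le_mul_of_nonneg_left e2 hC.le
  rw [e4]
  rw [abs_le] at h2 ⊢
  constructor <;> linarith [h2.1, h2.2]

end DEG2_

/-- **DEG2.** -/
theorem t_DEG2 : S_DEG2 := by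
  classical
  obtain ⟨C, hC, m₀, hm₀⟩ := DEG2_.comp2
  refine ⟨C, hC, m₀, fun m hm => ⟨fun x hx => ?_, fun y hy => ?_⟩⟩
  · unfold Od at hx
    rw [mem_filter, mem_Icc] at hx
    have h := hm₀ m hm x 0 hx.1.1 hx.1.2 (by omega) (by omega)
    unfold Ev
    convert h using 4
  · unfold Ev at hy
    rw [mem_filter, mem_Icc] at hy
    have h := hm₀ m hm y 1 hy.1.1 hy.1.2 (by omega) (by omega)
    unfold Od
    have e : ∀ x : ℕ, (x + y).Prime ↔ (y + x).Prime := fun x => by rw [Nat.add_comm]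
    simp only [e]
    convert h using 4

end Pool.Agent.N785.PC
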