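import Mathlib

/-!
# Project PC: the number of prime circles and of rows of the prime pyramid. Definitions.
-/

set_option autoImplicit false

namespace Pool.Agent.N785.PC

open Finset

/-- the odd numbers up to `2m` -/
def Od (m : ℕ) : Finset ℕ := (Icc 1 (2 * m)).filter fun x => x % 2 = 1

/-- the even numbers up to `2m` -/
def Ev (m : ℕ) : Finset ℕ := (Icc 1 (2 * m)).filter fun x => x % 2 = 0

/-- the degree: the number of primes in a window of length `2m` -/
noncomputable def dd (m : ℕ) : ℝ := 2 * m / Real.log (2 * m)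

/-- the number of cycles of a permutation, fixed points included -/
noncomputable def ncyc {α : Type} (σ : Equiv.Perm α) : ℕ :=
  Nat.card (Quotient (Equiv.Perm.SameCycle.setoid σ))

/-- the Hamiltonian paths from `u` to `v` in the prime sum graph on `1, ..., n`, as lists -/
def HPn (n u v : ℕ) : Set (List ℕ) :=
  {l | l.Nodup ∧ (∀ x, x ∈ l ↔ 1 ≤ x ∧ x ≤ n) ∧ l.head? = some u ∧ l.getLast? = some v ∧
    l.IsChain (fun x y => (x + y).Prime)}

/-- `n = 2m` -/
def HP (m u v : ℕ) : Set (List ℕ) := HPn (2 * m) u v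

/-- the reservoir: `r` consecutive odd numbers, starting near `m` -/
def aa (m i : ℕ) : ℕ := 2 * (m / 2) + 1 + 2 * i

/-- the number of pairs in the reservoir -/
noncomputable def rr (m : ℕ) : ℕ := ⌊(m : ℝ) / Real.log m ^ 4⌋₊

/-- the odd numbers outside the reservoir -/
def AA (m r : ℕ) : Finset ℕ := Od m \ (range r).image (aa m)

/-- the even numbers outside the reservoir -/
def BB (m r P : ℕ) : Finset ℕ := Ev m \ (range r).image (fun i => P - aa m i)

/-- `x` and `y` are consecutive in the list of the elements of `l` outside the reservoir -/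
def Nx (A B : Finset ℕ) (l : List ℕ) (x y : ℕ) : Prop :=
  ∃ s t : List ℕ, l.filter (fun z => decide (z ∈ A ∪ B)) = s ++ x :: y :: t

/-- the numbers `P, p, h` are suitable: the pairs `(aa i, P - aa i)` are the reservoir, and the edges
`(p - aa i, aa i + h)` are the gadgets which absorb them. -/
structure Gad (m r P p h : ℕ) : Prop where
  hm : 200 ≤ m
  hr : 40 * r ≤ m
  P1 : P.Prime
  p1 : p.Prime
  Ph : (P + h).Prime
  ph : (p + h).Prime
  low : 18 * m < 10 * P
  sep : P + 2 * r + 3 ≤ p
  upp : 10 * p ≤ 19 * m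
  h1 : m ≤ 2 * h
  h2 : 10 * h ≤ 7 * m

/-- the end points are outside the windows -/
structure Ends (m u v : ℕ) : Prop where
  u1 : u ∈ Od m
  v1 : v ∈ Ev m
  u2 : 8 * u < m ∨ 15 * m < 8 * u
  v2 : 8 * v < m ∨ 15 * m < 8 * v

/-- the admissible matchings `g` from the even to the odd numbers outside the reservoir: `v` goes to `u`, the
gadgets are used, and all other sums are prime -/
structure GG (m r P p h u v : ℕ) (g : BB m r P ≃ AA m r) : Prop where
  pr : ∀ y : BB m r P, (y : ℕ) ≠ v → ((y : ℕ) + (g y : ℕ)).Prime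
  gad : ∀ i < r, ∀ y : BB m r P, (y : ℕ) = p - aa m i → (g y : ℕ) = aa m i + h
  uv : ∀ y : BB m r P, (y : ℕ) = v → (g y : ℕ) = u

/-- the connections: for every `x ∈ X` the path `x, P - aa (I x), aa (I x), P - aa (J x), aa (J x), y x` has prime
sums, and all indices are different -/
structure Conn (m r P : ℕ) (X : Finset ℕ) (y I J : ℕ → ℕ) : Prop where
  lt : ∀ x ∈ X, I x < r ∧ J x < r ∧ I x ≠ J x
  ne : ∀ x ∈ X, ∀ x' ∈ X, x ≠ x' → I x ≠ I x' ∧ J x ≠ J x' ∧ I x ≠ J x'
  pr : ∀ x ∈ X, (x + (P - aa m (I x))).Prime ∧ (aa m (I x) + (P - aa m (J x))).Prime ∧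
    (aa m (J x) + y x).Prime

/-- a permutation of the set `A`, as a function on the natural numbers -/
noncomputable def fn {A B : Finset ℕ} (f : A ≃ B) (x : ℕ) : ℕ :=
  by classical exact if h : x ∈ A then (f ⟨x, h⟩ : ℕ) else 0

/-- the number of rows of length `n` of the prime pyramid -/
noncomputable def R (n : ℕ) : ℕ := (HPn n 1 n).ncard

/-- `a` is a prime circle of order `2m`: a cyclic arrangement, indexed by `ZMod (2m)`, of the
integers `1, …, 2m`, each used exactly once, with prime sums of adjacent entries. -/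
structure IsPrimeCircle (m : ℕ) (a : ZMod (2 * m) → ℕ) : Prop where
  bij : Set.BijOn a Set.univ (Set.Icc 1 (2 * m))
  prime : ∀ i, (a i + a (i + 1)).Prime

/-- The undirected cycle of a cyclic arrangement, that is, the set of its edges
`{a i, a (i + 1)}`. -/
def edges {m : ℕ} (a : ZMod (2 * m) → ℕ) : Set (Sym2 ℕ) :=
  Set.range fun i => s(a i, a (i + 1))

/-- The number of prime circles of order `2m`, counted as undirected cycles, that is, up to
rotation and reflection. -/
noncomputable def NC (m : ℕ) : ℕ :=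
  Set.ncard {E : Set (Sym2 ℕ) | ∃ a : ZMod (2 * m) → ℕ, IsPrimeCircle m a ∧ E = edges a}

end Pool.Agent.N785.PC
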