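import Pool.Agent.N785.PC.Stmts

/-!
# Project PC, part FC: few permutations have many cycles
-/

set_option autoImplicit false

namespace Pool.Agent.N785.PC

open Finset

namespace FC_

/-- the conditions for large `n` -/
theorem large : ∃ n₀ : ℕ, ∀ n : ℕ, n₀ ≤ n → 25 ≤ Real.log n ∧ 421 * Real.log n ^ 33 ≤ n := by
  have h1 : ∀ᶠ x : ℝ in Filter.atTop, 25 ≤ Real.log x :=
    Real.tendsto_log_atTop.eventually_ge_atTop 25
  have h2 : ∀ᶠ x : ℝ in Filter.atTop, ‖Real.log x ^ 33‖ ≤ 1 / 421 * ‖x‖ :=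
    (Real.isLittleO_pow_log_id_atTop (n := 33)).bound (by norm_num)
  have h3 : ∀ᶠ x : ℝ in Filter.atTop, 25 ≤ Real.log x ∧ 421 * Real.log x ^ 33 ≤ x := by
    filter_upwards [h1, h2, Filter.eventually_ge_atTop (0 : ℝ)] with x hx1 hx2 hx3
    refine ⟨hx1, ?_⟩
    rw [Real.norm_of_nonneg (by positivity), Real.norm_of_nonneg hx3] at hx2
    linarith
  have h4 := tendsto_natCast_atTop_atTop (R := ℝ) |>.eventually h3
  obtain ⟨n₀, hn₀⟩ := Filter.eventually_atTop.mp h4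
  exact ⟨n₀, hn₀⟩

theorem choose_le (n j : ℕ) (hj : 0 < j) :
    (n.choose j : ℝ) ≤ ((n : ℝ) * Real.exp 1 / j) ^ j := by
  have h1 : (n.choose j : ℝ) ≤ (n : ℝ) ^ j / j.factorial := Nat.choose_le_pow_div j n
  have h2 := Real.pow_div_factorial_le_exp (j : ℝ) (Nat.cast_nonneg j) j
  have hj' : (0 : ℝ) < j := by exact_mod_cast hj
  have hf : (0 : ℝ) < j.factorial := by exact_mod_cast j.factorial_pos
  refine h1.trans ?_
  rw [div_pow, mul_pow, ← Real.exp_nat_mul, mul_one, div_le_div_iff₀ hf (by positivity)]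
  rw [div_le_iff₀ hf] at h2
  calc (n : ℝ) ^ j * (j : ℝ) ^ j ≤ (n : ℝ) ^ j * (Real.exp j * j.factorial) :=
        mul_le_mul_of_nonneg_left h2 (by positivity)
    _ = _ := by ring

theorem final (n j k l : ℕ) (C : ℝ) (hj : 0 < j) (hjn : j ≤ n) (hk : 0 < k)
    (hC : C ≤ Real.exp (-(n : ℝ) + 2 * j)) (h : 84 * ((n : ℝ) * l) ≤ j * k) :
    (n.choose j : ℝ) * (l : ℝ) ^ j * (k : ℝ) ^ (n - j) * C ≤
      1 / 2 * ((k : ℝ) / Real.exp 1) ^ n := by
  have hj' : (0 : ℝ) < j := by exact_mod_cast hj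
  have hk' : (0 : ℝ) < k := by exact_mod_cast hk
  have he : Real.exp 1 ^ 3 ≤ 21 := by
    have := Real.exp_one_lt_d9
    have h0 := Real.exp_pos 1
    calc Real.exp 1 ^ 3 ≤ (2.7182818286 : ℝ) ^ 3 := by gcongr
      _ ≤ 21 := by norm_num
  have h1 : (n : ℝ) * Real.exp 1 / j * l * Real.exp 2 ≤ k / 4 := by
    have e2 : Real.exp 2 = Real.exp 1 ^ 2 := by
      rw [← Real.exp_nat_mul]; norm_num
    rw [e2]
    have : (n : ℝ) * Real.exp 1 / j * l * Real.exp 1 ^ 2 = (Real.exp 1 ^ 3 * ((n : ℝ) * l)) / j := by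
      field_simp
    rw [this, div_le_iff₀ hj']
    have h2 : Real.exp 1 ^ 3 * ((n : ℝ) * l) ≤ 21 * ((n : ℝ) * l) :=
      mul_le_mul_of_nonneg_right he (by positivity)
    linarith
  have h2 : Real.exp (-(n : ℝ) + 2 * j) = Real.exp (-(n : ℝ)) * Real.exp 2 ^ j := by
    rw [Real.exp_add, ← Real.exp_nat_mul]
    congr 2
    ring
  calc (n.choose j : ℝ) * (l : ℝ) ^ j * (k : ℝ) ^ (n - j) * C
      ≤ ((n : ℝ) * Real.exp 1 / j) ^ j * (l : ℝ) ^ j * (k : ℝ) ^ (n - j) *
          (Real.exp (-(n : ℝ)) * Real.exp 2 ^ j) := by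
        rw [h2] at hC
        have := choose_le n j hj
        calc (n.choose j : ℝ) * (l : ℝ) ^ j * (k : ℝ) ^ (n - j) * C
            ≤ (n.choose j : ℝ) * (l : ℝ) ^ j * (k : ℝ) ^ (n - j) *
              (Real.exp (-(n : ℝ)) * Real.exp 2 ^ j) := mul_le_mul_of_nonneg_left hC (by positivity)
          _ ≤ _ := by gcongr
    _ = ((n : ℝ) * Real.exp 1 / j * l * Real.exp 2) ^ j * (k : ℝ) ^ (n - j) *
          Real.exp (-(n : ℝ)) := by ring
    _ ≤ (k / 4) ^ j * (k : ℝ) ^ (n - j) * Real.exp (-(n : ℝ)) := by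
        gcongr
    _ = (1 / 4) ^ j * ((k : ℝ) ^ n * Real.exp (-(n : ℝ))) := by
        have : (k : ℝ) ^ n = (k : ℝ) ^ j * (k : ℝ) ^ (n - j) := by
          rw [← pow_add]; congr 1; omega
        rw [this, div_pow, div_pow, one_pow]
        ring
    _ ≤ 1 / 2 * ((k : ℝ) ^ n * Real.exp (-(n : ℝ))) := by
        have h3 : (1 / 4 : ℝ) ^ j ≤ 1 / 4 := by
          calc (1 / 4 : ℝ) ^ j ≤ (1 / 4 : ℝ) ^ 1 :=
                pow_le_pow_of_le_one (by norm_num) (by norm_num) hj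
            _ = _ := pow_one _
        have h4 : (0 : ℝ) ≤ (k : ℝ) ^ n * Real.exp (-(n : ℝ)) := by positivity
        nlinarith
    _ = _ := by
        rw [div_pow, Real.exp_neg, ← Real.exp_nat_mul, mul_one]
        ring

end FC_

open FC_ in
open Classical in
theorem t_FC (h1 : S_FC1) (h2 : S_FC2) (h3 : S_FC3) : S_FC := by
  obtain ⟨n₀, hn₀⟩ := large
  refine ⟨max n₀ 1, ?_⟩
  intro α _ S k hn hk hS hS'
  set n := Fintype.card α with hnd
  obtain ⟨hL, hL2⟩ := hn₀ n ((le_max_left _ _).trans hn)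
  have hn1 : 1 ≤ n := (le_max_right _ _).trans hn
  set L := Real.log n with hLd
  have hn1' : (1 : ℝ) ≤ n := by exact_mod_cast hn1
  have hL0 : 0 < L := by linarith
  have hL1 : 1 ≤ L := by linarith
  have hk0 : 0 < k := by
    rcases Nat.eq_zero_or_pos k with h | h
    · rw [h] at hk
      simp at hk
      linarith
    · exact h
  have hk0' : (0 : ℝ) < k := by exact_mod_cast hk0
  have hkn : k ≤ n := by
    have : Nonempty α := Fintype.card_pos_iff.mp hn1
    obtain ⟨x⟩ := this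
    rw [← hS x]
    exact card_le_univ _
  set q := ⌊(n : ℝ) / L ^ 9⌋₊ with hq
  set l := ⌈4 * L ^ 9⌉₊ with hl
  set j := ⌊(n : ℝ) / L ^ 22⌋₊ with hj
  -- bounds for the parameters
  have hl1 : 4 * L ^ 9 ≤ l := Nat.le_ceil _
  have hL9 : 1 ≤ L ^ 9 := one_le_pow₀ hL1
  have hl2 : (l : ℝ) ≤ 5 * L ^ 9 := by
    have := Nat.ceil_lt_add_one (a := 4 * L ^ 9) (by positivity)
    linarith
  have hj1 : (j : ℝ) ≤ n / L ^ 22 := Nat.floor_le (by positivity)
  have hj1' : (j : ℝ) * L ^ 22 ≤ n := by rwa [le_div_iff₀ (by positivity)] at hj1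
  have hn22 : 421 * L ^ 11 ≤ n / L ^ 22 := by
    rw [le_div_iff₀ (by positivity)]
    calc 421 * L ^ 11 * L ^ 22 = 421 * L ^ 33 := by ring
      _ ≤ (n : ℝ) := hL2
  have hL11 : 1 ≤ L ^ 11 := one_le_pow₀ hL1
  have hj2 : 420 * L ^ 11 ≤ j := by
    have := Nat.lt_floor_add_one ((n : ℝ) / L ^ 22)
    linarith
  have hj0 : 0 < j := by
    have : (0 : ℝ) < j := by linarith
    exact_mod_cast this
  have hj0' : (0 : ℝ) < j := by exact_mod_cast hj0
  have hp : ∀ a : ℕ, 1 ≤ a → 25 ≤ L ^ a := fun a ha => by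
    calc (25 : ℝ) ≤ L := hL
      _ = L ^ 1 := (pow_one L).symm
      _ ≤ L ^ a := pow_le_pow_right₀ hL1 ha
  have hn9 : 2 ≤ (n : ℝ) / L ^ 9 := by
    rw [le_div_iff₀ (by positivity)]
    have h4 : L ^ 9 ≤ L ^ 33 := pow_le_pow_right₀ hL1 (by norm_num)
    linarith
  have hq1 : (n : ℝ) / L ^ 9 ≤ 2 * q := by
    have := Nat.lt_floor_add_one ((n : ℝ) / L ^ 9)
    linarith
  have hq2 : (n : ℝ) ≤ 2 * q * L ^ 9 := by rwa [div_le_iff₀ (by positivity)] at hq1
  have hlq : 2 * n ≤ l * q := by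
    have : (2 : ℝ) * n ≤ l * q := by
      calc (2 : ℝ) * n ≤ 2 * (2 * q * L ^ 9) := by linarith
        _ = (4 * L ^ 9) * q := by ring
        _ ≤ l * q := mul_le_mul_of_nonneg_right hl1 (Nat.cast_nonneg _)
    exact_mod_cast this
  have hjq : 2 * j ≤ q := by
    have h4 : (2 : ℝ) * j ≤ q := by
      have h5 : 4 * (j : ℝ) * L ^ 9 ≤ 2 * q * L ^ 9 := by
        calc 4 * (j : ℝ) * L ^ 9 ≤ L ^ 13 * (j : ℝ) * L ^ 9 := by
              have := hp 13 (by norm_num)
              gcongr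
              linarith
          _ = j * L ^ 22 := by ring
          _ ≤ n := hj1'
          _ ≤ _ := hq2
      have h6 := le_of_mul_le_mul_right h5 (by positivity)
      linarith
    exact_mod_cast h4
  -- `j l` is small
  have hjl : (j : ℝ) * l * L ^ 13 ≤ 5 * n := by
    calc (j : ℝ) * l * L ^ 13 ≤ j * (5 * L ^ 9) * L ^ 13 := by gcongr
      _ = 5 * (j * L ^ 22) := by ring
      _ ≤ 5 * n := by linarith
  have hjln : j * l ≤ n := by
    have h4 : (j : ℝ) * l * 5 ≤ n * 5 := by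
      calc (j : ℝ) * l * 5 ≤ j * l * L ^ 13 := by
            have := hp 13 (by norm_num)
            gcongr
            linarith
        _ ≤ 5 * n := hjl
        _ = n * 5 := by ring
    have h5 := le_of_mul_le_mul_right h4 (by norm_num)
    exact_mod_cast h5
  have hjlk : 2 * (j * l) ≤ k := by
    have h4 : 2 * ((j : ℝ) * l) * L ^ 2 ≤ k * L ^ 2 := by
      calc 2 * ((j : ℝ) * l) * L ^ 2 ≤ 2 * ((j : ℝ) * l) * L ^ 2 * (L ^ 11 / 10) := by
            have := hp 11 (by norm_num)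
            exact le_mul_of_one_le_right (by positivity) (by linarith)
        _ = (j * l * L ^ 13) / 5 := by ring
        _ ≤ n := by linarith
        _ ≤ k * L ^ 2 := hk
    have h5 := le_of_mul_le_mul_right h4 (by positivity)
    exact_mod_cast h5
  have hjll : (j : ℝ) * l ^ 2 ≤ k := by
    have h4 : (j : ℝ) * l ^ 2 * L ^ 2 ≤ k * L ^ 2 := by
      calc (j : ℝ) * l ^ 2 * L ^ 2 ≤ j * (5 * L ^ 9) ^ 2 * L ^ 2 := by gcongr
        _ = 25 * (j * L ^ 20) := by ring
        _ ≤ L ^ 2 * (j * L ^ 20) := by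
            have := hp 2 (by norm_num)
            gcongr
        _ = j * L ^ 22 := by ring
        _ ≤ n := hj1'
        _ ≤ k * L ^ 2 := hk
    exact le_of_mul_le_mul_right h4 (by positivity)
  -- the exponent
  set Cc := Real.exp (-(n : ℝ) + ((j * l : ℕ) : ℝ) ^ 2 / k + 2 * n * (1 + Real.log k) / k) with hCc
  have hC0 : 0 ≤ Cc := (Real.exp_pos _).le
  have hlogk : Real.log k ≤ L := Real.log_le_log hk0' (by exact_mod_cast hkn)
  have hC : Cc ≤ Real.exp (-(n : ℝ) + 2 * j) := by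
    apply Real.exp_le_exp.mpr
    have h4 : ((j * l : ℕ) : ℝ) ^ 2 / k ≤ j := by
      rw [div_le_iff₀ hk0']
      push_cast
      calc ((j : ℝ) * l) ^ 2 = j * (j * l ^ 2) := by ring
        _ ≤ (j : ℝ) * k := by gcongr
    have h5 : 2 * (n : ℝ) * (1 + Real.log k) / k ≤ j := by
      rw [div_le_iff₀ hk0']
      calc 2 * (n : ℝ) * (1 + Real.log k) ≤ 2 * (k * L ^ 2) * (2 * L) := by
            have h6 : 0 ≤ 1 + Real.log k := by
              have := Real.log_natCast_nonneg k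
              linarith
            apply mul_le_mul _ _ h6 (by positivity)
            · linarith
            · linarith
        _ = 4 * L ^ 3 * k := by ring
        _ ≤ j * k := by
            have h6 : L ^ 3 ≤ L ^ 11 := pow_le_pow_right₀ hL1 (by norm_num)
            gcongr
            linarith
    linarith
  have h84 : 84 * ((n : ℝ) * l) ≤ j * k := by
    calc 84 * ((n : ℝ) * l) ≤ 84 * ((k * L ^ 2) * (5 * L ^ 9)) := by gcongr
      _ = 420 * L ^ 11 * k := by ring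
      _ ≤ j * k := by gcongr
  have hjn : j ≤ n := by
    have : j * 1 ≤ j * l := by
      apply Nat.mul_le_mul_left
      have : (1 : ℝ) ≤ l := by linarith
      exact_mod_cast this
    omega
  -- the union bound
  have h4 := h3 α S k j l Cc hk0 hC0 hS hjln (by
    intro U ρ hU
    refine (h2 α S k hk0 hS hS' U ρ (by omega)).trans ?_
    apply mul_le_mul_of_nonneg_left _ (by positivity)
    apply Real.exp_le_exp.mpr
    have h5 : (U.card : ℝ) ^ 2 / k ≤ ((j * l : ℕ) : ℝ) ^ 2 / k := by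
      have : (U.card : ℝ) ≤ ((j * l : ℕ) : ℝ) := by exact_mod_cast hU
      gcongr
    linarith)
  refine le_trans ?_ (h4.trans (final n j k l Cc hj0 hjn hk0 hC h84))
  have h5 : (univ.filter fun σ : Equiv.Perm α => (∀ x, σ x ∈ S x) ∧ (n : ℝ) / L ^ 9 < ncyc σ) ⊆
      (univ.filter fun σ : Equiv.Perm α => (∀ x, σ x ∈ S x) ∧ ∃ V : Finset α, V.card = j ∧
      (∀ v ∈ V, Function.minimalPeriod σ v ≤ l) ∧ ∀ v ∈ V, ∀ w ∈ V, v ≠ w → ¬ σ.SameCycle v w) := by
    intro σ hσ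
    rw [mem_filter] at hσ ⊢
    refine ⟨hσ.1, hσ.2.1, ?_⟩
    apply h1 α σ q j l _ hjq hlq
    have h6 : (q : ℝ) ≤ n / L ^ 9 := Nat.floor_le (by positivity)
    have h7 : (q : ℝ) < ncyc σ := h6.trans_lt hσ.2.2
    exact_mod_cast h7
  exact_mod_cast card_le_card h5

end Pool.Agent.N785.PC
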