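import Pool.Agent.N785.PC.Stmts

/-!
# Project PC, FC1 (helper413): a permutation with many cycles has many short cycles
-/

set_option autoImplicit false

namespace Pool.Agent.N785.PC

open Finset

theorem t_FC1 : S_FC1 := by
  classical
  intro α _ σ q j l hq hj hl
  let Q := Quotient (Equiv.Perm.SameCycle.setoid σ)
  let mk : α → Q := fun x => Quotient.mk _ x
  have : Fintype Q := Fintype.ofFinite Q
  have hn : ncyc σ = Fintype.card Q := Nat.card_eq_fintype_card
  let cls : Q → Finset α := fun c => univ.filter fun x => mk x = c
  have hsum : ∑ c : Q, (cls c).card = Fintype.card α := by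
    rw [← Finset.card_univ (α := α)]
    exact (Finset.card_eq_sum_card_fiberwise (f := mk) (t := univ) (fun x _ => by simp)).symm
  have hcls : ∀ c : Q, Function.minimalPeriod σ (Quotient.out c) ≤ (cls c).card := by
    intro c
    rw [← Finset.card_range (Function.minimalPeriod σ (Quotient.out c))]
    apply Finset.card_le_card_of_injOn (fun i => σ^[i] (Quotient.out c))
    · intro i _
      simp only [cls, coe_filter, mem_univ, true_and, Set.mem_ofPred_eq]
      refine Eq.trans (Quotient.sound ?_) (Quotient.out_eq c)
      show σ.SameCycle (σ^[i] (Quotient.out c)) (Quotient.out c)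
      rw [Equiv.Perm.iterate_eq_pow, Equiv.Perm.sameCycle_pow_left]
    · intro i hi k hk h
      exact Function.iterate_injOn_Iio_minimalPeriod (by simpa using hi) (by simpa using hk) h
  let Bad : Finset Q := univ.filter fun c => l < Function.minimalPeriod σ (Quotient.out c)
  have hbad : Bad.card * (l + 1) ≤ Fintype.card α := by
    rw [← hsum]
    calc Bad.card * (l + 1) = ∑ _c ∈ Bad, (l + 1) := by simp
      _ ≤ ∑ c ∈ Bad, (cls c).card := by
          apply Finset.sum_le_sum
          intro c hc
          have h1 : l < Function.minimalPeriod σ (Quotient.out c) := (mem_filter.1 hc).2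
          exact le_trans h1 (hcls c)
      _ ≤ ∑ c : Q, (cls c).card :=
          Finset.sum_le_sum_of_subset (subset_univ _)
  have h2b : 2 * Bad.card ≤ q := by
    by_contra hc
    have h3 : q + 1 ≤ 2 * Bad.card := by omega
    have h4 : (q + 1) * (l + 1) ≤ 2 * Bad.card * (l + 1) := Nat.mul_le_mul_right _ h3
    nlinarith
  have hgood : j ≤ (univ \ Bad).card := by
    rw [Finset.card_sdiff_of_subset (subset_univ _), Finset.card_univ, ← hn]
    omega
  obtain ⟨G, hG, hGj⟩ := Finset.exists_subset_card_eq hgood
  refine ⟨G.image Quotient.out, ?_, ?_, ?_⟩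
  · rw [Finset.card_image_of_injective _ Quotient.out_injective, hGj]
  · intro v hv
    obtain ⟨c, hc, rfl⟩ := mem_image.1 hv
    have h5 := (mem_sdiff.1 (hG hc)).2
    by_contra h6
    exact h5 (mem_filter.2 ⟨mem_univ _, not_le.1 h6⟩)
  · intro v hv w hw hvw hs
    obtain ⟨c, hc, rfl⟩ := mem_image.1 hv
    obtain ⟨c', hc', rfl⟩ := mem_image.1 hw
    apply hvw
    have h7 : c = c' := by
      rw [← Quotient.out_eq c, ← Quotient.out_eq c']
      exact Quotient.sound hs
    rw [h7]

end Pool.Agent.N785.PC
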