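import Pool.Agent.N785.PC.Stmts
import Pool.Agent.Y372.PC.Breg
import Pool.Agent.Y372.PC.Asym

/-!
# Project PC (helper785), task FC2: Bregman's inequality for permutations with a prescribed part
helper694.
-/

set_option autoImplicit false
set_option maxHeartbeats 400000

namespace Pool.Agent.N785.PC

open Finset

namespace FC2_

open Classical in
/-- Bregman's inequality over an arbitrary finite type -/
theorem breg_type {β : Type} [Fintype β] (S : β → Finset β) :
    ((univ.filter fun σ : Equiv.Perm β => ∀ x, σ x ∈ S x).card : ℝ) ≤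
      Real.exp (∑ i, Real.log ((S i).card.factorial : ℝ) / (S i).card) := by
  let e : β ≃ Fin (Fintype.card β) := Fintype.equivFin β
  let S' : Fin (Fintype.card β) → Finset (Fin (Fintype.card β)) :=
    fun i => (S (e.symm i)).map e.toEmbedding
  have h := Pool.Agent.Y372.PC.bregman S'
  have hc : ∀ i, (S' i).card = (S (e.symm i)).card := fun i => card_map _
  have h1 : ∑ i, Real.log ((S' i).card.factorial : ℝ) / (S' i).card =
      ∑ i, Real.log ((S i).card.factorial : ℝ) / (S i).card := by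
    simp only [hc]
    exact e.symm.sum_comp (fun i => Real.log ((S i).card.factorial : ℝ) / (S i).card)
  rw [h1] at h
  refine le_trans ?_ h
  have h2 : (univ.filter fun σ : Equiv.Perm β => ∀ x, σ x ∈ S x).card ≤
      (Pool.Agent.Y372.PC.adm S').card := by
    refine card_le_card_of_injOn (fun σ => e.permCongr σ) ?_ e.permCongr.injective.injOn
    intro σ hσ
    rw [mem_coe, mem_filter] at hσ
    rw [mem_coe, Pool.Agent.Y372.PC.adm, mem_filter]
    refine ⟨mem_univ _, fun i => ?_⟩
    rw [Equiv.permCongr_apply]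
    exact mem_map_of_mem e.toEmbedding (hσ.2 (e.symm i))
  exact_mod_cast h2

/-- one summand -/
theorem term {k s t : ℕ} (hk : 1 ≤ k) (hst : s + t = k) (hs : k ≤ 2 * s) :
    Real.log (s.factorial : ℝ) / s ≤
      Real.log k - 1 + 2 * (1 + Real.log k) / k - (t : ℝ) / k := by
  have hs1 : 1 ≤ s := by omega
  have hk0 : (0 : ℝ) < k := by exact_mod_cast hk
  have hs0 : (0 : ℝ) < s := by exact_mod_cast hs1
  have h1 := Pool.Agent.Y372.PC.gf_up s hs1
  unfold Pool.Agent.Y372.PC.gf at h1
  have hst' : (s : ℝ) + t = k := by exact_mod_cast hst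
  have hs' : (k : ℝ) ≤ 2 * s := by exact_mod_cast hs
  have ht0 : (0 : ℝ) ≤ t := Nat.cast_nonneg _
  have h2 : Real.log s ≤ Real.log k - (t : ℝ) / k := by
    have h3 := Real.log_le_sub_one_of_pos (show (0 : ℝ) < s / k by positivity)
    rw [Real.log_div hs0.ne' hk0.ne'] at h3
    have h4 : (s : ℝ) / k - 1 = -((t : ℝ) / k) := by
      field_simp
      linarith
    linarith
  have h5 : Real.log s ≤ Real.log k := Real.log_le_log hs0 (by linarith)
  have hl : 0 ≤ Real.log k := Real.log_nonneg (by exact_mod_cast hk)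
  have hl' : 0 ≤ Real.log s := Real.log_nonneg (by exact_mod_cast hs1)
  have h6 : (1 + Real.log s) / s ≤ 2 * (1 + Real.log k) / k := by
    rw [div_le_div_iff₀ hs0 hk0]
    nlinarith
  linarith

/-- invariant sets -/
theorem inv_compl {α : Type} (U : Finset α) (σ : Equiv.Perm α) (h : ∀ x ∈ U, σ x ∈ U) (x : α) :
    σ x ∉ U ↔ x ∉ U := by
  classical
  have himg : U.image σ = U := by
    apply eq_of_subset_of_card_le
    · intro y hy
      obtain ⟨z, hz, rfl⟩ := mem_image.1 hy
      exact h z hz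
    · rw [card_image_of_injective _ σ.injective]
  rw [not_iff_not]
  constructor
  · intro h1
    rw [← himg] at h1
    obtain ⟨z, hz, hzx⟩ := mem_image.1 h1
    rwa [← σ.injective hzx]
  · exact h x

/-- the restricted sets -/
noncomputable def S1 {α : Type} (S : α → Finset α) (U : Finset α) (x : {x : α // x ∉ U}) :
    Finset {x : α // x ∉ U} := by
  classical exact (S x.1).subtype (fun y => y ∉ U)

theorem mem_S1 {α : Type} {S : α → Finset α} {U : Finset α} {x y : {x : α // x ∉ U}} :
    y ∈ S1 S U x ↔ y.1 ∈ S x.1 := by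
  classical
  rw [S1, mem_subtype]

open Classical in
theorem card_S1 {α : Type} (S : α → Finset α) (U : Finset α) (x : {x : α // x ∉ U}) :
    (S1 S U x).card + (S x.1 ∩ U).card = (S x.1).card := by
  have h1 : (S1 S U x).card = (S x.1 \ U).card := by
    rw [S1, card_subtype]
    congr 1
    ext y
    rw [mem_filter, mem_sdiff]
  rw [h1, card_sdiff_add_card_inter]

open Classical in
/-- the number of the permutations -/
theorem hcard {α : Type} [Fintype α] (S : α → Finset α) (U : Finset α) (ρ : α → α) :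
    (univ.filter fun σ : Equiv.Perm α => (∀ x, σ x ∈ S x) ∧ (∀ x ∈ U, σ x = ρ x) ∧
      ∀ x ∈ U, σ x ∈ U).card ≤
    (univ.filter fun σ : Equiv.Perm {x : α // x ∉ U} => ∀ x, σ x ∈ S1 S U x).card := by
  refine card_le_card_of_injOn
    (fun σ => if h : ∀ x, σ x ∉ U ↔ x ∉ U then σ.subtypePerm h else 1) ?_ ?_
  · intro σ hσ
    rw [mem_coe, mem_filter] at hσ
    obtain ⟨-, h1, h2, h3⟩ := hσ
    rw [mem_coe, mem_filter]
    refine ⟨mem_univ _, fun x => ?_⟩
    simp only [dif_pos (inv_compl U σ h3)]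
    rw [mem_S1]
    exact h1 x.1
  · intro σ hσ τ hτ hστ
    rw [mem_coe, mem_filter] at hσ hτ
    obtain ⟨-, h1, h2, h3⟩ := hσ
    obtain ⟨-, h1', h2', h3'⟩ := hτ
    simp only [dif_pos (inv_compl U σ h3), dif_pos (inv_compl U τ h3')] at hστ
    ext x
    by_cases hx : x ∈ U
    · rw [h2 x hx, h2' x hx]
    · have h4 := congrArg (fun π : Equiv.Perm {x : α // x ∉ U} => (π ⟨x, hx⟩ : α)) hστ
      exact h4

open Classical in
/-- double counting -/
theorem hdc {α : Type} [Fintype α] (S : α → Finset α) (k : ℕ)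
    (hcol : ∀ y, (univ.filter fun x => y ∈ S x).card = k) (U : Finset α) :
    (U.card : ℝ) * (k - U.card) ≤ ∑ x : {x : α // x ∉ U}, ((S x.1 ∩ U).card : ℝ) := by
  have h1 : ∑ x : {x : α // x ∉ U}, (S x.1 ∩ U).card =
      ∑ x ∈ univ.filter (fun x => x ∉ U), (S x ∩ U).card := by
    rw [← Finset.sum_subtype (univ.filter (fun x => x ∉ U)) (by simp) (fun x => (S x ∩ U).card)]
  have h2 : ∑ x ∈ univ.filter (fun x => x ∉ U), (S x ∩ U).card =
      ∑ y ∈ U, (univ.filter fun x => x ∉ U ∧ y ∈ S x).card := by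
    have h3 : ∀ x, (S x ∩ U).card = ∑ y ∈ U, if y ∈ S x then 1 else 0 := by
      intro x
      rw [← card_filter]
      congr 1
      ext y
      rw [mem_inter, mem_filter, and_comm]
    rw [sum_congr rfl fun x _ => h3 x, sum_comm]
    refine sum_congr rfl fun y _ => ?_
    rw [← card_filter, filter_filter]
  have h4 : ∀ y ∈ U, k ≤ (univ.filter fun x => x ∉ U ∧ y ∈ S x).card + U.card := by
    intro y _
    rw [← hcol y]
    refine (card_le_card ?_).trans (card_union_le _ _)
    intro x hx
    rw [mem_filter] at hx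
    rw [mem_union, mem_filter]
    by_cases hxU : x ∈ U
    · exact Or.inr hxU
    · exact Or.inl ⟨mem_univ _, hxU, hx.2⟩
  have h5 : (∑ x : {x : α // x ∉ U}, ((S x.1 ∩ U).card : ℝ)) =
      ∑ y ∈ U, ((univ.filter fun x => x ∉ U ∧ y ∈ S x).card : ℝ) := by
    exact_mod_cast h1.trans h2
  rw [h5, ← nsmul_eq_mul]
  refine card_nsmul_le_sum _ _ _ fun y hy => ?_
  have h6 := h4 y hy
  have h7 : (k : ℝ) ≤ ((univ.filter fun x => x ∉ U ∧ y ∈ S x).card : ℝ) + U.card := by
    exact_mod_cast h6
  linarith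

/-- the arithmetic of the exponent -/
theorem arith {n L T l k : ℝ} (hk : 0 < k) (hl : 0 ≤ l) (hL : 0 ≤ L) (h : L * (k - L) ≤ T) :
    (n - L) * (l - 1 + 2 * (1 + l) / k) - T / k ≤
      (n - L) * l + (-n + L ^ 2 / k + 2 * n * (1 + l) / k) := by
  have h2 : L * (k - L) / k ≤ T / k := div_le_div_of_nonneg_right h hk.le
  have h4 : L * (k - L) / k = L - L ^ 2 / k := by
    field_simp
  have h5 : 0 ≤ L * (2 * (1 + l) / k) := by positivity
  have h6 : 2 * n * (1 + l) / k = n * (2 * (1 + l) / k) := by ring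
  rw [h6]
  rw [h4] at h2
  linarith

open Classical in
/-- the exponent -/
theorem hexp {α : Type} [Fintype α] (S : α → Finset α) (k : ℕ) (hk : 1 ≤ k)
    (hrow : ∀ x, (S x).card = k) (hcol : ∀ y, (univ.filter fun x => y ∈ S x).card = k)
    (U : Finset α) (hU : 2 * U.card ≤ k) :
    ∑ i : {x : α // x ∉ U}, Real.log ((S1 S U i).card.factorial : ℝ) / (S1 S U i).card ≤
      ((Fintype.card α - U.card : ℕ) : ℝ) * Real.log k +
      (-(Fintype.card α : ℝ) + (U.card : ℝ) ^ 2 / k +
      2 * Fintype.card α * (1 + Real.log k) / k) := by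
  have hk0 : (0 : ℝ) < k := by exact_mod_cast hk
  have hsz : ∀ x : {x : α // x ∉ U}, (S1 S U x).card + (S x.1 ∩ U).card = k := by
    intro x
    rw [card_S1, hrow]
  have hsz2 : ∀ x : {x : α // x ∉ U}, k ≤ 2 * (S1 S U x).card := by
    intro x
    have h1 := hsz x
    have h2 : (S x.1 ∩ U).card ≤ U.card := card_le_card inter_subset_right
    omega
  have hcβ : Fintype.card {x : α // x ∉ U} = Fintype.card α - U.card := by
    have := Fintype.card_subtype_compl (fun x => x ∈ U)
    rw [Fintype.card_coe] at this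
    exact this
  have hUn : U.card ≤ Fintype.card α := card_le_univ U
  have h1 : ∑ i : {x : α // x ∉ U}, Real.log ((S1 S U i).card.factorial : ℝ) / (S1 S U i).card ≤
      ∑ i : {x : α // x ∉ U}, (Real.log k - 1 + 2 * (1 + Real.log k) / k -
        ((S i.1 ∩ U).card : ℝ) / k) :=
    sum_le_sum fun i _ => term hk (hsz i) (hsz2 i)
  refine h1.trans ?_
  rw [sum_sub_distrib, sum_const, nsmul_eq_mul, card_univ, hcβ, ← sum_div]
  have h3 : ((Fintype.card α - U.card : ℕ) : ℝ) = Fintype.card α - U.card := by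
    rw [Nat.cast_sub hUn]
  rw [h3]
  exact arith hk0 (Real.log_nonneg (by exact_mod_cast hk)) (Nat.cast_nonneg _) (hdc S k hcol U)

/-- the last step -/
theorem fin_ {A B n L : ℕ} {X E k : ℝ} (hk : 0 < k) (h1 : A ≤ B) (h2 : (B : ℝ) ≤ Real.exp X)
    (h3 : X ≤ ((n - L : ℕ) : ℝ) * Real.log k + E) : (A : ℝ) ≤ k ^ (n - L) * Real.exp E := by
  refine ((Nat.cast_le.2 h1).trans (h2.trans (Real.exp_le_exp.2 h3))).trans (le_of_eq ?_)
  rw [Real.exp_add, mul_comm (((n - L : ℕ) : ℝ)), Real.exp_mul,
    Real.exp_log hk, Real.rpow_natCast]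

/-- independence of the instances -/
theorem card_filter_inst {β : Type} (i j : Fintype β) (p : β → Prop) (d e : DecidablePred p) :
    (@Finset.filter β p d (@Finset.univ β i)).card = (@Finset.filter β p e (@Finset.univ β j)).card := by
  have h1 : i = j := Subsingleton.elim _ _
  subst h1
  have h2 : d = e := Subsingleton.elim _ _
  subst h2
  rfl

end FC2_

open FC2_ in
open Classical in
theorem t_FC2 : S_FC2 := by
  intro α _ S k hk hrow hcol U ρ hU
  have hk0 : (0 : ℝ) < k := by exact_mod_cast hk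
  have h1 := hcard S U ρ
  have h2 := breg_type (S1 S U)
  have h3 := hexp S k hk hrow hcol U hU
  have h4 := fin_ (X := ∑ i : {x : α // x ∉ U},
    Real.log ((S1 S U i).card.factorial : ℝ) / (S1 S U i).card) hk0 h1
    (le_of_eq_of_le (congrArg (fun n : ℕ => (n : ℝ)) (card_filter_inst _ _ _ _ _)) h2) h3
  exact le_of_eq_of_le (congrArg (fun n : ℕ => (n : ℝ)) (card_filter_inst _ _ _ _ _)) h4

end Pool.Agent.N785.PC
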