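import Pool.Agent.N785.PC.Stmts

/-!
# Project PC, part FC3: the union bound over the short cycles. By helper488.
-/

set_option autoImplicit false

namespace Pool.Agent.N785.PC

open Finset

namespace FC3_

/-- the orbit of `x` as a list -/
def wl {α : Type} (f : α → α) : ℕ → α → List α
  | 0, _ => []
  | r + 1, x => f x :: wl f r (f x)

theorem wl_eq {α : Type} (f g : α → α) : ∀ (r : ℕ) (x : α), wl f r x = wl g r x →
    ∀ i ≤ r, f^[i] x = g^[i] x := by
  intro r
  induction r with
  | zero =>
    intro x _ i hi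
    rw [Nat.le_zero.1 hi]
    rfl
  | succ r ih =>
    intro x h i hi
    rw [wl, wl, List.cons.injEq] at h
    obtain ⟨h1, h2⟩ := h
    cases i with
    | zero => rfl
    | succ i =>
      rw [Function.iterate_succ_apply, Function.iterate_succ_apply, ← h1]
      rw [← h1] at h2
      exact ih (f x) h2 i (by omega)

open Classical in
/-- the words -/
noncomputable def Wd {α : Type} (S : α → Finset α) : ℕ → α → Finset (List α)
  | 0, _ => {[]}
  | r + 1, x => (S x).biUnion fun y => (Wd S r y).image (List.cons y)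

open Classical in
theorem wl_mem {α : Type} (S : α → Finset α) (f : α → α) (hf : ∀ x, f x ∈ S x) :
    ∀ (r : ℕ) (x : α), wl f r x ∈ Wd S r x := by
  intro r
  induction r with
  | zero => intro x; simp [wl, Wd]
  | succ r ih =>
    intro x
    rw [wl, Wd, mem_biUnion]
    exact ⟨f x, hf x, mem_image.2 ⟨_, ih (f x), rfl⟩⟩

open Classical in
theorem Wd_card {α : Type} (S : α → Finset α) (k : ℕ) (hS : ∀ x, (S x).card = k) :
    ∀ (r : ℕ) (x : α), (Wd S r x).card ≤ k ^ r := by
  intro r
  induction r with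
  | zero => intro x; simp [Wd]
  | succ r ih =>
    intro x
    rw [Wd]
    refine card_biUnion_le.trans ?_
    calc ∑ y ∈ S x, ((Wd S r y).image (List.cons y)).card ≤ ∑ _y ∈ S x, k ^ r :=
          sum_le_sum fun y _ => card_image_le.trans (ih y)
      _ = k ^ (r + 1) := by rw [sum_const, hS, smul_eq_mul, pow_succ, mul_comm]

theorem per_pos {α : Type} [Fintype α] (σ : Equiv.Perm α) (v : α) :
    0 < Function.minimalPeriod σ v := by
  classical
  refine Function.minimalPeriod_pos_of_mem_periodicPts ?_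
  refine Function.mk_mem_periodicPts (orderOf_pos σ) ?_
  show (⇑σ)^[orderOf σ] v = v
  rw [Equiv.Perm.iterate_eq_pow, pow_orderOf_eq_one]
  rfl

theorem sameCycle_iter {α : Type} (σ : Equiv.Perm α) (v : α) (i : ℕ) :
    σ.SameCycle v ((⇑σ)^[i] v) := by
  refine ⟨i, ?_⟩
  rw [Equiv.Perm.iterate_eq_pow, zpow_natCast]

open Classical in
theorem claim {α : Type} [Fintype α] (S : α → Finset α) (k j ℓ : ℕ) (C : ℝ) (hC : 0 ≤ C)
    (hS : ∀ x, (S x).card = k) (hj : j * ℓ ≤ Fintype.card α)
    (H : ∀ (U : Finset α) (ρ : α → α), U.card ≤ j * ℓ →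
      ((univ.filter fun σ : Equiv.Perm α => (∀ x, σ x ∈ S x) ∧ (∀ x ∈ U, σ x = ρ x) ∧
        ∀ x ∈ U, σ x ∈ U).card : ℝ) ≤ (k : ℝ) ^ (Fintype.card α - U.card) * C) :
    ∀ (V : Finset α) (U : Finset α) (ρ : α → α), U.card + ℓ * V.card ≤ j * ℓ →
      (∀ v ∈ V, v ∉ U) →
      ((univ.filter fun σ : Equiv.Perm α => (∀ x, σ x ∈ S x) ∧ (∀ x ∈ U, σ x = ρ x) ∧
        (∀ x ∈ U, σ x ∈ U) ∧ (∀ v ∈ V, Function.minimalPeriod σ v ≤ ℓ) ∧
        ∀ v ∈ V, ∀ w ∈ V, v ≠ w → ¬ σ.SameCycle v w).card : ℝ) ≤
      (ℓ : ℝ) ^ V.card * (k : ℝ) ^ (Fintype.card α - U.card - V.card) * C := by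
  intro V
  induction V using Finset.induction_on with
  | empty =>
    intro U ρ hU _
    rw [card_empty, mul_zero, add_zero] at hU
    rw [card_empty, pow_zero, one_mul, Nat.sub_zero]
    refine le_trans ?_ (H U ρ hU)
    exact_mod_cast card_le_card fun σ hσ => by
      rw [mem_filter] at hσ ⊢
      exact ⟨hσ.1, hσ.2.1, hσ.2.2.1, hσ.2.2.2.1⟩
  | insert v V hv ih =>
    intro U ρ hU hVU
    rw [card_insert_of_notMem hv] at hU ⊢
    obtain ⟨A, hA⟩ : ∃ A : Finset (Equiv.Perm α), A = (univ.filter fun σ : Equiv.Perm α =>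
        (∀ x, σ x ∈ S x) ∧ (∀ x ∈ U, σ x = ρ x) ∧
        (∀ x ∈ U, σ x ∈ U) ∧ (∀ v' ∈ insert v V, Function.minimalPeriod σ v' ≤ ℓ) ∧
        ∀ v' ∈ insert v V, ∀ w ∈ insert v V, v' ≠ w → ¬ σ.SameCycle v' w) := ⟨_, rfl⟩
    rw [← hA]
    have hAm : ∀ σ ∈ A, (∀ x, σ x ∈ S x) ∧ (∀ x ∈ U, σ x = ρ x) ∧
        (∀ x ∈ U, σ x ∈ U) ∧ (∀ v' ∈ insert v V, Function.minimalPeriod σ v' ≤ ℓ) ∧
        ∀ v' ∈ insert v V, ∀ w ∈ insert v V, v' ≠ w → ¬ σ.SameCycle v' w := fun σ hσ => by
      rw [hA, mem_filter] at hσ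
      exact hσ.2
    -- the fibre bound
    have hfib : ∀ t ∈ Icc 1 ℓ, ∀ w ∈ Wd S (t - 1) v,
        ((((A.filter fun σ : Equiv.Perm α => Function.minimalPeriod σ v = t)).filter
          fun σ : Equiv.Perm α => wl σ (t - 1) v = w).card : ℝ) ≤
        (ℓ : ℝ) ^ V.card * (k : ℝ) ^ (Fintype.card α - (U.card + t) - V.card) * C := by
      intro t ht w _
      rw [mem_Icc] at ht
      rcases (((A.filter fun σ : Equiv.Perm α => Function.minimalPeriod σ v = t)).filter
          fun σ : Equiv.Perm α => wl σ (t - 1) v = w).eq_empty_or_nonempty with h0 | ⟨σ₀, h0⟩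
      · rw [h0, card_empty, Nat.cast_zero]
        positivity
      · rw [mem_filter, mem_filter] at h0
        obtain ⟨⟨hσ0, hp0⟩, hw0⟩ := h0
        obtain ⟨a1, a2, a3, a4, a5⟩ := hAm σ₀ hσ0
        have hvt : (⇑σ₀)^[t] v = v := by
          rw [← hp0]
          exact Function.isPeriodicPt_minimalPeriod _ _
        obtain ⟨P, hP⟩ : ∃ P : Finset α, P = (range t).image fun i => (⇑σ₀)^[i] v := ⟨_, rfl⟩
        have hPc : P.card = t := by
          rw [hP, card_image_of_injOn, card_range]
          intro i hi i' hi' h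
          rw [coe_range, Set.mem_Iio] at hi hi'
          exact Function.iterate_injOn_Iio_minimalPeriod (by rw [hp0]; exact hi)
            (by rw [hp0]; exact hi') h
        have hPU : Disjoint U P := by
          rw [disjoint_left]
          intro x hxU hxP
          rw [hP, mem_image] at hxP
          obtain ⟨i, hi, rfl⟩ := hxP
          rw [mem_range] at hi
          have hinv : ∀ m : ℕ, ∀ y ∈ U, (⇑σ₀)^[m] y ∈ U := by
            intro m
            induction m with
            | zero => intro y hy; exact hy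
            | succ m ihm =>
              intro y hy
              rw [Function.iterate_succ_apply]
              exact ihm _ (a3 y hy)
          have h1 := hinv (t - i) _ hxU
          rw [← Function.iterate_add_apply, Nat.sub_add_cancel hi.le, hvt] at h1
          exact hVU v (mem_insert_self v V) h1
        have hPinv : ∀ x ∈ P, σ₀ x ∈ P := by
          intro x hx
          rw [hP, mem_image] at hx
          obtain ⟨i, hi, rfl⟩ := hx
          rw [mem_range] at hi
          rw [← Function.iterate_succ_apply' (⇑σ₀) i v, hP, mem_image]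
          rcases Nat.lt_or_ge (i + 1) t with h | h
          · exact ⟨i + 1, mem_range.2 h, rfl⟩
          · have : i.succ = t := by omega
            rw [this, hvt]
            exact ⟨0, mem_range.2 (by omega), rfl⟩
        have hVU' : ∀ v' ∈ V, v' ∉ U ∪ P := by
          intro v' hv' h
          rw [mem_union] at h
          rcases h with h | h
          · exact hVU v' (mem_insert_of_mem hv') h
          · rw [hP, mem_image] at h
            obtain ⟨i, _, hi⟩ := h
            refine a5 v (mem_insert_self v V) v' (mem_insert_of_mem hv') ?_ ?_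
            · rintro rfl
              exact hv hv'
            · rw [← hi]
              exact sameCycle_iter σ₀ v i
        have hcU : (U ∪ P).card = U.card + t := by
          rw [card_union_of_disjoint hPU, hPc]
        have hle : (U ∪ P).card + ℓ * V.card ≤ j * ℓ := by
          rw [hcU]
          have e : ℓ * (V.card + 1) = ℓ * V.card + ℓ := by ring
          omega
        have key := ih (U ∪ P) (⇑σ₀) hle hVU'
        rw [hcU] at key
        refine le_trans ?_ key
        have : ((A.filter fun σ : Equiv.Perm α => Function.minimalPeriod σ v = t)).filter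
            (fun σ : Equiv.Perm α => wl σ (t - 1) v = w) ⊆ (univ.filter fun σ : Equiv.Perm α =>
              (∀ x, σ x ∈ S x) ∧ (∀ x ∈ U ∪ P, σ x = σ₀ x) ∧
              (∀ x ∈ U ∪ P, σ x ∈ U ∪ P) ∧ (∀ v' ∈ V, Function.minimalPeriod σ v' ≤ ℓ) ∧
              ∀ v' ∈ V, ∀ w ∈ V, v' ≠ w → ¬ σ.SameCycle v' w) := by
          intro σ hσ
          rw [mem_filter, mem_filter] at hσ
          obtain ⟨⟨hσA, hpσ⟩, hwσ⟩ := hσ
          obtain ⟨b1, b2, b3, b4, b5⟩ := hAm σ hσA
          have hit : ∀ i ≤ t - 1, (⇑σ)^[i] v = (⇑σ₀)^[i] v :=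
            wl_eq _ _ (t - 1) v (hwσ.trans hw0.symm)
          have hvt' : (⇑σ)^[t] v = v := by
            rw [← hpσ]
            exact Function.isPeriodicPt_minimalPeriod _ _
          have hag : ∀ x ∈ U ∪ P, σ x = σ₀ x := by
            intro x hx
            rw [mem_union] at hx
            rcases hx with hx | hx
            · rw [b2 x hx, a2 x hx]
            · rw [hP, mem_image] at hx
              obtain ⟨i, hi, rfl⟩ := hx
              rw [mem_range] at hi
              rw [← Function.iterate_succ_apply' (⇑σ₀) i v, ← hit i (by omega),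
                ← Function.iterate_succ_apply' (⇑σ) i v]
              rcases Nat.lt_or_ge (i + 1) t with h | h
              · exact hit (i + 1) (by omega)
              · have e : i + 1 = t := by omega
                show (⇑σ)^[i + 1] v = (⇑σ₀)^[i + 1] v
                rw [e, hvt, hvt']
          rw [mem_filter]
          refine ⟨mem_univ _, b1, hag, ?_, fun v' hv' => b4 v' (mem_insert_of_mem hv'),
            fun v' hv' w' hw' => b5 v' (mem_insert_of_mem hv') w' (mem_insert_of_mem hw')⟩
          intro x hx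
          rw [hag x hx]
          rw [mem_union] at hx ⊢
          rcases hx with hx | hx
          · exact Or.inl (a3 x hx)
          · exact Or.inr (hPinv x hx)
        exact_mod_cast card_le_card this
    -- the sum over the words
    have ht : ∀ t ∈ Icc 1 ℓ, ((A.filter fun σ : Equiv.Perm α => Function.minimalPeriod σ v = t).card : ℝ) ≤
        (ℓ : ℝ) ^ V.card * (k : ℝ) ^ (Fintype.card α - U.card - (V.card + 1)) * C := by
      intro t ht
      have hmaps : Set.MapsTo (fun σ : Equiv.Perm α => wl σ (t - 1) v)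
          (A.filter fun σ : Equiv.Perm α => Function.minimalPeriod σ v = t : Finset (Equiv.Perm α))
          (Wd S (t - 1) v : Finset (List α)) := by
        intro σ hσ
        rw [mem_coe, mem_filter] at hσ
        exact mem_coe.2 (wl_mem S _ (hAm σ hσ.1).1 _ _)
      rw [card_eq_sum_card_fiberwise hmaps, Nat.cast_sum]
      refine (sum_le_sum fun w hw => hfib t ht w hw).trans ?_
      rw [sum_const, nsmul_eq_mul]
      rw [mem_Icc] at ht
      have hW : ((Wd S (t - 1) v).card : ℝ) ≤ (k : ℝ) ^ (t - 1) := by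
        exact_mod_cast Wd_card S k hS (t - 1) v
      have hVl : V.card ≤ ℓ * V.card := Nat.le_mul_of_pos_left _ (by omega)
      have e0 : ℓ * (V.card + 1) = ℓ * V.card + ℓ := by ring
      have e : Fintype.card α - U.card - (V.card + 1) =
          (t - 1) + (Fintype.card α - (U.card + t) - V.card) := by omega
      have h0 : 0 ≤ (ℓ : ℝ) ^ V.card * (k : ℝ) ^ (Fintype.card α - (U.card + t) - V.card) * C := by
        positivity
      calc ((Wd S (t - 1) v).card : ℝ) *
          ((ℓ : ℝ) ^ V.card * (k : ℝ) ^ (Fintype.card α - (U.card + t) - V.card) * C)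
          ≤ (k : ℝ) ^ (t - 1) *
          ((ℓ : ℝ) ^ V.card * (k : ℝ) ^ (Fintype.card α - (U.card + t) - V.card) * C) :=
            mul_le_mul_of_nonneg_right hW h0
        _ = _ := by rw [e, pow_add]; ring
    -- the sum over the lengths
    have hmaps : Set.MapsTo (fun σ : Equiv.Perm α => Function.minimalPeriod σ v)
        (A : Finset (Equiv.Perm α)) (Icc 1 ℓ : Finset ℕ) := by
      intro σ hσ
      rw [mem_coe] at hσ
      exact mem_coe.2 (mem_Icc.2 ⟨per_pos σ v, (hAm σ hσ).2.2.2.1 v (mem_insert_self v V)⟩)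
    rw [card_eq_sum_card_fiberwise hmaps, Nat.cast_sum]
    refine (sum_le_sum fun t h => ht t h).trans (le_of_eq ?_)
    rw [sum_const, nsmul_eq_mul, Nat.card_Icc, Nat.add_sub_cancel, pow_succ]
    ring

end FC3_

open Classical in
theorem t_FC3 : S_FC3 := by
  intro α _ S k j ℓ C _ hC hS hj H
  have h1 : (univ.filter fun σ : Equiv.Perm α => (∀ x, σ x ∈ S x) ∧ ∃ V : Finset α, V.card = j ∧
      (∀ v ∈ V, Function.minimalPeriod σ v ≤ ℓ) ∧ ∀ v ∈ V, ∀ w ∈ V, v ≠ w → ¬ σ.SameCycle v w) ⊆
      (powersetCard j (univ : Finset α)).biUnion fun V => univ.filter fun σ : Equiv.Perm α =>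
        (∀ x, σ x ∈ S x) ∧ (∀ x ∈ (∅ : Finset α), σ x = id x) ∧
        (∀ x ∈ (∅ : Finset α), σ x ∈ (∅ : Finset α)) ∧
        (∀ v ∈ V, Function.minimalPeriod σ v ≤ ℓ) ∧
        ∀ v ∈ V, ∀ w ∈ V, v ≠ w → ¬ σ.SameCycle v w := by
    intro σ hσ
    rw [mem_filter] at hσ
    obtain ⟨-, hσ, V, hV, h2, h3⟩ := hσ
    rw [mem_biUnion]
    refine ⟨V, mem_powersetCard.2 ⟨subset_univ _, hV⟩, mem_filter.2 ⟨mem_univ _, hσ, ?_, ?_, h2, h3⟩⟩
    · intro x hx; exact absurd hx (notMem_empty x)
    · intro x hx; exact absurd hx (notMem_empty x)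
  have h2 := (card_le_card h1).trans card_biUnion_le
  have h3 : ((univ.filter fun σ : Equiv.Perm α => (∀ x, σ x ∈ S x) ∧ ∃ V : Finset α, V.card = j ∧
      (∀ v ∈ V, Function.minimalPeriod σ v ≤ ℓ) ∧
      ∀ v ∈ V, ∀ w ∈ V, v ≠ w → ¬ σ.SameCycle v w).card : ℝ) ≤
      ∑ V ∈ powersetCard j (univ : Finset α), ((univ.filter fun σ : Equiv.Perm α =>
        (∀ x, σ x ∈ S x) ∧ (∀ x ∈ (∅ : Finset α), σ x = id x) ∧
        (∀ x ∈ (∅ : Finset α), σ x ∈ (∅ : Finset α)) ∧
        (∀ v ∈ V, Function.minimalPeriod σ v ≤ ℓ) ∧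
        ∀ v ∈ V, ∀ w ∈ V, v ≠ w → ¬ σ.SameCycle v w).card : ℝ) := by
    exact_mod_cast h2
  refine h3.trans ?_
  calc _ ≤ ∑ _V ∈ powersetCard j (univ : Finset α),
        ((ℓ : ℝ) ^ j * (k : ℝ) ^ (Fintype.card α - j) * C) := by
        refine sum_le_sum fun V hV => ?_
        rw [mem_powersetCard] at hV
        have := FC3_.claim S k j ℓ C hC hS hj H V ∅ id
          (by rw [card_empty, hV.2, zero_add, mul_comm]) (fun v _ => notMem_empty v)
        rw [card_empty, Nat.sub_zero, hV.2] at this
        exact this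
    _ = _ := by
        rw [sum_const, nsmul_eq_mul, card_powersetCard, card_univ]
        ring

end Pool.Agent.N785.PC
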