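import Pool.Agent.N785.PC.Stmts
import Pool.Agent.Helper507.PNT

/-!
# Project PC: the gadgets (helper697)
-/

set_option autoImplicit false

namespace Pool.Agent.N785.PC

namespace GAD_

open Finset Filter Topology

/-- the primes `p` with `a m < 10 p ≤ (a + 1) m` -/
def S (a m : ℕ) : Finset ℕ :=
  (range (3 * m)).filter fun p => p.Prime ∧ a * m < 10 * p ∧ 10 * p ≤ (a + 1) * m

theorem theta_near : ∀ᶠ x : ℝ in atTop,
    (1 - 1 / 200) * x ≤ Chebyshev.theta x ∧ Chebyshev.theta x ≤ (1 + 1 / 200) * x := by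
  have h := Metric.tendsto_nhds.1 Pool.Agent.Helper507.PNT.theta_div_tendsto (1 / 200) (by norm_num)
  filter_upwards [h, eventually_gt_atTop 0] with x hx hx0
  rw [Real.dist_eq, abs_lt] at hx
  constructor
  · have h1 : (1 - 1 / 200 : ℝ) ≤ Chebyshev.theta x / x := by linarith [hx.1]
    rwa [le_div_iff₀ hx0] at h1
  · have h1 : Chebyshev.theta x / x ≤ (1 + 1 / 200 : ℝ) := by linarith [hx.2]
    rwa [div_le_iff₀ hx0] at h1

theorem cnt_lower (a : ℕ) (ha1 : 1 ≤ a) (ha : a ≤ 24) : ∀ᶠ m : ℕ in atTop,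
    (m : ℝ) / (40 * Real.log m) ≤ ((S a m).card : ℝ) := by
  have ha1' : (1 : ℝ) ≤ a := by exact_mod_cast ha1
  have ha' : (a : ℝ) ≤ 24 := by exact_mod_cast ha
  have t1 : Tendsto (fun m : ℕ => (a : ℝ) * m / 10) atTop atTop :=
    (tendsto_natCast_atTop_atTop.const_mul_atTop (by linarith)).atTop_div_const (by norm_num)
  have t2 : Tendsto (fun m : ℕ => ((a : ℝ) + 1) * m / 10) atTop atTop :=
    (tendsto_natCast_atTop_atTop.const_mul_atTop (by linarith)).atTop_div_const (by norm_num)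
  filter_upwards [t1.eventually theta_near, t2.eventually theta_near, eventually_ge_atTop 3] with
    m h1 h2 hm
  have hm0 : (3 : ℝ) ≤ m := by exact_mod_cast hm
  have hL : 0 < Real.log m := Real.log_pos (by linarith)
  set x1 : ℝ := (a : ℝ) * m / 10 with hx1
  set x2 : ℝ := ((a : ℝ) + 1) * m / 10 with hx2
  have hx12 : x1 ≤ x2 := by
    rw [hx1, hx2]
    have : (a : ℝ) * m ≤ ((a : ℝ) + 1) * m := by nlinarith
    linarith
  have hx10 : 0 ≤ x1 := by positivity
  have hx20 : 0 ≤ x2 := by positivity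
  have hsub : (Ioc 0 ⌊x1⌋₊).filter Nat.Prime ⊆ (Ioc 0 ⌊x2⌋₊).filter Nat.Prime :=
    filter_subset_filter _ (Ioc_subset_Ioc_right (Nat.floor_le_floor hx12))
  have hsum := Finset.sum_sdiff (f := fun p : ℕ => Real.log p) hsub
  have hsd : (Ioc 0 ⌊x2⌋₊).filter Nat.Prime \ (Ioc 0 ⌊x1⌋₊).filter Nat.Prime ⊆ S a m := by
    intro p hp
    rw [Finset.mem_sdiff, mem_filter, mem_filter, mem_Ioc, mem_Ioc] at hp
    obtain ⟨⟨⟨hp0, hp2⟩, hpp⟩, hp1⟩ := hp
    have hp1' : ¬ p ≤ ⌊x1⌋₊ := fun h => hp1 ⟨⟨hp0, h⟩, hpp⟩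
    have e1 : x1 < p := by
      rw [not_le] at hp1'
      exact (Nat.floor_lt hx10).1 hp1'
    have e2 : (p : ℝ) ≤ x2 := (Nat.le_floor_iff hx20).1 hp2
    have e3 : a * m < 10 * p := by
      have : (a : ℝ) * m < 10 * p := by rw [hx1] at e1; linarith
      exact_mod_cast this
    have e4 : 10 * p ≤ (a + 1) * m := by
      have : 10 * (p : ℝ) ≤ ((a : ℝ) + 1) * m := by rw [hx2] at e2; linarith
      exact_mod_cast this
    unfold S
    rw [mem_filter, mem_range]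
    refine ⟨?_, hpp, e3, e4⟩
    have e5 : (a + 1) * m ≤ 25 * m := Nat.mul_le_mul_right m (by omega)
    omega
  have hlog : ∀ p ∈ S a m, Real.log p ≤ 2 * Real.log m := by
    intro p hp
    unfold S at hp
    rw [mem_filter, mem_range] at hp
    have hp0 : 0 < p := hp.2.1.pos
    have e1 : (p : ℝ) ≤ (m : ℝ) ^ 2 := by
      have : (p : ℝ) ≤ 3 * m := by exact_mod_cast hp.1.le
      nlinarith
    have e2 := Real.log_le_log (by exact_mod_cast hp0) e1
    rwa [Real.log_pow, Nat.cast_ofNat] at e2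
  have hle : ∑ p ∈ (Ioc 0 ⌊x2⌋₊).filter Nat.Prime \ (Ioc 0 ⌊x1⌋₊).filter Nat.Prime, Real.log p ≤
      (S a m).card * (2 * Real.log m) := by
    calc _ ≤ ∑ p ∈ S a m, Real.log p :=
          Finset.sum_le_sum_of_subset_of_nonneg hsd fun p _ _ => Real.log_natCast_nonneg p
      _ ≤ ∑ _p ∈ S a m, 2 * Real.log m := Finset.sum_le_sum hlog
      _ = _ := by rw [sum_const, nsmul_eq_mul]
  have hth : Chebyshev.theta x2 ≤ Chebyshev.theta x1 + (S a m).card * (2 * Real.log m) := by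
    unfold Chebyshev.theta
    rw [← hsum]
    linarith
  have hmain : (m : ℝ) / 20 ≤ (S a m).card * (2 * Real.log m) := by
    have e1 : (1 - 1 / 200) * x2 - (1 + 1 / 200) * x1 ≤ (S a m).card * (2 * Real.log m) := by
      linarith [h1.2, h2.1]
    refine le_trans ?_ e1
    rw [hx1, hx2]
    nlinarith [mul_le_mul_of_nonneg_right ha' (by linarith : (0 : ℝ) ≤ m)]
  rw [div_le_iff₀ (by positivity)]
  linarith

end GAD_

open Finset Filter Topology GAD_ in
/-- the gadgets -/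
theorem t_GAD : S_GAD := by
  have hlo1 := (Real.isLittleO_pow_log_id_atTop (n := 2)).bound (c := 1 / 100000) (by norm_num)
  have hlo2 : ∀ᶠ m : ℕ in atTop, 100000 * Real.log m ^ 2 ≤ m := by
    have h := tendsto_natCast_atTop_atTop (R := ℝ) |>.eventually hlo1
    filter_upwards [h] with m hm
    rw [id_eq, Real.norm_of_nonneg (by positivity), Real.norm_of_nonneg (by positivity)] at hm
    linarith
  have hL : ∀ᶠ m : ℕ in atTop, 200 ≤ Real.log m :=
    (Real.tendsto_log_atTop.comp (tendsto_natCast_atTop_atTop (R := ℝ))).eventually_ge_atTop 200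
  obtain ⟨m₀, h⟩ := eventually_atTop.1 (((cnt_lower 18 (by norm_num) (by norm_num)).and
    (cnt_lower 24 (by norm_num) (by norm_num))).and ((hlo2.and hL).and (eventually_ge_atTop 200)))
  refine ⟨m₀, fun m hm => ?_⟩
  obtain ⟨⟨h18, h24⟩, ⟨h2, h3⟩, h4⟩ := h m hm
  have hm0 : (200 : ℝ) ≤ m := by exact_mod_cast h4
  set L : ℝ := Real.log m with hLd
  have hL0 : 0 < L := by linarith
  have hr : (rr m : ℝ) ≤ m / L ^ 4 := Nat.floor_le (by positivity)
  have hL2 : 40000 ≤ L ^ 2 := by nlinarith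
  have hL4 : L ^ 4 = L ^ 2 * L ^ 2 := by ring
  have hL4' : 40000 * L ^ 2 ≤ L ^ 4 := by rw [hL4]; nlinarith
  -- the pigeonhole principle
  set T : Finset (ℕ × ℕ) := S 18 m ×ˢ S 24 m with hT
  have hmem : ∀ z ∈ T, z.1.Prime ∧ 18 * m < 10 * z.1 ∧ 10 * z.1 ≤ 19 * m ∧ z.2.Prime ∧
      24 * m < 10 * z.2 ∧ 10 * z.2 ≤ 25 * m := by
    intro z hz
    rw [hT, mem_product] at hz
    obtain ⟨a1, a2⟩ := hz
    unfold S at a1 a2
    rw [mem_filter] at a1 a2
    exact ⟨a1.2.1, a1.2.2.1, a1.2.2.2, a2.2.1, a2.2.2.1, a2.2.2.2⟩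
  have hmaps : ∀ z ∈ T, z.2 - z.1 ∈ range (m + 1) := by
    intro z hz
    have := hmem z hz
    rw [mem_range]
    omega
  have hcard : (range (m + 1)).card * (2 * rr m + 5) < T.card := by
    rw [card_range, hT, card_product]
    have e1 : ((m + 1 : ℕ) : ℝ) * ((2 * rr m + 5 : ℕ) : ℝ) <
        ((S 18 m).card : ℝ) * ((S 24 m).card : ℝ) := by
      have hlow : (m / (40 * L)) * (m / (40 * L)) ≤
          ((S 18 m).card : ℝ) * ((S 24 m).card : ℝ) :=
        mul_le_mul h18 h24 (by positivity) (Nat.cast_nonneg _)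
      refine lt_of_lt_of_le ?_ hlow
      push_cast
      have f1 : ((m : ℝ) + 1) * (2 * rr m + 5) ≤ (2 * m) * (2 * (m / L ^ 4) + 5) := by
        refine mul_le_mul (by linarith) (by linarith) (by positivity) (by positivity)
      have f2 : (m : ℝ) ^ 2 / L ^ 4 ≤ m ^ 2 / (40000 * L ^ 2) :=
        div_le_div_of_nonneg_left (by positivity) (by positivity) hL4'
      have f3 : (10 * m : ℝ) ≤ m ^ 2 / (10000 * L ^ 2) := by
        rw [le_div_iff₀ (by positivity)]
        nlinarith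
      have f4 : (2 * m : ℝ) * (2 * (m / L ^ 4) + 5) = 4 * (m ^ 2 / L ^ 4) + 10 * m := by ring
      have f5 : (m / (40 * L)) * (m / (40 * L)) = (m : ℝ) ^ 2 / L ^ 2 / 1600 := by
        field_simp
        norm_num
      have f6 : (m : ℝ) ^ 2 / (40000 * L ^ 2) = (m : ℝ) ^ 2 / L ^ 2 / 40000 := by
        field_simp
      have f7 : (m : ℝ) ^ 2 / (10000 * L ^ 2) = (m : ℝ) ^ 2 / L ^ 2 / 10000 := by
        field_simp
      have f8 : 0 < (m : ℝ) ^ 2 / L ^ 2 := by positivity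
      rw [f4] at f1
      rw [f6] at f2
      rw [f7] at f3
      rw [f5]
      linarith
    exact_mod_cast e1
  obtain ⟨h, -, hh⟩ := exists_lt_card_fiber_of_mul_lt_card_of_maps_to hmaps hcard
  set F : Finset (ℕ × ℕ) := T.filter fun z => z.2 - z.1 = h with hF
  have hFm : ∀ z ∈ F, z.1.Prime ∧ 18 * m < 10 * z.1 ∧ 10 * z.1 ≤ 19 * m ∧ (z.1 + h).Prime ∧
      m ≤ 2 * h ∧ 10 * h ≤ 7 * m ∧ z.2 = z.1 + h := by
    intro z hz
    rw [hF, mem_filter] at hz
    obtain ⟨a1, a2, a3, a4, a5, a6⟩ := hmem z hz.1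
    have a7 := hz.2
    have a8 : z.2 = z.1 + h := by omega
    rw [← a8]
    exact ⟨a1, a2, a3, a4, by omega, by omega, rfl⟩
  have hFne : F.Nonempty := by
    rw [← card_pos]
    omega
  set G : Finset ℕ := F.image Prod.fst with hG
  have hGc : G.card = F.card := by
    refine card_image_of_injOn fun z hz z' hz' hzz => ?_
    have b1 := (hFm z hz).2.2.2.2.2.2
    have b2 := (hFm z' hz').2.2.2.2.2.2
    exact Prod.ext hzz (by rw [b1, b2, hzz])
  have hGne : G.Nonempty := hFne.image _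
  have hGm : ∀ p ∈ G, p.Prime ∧ 18 * m < 10 * p ∧ 10 * p ≤ 19 * m ∧ (p + h).Prime ∧
      m ≤ 2 * h ∧ 10 * h ≤ 7 * m := by
    intro p hp
    rw [hG, mem_image] at hp
    obtain ⟨z, hz, rfl⟩ := hp
    obtain ⟨a1, a2, a3, a4, a5, a6, -⟩ := hFm z hz
    exact ⟨a1, a2, a3, a4, a5, a6⟩
  obtain ⟨a1, a2, a3, a4, a5, a6⟩ := hGm _ (G.min'_mem hGne)
  obtain ⟨b1, b2, b3, b4, -, -⟩ := hGm _ (G.max'_mem hGne)
  have hIcc : G ⊆ Icc (G.min' hGne) (G.max' hGne) := fun p hp =>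
    mem_Icc.2 ⟨G.min'_le p hp, G.le_max' p hp⟩
  have hc := card_le_card hIcc
  rw [Nat.card_Icc, hGc] at hc
  refine ⟨G.min' hGne, G.max' hGne, h, ⟨h4, ?_, a1, b1, a4, b4, a2, ?_, b3, a5, a6⟩⟩
  · have e1 : (40 : ℝ) * rr m ≤ m := by
      have e2 : (m : ℝ) / L ^ 4 ≤ m / 40 :=
        div_le_div_of_nonneg_left (by positivity) (by norm_num) (by nlinarith)
      linarith
    exact_mod_cast e1
  · omega

end Pool.Agent.N785.PC
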