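import Pool.Agent.N785.PC.Stmts

/-!
# Project PC, leaf GGN: the number of admissible matchings `g`
-/

set_option autoImplicit false

namespace Pool.Agent.N785.PC

open Finset

namespace GGN_

theorem aa_inj (m : ℕ) : Function.Injective (aa m) := by
  intro i j h
  unfold aa at h
  omega

theorem aa_le {m r i : ℕ} (hi : i < r) : aa m i + 1 ≤ m + 2 * r := by
  unfold aa
  omega

theorem le_aa (m i : ℕ) : m ≤ aa m i := by
  unfold aa
  omega

theorem aa_odd (m i : ℕ) : aa m i % 2 = 1 := by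
  unfold aa
  omega

theorem card_Od (m : ℕ) : (Od m).card = m := by
  have h1 : Od m = (range m).image (fun i => 2 * i + 1) := by
    ext x
    simp only [Od, mem_filter, mem_Icc, mem_image, mem_range]
    constructor
    · rintro ⟨⟨h1, h2⟩, h3⟩
      exact ⟨x / 2, by omega, by omega⟩
    · rintro ⟨i, hi, rfl⟩
      omega
  rw [h1, card_image_of_injective _ (fun a b h => by
    have h2 : 2 * a + 1 = 2 * b + 1 := h
    omega), card_range]

theorem card_Ev (m : ℕ) : (Ev m).card = m := by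
  have h1 : Ev m = (range m).image (fun i => 2 * i + 2) := by
    ext x
    simp only [Ev, mem_filter, mem_Icc, mem_image, mem_range]
    constructor
    · rintro ⟨⟨h1, h2⟩, h3⟩
      exact ⟨x / 2 - 1, by omega, by omega⟩
    · rintro ⟨i, hi, rfl⟩
      omega
  rw [h1, card_image_of_injective _ (fun a b h => by
    have h2 : 2 * a + 2 = 2 * b + 2 := h
    omega), card_range]

/-- the removed odd numbers -/
def RA (m r h u : ℕ) : Finset ℕ := insert u ((range r).image (fun i => aa m i + h))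

/-- the removed even numbers -/
def RB (m r p v : ℕ) : Finset ℕ := insert v ((range r).image (fun i => p - aa m i))

/-- the values of `g` at the removed even numbers -/
def KK (p h u v y : ℕ) : ℕ := if y = v then u else p + h - y

theorem mem_RA {m r h u x : ℕ} : x ∈ RA m r h u ↔ x = u ∨ ∃ i < r, aa m i + h = x := by
  simp only [RA, mem_insert, mem_image, mem_range]

theorem mem_RB {m r p v x : ℕ} : x ∈ RB m r p v ↔ x = v ∨ ∃ i < r, p - aa m i = x := by
  simp only [RB, mem_insert, mem_image, mem_range]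

theorem mem_AA {m r x : ℕ} : x ∈ AA m r ↔ x ∈ Od m ∧ ∀ i < r, ¬ aa m i = x := by
  simp only [AA, mem_sdiff, mem_image, mem_range, not_exists, not_and]

theorem mem_BB {m r P x : ℕ} : x ∈ BB m r P ↔ x ∈ Ev m ∧ ∀ i < r, ¬ P - aa m i = x := by
  simp only [BB, mem_sdiff, mem_image, mem_range, not_exists, not_and]

theorem mem_Od {m x : ℕ} : x ∈ Od m ↔ (1 ≤ x ∧ x ≤ 2 * m) ∧ x % 2 = 1 := by
  simp only [Od, mem_filter, mem_Icc]

theorem mem_Ev {m x : ℕ} : x ∈ Ev m ↔ (1 ≤ x ∧ x ≤ 2 * m) ∧ x % 2 = 0 := by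
  simp only [Ev, mem_filter, mem_Icc]

section

variable {m r P p h u v : ℕ}

theorem parity (hG : Gad m r P p h) : P % 2 = 1 ∧ p % 2 = 1 ∧ h % 2 = 0 := by
  have h1 := hG.hm
  have h2 := hG.low
  have h3 := hG.sep
  have e1 := hG.P1.eq_two_or_odd
  have e2 := hG.p1.eq_two_or_odd
  have e3 := hG.Ph.eq_two_or_odd
  omega

theorem card_AA (hG : Gad m r P p h) : (AA m r).card = m - r := by
  have h1 : (range r).image (aa m) ⊆ Od m := by
    intro x hx
    obtain ⟨i, hi, rfl⟩ := mem_image.1 hx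
    have a1 := aa_le (m := m) (mem_range.1 hi)
    have a2 := le_aa m i
    have a3 := aa_odd m i
    have a4 := hG.hm
    have a5 := hG.hr
    rw [mem_Od]
    omega
  unfold AA
  rw [card_sdiff_of_subset h1, card_Od, card_image_of_injective _ (aa_inj m), card_range]

theorem card_BB (hG : Gad m r P p h) : (BB m r P).card = m - r := by
  obtain ⟨q1, q2, q3⟩ := parity hG
  have b1 := hG.hm
  have b2 := hG.hr
  have b3 := hG.low
  have b4 := hG.sep
  have b5 := hG.upp
  have h1 : (range r).image (fun i => P - aa m i) ⊆ Ev m := by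
    intro x hx
    obtain ⟨i, hi, rfl⟩ := mem_image.1 hx
    have a1 := aa_le (m := m) (mem_range.1 hi)
    have a2 := le_aa m i
    have a3 := aa_odd m i
    rw [mem_Ev]
    omega
  unfold BB
  rw [card_sdiff_of_subset h1, card_Ev, card_image_of_injOn, card_range]
  intro i hi j hj hij
  have a1 := aa_le (m := m) (mem_range.1 (mem_coe.1 hi))
  have a2 := aa_le (m := m) (mem_range.1 (mem_coe.1 hj))
  have hij' : P - aa m i = P - aa m j := hij
  apply aa_inj m
  omega

theorem RA_sub (hG : Gad m r P p h) (hE : Ends m u v) : RA m r h u ⊆ AA m r := by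
  obtain ⟨q1, q2, q3⟩ := parity hG
  have b1 := hG.hm
  have b2 := hG.hr
  have b6 := hG.h1
  have b7 := hG.h2
  have c1 := hE.u2
  have c2 := mem_Od.1 hE.u1
  intro x hx
  rw [mem_AA, mem_Od]
  rcases mem_RA.1 hx with rfl | ⟨i, hi, rfl⟩
  · refine ⟨c2, fun j hj => ?_⟩
    have a1 := aa_le (m := m) hj
    have a2 := le_aa m j
    omega
  · have a1 := aa_le (m := m) hi
    have a2 := le_aa m i
    have a3 := aa_odd m i
    refine ⟨by omega, fun j hj => ?_⟩
    have a4 := aa_le (m := m) hj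
    omega

theorem RB_sub (hG : Gad m r P p h) (hE : Ends m u v) : RB m r p v ⊆ BB m r P := by
  obtain ⟨q1, q2, q3⟩ := parity hG
  have b1 := hG.hm
  have b2 := hG.hr
  have b3 := hG.low
  have b4 := hG.sep
  have b5 := hG.upp
  have c1 := hE.v2
  have c2 := mem_Ev.1 hE.v1
  intro x hx
  rw [mem_BB, mem_Ev]
  rcases mem_RB.1 hx with rfl | ⟨i, hi, rfl⟩
  · refine ⟨c2, fun j hj => ?_⟩
    have a1 := aa_le (m := m) hj
    have a2 := le_aa m j
    omega
  · have a1 := aa_le (m := m) hi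
    have a2 := le_aa m i
    have a3 := aa_odd m i
    refine ⟨by omega, fun j hj => ?_⟩
    have a4 := aa_le (m := m) hj
    have a5 := le_aa m j
    omega

theorem card_RA (hG : Gad m r P p h) (hE : Ends m u v) : (RA m r h u).card = r + 1 := by
  have b1 := hG.hm
  have b2 := hG.hr
  have b6 := hG.h1
  have b7 := hG.h2
  have c1 := hE.u2
  unfold RA
  rw [card_insert_of_notMem, card_image_of_injective, card_range]
  · intro i j hij
    have hij' : aa m i + h = aa m j + h := hij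
    apply aa_inj m
    omega
  · intro hmem
    obtain ⟨i, hi, hiu⟩ := mem_image.1 hmem
    have a1 := aa_le (m := m) (mem_range.1 hi)
    have a2 := le_aa m i
    omega

theorem card_RB (hG : Gad m r P p h) (hE : Ends m u v) : (RB m r p v).card = r + 1 := by
  have b1 := hG.hm
  have b2 := hG.hr
  have b3 := hG.low
  have b4 := hG.sep
  have b5 := hG.upp
  have c1 := hE.v2
  unfold RB
  rw [card_insert_of_notMem, card_image_of_injOn, card_range]
  · intro i hi j hj hij
    have a1 := aa_le (m := m) (mem_range.1 (mem_coe.1 hi))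
    have a2 := aa_le (m := m) (mem_range.1 (mem_coe.1 hj))
    have hij' : p - aa m i = p - aa m j := hij
    apply aa_inj m
    omega
  · intro hmem
    obtain ⟨i, hi, hiv⟩ := mem_image.1 hmem
    have a1 := aa_le (m := m) (mem_range.1 hi)
    have a2 := le_aa m i
    omega

theorem KK_mem (hG : Gad m r P p h) {y : ℕ} (hy : y ∈ RB m r p v) :
    KK p h u v y ∈ RA m r h u := by
  have b1 := hG.hm
  have b2 := hG.hr
  have b3 := hG.low
  have b4 := hG.sep
  unfold KK
  split_ifs with hyv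
  · exact mem_RA.2 (Or.inl rfl)
  · rcases mem_RB.1 hy with rfl | ⟨i, hi, rfl⟩
    · exact absurd rfl hyv
    · refine mem_RA.2 (Or.inr ⟨i, hi, ?_⟩)
      have a1 := aa_le (m := m) hi
      omega

theorem KK_gad (hG : Gad m r P p h) (hE : Ends m u v) {i : ℕ} (hi : i < r) :
    KK p h u v (p - aa m i) = aa m i + h := by
  have b1 := hG.hm
  have b2 := hG.hr
  have b3 := hG.low
  have b4 := hG.sep
  have b5 := hG.upp
  have c1 := hE.v2
  have a1 := aa_le (m := m) hi
  have a2 := le_aa m i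
  unfold KK
  rw [if_neg (by omega)]
  omega

theorem KK_inj (hG : Gad m r P p h) (hE : Ends m u v) {y y' : ℕ} (hy : y ∈ RB m r p v)
    (hy' : y' ∈ RB m r p v) (hK : KK p h u v y = KK p h u v y') : y = y' := by
  have b1 := hG.hm
  have b2 := hG.hr
  have b3 := hG.low
  have b4 := hG.sep
  have b5 := hG.upp
  have b6 := hG.h1
  have b7 := hG.h2
  have c1 := hE.u2
  have key : ∀ z ∈ RB m r p v, z ≠ v → z ≤ p ∧ m + h ≤ p + h - z ∧ p + h - z + 1 ≤ m + 2 * r + h := by
    intro z hz hzv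
    rcases mem_RB.1 hz with rfl | ⟨i, hi, rfl⟩
    · exact absurd rfl hzv
    · have a1 := aa_le (m := m) hi
      have a2 := le_aa m i
      omega
  unfold KK at hK
  split_ifs at hK with e1 e2 e2
  · rw [e1, e2]
  · exfalso
    have := key y' hy' e2
    omega
  · exfalso
    have := key y hy e1
    omega
  · have h3 := key y hy e1
    have h4 := key y' hy' e2
    omega

end

/-- the extension of a bijection -/
theorem glue {A B A₁ B₁ : Finset ℕ} (hA : A₁ ⊆ A) (hc : B.card = A.card) (K : ℕ → ℕ)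
    (hK : ∀ y ∈ B₁, K y ∈ A₁) (hKi : ∀ y ∈ B₁, ∀ y' ∈ B₁, K y = K y' → y = y')
    (f : ↥(A \ A₁) ≃ ↥(B \ B₁)) :
    ∃ g : B ≃ A, (∀ (y : B) (hy : (y : ℕ) ∈ B \ B₁), (g y : ℕ) = (f.symm ⟨y, hy⟩ : ℕ)) ∧
      ∀ y : B, (y : ℕ) ∈ B₁ → (g y : ℕ) = K y := by
  classical
  have hmem : ∀ y : B, (if hy : (y : ℕ) ∈ B \ B₁ then (f.symm ⟨y, hy⟩ : ℕ) else K y) ∈ A := by
    intro y
    split_ifs with hy
    · exact (mem_sdiff.1 (f.symm ⟨y, hy⟩).2).1
    · apply hA
      apply hK
      by_contra hcon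
      exact hy (mem_sdiff.2 ⟨y.2, hcon⟩)
  let G : B → A := fun y =>
    ⟨if hy : (y : ℕ) ∈ B \ B₁ then (f.symm ⟨y, hy⟩ : ℕ) else K y, hmem y⟩
  have hG1 : ∀ (y : B) (hy : (y : ℕ) ∈ B \ B₁), (G y : ℕ) = (f.symm ⟨y, hy⟩ : ℕ) := by
    intro y hy
    change (if hy : (y : ℕ) ∈ B \ B₁ then (f.symm ⟨y, hy⟩ : ℕ) else K y) = _
    rw [dif_pos hy]
  have hG2 : ∀ y : B, (y : ℕ) ∈ B₁ → (G y : ℕ) = K y := by
    intro y hy
    change (if hy : (y : ℕ) ∈ B \ B₁ then (f.symm ⟨y, hy⟩ : ℕ) else K y) = _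
    rw [dif_neg]
    intro hcon
    exact (mem_sdiff.1 hcon).2 hy
  have hinj : Function.Injective G := by
    intro y y' hyy
    have e : (G y : ℕ) = (G y' : ℕ) := congrArg Subtype.val hyy
    by_cases h1 : (y : ℕ) ∈ B₁
    · by_cases h2 : (y' : ℕ) ∈ B₁
      · rw [hG2 y h1, hG2 y' h2] at e
        exact Subtype.ext (hKi _ h1 _ h2 e)
      · exfalso
        have h3 : (y' : ℕ) ∈ B \ B₁ := mem_sdiff.2 ⟨y'.2, h2⟩
        rw [hG2 y h1, hG1 y' h3] at e
        exact (mem_sdiff.1 (f.symm ⟨y', h3⟩).2).2 (e ▸ hK _ h1)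
    · have h4 : (y : ℕ) ∈ B \ B₁ := mem_sdiff.2 ⟨y.2, h1⟩
      by_cases h2 : (y' : ℕ) ∈ B₁
      · exfalso
        rw [hG1 y h4, hG2 y' h2] at e
        exact (mem_sdiff.1 (f.symm ⟨y, h4⟩).2).2 (e ▸ hK _ h2)
      · have h3 : (y' : ℕ) ∈ B \ B₁ := mem_sdiff.2 ⟨y'.2, h2⟩
        rw [hG1 y h4, hG1 y' h3] at e
        have h5 := f.symm.injective (Subtype.ext e)
        have h6 : (y : ℕ) = (y' : ℕ) := Subtype.mk.inj h5
        exact Subtype.ext h6
  have hbij : Function.Bijective G := by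
    rw [Fintype.bijective_iff_injective_and_card]
    exact ⟨hinj, by simpa using hc⟩
  exact ⟨Equiv.ofBijective G hbij, hG1, hG2⟩

/-- the number of the removed points is small -/
theorem small : ∃ m₁ : ℕ, ∀ m : ℕ, m₁ ≤ m →
    2 * (rr m : ℝ) + 1 ≤ (m : ℝ) / Real.log m ^ 3 := by
  have h1 : ∀ᶠ x : ℝ in Filter.atTop, |Real.log x ^ 3| ≤ 1 / 2 * |x| := by
    have h2 := (Real.isLittleO_pow_log_id_atTop (n := 3)).bound (c := 1 / 2) (by norm_num)
    filter_upwards [h2] with x hx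
    exact hx
  have h3 : ∀ᶠ x : ℝ in Filter.atTop, 4 ≤ Real.log x := Real.tendsto_log_atTop.eventually_ge_atTop 4
  have h4 : ∀ᶠ n : ℕ in Filter.atTop, |Real.log (n : ℝ) ^ 3| ≤ 1 / 2 * |(n : ℝ)| ∧
      4 ≤ Real.log (n : ℝ) :=
    tendsto_natCast_atTop_atTop.eventually (h1.and h3)
  obtain ⟨m₁, hm₁⟩ := Filter.eventually_atTop.1 h4
  refine ⟨m₁, fun m hm => ?_⟩
  obtain ⟨h5, h6⟩ := hm₁ m hm
  set L : ℝ := Real.log (m : ℝ) with hL
  have hL0 : 0 < L := by linarith
  have hm0 : (0 : ℝ) ≤ m := Nat.cast_nonneg m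
  rw [abs_of_pos (pow_pos hL0 3), abs_of_nonneg hm0] at h5
  have h7 : (rr m : ℝ) ≤ (m : ℝ) / L ^ 4 := by
    unfold rr
    rw [← hL]
    exact Nat.floor_le (by positivity)
  have h8 : (m : ℝ) / L ^ 4 ≤ (m : ℝ) / L ^ 3 / 4 := by
    rw [div_div, div_le_div_iff₀ (by positivity) (by positivity)]
    have h9 : L ^ 3 * 4 ≤ L ^ 4 := by
      have : L ^ 4 = L ^ 3 * L := by ring
      rw [this]
      exact mul_le_mul_of_nonneg_left h6 (by positivity)
    exact mul_le_mul_of_nonneg_left h9 hm0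
  have h10 : (1 : ℝ) ≤ (m : ℝ) / L ^ 3 / 2 := by
    rw [div_div, le_div_iff₀ (by positivity)]
    linarith
  linarith

end GGN_

open GGN_ in
theorem t_GGN (h : S_CNT) : S_GGN := by
  classical
  intro ε h0 h1
  obtain ⟨m₀, hm₀⟩ := h ε h0 h1
  obtain ⟨m₁, hm₁⟩ := small
  refine ⟨max m₀ m₁, fun m hm P p h u v hG hE => ?_⟩
  set r : ℕ := rr m with hr
  have hA1 := RA_sub hG hE
  have hB1 := RB_sub hG hE
  have hcA := card_AA hG
  have hcB := card_BB hG
  have b1 := hG.hm
  have b2 := hG.hr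
  have hA2 : (AA m r \ RA m r h u).card = m - 2 * r - 1 := by
    rw [card_sdiff_of_subset hA1, hcA, card_RA hG hE]
    omega
  have hB2 : (BB m r P \ RB m r p v).card = m - 2 * r - 1 := by
    rw [card_sdiff_of_subset hB1, hcB, card_RB hG hE]
    omega
  have hc2 : (AA m r \ RA m r h u).card = (BB m r P \ RB m r p v).card := by rw [hA2, hB2]
  have hsmall : (m : ℝ) ≤ (AA m r \ RA m r h u).card + m / Real.log m ^ 3 := by
    have h2 := hm₁ m (le_trans (le_max_right _ _) hm)
    rw [← hr] at h2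
    have h3 : ((m - 2 * r - 1 : ℕ) : ℝ) = (m : ℝ) - 2 * r - 1 := by
      rw [Nat.cast_sub (by omega), Nat.cast_sub (by omega)]
      push_cast
      ring
    rw [hA2, h3]
    linarith
  obtain ⟨g₀⟩ : Nonempty (↥(BB m r P \ RB m r p v) ≃ ↥(AA m r \ RA m r h u)) :=
    ⟨Finset.equivOfCardEq hc2.symm⟩
  have key := hm₀ m (le_trans (le_max_left _ _) hm) (AA m r \ RA m r h u) (BB m r P \ RB m r p v)
    (fun x hx => (mem_AA.1 (mem_sdiff.1 hx).1).1) (fun x hx => (mem_BB.1 (mem_sdiff.1 hx).1).1)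
    hc2 hsmall g₀
  rw [hA2] at key
  refine key.trans ?_
  have hex := fun f : ↥(AA m r \ RA m r h u) ≃ ↥(BB m r P \ RB m r p v) =>
    glue hA1 (hcB.trans hcA.symm) (KK p h u v) (fun y hy => KK_mem hG hy)
      (fun y hy y' hy' => KK_inj hG hE hy hy') f
  choose Φ hΦ1 hΦ2 using hex
  have hle := Finset.card_le_card_of_injOn (s := univ.filter
      fun f : ↥(AA m r \ RA m r h u) ≃ ↥(BB m r P \ RB m r p v) =>
      (∀ x : ↥(AA m r \ RA m r h u), ((x : ℕ) + (f x : ℕ)).Prime) ∧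
        (ncyc (f.trans g₀) : ℝ) ≤ m / Real.log m ^ 8)
    (t := univ.filter fun g : BB m r P ≃ AA m r => GG m r P p h u v g) Φ (by
      intro f hf
      have hf1 := (mem_filter.1 (mem_coe.1 hf)).2.1
      refine mem_coe.2 (mem_filter.2 ⟨mem_univ _, ⟨?_, ?_, ?_⟩⟩)
      · intro y hyv
        by_cases hy : (y : ℕ) ∈ RB m r p v
        · rw [hΦ2 f y hy]
          rcases mem_RB.1 hy with hy2 | ⟨i, hi, hy2⟩
          · exact absurd hy2 hyv
          · rw [← hy2, KK_gad hG hE hi]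
            have a1 := aa_le (m := m) hi
            have b3 := hG.low
            have b4 := hG.sep
            have e1 : p - aa m i + (aa m i + h) = p + h := by omega
            rw [e1]
            exact hG.ph
        · have hy3 : (y : ℕ) ∈ BB m r P \ RB m r p v := mem_sdiff.2 ⟨y.2, hy⟩
          rw [hΦ1 f y hy3]
          have h2 := hf1 (f.symm ⟨y, hy3⟩)
          rw [f.apply_symm_apply] at h2
          rw [add_comm]
          exact h2
      · intro i hi y hy
        rw [hΦ2 f y (mem_RB.2 (Or.inr ⟨i, hi, hy.symm⟩)), hy, KK_gad hG hE hi]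
      · intro y hy
        rw [hΦ2 f y (mem_RB.2 (Or.inl hy)), hy]
        unfold KK
        rw [if_pos rfl]) (by
      intro f _ f' _ hff
      have h2 : f.symm = f'.symm := by
        apply Equiv.ext
        intro y
        have hyB : (y : ℕ) ∈ BB m r P := (mem_sdiff.1 y.2).1
        have h3 := hΦ1 f ⟨y, hyB⟩ y.2
        have h4 := hΦ1 f' ⟨y, hyB⟩ y.2
        rw [hff, h4] at h3
        exact Subtype.ext h3.symm
      have h5 := congrArg Equiv.symm h2
      rwa [Equiv.symm_symm, Equiv.symm_symm] at h5)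
  have hle2 : (((univ.filter fun f : ↥(AA m r \ RA m r h u) ≃ ↥(BB m r P \ RB m r p v) =>
      (∀ x : ↥(AA m r \ RA m r h u), ((x : ℕ) + (f x : ℕ)).Prime) ∧
        (ncyc (f.trans g₀) : ℝ) ≤ m / Real.log m ^ 8).card : ℕ) : ℝ) ≤
      (((univ.filter fun g : BB m r P ≃ AA m r => GG m r P p h u v g).card : ℕ) : ℝ) := by
    exact_mod_cast hle
  convert hle2 using 1

end Pool.Agent.N785.PC
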