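import Pool.Agent.N785.PC.Stmts3
import Pool.Agent.N785.PC.GGN

/-!
# Project PC, leaf GGN2: the number of admissible matchings `g`, with a rate
-/

set_option autoImplicit false

namespace Pool.Agent.N785.PC

open Finset

open GGN_ in
theorem t_GGN2 (h : S_CNT2) : S_GGN2 := by
  classical
  obtain ⟨C, hC, m₀, hm₀⟩ := h
  obtain ⟨m₁, hm₁⟩ := small
  refine ⟨C, hC, max m₀ m₁, fun m hm P p h u v hG hE => ?_⟩
  set r : ℕ := rr m with hr
  have hA1 := RA_sub hG hE
  have hB1 := RB_sub hG hE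
  have hcA := card_AA hG
  have hcB := card_BB hG
  have b1 := hG.hm
  have b2 := hG.hr
  have hA2 : (AA m r \ RA m r h u).card = m - 2 * r - 1 := by
    rw [card_sdiff_of_subset hA1, hcA, card_RA hG hE]
    omega
  have hB2 : (BB m r P \ RB m r p v).card = m - 2 * r - 1 := by
    rw [card_sdiff_of_subset hB1, hcB, card_RB hG hE]
    omega
  have hc2 : (AA m r \ RA m r h u).card = (BB m r P \ RB m r p v).card := by rw [hA2, hB2]
  have hsmall : (m : ℝ) ≤ (AA m r \ RA m r h u).card + m / Real.log m ^ 3 := by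
    have h2 := hm₁ m (le_trans (le_max_right _ _) hm)
    rw [← hr] at h2
    have h3 : ((m - 2 * r - 1 : ℕ) : ℝ) = (m : ℝ) - 2 * r - 1 := by
      rw [Nat.cast_sub (by omega), Nat.cast_sub (by omega)]
      push_cast
      ring
    rw [hA2, h3]
    linarith
  obtain ⟨g₀⟩ : Nonempty (↥(BB m r P \ RB m r p v) ≃ ↥(AA m r \ RA m r h u)) :=
    ⟨Finset.equivOfCardEq hc2.symm⟩
  have key := hm₀ m (le_trans (le_max_left _ _) hm) (AA m r \ RA m r h u) (BB m r P \ RB m r p v)
    (fun x hx => (mem_AA.1 (mem_sdiff.1 hx).1).1) (fun x hx => (mem_BB.1 (mem_sdiff.1 hx).1).1)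
    hc2 hsmall g₀
  rw [hA2] at key
  refine key.trans ?_
  have hex := fun f : ↥(AA m r \ RA m r h u) ≃ ↥(BB m r P \ RB m r p v) =>
    glue hA1 (hcB.trans hcA.symm) (KK p h u v) (fun y hy => KK_mem hG hy)
      (fun y hy y' hy' => KK_inj hG hE hy hy') f
  choose Φ hΦ1 hΦ2 using hex
  have hle := Finset.card_le_card_of_injOn (s := univ.filter
      fun f : ↥(AA m r \ RA m r h u) ≃ ↥(BB m r P \ RB m r p v) =>
      (∀ x : ↥(AA m r \ RA m r h u), ((x : ℕ) + (f x : ℕ)).Prime) ∧
        (ncyc (f.trans g₀) : ℝ) ≤ m / Real.log m ^ 8)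
    (t := univ.filter fun g : BB m r P ≃ AA m r => GG m r P p h u v g) Φ (by
      intro f hf
      have hf1 := (mem_filter.1 (mem_coe.1 hf)).2.1
      refine mem_coe.2 (mem_filter.2 ⟨mem_univ _, ⟨?_, ?_, ?_⟩⟩)
      · intro y hyv
        by_cases hy : (y : ℕ) ∈ RB m r p v
        · rw [hΦ2 f y hy]
          rcases mem_RB.1 hy with hy2 | ⟨i, hi, hy2⟩
          · exact absurd hy2 hyv
          · rw [← hy2, KK_gad hG hE hi]
            have a1 := aa_le (m := m) hi
            have b3 := hG.low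
            have b4 := hG.sep
            have e1 : p - aa m i + (aa m i + h) = p + h := by omega
            rw [e1]
            exact hG.ph
        · have hy3 : (y : ℕ) ∈ BB m r P \ RB m r p v := mem_sdiff.2 ⟨y.2, hy⟩
          rw [hΦ1 f y hy3]
          have h2 := hf1 (f.symm ⟨y, hy3⟩)
          rw [f.apply_symm_apply] at h2
          rw [add_comm]
          exact h2
      · intro i hi y hy
        rw [hΦ2 f y (mem_RB.2 (Or.inr ⟨i, hi, hy.symm⟩)), hy, KK_gad hG hE hi]
      · intro y hy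
        rw [hΦ2 f y (mem_RB.2 (Or.inl hy)), hy]
        unfold KK
        rw [if_pos rfl]) (by
      intro f _ f' _ hff
      have h2 : f.symm = f'.symm := by
        apply Equiv.ext
        intro y
        have hyB : (y : ℕ) ∈ BB m r P := (mem_sdiff.1 y.2).1
        have h3 := hΦ1 f ⟨y, hyB⟩ y.2
        have h4 := hΦ1 f' ⟨y, hyB⟩ y.2
        rw [hff, h4] at h3
        exact Subtype.ext h3.symm
      have h5 := congrArg Equiv.symm h2
      rwa [Equiv.symm_symm, Equiv.symm_symm] at h5)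
  have hle2 : (((univ.filter fun f : ↥(AA m r \ RA m r h u) ≃ ↥(BB m r P \ RB m r p v) =>
      (∀ x : ↥(AA m r \ RA m r h u), ((x : ℕ) + (f x : ℕ)).Prime) ∧
        (ncyc (f.trans g₀) : ℝ) ≤ m / Real.log m ^ 8).card : ℕ) : ℝ) ≤
      (((univ.filter fun g : BB m r P ≃ AA m r => GG m r P p h u v g).card : ℕ) : ℝ) := by
    exact_mod_cast hle
  convert hle2 using 1

end Pool.Agent.N785.PC
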