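import Pool.Agent.N785.PC.Stmts

/-!
# Project PC: regular spanning subgraphs of the prime sum graph (helper527)
-/

set_option autoImplicit false

namespace Pool.Agent.N785.PC

namespace KR_

open Finset Filter

theorem card_Od (m : ℕ) : (Od m).card = m := by
  have h : Od m = (range m).image (fun i => 2 * i + 1) := by
    ext x
    simp only [Od, mem_filter, mem_Icc, mem_image, mem_range]
    constructor
    · rintro ⟨⟨h1, h2⟩, h3⟩
      exact ⟨x / 2, by omega, by omega⟩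
    · rintro ⟨i, h1, rfl⟩
      omega
  rw [h, card_image_of_injective _ (fun a b h => by simpa using h), card_range]

theorem card_Ev (m : ℕ) : (Ev m).card = m := by
  have h : Ev m = (range m).image (fun i => 2 * i + 2) := by
    ext x
    simp only [Ev, mem_filter, mem_Icc, mem_image, mem_range]
    constructor
    · rintro ⟨⟨h1, h2⟩, h3⟩
      exact ⟨x / 2 - 1, by omega, by omega⟩
    · rintro ⟨i, h1, rfl⟩
      omega
  rw [h, card_image_of_injective _ (fun a b h => by simpa using h), card_range]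

theorem card_sub (B : Finset ℕ) (p : ℕ → Prop) [DecidablePred p] :
    ((univ : Finset B).filter fun y : B => p (y : ℕ)).card = (B.filter p).card := by
  refine Finset.card_bij (fun w _ => (w : ℕ)) ?_ ?_ ?_
  · intro w hw
    rw [mem_filter] at hw ⊢
    exact ⟨w.2, hw.2⟩
  · intro a _ b _ h
    exact Subtype.ext h
  · intro b hb
    rw [mem_filter] at hb
    exact ⟨⟨b, hb.1⟩, by simpa using hb.2, rfl⟩

theorem card_sub2 (A B : Finset ℕ) (p : ℕ → ℕ → Prop) [∀ x y, Decidable (p x y)] :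
    ((univ : Finset (A × B)).filter fun w : A × B => p (w.1 : ℕ) (w.2 : ℕ)).card =
      ((A ×ˢ B).filter fun w : ℕ × ℕ => p w.1 w.2).card := by
  refine Finset.card_bij (fun w _ => ((w.1 : ℕ), (w.2 : ℕ))) ?_ ?_ ?_
  · intro w hw
    rw [mem_filter] at hw ⊢
    exact ⟨mem_product.2 ⟨w.1.2, w.2.2⟩, hw.2⟩
  · intro a _ b _ h
    simp only [Prod.mk.injEq] at h
    exact Prod.ext (Subtype.ext h.1) (Subtype.ext h.2)
  · intro b hb
    rw [mem_filter, mem_product] at hb
    exact ⟨(⟨b.1, hb.1.1⟩, ⟨b.2, hb.1.2⟩), by simpa using hb.2, rfl⟩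

theorem card_prod1 (S T : Finset ℕ) (q : ℕ → ℕ → Prop) [∀ x y, Decidable (q x y)] :
    ((S ×ˢ T).filter fun w : ℕ × ℕ => q w.1 w.2).card =
      ∑ x ∈ S, (T.filter fun y => q x y).card := by
  simp only [card_filter, sum_product]

theorem card_prod2 (S T : Finset ℕ) (q : ℕ → ℕ → Prop) [∀ x y, Decidable (q x y)] :
    ((S ×ˢ T).filter fun w : ℕ × ℕ => q w.1 w.2).card =
      ∑ y ∈ T, (S.filter fun x => q x y).card := by
  simp only [card_filter, sum_product]
  exact sum_comm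

open Classical in
/-- removal of the exceptional vertices from the paths -/
theorem paths {O E A B : Finset ℕ} {x y : ℕ} {D b N : ℝ} (hD : 0 ≤ D)
    (h1 : ∀ x ∈ O, ((E.filter fun y => (x + y).Prime).card : ℝ) ≤ D)
    (h2 : ∀ y ∈ E, ((O.filter fun x => (x + y).Prime).card : ℝ) ≤ D)
    (h3 : ((O \ A).card : ℝ) ≤ b) (h4 : ((E \ B).card : ℝ) ≤ b)
    (h5 : N ≤ (((O ×ˢ E).filter fun w : ℕ × ℕ =>
      (x + w.2).Prime ∧ (w.1 + w.2).Prime ∧ (w.1 + y).Prime).card : ℝ)) :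
    N - 2 * (b * D) ≤ (((A ×ˢ B).filter fun w : ℕ × ℕ =>
      (x + w.2).Prime ∧ (w.1 + w.2).Prime ∧ (w.1 + y).Prime).card : ℝ) := by
  have hsub : ((O ×ˢ E).filter fun w : ℕ × ℕ =>
      (x + w.2).Prime ∧ (w.1 + w.2).Prime ∧ (w.1 + y).Prime) ⊆
      (((A ×ˢ B).filter fun w : ℕ × ℕ =>
      (x + w.2).Prime ∧ (w.1 + w.2).Prime ∧ (w.1 + y).Prime) ∪
      (((O \ A) ×ˢ E).filter fun w : ℕ × ℕ => (w.1 + w.2).Prime)) ∪
      ((O ×ˢ (E \ B)).filter fun w : ℕ × ℕ => (w.1 + w.2).Prime) := by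
    intro w hw
    simp only [mem_filter, mem_product, mem_union, Finset.mem_sdiff] at hw ⊢
    by_cases a1 : w.1 ∈ A
    · by_cases b1 : w.2 ∈ B
      · exact Or.inl (Or.inl ⟨⟨a1, b1⟩, hw.2⟩)
      · exact Or.inr ⟨⟨hw.1.1, hw.1.2, b1⟩, hw.2.2.1⟩
    · exact Or.inl (Or.inr ⟨⟨⟨hw.1.1, a1⟩, hw.1.2⟩, hw.2.2.1⟩)
  have hc := (card_le_card hsub).trans ((card_union_le _ _).trans
    (Nat.add_le_add_right (card_union_le _ _) _))
  have e1 : ((((O \ A) ×ˢ E).filter fun w : ℕ × ℕ => (w.1 + w.2).Prime).card : ℝ) ≤ b * D := by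
    rw [card_prod1 (O \ A) E fun x y => (x + y).Prime]
    push_cast
    calc ∑ x ∈ O \ A, ((E.filter fun y => (x + y).Prime).card : ℝ) ≤ ∑ x ∈ O \ A, D :=
          sum_le_sum fun x hx => h1 x (Finset.mem_sdiff.1 hx).1
      _ = (O \ A).card * D := by rw [sum_const, nsmul_eq_mul]
      _ ≤ b * D := mul_le_mul_of_nonneg_right h3 hD
  have e2 : (((O ×ˢ (E \ B)).filter fun w : ℕ × ℕ => (w.1 + w.2).Prime).card : ℝ) ≤ b * D := by
    rw [card_prod2 O (E \ B) fun x y => (x + y).Prime]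
    push_cast
    calc ∑ y ∈ E \ B, ((O.filter fun x => (x + y).Prime).card : ℝ) ≤ ∑ y ∈ E \ B, D :=
          sum_le_sum fun y hy => h2 y (Finset.mem_sdiff.1 hy).1
      _ = (E \ B).card * D := by rw [sum_const, nsmul_eq_mul]
      _ ≤ b * D := mul_le_mul_of_nonneg_right h4 hD
  have hc' : (((O ×ˢ E).filter fun w : ℕ × ℕ =>
      (x + w.2).Prime ∧ (w.1 + w.2).Prime ∧ (w.1 + y).Prime).card : ℝ) ≤
      ((A ×ˢ B).filter fun w : ℕ × ℕ =>
      (x + w.2).Prime ∧ (w.1 + w.2).Prime ∧ (w.1 + y).Prime).card +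
      (((O \ A) ×ˢ E).filter fun w : ℕ × ℕ => (w.1 + w.2).Prime).card +
      ((O ×ˢ (E \ B)).filter fun w : ℕ × ℕ => (w.1 + w.2).Prime).card := by
    exact_mod_cast hc
  linarith

/-- removal of the exceptional vertices from the neighbourhoods -/
theorem degs {E B : Finset ℕ} (hB : B ⊆ E) (q : ℕ → Prop) [DecidablePred q] {b : ℝ} (h4 : ((E \ B).card : ℝ) ≤ b) :
    ((E.filter q).card : ℝ) - b ≤ ((B.filter q).card : ℝ) ∧
      ((B.filter q).card : ℝ) ≤ ((E.filter q).card : ℝ) := by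
  constructor
  · have hsub : E.filter q ⊆ B.filter q ∪ (E \ B) := by
      intro w hw
      simp only [mem_filter, mem_union, Finset.mem_sdiff] at hw ⊢
      by_cases b1 : w ∈ B
      · exact Or.inl ⟨b1, hw.2⟩
      · exact Or.inr ⟨hw.1, b1⟩
    have hc := (card_le_card hsub).trans (card_union_le _ _)
    have hc' : ((E.filter q).card : ℝ) ≤ (B.filter q).card + (E \ B).card := by exact_mod_cast hc
    linarith
  · exact_mod_cast card_le_card (filter_subset_filter q hB)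

theorem card_inst {α : Type} (s : Finset α) (p : α → Prop) (h1 h2 : DecidablePred p) :
    (@Finset.filter α p h1 s).card = (@Finset.filter α p h2 s).card := by
  rw [Subsingleton.elim h1 h2]

theorem large (c δ : ℝ) {ε : ℝ} (hε : 0 < ε) : ∃ m₀ : ℕ, ∀ m : ℕ, m₀ ≤ m →
    2 ≤ m ∧ 2 ≤ Real.log m ∧ 16 / c ≤ Real.log m ∧ 2 / δ ≤ Real.log m ∧
      Real.log m ≤ ε * m := by
  have h1 : Tendsto (fun m : ℕ => Real.log (m : ℝ)) atTop atTop :=
    Real.tendsto_log_atTop.comp tendsto_natCast_atTop_atTop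
  have h2 : ∀ᶠ m : ℕ in atTop, ‖Real.log (m : ℝ)‖ ≤ ε * ‖(m : ℝ)‖ :=
    tendsto_natCast_atTop_atTop.eventually (Real.isLittleO_log_id_atTop.bound hε)
  have h3 := ((eventually_ge_atTop 2).and ((h1.eventually_ge_atTop 2).and
    ((h1.eventually_ge_atTop (16 / c)).and ((h1.eventually_ge_atTop (2 / δ)).and h2))))
  obtain ⟨m₀, hm⟩ := eventually_atTop.1 h3
  refine ⟨m₀, fun m h => ?_⟩
  obtain ⟨a1, a2, a3, a4, a5⟩ := hm m h
  refine ⟨a1, a2, a3, a4, ?_⟩
  rw [Real.norm_of_nonneg (by linarith), Real.norm_of_nonneg (Nat.cast_nonneg m)] at a5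
  exact a5

end KR_

open KR_ Finset in
open Classical in
/-- KR -/
theorem t_KR (h1 : S_DEG) (h2 : S_T2) (h3 : S_KRa) (h4 : S_KRb) : S_KR := by
  intro ε he0 he1
  obtain ⟨c, hc, m2, hT⟩ := h2
  have hγ : 0 < c / 32 := by positivity
  obtain ⟨δ, hδ⟩ : ∃ δ, δ = min (ε / 2 * (c / 32) / 200) 1 := ⟨_, rfl⟩
  have hδ0 : 0 < δ := by
    rw [hδ]
    exact lt_min (by positivity) one_pos
  have hδ1 : δ ≤ 1 := by rw [hδ]; exact min_le_right _ _
  have hδ2 : δ ≤ ε / 2 * (c / 32) / 200 := by rw [hδ]; exact min_le_left _ _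
  obtain ⟨m1, hD⟩ := h1 (δ / 2) (by positivity)
  obtain ⟨m3, hL⟩ := large c δ (half_pos he0)
  refine ⟨max (max m1 m2) m3, fun m hm A B hA hB hAB hcard => ?_⟩
  obtain ⟨l1, l2, l3, l4, l5⟩ := hL m ((le_max_right _ _).trans hm)
  obtain ⟨D1, D2⟩ := hD m ((le_max_left _ _).trans ((le_max_left _ _).trans hm))
  have hT' := hT m ((le_max_right _ _).trans ((le_max_left _ _).trans hm))
  obtain ⟨L, hLd⟩ : ∃ L, L = Real.log m := ⟨_, rfl⟩
  rw [← hLd] at l2 l3 l4 l5 hT' hcard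
  have hm0 : (2 : ℝ) ≤ m := by exact_mod_cast l1
  have hLpos : 0 < L := by linarith
  -- the number d
  obtain ⟨d, hd⟩ : ∃ d, d = dd m := ⟨_, rfl⟩
  rw [← hd] at D1 D2 ⊢
  have hlog : Real.log (2 * m) = Real.log 2 + L := by
    rw [Real.log_mul (by norm_num) (by linarith), hLd]
  have hlog2 : Real.log 2 ≤ L := by
    rw [hLd]
    exact Real.log_le_log (by norm_num) hm0
  have hlog0 : 0 < Real.log 2 := Real.log_pos (by norm_num)
  have hd1 : d ≤ 2 * m / L := by
    rw [hd, dd, hlog]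
    apply div_le_div_of_nonneg_left (by positivity) hLpos
    linarith
  have hd2 : m / L ≤ d := by
    rw [hd, dd, hlog, div_le_div_iff₀ hLpos (by linarith)]
    nlinarith
  have hd0 : 0 < d := lt_of_lt_of_le (by positivity) hd2
  have hδd : δ * d ≤ d := mul_le_of_le_one_left hd0.le hδ1
  have hδd0 : 0 < δ * d := mul_pos hδ0 hd0
  have hεd0 : 0 < ε * d := mul_pos he0 hd0
  -- the exceptional sets
  have hb1 : ((Od m \ A).card : ℝ) ≤ m / L ^ 3 := by
    rw [card_sdiff_of_subset hA, Nat.cast_sub (card_le_card hA), card_Od]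
    linarith
  have hb2 : ((Ev m \ B).card : ℝ) ≤ m / L ^ 3 := by
    rw [card_sdiff_of_subset hB, Nat.cast_sub (card_le_card hB), card_Ev, ← hAB]
    linarith
  have hbd : m / L ^ 3 ≤ δ / 2 * d := by
    have e1 : 1 ≤ δ / 2 * L := by
      rw [div_le_iff₀ hδ0] at l4
      linarith
    have e2 : 1 ≤ δ / 2 * L ^ 2 := by nlinarith
    calc m / L ^ 3 ≤ (δ / 2 * L ^ 2) * (m / L ^ 3) := by
          refine le_mul_of_one_le_left (by positivity) e2
      _ = δ / 2 * (m / L) := by field_simp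
      _ ≤ δ / 2 * d := by gcongr
  have ha : (m : ℝ) / 2 ≤ A.card := by
    have : m / L ^ 3 ≤ m / 2 := by
      apply div_le_div_of_nonneg_left (by positivity) (by norm_num)
      nlinarith [sq_nonneg L, mul_pos hLpos hLpos]
    linarith
  have ha0 : (0 : ℝ) < A.card := by linarith
  -- the graph
  let G : A → Finset B := fun x => univ.filter fun y : B => ((x : ℕ) + (y : ℕ)).Prime
  have memG : ∀ (x : A) (y : B), y ∈ G x ↔ ((x : ℕ) + (y : ℕ)).Prime := by
    intro x y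
    simp [G]
  have hXY : Fintype.card A = Fintype.card B := by
    rw [Fintype.card_coe, Fintype.card_coe, hAB]
  have g1 : ∀ x : A, (1 - δ) * d ≤ ((G x).card : ℝ) ∧ ((G x).card : ℝ) ≤ (1 + δ) * d := by
    intro x
    have e1 : (G x).card = (B.filter fun y => ((x : ℕ) + y).Prime).card :=
      card_sub B fun y => ((x : ℕ) + y).Prime
    obtain ⟨e2, e3⟩ := degs hB (fun y => ((x : ℕ) + y).Prime) hb2
    have e4 := abs_le.1 (D1 x (hA x.2))
    rw [e1]
    constructor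
    · linarith [e4.1]
    · linarith [e4.2]
  have g2 : ∀ (inst : ∀ y : B, DecidablePred fun x : A => y ∈ G x) (y : B),
      (1 - δ) * d ≤ ((@Finset.filter A (fun x => y ∈ G x) (inst y) univ).card : ℝ) ∧
      ((@Finset.filter A (fun x => y ∈ G x) (inst y) univ).card : ℝ) ≤ (1 + δ) * d := by
    intro inst y
    have e1 : (@Finset.filter A (fun x => y ∈ G x) (inst y) univ).card =
        (A.filter fun x => (x + (y : ℕ)).Prime).card := by
      rw [← card_sub A fun x => (x + (y : ℕ)).Prime]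
      congr 1
      ext x
      simp [memG]
    obtain ⟨e2, e3⟩ := degs hA (fun x => (x + (y : ℕ)).Prime) hb1
    have e4 := abs_le.1 (D2 y (hB y.2))
    rw [e1]
    constructor
    · linarith [e4.1]
    · linarith [e4.2]
  have g3 : ∀ (inst : ∀ (x : A) (y : B), DecidablePred fun w : A × B =>
      w.2 ∈ G x ∧ w.2 ∈ G w.1 ∧ y ∈ G w.1) (x : A) (y : B), c / 32 * d ^ 3 / Fintype.card A ≤
      ((@Finset.filter (A × B) (fun w => w.2 ∈ G x ∧ w.2 ∈ G w.1 ∧ y ∈ G w.1) (inst x y)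
        univ).card : ℝ) := by
    intro inst x y
    have e1 : (@Finset.filter (A × B) (fun w => w.2 ∈ G x ∧ w.2 ∈ G w.1 ∧ y ∈ G w.1)
        (inst x y) univ).card =
        ((A ×ˢ B).filter fun w : ℕ × ℕ => ((x : ℕ) + w.2).Prime ∧ (w.1 + w.2).Prime ∧
          (w.1 + (y : ℕ)).Prime).card := by
      rw [← card_sub2 A B fun a b => ((x : ℕ) + b).Prime ∧ (a + b).Prime ∧ (a + (y : ℕ)).Prime]
      congr 1
      ext w
      simp [memG]
    have e2 := paths (x := x) (y := y) (D := 2 * d) (b := m / L ^ 3)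
      (N := c * m ^ 2 / L ^ 3) (by positivity)
      (fun x hx => by have := abs_le.1 (D1 x hx); linarith [this.2])
      (fun y hy => by have := abs_le.1 (D2 y hy); linarith [this.2]) hb1 hb2
      (hT' x (hA x.2) y (hB y.2))
    rw [e1]
    refine le_trans ?_ e2
    rw [Fintype.card_coe]
    have e3 : c / 32 * d ^ 3 / A.card ≤ c / 2 * (m ^ 2 / L ^ 3) := by
      rw [div_le_iff₀ ha0]
      calc c / 32 * d ^ 3 ≤ c / 32 * (2 * m / L) ^ 3 := by gcongr
        _ = c / 2 * (m ^ 2 / L ^ 3) * (m / 2) := by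
            field_simp
            ring
        _ ≤ c / 2 * (m ^ 2 / L ^ 3) * A.card := by gcongr
    have e4 : 2 * (m / L ^ 3 * (2 * d)) ≤ c / 2 * (m ^ 2 / L ^ 3) := by
      have e5 : 16 ≤ c * L := by
        rw [div_le_iff₀ hc] at l3
        linarith
      calc 2 * (m / L ^ 3 * (2 * d)) ≤ 2 * (m / L ^ 3 * (2 * (2 * m / L))) := by gcongr
        _ = 16 / (2 * L) * (m ^ 2 / L ^ 3) := by
            field_simp
            ring
        _ ≤ (c * L) / (2 * L) * (m ^ 2 / L ^ 3) := by gcongr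
        _ = c / 2 * (m ^ 2 / L ^ 3) := by
            field_simp
    have e6 : c * m ^ 2 / L ^ 3 = 2 * (c / 2 * (m ^ 2 / L ^ 3)) := by ring
    rw [e6]
    linarith
  -- the number k
  have hk1 : ((⌊(1 - ε / 2) * d⌋₊ : ℕ) : ℝ) ≤ (1 - ε / 2) * d :=
    Nat.floor_le (mul_nonneg (by linarith) hd0.le)
  have hcut := h4 A B G ⌊(1 - ε / 2) * d⌋₊ d δ (ε / 2) (c / 32) hXY hd0 (by linarith)
    (by linarith) hγ hδ0.le hδ1 hδ2 g1 (g2 _) (g3 _) hk1
  obtain ⟨K, hK1, hK2⟩ := h3 A B G _ hXY hcut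
  refine ⟨⌊(1 - ε / 2) * d⌋₊, ?_, ?_, K, ?_, fun y => (card_inst _ _ _ _).trans (hK2 y)⟩
  · have := Nat.lt_floor_add_one ((1 - ε / 2) * d)
    have e1 : 1 ≤ ε / 2 * d := by
      calc (1 : ℝ) ≤ ε / 2 * m / L := by
            rw [le_div_iff₀ hLpos]
            linarith
        _ = ε / 2 * (m / L) := by ring
        _ ≤ _ := by gcongr
    linarith
  · linarith
  · intro x
    refine ⟨(hK1 x).2, fun y hy => ?_⟩
    exact (memG x y).1 ((hK1 x).1 hy)

end Pool.Agent.N785.PC
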