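import Pool.Agent.N785.PC.Stmts3
import Pool.Agent.N785.PC.KR

/-!
# Project PC: regular spanning subgraphs of the prime sum graph, with a rate (helper353, after
# `KR.lean` of helper527)
-/

set_option autoImplicit false

namespace Pool.Agent.N785.PC

namespace KR2_

open Finset Filter

theorem large2 (c a a' : ℝ) : ∃ m₀ : ℕ, ∀ m : ℕ, m₀ ≤ m →
    2 ≤ m ∧ 2 ≤ Real.log m ∧ 16 / c ≤ Real.log m ∧ a ≤ Real.log m ∧ a' ≤ Real.log m ∧
      Real.log m ^ 2 ≤ m := by
  have h1 : Tendsto (fun m : ℕ => Real.log (m : ℝ)) atTop atTop :=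
    Real.tendsto_log_atTop.comp tendsto_natCast_atTop_atTop
  have h2 : ∀ᶠ m : ℕ in atTop, ‖Real.log (m : ℝ) ^ 2‖ ≤ 1 * ‖(m : ℝ)‖ :=
    tendsto_natCast_atTop_atTop.eventually (Real.isLittleO_pow_log_id_atTop.bound one_pos)
  have h3 := ((eventually_ge_atTop 2).and ((h1.eventually_ge_atTop 2).and
    ((h1.eventually_ge_atTop (16 / c)).and ((h1.eventually_ge_atTop a).and
      ((h1.eventually_ge_atTop a').and h2)))))
  obtain ⟨m₀, hm⟩ := eventually_atTop.1 h3
  refine ⟨m₀, fun m h => ?_⟩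
  obtain ⟨a1, a2, a3, a4, a5, a6⟩ := hm m h
  refine ⟨a1, a2, a3, a4, a5, ?_⟩
  rw [one_mul, Real.norm_of_nonneg (by positivity), Real.norm_of_nonneg (Nat.cast_nonneg m)] at a6
  exact a6

end KR2_

open KR_ KR2_ Finset in
open Classical in
/-- KR2 -/
theorem t_KR2 (h1 : S_DEG2) (h2 : S_T2) (h3 : S_KRa) (h4 : S_KRb) : S_KR2 := by
  obtain ⟨c, hc, m2, hT⟩ := h2
  have hγ : 0 < c / 32 := by positivity
  obtain ⟨C0, hC0, m1, hD⟩ := h1
  obtain ⟨m3, hL⟩ := large2 c (C0 + 1) (6400 * (C0 + 1) / c)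
  refine ⟨6400 * (C0 + 1) / c + 1, by positivity, max (max m1 m2) m3,
    fun m hm A B hA hB hAB hcard => ?_⟩
  obtain ⟨l1, l2, l3, l4, l6, l5⟩ := hL m ((le_max_right _ _).trans hm)
  obtain ⟨D1, D2⟩ := hD m ((le_max_left _ _).trans ((le_max_left _ _).trans hm))
  have hT' := hT m ((le_max_right _ _).trans ((le_max_left _ _).trans hm))
  obtain ⟨L, hLd⟩ : ∃ L, L = Real.log m := ⟨_, rfl⟩
  rw [← hLd] at l2 l3 l4 l5 l6 hT' hcard D1 D2 ⊢
  have hm0 : (2 : ℝ) ≤ m := by exact_mod_cast l1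
  have hLpos : 0 < L := by linarith
  -- the number d
  obtain ⟨d, hd⟩ : ∃ d, d = dd m := ⟨_, rfl⟩
  rw [← hd] at D1 D2 ⊢
  have hlog : Real.log (2 * m) = Real.log 2 + L := by
    rw [Real.log_mul (by norm_num) (by linarith), hLd]
  have hlog2 : Real.log 2 ≤ L := by
    rw [hLd]
    exact Real.log_le_log (by norm_num) hm0
  have hlog0 : 0 < Real.log 2 := Real.log_pos (by norm_num)
  have hd1 : d ≤ 2 * m / L := by
    rw [hd, dd, hlog]
    apply div_le_div_of_nonneg_left (by positivity) hLpos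
    linarith
  have hd2 : m / L ≤ d := by
    rw [hd, dd, hlog, div_le_div_iff₀ hLpos (by linarith)]
    nlinarith
  have hd0 : 0 < d := lt_of_lt_of_le (by positivity) hd2
  obtain ⟨δ, hδ⟩ : ∃ δ, δ = (C0 + 1) / L := ⟨_, rfl⟩
  have hδ0 : 0 < δ := by
    rw [hδ]
    positivity
  have hδ1 : δ ≤ 1 := by
    rw [hδ, div_le_one hLpos]
    exact l4
  obtain ⟨ε, hε⟩ : ∃ ε, ε = 6400 * (C0 + 1) / c / L := ⟨_, rfl⟩
  have he0 : 0 < ε := by
    rw [hε]
    positivity
  have he1 : ε ≤ 1 := by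
    rw [hε, div_le_one hLpos]
    exact l6
  have hδ2 : δ ≤ ε * (c / 32) / 200 := by
    apply le_of_eq
    rw [hδ, hε]
    field_simp
    norm_num
  have hδd : δ * d ≤ d := mul_le_of_le_one_left hd0.le hδ1
  have hδd0 : 0 < δ * d := mul_pos hδ0 hd0
  have hεd0 : 0 < ε * d := mul_pos he0 hd0
  have hLd0 : 0 < 1 / L * d := by positivity
  have hδs : δ * d = C0 / L * d + 1 / L * d := by
    rw [hδ]
    ring
  -- the exceptional sets
  have hb1 : ((Od m \ A).card : ℝ) ≤ m / L ^ 3 := by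
    rw [card_sdiff_of_subset hA, Nat.cast_sub (card_le_card hA), card_Od]
    linarith
  have hb2 : ((Ev m \ B).card : ℝ) ≤ m / L ^ 3 := by
    rw [card_sdiff_of_subset hB, Nat.cast_sub (card_le_card hB), card_Ev, ← hAB]
    linarith
  have hbd : m / L ^ 3 ≤ 1 / L * d := by
    calc m / L ^ 3 ≤ L * (m / L ^ 3) := by
          refine le_mul_of_one_le_left (by positivity) (by linarith)
      _ = 1 / L * (m / L) := by field_simp
      _ ≤ 1 / L * d := by gcongr
  have ha : (m : ℝ) / 2 ≤ A.card := by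
    have : m / L ^ 3 ≤ m / 2 := by
      apply div_le_div_of_nonneg_left (by positivity) (by norm_num)
      nlinarith [sq_nonneg L, mul_pos hLpos hLpos]
    linarith
  have ha0 : (0 : ℝ) < A.card := by linarith
  -- the graph
  let G : A → Finset B := fun x => univ.filter fun y : B => ((x : ℕ) + (y : ℕ)).Prime
  have memG : ∀ (x : A) (y : B), y ∈ G x ↔ ((x : ℕ) + (y : ℕ)).Prime := by
    intro x y
    simp [G]
  have hXY : Fintype.card A = Fintype.card B := by
    rw [Fintype.card_coe, Fintype.card_coe, hAB]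
  have g1 : ∀ x : A, (1 - δ) * d ≤ ((G x).card : ℝ) ∧ ((G x).card : ℝ) ≤ (1 + δ) * d := by
    intro x
    have e1 : (G x).card = (B.filter fun y => ((x : ℕ) + y).Prime).card :=
      card_sub B fun y => ((x : ℕ) + y).Prime
    obtain ⟨e2, e3⟩ := degs hB (fun y => ((x : ℕ) + y).Prime) hb2
    have e4 := abs_le.1 (D1 x (hA x.2))
    rw [e1]
    constructor
    · linarith [e4.1]
    · linarith [e4.2]
  have g2 : ∀ (inst : ∀ y : B, DecidablePred fun x : A => y ∈ G x) (y : B),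
      (1 - δ) * d ≤ ((@Finset.filter A (fun x => y ∈ G x) (inst y) univ).card : ℝ) ∧
      ((@Finset.filter A (fun x => y ∈ G x) (inst y) univ).card : ℝ) ≤ (1 + δ) * d := by
    intro inst y
    have e1 : (@Finset.filter A (fun x => y ∈ G x) (inst y) univ).card =
        (A.filter fun x => (x + (y : ℕ)).Prime).card := by
      rw [← card_sub A fun x => (x + (y : ℕ)).Prime]
      congr 1
      ext x
      simp [memG]
    obtain ⟨e2, e3⟩ := degs hA (fun x => (x + (y : ℕ)).Prime) hb1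
    have e4 := abs_le.1 (D2 y (hB y.2))
    rw [e1]
    constructor
    · linarith [e4.1]
    · linarith [e4.2]
  have g3 : ∀ (inst : ∀ (x : A) (y : B), DecidablePred fun w : A × B =>
      w.2 ∈ G x ∧ w.2 ∈ G w.1 ∧ y ∈ G w.1) (x : A) (y : B), c / 32 * d ^ 3 / Fintype.card A ≤
      ((@Finset.filter (A × B) (fun w => w.2 ∈ G x ∧ w.2 ∈ G w.1 ∧ y ∈ G w.1) (inst x y)
        univ).card : ℝ) := by
    intro inst x y
    have e1 : (@Finset.filter (A × B) (fun w => w.2 ∈ G x ∧ w.2 ∈ G w.1 ∧ y ∈ G w.1)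
        (inst x y) univ).card =
        ((A ×ˢ B).filter fun w : ℕ × ℕ => ((x : ℕ) + w.2).Prime ∧ (w.1 + w.2).Prime ∧
          (w.1 + (y : ℕ)).Prime).card := by
      rw [← card_sub2 A B fun a b => ((x : ℕ) + b).Prime ∧ (a + b).Prime ∧ (a + (y : ℕ)).Prime]
      congr 1
      ext w
      simp [memG]
    have e2 := paths (x := x) (y := y) (D := 2 * d) (b := m / L ^ 3)
      (N := c * m ^ 2 / L ^ 3) (by positivity)
      (fun x hx => by have := abs_le.1 (D1 x hx); linarith [this.2])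
      (fun y hy => by have := abs_le.1 (D2 y hy); linarith [this.2]) hb1 hb2
      (hT' x (hA x.2) y (hB y.2))
    rw [e1]
    refine le_trans ?_ e2
    rw [Fintype.card_coe]
    have e3 : c / 32 * d ^ 3 / A.card ≤ c / 2 * (m ^ 2 / L ^ 3) := by
      rw [div_le_iff₀ ha0]
      calc c / 32 * d ^ 3 ≤ c / 32 * (2 * m / L) ^ 3 := by gcongr
        _ = c / 2 * (m ^ 2 / L ^ 3) * (m / 2) := by
            field_simp
            ring
        _ ≤ c / 2 * (m ^ 2 / L ^ 3) * A.card := by gcongr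
    have e4 : 2 * (m / L ^ 3 * (2 * d)) ≤ c / 2 * (m ^ 2 / L ^ 3) := by
      have e5 : 16 ≤ c * L := by
        rw [div_le_iff₀ hc] at l3
        linarith
      calc 2 * (m / L ^ 3 * (2 * d)) ≤ 2 * (m / L ^ 3 * (2 * (2 * m / L))) := by gcongr
        _ = 16 / (2 * L) * (m ^ 2 / L ^ 3) := by
            field_simp
            ring
        _ ≤ (c * L) / (2 * L) * (m ^ 2 / L ^ 3) := by gcongr
        _ = c / 2 * (m ^ 2 / L ^ 3) := by
            field_simp
    have e6 : c * m ^ 2 / L ^ 3 = 2 * (c / 2 * (m ^ 2 / L ^ 3)) := by ring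
    rw [e6]
    linarith
  -- the number k
  have hk1 : ((⌊(1 - ε) * d⌋₊ : ℕ) : ℝ) ≤ (1 - ε) * d :=
    Nat.floor_le (mul_nonneg (by linarith) hd0.le)
  have hcut := h4 A B G ⌊(1 - ε) * d⌋₊ d δ ε (c / 32) hXY hd0 he0
    he1 hγ hδ0.le hδ1 hδ2 g1 (g2 _) (g3 _) hk1
  obtain ⟨K, hK1, hK2⟩ := h3 A B G _ hXY hcut
  refine ⟨⌊(1 - ε) * d⌋₊, ?_, ?_, K, ?_, fun y => (card_inst _ _ _ _).trans (hK2 y)⟩
  · have := Nat.lt_floor_add_one ((1 - ε) * d)
    have e1 : 1 ≤ 1 / L * d := by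
      calc (1 : ℝ) ≤ m / L ^ 2 := by
            rw [le_div_iff₀ (by positivity)]
            linarith
        _ = 1 / L * (m / L) := by field_simp
        _ ≤ _ := by gcongr
    have e2 : (1 - (6400 * (C0 + 1) / c + 1) / L) * d = (1 - ε) * d - 1 / L * d := by
      rw [hε]
      ring
    linarith
  · linarith
  · intro x
    refine ⟨(hK1 x).2, fun y hy => ?_⟩
    exact (memG x y).1 ((hK1 x).1 hy)

end Pool.Agent.N785.PC
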