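import Pool.Agent.N785.PC.Stmts

/-!
# PC/KRa (helper570): `k`-regular spanning subgraphs of bipartite graphs, from Hall's theorem
-/

set_option autoImplicit false

namespace Pool.Agent.N785.PC.KRa_

open Finset

variable {X Y : Type} [Fintype X] [Fintype Y] (G : X → Finset Y)

/-- the edges -/
abbrev E : Type := {e : X × Y // e.2 ∈ G e.1}

noncomputable instance : Fintype (E G) := by classical infer_instance

open Classical in
/-- the degrees of the second side -/
noncomputable def dy (y : Y) : ℕ := (univ.filter fun x => y ∈ G x).card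

open Classical in
lemma card_E (S : Finset X) (T : Finset Y) :
    (univ.filter fun e : E G => e.1.1 ∈ S ∧ e.1.2 ∈ T).card = ∑ x ∈ S, (G x ∩ T).card := by
  rw [← card_sigma]
  refine card_bij (fun e _ => ⟨e.1.1, e.1.2⟩) ?_ ?_ ?_
  · intro e he
    rw [mem_filter] at he
    rw [mem_sigma]
    exact ⟨he.2.1, mem_inter.2 ⟨e.2, he.2.2⟩⟩
  · intro e _ e' _ h
    rw [Sigma.mk.injEq] at h
    exact Subtype.ext (Prod.ext h.1 (eq_of_heq h.2))
  · rintro ⟨x, y⟩ h
    rw [mem_sigma, mem_inter] at h
    exact ⟨⟨(x, y), h.2.1⟩, mem_filter.2 ⟨mem_univ _, h.1, h.2.2⟩, rfl⟩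

open Classical in
lemma sum_dy (T : Finset Y) : ∑ x, (G x ∩ T).card = ∑ y ∈ T, dy G y := by
  have h1 : ∀ x, (G x ∩ T).card = ∑ y ∈ T, if y ∈ G x then 1 else 0 := by
    intro x
    rw [← card_filter]
    congr 1
    ext y
    rw [mem_inter, mem_filter]
    tauto
  simp only [h1]
  rw [sum_comm]
  refine sum_congr rfl fun y _ => ?_
  unfold dy
  rw [card_filter]

/-- the left nodes -/
abbrev LN (k : ℕ) : Type := E G ⊕ (Σ y : Y, Fin (dy G y - k))

/-- the right nodes -/
abbrev RN (k : ℕ) : Type := E G ⊕ (Σ x : X, Fin ((G x).card - k))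

/-- the edges of the gadget -/
def rel (k : ℕ) : LN G k → RN G k → Prop
  | Sum.inl e, Sum.inl e' => e = e'
  | Sum.inl e, Sum.inr c => e.1.1 = c.1
  | Sum.inr c, Sum.inl e => e.1.2 = c.1
  | Sum.inr _, Sum.inr _ => False

open Classical in
lemma hall (k : ℕ) (hXY : Fintype.card X = Fintype.card Y)
    (hcut : ∀ (S : Finset X) (T : Finset Y),
      k * S.card + k * T.card ≤ ∑ x ∈ S, (G x ∩ T).card + k * Fintype.card Y)
    (hx : ∀ x, k ≤ (G x).card) (hy : ∀ y, k ≤ dy G y) :
    ∃ f : LN G k → RN G k, Function.Injective f ∧ ∀ i, rel G k i (f i) := by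
  have key := (all_card_le_biUnion_card_iff_exists_injective
    (fun i : LN G k => univ.filter fun c : RN G k => rel G k i c)).1 ?_
  · obtain ⟨f, hf, h⟩ := key
    exact ⟨f, hf, fun i => (mem_filter.1 (h i)).2⟩
  intro A
  let E₁ : Finset (E G) := A.toLeft
  let J : Finset (Σ y : Y, Fin (dy G y - k)) := A.toRight
  let S : Finset X := E₁.image fun e => e.1.1
  let T : Finset Y := J.image fun c => c.1
  let ET : Finset (E G) := univ.filter fun e => e.1.1 ∈ (univ : Finset X) ∧ e.1.2 ∈ T
  have hA : E₁.card + J.card = A.card := card_toLeft_add_card_toRight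
  have hJ : J.card ≤ ∑ y ∈ T, (dy G y - k) := by
    have h1 : J ⊆ T.sigma fun _ => univ := by
      intro c hc
      rw [mem_sigma]
      exact ⟨mem_image_of_mem _ hc, mem_univ _⟩
    have h2 := card_le_card h1
    rw [card_sigma] at h2
    simpa using h2
  have hN : (E₁ ∪ ET).card + ∑ x ∈ S, ((G x).card - k) ≤
      (A.biUnion fun i : LN G k => univ.filter fun c : RN G k => rel G k i c).card := by
    have h1 : ∑ x ∈ S, ((G x).card - k) = (S.sigma fun x => (univ : Finset (Fin ((G x).card - k)))).card := by
      rw [card_sigma]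
      simp
    rw [h1, ← card_disjSum]
    apply card_le_card
    intro c hc
    rw [mem_biUnion]
    rcases mem_disjSum.1 hc with ⟨e, he, rfl⟩ | ⟨c', hc', rfl⟩
    · rw [mem_union] at he
      rcases he with he | he
      · exact ⟨Sum.inl e, mem_toLeft.1 he, mem_filter.2 ⟨mem_univ _, rfl⟩⟩
      · obtain ⟨_, _, he2⟩ := mem_filter.1 he
        obtain ⟨c, hc, hce⟩ := mem_image.1 he2
        exact ⟨Sum.inr c, mem_toRight.1 hc, mem_filter.2 ⟨mem_univ _, hce.symm⟩⟩
    · rw [mem_sigma] at hc'
      obtain ⟨e, he, hec⟩ := mem_image.1 hc'.1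
      exact ⟨Sum.inl e, mem_toLeft.1 he, mem_filter.2 ⟨mem_univ _, hec⟩⟩
  refine le_trans ?_ hN
  have h1 := card_union_add_card_inter E₁ ET
  have h2 : ET.card = ∑ y ∈ T, dy G y := by
    change (univ.filter fun e : E G => e.1.1 ∈ (univ : Finset X) ∧ e.1.2 ∈ T).card = _
    rw [card_E, sum_dy]
  have h3 : (E₁ ∩ ET).card ≤ ∑ x ∈ S, (G x ∩ T).card := by
    rw [← card_E]
    apply card_le_card
    intro e he
    rw [mem_inter] at he
    rw [mem_filter]
    exact ⟨mem_univ _, mem_image_of_mem _ he.1, (mem_filter.1 he.2).2.2⟩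
  have h4 : ∑ y ∈ T, (dy G y - k) + k * T.card = ∑ y ∈ T, dy G y := by
    rw [mul_comm, ← smul_eq_mul, ← sum_const, ← sum_add_distrib]
    exact sum_congr rfl fun y _ => Nat.sub_add_cancel (hy y)
  have h5 : ∑ x ∈ S, ((G x).card - k) + k * S.card = ∑ x ∈ S, (G x).card := by
    rw [mul_comm, ← smul_eq_mul, ← sum_const, ← sum_add_distrib]
    exact sum_congr rfl fun x _ => Nat.sub_add_cancel (hx x)
  have h6 : ∑ x ∈ S, (G x).card = ∑ x ∈ S, (G x ∩ T).card + ∑ x ∈ S, (G x ∩ Tᶜ).card := by
    rw [← sum_add_distrib]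
    refine sum_congr rfl fun x _ => ?_
    rw [← card_union_of_disjoint, ← inter_union_distrib_left, union_compl, inter_univ]
    exact disjoint_compl_right.mono inter_subset_right inter_subset_right
  have h7 := hcut S Tᶜ
  have h8 : k * T.card + k * Tᶜ.card = k * Fintype.card Y := by
    rw [← mul_add, card_add_card_compl]
  omega

end Pool.Agent.N785.PC.KRa_

namespace Pool.Agent.N785.PC

open Finset
open Pool.Agent.N785.PC.KRa_

/-- **KRa** -/
theorem t_KRa : S_KRa := by
  classical
  intro X Y _ _ G k hXY hcut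
  have hcut' : ∀ (S : Finset X) (T : Finset Y),
      k * S.card + k * T.card ≤ ∑ x ∈ S, (G x ∩ T).card + k * Fintype.card Y := by
    intro S T
    convert hcut S T
  have hx : ∀ x, k ≤ (G x).card := by
    intro x
    have h1 := hcut' {x} univ
    rw [card_singleton, sum_singleton, inter_univ, card_univ] at h1
    omega
  have hy : ∀ y, k ≤ dy G y := by
    intro y
    have h1 := hcut' univ {y}
    rw [sum_dy, sum_singleton, card_singleton, card_univ, hXY] at h1
    omega
  obtain ⟨f, hf, hr⟩ := hall G k hXY hcut' hx hy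
  let M : Finset (E G) := univ.filter fun e => f (Sum.inl e) = Sum.inl e
  have hM : ∀ e, e ∈ M ↔ f (Sum.inl e) = Sum.inl e := fun e => by
    change e ∈ univ.filter _ ↔ _
    rw [mem_filter]
    exact ⟨fun h => h.2, fun h => ⟨mem_univ _, h⟩⟩
  have hcx : ∀ x, (univ.filter fun e : E G => e.1.1 = x).card = (G x).card := by
    intro x
    have h1 := card_E G {x} univ
    rw [sum_singleton, inter_univ] at h1
    rw [← h1]
    congr 1
    ext e
    simp
  have hcy : ∀ y, (univ.filter fun e : E G => e.1.2 = y).card = dy G y := by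
    intro y
    have h1 := card_E G univ {y}
    rw [sum_dy, sum_singleton] at h1
    rw [← h1]
    congr 1
    ext e
    simp
  -- at least `k` edges at `x`
  have ha : ∀ x, k ≤ (M.filter fun e => e.1.1 = x).card := by
    intro x
    have h1 : ((univ.filter fun e : E G => e.1.1 = x).filter fun e => e ∉ M).card ≤
        (G x).card - k := by
      have h2 : ((univ : Finset (Fin ((G x).card - k))).image
          fun j => (Sum.inr ⟨x, j⟩ : RN G k)).card ≤ (G x).card - k := by
        refine card_image_le.trans ?_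
        rw [card_univ, Fintype.card_fin]
      refine le_trans ?_ h2
      refine card_le_card_of_injOn (fun e => f (Sum.inl e)) ?_ ?_
      · intro e he
        rw [mem_coe, mem_filter, mem_filter] at he
        obtain ⟨⟨_, he1⟩, he2⟩ := he
        rw [mem_coe, mem_image]
        rw [hM] at he2
        have h3 := hr (Sum.inl e)
        dsimp only
        rcases hfe : f (Sum.inl e) with e' | ⟨x', j⟩
        · rw [hfe] at h3
          exfalso
          apply he2
          rw [hfe]
          exact congrArg Sum.inl (h3 : e = e').symm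
        · rw [hfe] at h3
          have h4 : e.1.1 = x' := h3
          rw [he1] at h4
          subst h4
          exact ⟨j, mem_univ _, rfl⟩
      · intro e _ e' _ h
        exact Sum.inl_injective (hf h)
    have h2 := card_filter_add_card_filter_not (s := univ.filter fun e : E G => e.1.1 = x)
      (p := fun e => e ∈ M)
    rw [hcx] at h2
    have h3 : ((univ.filter fun e : E G => e.1.1 = x).filter fun e => e ∈ M) =
        M.filter fun e => e.1.1 = x := by
      ext e
      simp only [mem_filter, mem_univ, true_and]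
      tauto
    rw [h3] at h2
    have h4 := hx x
    omega
  -- at most `k` edges at `y`
  have hb : ∀ y, (M.filter fun e => e.1.2 = y).card ≤ k := by
    intro y
    have h1 : dy G y - k ≤
        ((univ.filter fun e : E G => e.1.2 = y).filter fun e => e ∉ M).card := by
      have h2 : (univ : Finset (Fin (dy G y - k))).card = dy G y - k := by
        rw [card_univ, Fintype.card_fin]
      have h5 : ∀ j : Fin (dy G y - k), ∃ e : E G, f (Sum.inr ⟨y, j⟩) = Sum.inl e ∧ e.1.2 = y := by
        intro j
        have h3 := hr (Sum.inr ⟨y, j⟩)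
        rcases hfe : f (Sum.inr ⟨y, j⟩) with e' | c
        · rw [hfe] at h3
          exact ⟨e', rfl, h3⟩
        · rw [hfe] at h3
          exact absurd h3 id
      choose g hg1 hg2 using h5
      rw [← h2]
      refine card_le_card_of_injOn g ?_ ?_
      · intro j _
        rw [mem_coe, mem_filter, mem_filter]
        refine ⟨⟨mem_univ _, hg2 j⟩, fun h => ?_⟩
        rw [hM] at h
        have h6 := hf (h.trans (hg1 j).symm)
        exact absurd h6 (by simp)
      · intro j _ j' _ h
        have h6 : f (Sum.inr ⟨y, j⟩) = f (Sum.inr ⟨y, j'⟩) := by rw [hg1, hg1, h]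
        have h7 := Sum.inr_injective (hf h6)
        rw [Sigma.mk.injEq] at h7
        exact eq_of_heq h7.2
    have h2 := card_filter_add_card_filter_not (s := univ.filter fun e : E G => e.1.2 = y)
      (p := fun e => e ∈ M)
    rw [hcy] at h2
    have h3 : ((univ.filter fun e : E G => e.1.2 = y).filter fun e => e ∈ M) =
        M.filter fun e => e.1.2 = y := by
      ext e
      simp only [mem_filter, mem_univ, true_and]
      tauto
    rw [h3] at h2
    have h4 := hy y
    omega
  have hs1 : ∑ x, (M.filter fun e => e.1.1 = x).card = M.card :=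
    (card_eq_sum_card_fiberwise (fun e _ => mem_univ _)).symm
  have hs2 : ∑ y, (M.filter fun e => e.1.2 = y).card = M.card :=
    (card_eq_sum_card_fiberwise (fun e _ => mem_univ _)).symm
  have hs3 : ∑ _x : X, k = k * Fintype.card Y := by
    rw [sum_const, card_univ, hXY, smul_eq_mul, mul_comm]
  have hs4 : ∑ _y : Y, k = k * Fintype.card Y := by
    rw [sum_const, card_univ, smul_eq_mul, mul_comm]
  have hs5 : ∑ _x : X, k ≤ ∑ x, (M.filter fun e => e.1.1 = x).card := sum_le_sum fun x _ => ha x
  have hs6 : ∑ y, (M.filter fun e => e.1.2 = y).card ≤ ∑ _y : Y, k := sum_le_sum fun y _ => hb y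
  have ha' : ∀ x, (M.filter fun e => e.1.1 = x).card = k := by
    have h1 := (sum_eq_sum_iff_of_le (fun x _ => ha x)).1 (by omega : ∑ _x : X, k =
      ∑ x, (M.filter fun e => e.1.1 = x).card)
    exact fun x => (h1 x (mem_univ x)).symm
  have hb' : ∀ y, (M.filter fun e => e.1.2 = y).card = k := by
    have h1 := (sum_eq_sum_iff_of_le (fun y _ => hb y)).1 (by omega :
      ∑ y, (M.filter fun e => e.1.2 = y).card = ∑ _y : Y, k)
    exact fun y => h1 y (mem_univ y)
  refine ⟨fun x => (M.filter fun e => e.1.1 = x).image fun e => e.1.2, fun x => ⟨?_, ?_⟩,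
    fun y => ?_⟩
  · intro y hy'
    obtain ⟨e, he, rfl⟩ := mem_image.1 hy'
    rw [mem_filter] at he
    rw [← he.2]
    exact e.2
  · rw [card_image_of_injOn, ha']
    intro e he e' he' h
    rw [mem_coe, mem_filter] at he he'
    exact Subtype.ext (Prod.ext (he.2.trans he'.2.symm) h)
  · rw [← hb' y]
    symm
    have h1 : (univ.filter fun x => y ∈ (M.filter fun e => e.1.1 = x).image fun e => e.1.2) =
        (M.filter fun e => e.1.2 = y).image fun e => e.1.1 := by
      ext x
      simp only [mem_filter, mem_univ, true_and, mem_image]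
      constructor
      · rintro ⟨e, ⟨he, h1⟩, h2⟩
        exact ⟨e, ⟨he, h2⟩, h1⟩
      · rintro ⟨e, ⟨he, h1⟩, h2⟩
        exact ⟨e, ⟨he, h2⟩, h1⟩
    have h2 : ((M.filter fun e => e.1.2 = y).image fun e => e.1.1).card =
        (M.filter fun e => e.1.2 = y).card := by
      apply card_image_of_injOn
      intro e he e' he' h
      rw [mem_coe, mem_filter] at he he'
      exact Subtype.ext (Prod.ext h (he.2.trans he'.2.symm))
    rw [← h2, ← h1]

end Pool.Agent.N785.PC
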