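import Pool.Agent.N785.PC.Stmts

/-!
Project PC (helper785): the cut condition from the degrees and the paths with three edges (helper617).
-/

set_option autoImplicit false

namespace Pool.Agent.N785.PC

open Finset

namespace KRb_

section
variable {X Y : Type} [Fintype X] [Fintype Y] [DecidableEq X] [DecidableEq Y]

set_option linter.unusedSectionVars false

/-- The edges between `S` and `T`. -/
noncomputable def e (a : X → Y → ℝ) (S : Finset X) (T : Finset Y) : ℝ := ∑ x ∈ S, ∑ y ∈ T, a x y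

theorem e_nonneg {a : X → Y → ℝ} (h0 : ∀ x y, 0 ≤ a x y) (S : Finset X) (T : Finset Y) :
    0 ≤ e a S T := sum_nonneg fun _ _ => sum_nonneg fun _ _ => h0 _ _

theorem e_comm (a : X → Y → ℝ) (S : Finset X) (T : Finset Y) :
    e a S T = ∑ y ∈ T, ∑ x ∈ S, a x y := sum_comm

theorem e_right (a : X → Y → ℝ) (S : Finset X) (T : Finset Y) :
    e a S T + e a S Tᶜ = ∑ x ∈ S, ∑ y, a x y := by
  unfold e
  rw [← sum_add_distrib]
  exact sum_congr rfl fun x _ => sum_add_sum_compl T _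

theorem e_left (a : X → Y → ℝ) (S : Finset X) (T : Finset Y) :
    e a S T + e a Sᶜ T = ∑ y ∈ T, ∑ x, a x y := by
  rw [e_comm, e_comm, ← sum_add_distrib]
  exact sum_congr rfl fun x _ => sum_add_sum_compl S _

/-- first bound of `D` -/
theorem D1 {a : X → Y → ℝ} {d δ : ℝ} (S : Finset X) (T : Finset Y)
    (hx : ∀ x, (1 - δ) * d ≤ ∑ y, a x y) (hy : ∀ y, ∑ x, a x y ≤ (1 + δ) * d) :
    (1 - δ) * d * S.card - (1 + δ) * d * Tᶜ.card ≤ e a S T - e a Sᶜ Tᶜ := by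
  have h1 := e_right a S T
  have h2 := e_left a S Tᶜ
  have h3 : S.card • ((1 - δ) * d) ≤ ∑ x ∈ S, ∑ y, a x y := card_nsmul_le_sum _ _ _ fun x _ => hx x
  have h4 : ∑ y ∈ Tᶜ, ∑ x, a x y ≤ Tᶜ.card • ((1 + δ) * d) := sum_le_card_nsmul _ _ _ fun y _ => hy y
  rw [nsmul_eq_mul] at h3 h4
  linarith

/-- second bound of `D` -/
theorem D2 {a : X → Y → ℝ} {d δ : ℝ} (S : Finset X) (T : Finset Y)
    (hx : ∀ x, ∑ y, a x y ≤ (1 + δ) * d) (hy : ∀ y, (1 - δ) * d ≤ ∑ x, a x y) :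
    (1 - δ) * d * T.card - (1 + δ) * d * Sᶜ.card ≤ e a S T - e a Sᶜ Tᶜ := by
  have h1 := e_right a Sᶜ T
  have h2 := e_left a S T
  have h3 : T.card • ((1 - δ) * d) ≤ ∑ y ∈ T, ∑ x, a x y := card_nsmul_le_sum _ _ _ fun x _ => hy x
  have h4 : ∑ x ∈ Sᶜ, ∑ y, a x y ≤ Sᶜ.card • ((1 + δ) * d) := sum_le_card_nsmul _ _ _ fun y _ => hx y
  rw [nsmul_eq_mul] at h3 h4
  linarith

/-- The number of paths with three edges from `S` to `T`. -/
theorem paths {a : X → Y → ℝ} {D : ℝ} (h0 : ∀ x y, 0 ≤ a x y) (S : Finset X) (T : Finset Y)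
    (hx : ∀ x, ∑ y, a x y ≤ D) (hy : ∀ y, ∑ x, a x y ≤ D) (hD : 0 ≤ D) :
    ∑ x ∈ S, ∑ y ∈ T, ∑ x₁, ∑ y₁, a x y₁ * a x₁ y₁ * a x₁ y ≤
      (2 * e a S T + e a Sᶜ Tᶜ) * D ^ 2 := by
  have hxT : ∀ x (T : Finset Y), ∑ y ∈ T, a x y ≤ D := fun x T =>
    (sum_le_sum_of_subset_of_nonneg (subset_univ T) fun y _ _ => h0 x y).trans (hx x)
  have hyS : ∀ y (S : Finset X), ∑ x ∈ S, a x y ≤ D := fun y S =>
    (sum_le_sum_of_subset_of_nonneg (subset_univ S) fun x _ _ => h0 x y).trans (hy y)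
  have hp : ∀ x y x₁ y₁, 0 ≤ a x y₁ * a x₁ y₁ * a x₁ y := fun x y x₁ y₁ =>
    mul_nonneg (mul_nonneg (h0 _ _) (h0 _ _)) (h0 _ _)
  -- split according to `y₁ ∈ T`, `x₁ ∈ S`
  have key : ∑ x ∈ S, ∑ y ∈ T, ∑ x₁, ∑ y₁, a x y₁ * a x₁ y₁ * a x₁ y ≤
      ∑ x ∈ S, ∑ y ∈ T, ∑ x₁, ∑ y₁ ∈ T, a x y₁ * a x₁ y₁ * a x₁ y +
      (∑ x ∈ S, ∑ y ∈ T, ∑ x₁ ∈ Sᶜ, ∑ y₁ ∈ Tᶜ, a x y₁ * a x₁ y₁ * a x₁ y +
      ∑ x ∈ S, ∑ y ∈ T, ∑ x₁ ∈ S, ∑ y₁, a x y₁ * a x₁ y₁ * a x₁ y) := by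
    simp only [← sum_add_distrib]
    refine sum_le_sum fun x _ => sum_le_sum fun y _ => ?_
    have h1 : ∑ x₁, ∑ y₁, a x y₁ * a x₁ y₁ * a x₁ y =
        ∑ x₁, ∑ y₁ ∈ T, a x y₁ * a x₁ y₁ * a x₁ y + ∑ x₁, ∑ y₁ ∈ Tᶜ, a x y₁ * a x₁ y₁ * a x₁ y := by
      rw [← sum_add_distrib]
      exact sum_congr rfl fun x₁ _ => (sum_add_sum_compl T _).symm
    have h2 : ∑ x₁, ∑ y₁ ∈ Tᶜ, a x y₁ * a x₁ y₁ * a x₁ y =
        ∑ x₁ ∈ Sᶜ, ∑ y₁ ∈ Tᶜ, a x y₁ * a x₁ y₁ * a x₁ y +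
        ∑ x₁ ∈ S, ∑ y₁ ∈ Tᶜ, a x y₁ * a x₁ y₁ * a x₁ y := by
      rw [add_comm]
      exact (sum_add_sum_compl S _).symm
    have h3 : ∑ x₁ ∈ S, ∑ y₁ ∈ Tᶜ, a x y₁ * a x₁ y₁ * a x₁ y ≤
        ∑ x₁ ∈ S, ∑ y₁, a x y₁ * a x₁ y₁ * a x₁ y :=
      sum_le_sum fun x₁ _ => sum_le_sum_of_subset_of_nonneg (subset_univ _) fun y₁ _ _ => hp _ _ _ _
    linarith
  have b1 : ∑ x ∈ S, ∑ y ∈ T, ∑ x₁, ∑ y₁ ∈ T, a x y₁ * a x₁ y₁ * a x₁ y ≤ e a S T * D ^ 2 := by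
    have h1 : ∑ x ∈ S, ∑ y ∈ T, ∑ x₁, ∑ y₁ ∈ T, a x y₁ * a x₁ y₁ * a x₁ y =
        ∑ x ∈ S, ∑ y₁ ∈ T, a x y₁ * ∑ x₁, a x₁ y₁ * ∑ y ∈ T, a x₁ y := by
      refine sum_congr rfl fun x _ => ?_
      simp only [mul_sum]
      rw [sum_comm]
      rw [sum_comm (s := T)]
      refine sum_congr rfl fun x₁ _ => ?_
      rw [sum_comm]
      refine sum_congr rfl fun y₁ _ => sum_congr rfl fun y _ => by ring
    rw [h1, e, sum_mul]
    refine sum_le_sum fun x _ => ?_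
    rw [sum_mul]
    refine sum_le_sum fun y₁ _ => mul_le_mul_of_nonneg_left ?_ (h0 _ _)
    calc ∑ x₁, a x₁ y₁ * ∑ y ∈ T, a x₁ y ≤ ∑ x₁, a x₁ y₁ * D :=
          sum_le_sum fun x₁ _ => mul_le_mul_of_nonneg_left (hxT _ _) (h0 _ _)
      _ = (∑ x₁, a x₁ y₁) * D := by rw [sum_mul]
      _ ≤ D * D := mul_le_mul_of_nonneg_right (hy _) hD
      _ = D ^ 2 := by ring
  have b2 : ∑ x ∈ S, ∑ y ∈ T, ∑ x₁ ∈ Sᶜ, ∑ y₁ ∈ Tᶜ, a x y₁ * a x₁ y₁ * a x₁ y ≤
      e a Sᶜ Tᶜ * D ^ 2 := by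
    have h1 : ∑ x ∈ S, ∑ y ∈ T, ∑ x₁ ∈ Sᶜ, ∑ y₁ ∈ Tᶜ, a x y₁ * a x₁ y₁ * a x₁ y =
        ∑ x₁ ∈ Sᶜ, ∑ y₁ ∈ Tᶜ, a x₁ y₁ * ((∑ x ∈ S, a x y₁) * ∑ y ∈ T, a x₁ y) := by
      have h2 : ∀ x₁ y₁, a x₁ y₁ * ((∑ x ∈ S, a x y₁) * ∑ y ∈ T, a x₁ y) =
          ∑ x ∈ S, ∑ y ∈ T, a x y₁ * a x₁ y₁ * a x₁ y := by
        intro x₁ y₁
        rw [sum_mul_sum, mul_sum]
        refine sum_congr rfl fun x _ => ?_
        rw [mul_sum]
        refine sum_congr rfl fun y _ => by ring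
      simp only [h2]
      rw [sum_congr rfl fun x (_ : x ∈ S) => sum_comm (s := T) (t := Sᶜ)
        (f := fun y x₁ => ∑ y₁ ∈ Tᶜ, a x y₁ * a x₁ y₁ * a x₁ y)]
      rw [sum_comm (s := S) (t := Sᶜ)]
      refine sum_congr rfl fun x₁ _ => ?_
      rw [sum_congr rfl fun x (_ : x ∈ S) => sum_comm (s := T) (t := Tᶜ)
        (f := fun y y₁ => a x y₁ * a x₁ y₁ * a x₁ y)]
      rw [sum_comm (s := S) (t := Tᶜ)]
    rw [h1, e, sum_mul]
    refine sum_le_sum fun x₁ _ => ?_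
    rw [sum_mul]
    refine sum_le_sum fun y₁ _ => mul_le_mul_of_nonneg_left ?_ (h0 _ _)
    calc (∑ x ∈ S, a x y₁) * ∑ y ∈ T, a x₁ y ≤ D * D :=
          mul_le_mul (hyS _ _) (hxT _ _) (sum_nonneg fun _ _ => h0 _ _) hD
      _ = D ^ 2 := by ring
  have b3 : ∑ x ∈ S, ∑ y ∈ T, ∑ x₁ ∈ S, ∑ y₁, a x y₁ * a x₁ y₁ * a x₁ y ≤ e a S T * D ^ 2 := by
    have h1 : ∑ x ∈ S, ∑ y ∈ T, ∑ x₁ ∈ S, ∑ y₁, a x y₁ * a x₁ y₁ * a x₁ y =
        ∑ x₁ ∈ S, ∑ y ∈ T, a x₁ y * ∑ y₁, a x₁ y₁ * ∑ x ∈ S, a x y₁ := by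
      have h2 : ∀ x₁ y, a x₁ y * ∑ y₁, a x₁ y₁ * ∑ x ∈ S, a x y₁ =
          ∑ x ∈ S, ∑ y₁, a x y₁ * a x₁ y₁ * a x₁ y := by
        intro x₁ y
        simp only [mul_sum]
        rw [sum_comm]
        refine sum_congr rfl fun x _ => sum_congr rfl fun y _ => by ring
      simp only [h2]
      rw [sum_congr rfl fun x (_ : x ∈ S) => sum_comm (s := T) (t := S)
        (f := fun y x₁ => ∑ y₁, a x y₁ * a x₁ y₁ * a x₁ y)]
      rw [sum_comm (s := S) (t := S)]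
      refine sum_congr rfl fun x₁ _ => ?_
      rw [sum_comm (s := S) (t := T)]
    rw [h1, e, sum_mul]
    refine sum_le_sum fun x _ => ?_
    rw [sum_mul]
    refine sum_le_sum fun y₁ _ => mul_le_mul_of_nonneg_left ?_ (h0 _ _)
    calc ∑ y₁, a x y₁ * ∑ x ∈ S, a x y₁ ≤ ∑ y₁, a x y₁ * D :=
          sum_le_sum fun x₁ _ => mul_le_mul_of_nonneg_left (hyS _ _) (h0 _ _)
      _ = (∑ y₁, a x y₁) * D := by rw [sum_mul]
      _ ≤ D * D := mul_le_mul_of_nonneg_right (hx _) hD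
      _ = D ^ 2 := by ring
  nlinarith

end

/-- The arithmetic. -/
theorem fin_ {k n s t d δ ε γ E F : ℝ} (hk0 : 0 ≤ k) (hn : 0 < n) (hs : 0 ≤ s) (ht : 0 ≤ t) (hsn : s ≤ n)
    (htn : t ≤ n) (hd : 0 < d) (hε : 0 < ε) (hε1 : ε ≤ 1) (hγ : 0 < γ) (hδ : 0 ≤ δ) (hδ1 : δ ≤ 1)
    (hδε : δ ≤ ε * γ / 200) (hk : k ≤ (1 - ε) * d) (hE : 0 ≤ E) (hF : 0 ≤ F)
    (h1 : (1 - δ) * d * s - (1 + δ) * d * (n - t) ≤ E - F)
    (h2 : (1 - δ) * d * t - (1 + δ) * d * (n - s) ≤ E - F)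
    (h3 : s * t * (γ * d ^ 3 / n) ≤ (2 * E + F) * ((1 + δ) * d) ^ 2) :
    k * s + k * t ≤ E + k * n := by
  by_cases hq : s + t ≤ n
  · have e1 : k * (s + t) ≤ k * n := mul_le_mul_of_nonneg_left hq hk0
    linarith
  push Not at hq
  set q := s + t - n with hqdef
  have hq0 : 0 < q := by linarith
  -- wlog structure: let `μ = min s t`
  obtain ⟨μ, M, hμ0, hM, hst, hD, hqμ⟩ : ∃ μ M : ℝ, 0 ≤ μ ∧ n / 2 ≤ M ∧ s * t = μ * M ∧
      q * d - 2 * δ * d * μ ≤ E - F ∧ q ≤ μ := by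
    rcases le_total s t with hle | hle
    · refine ⟨s, t, hs, by linarith, rfl, ?_, by linarith⟩
      have : (1 - δ) * d * s - (1 + δ) * d * (n - t) = q * d - δ * d * (s + (n - t)) := by
        rw [hqdef]; ring
      have h5 : δ * d * (s + (n - t)) ≤ δ * d * (2 * s) := by
        apply mul_le_mul_of_nonneg_left _ (mul_nonneg hδ hd.le)
        linarith
      linarith
    · refine ⟨t, s, ht, by linarith, mul_comm _ _, ?_, by linarith⟩
      have : (1 - δ) * d * t - (1 + δ) * d * (n - s) = q * d - δ * d * (t + (n - s)) := by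
        rw [hqdef]; ring
      have h5 : δ * d * (t + (n - s)) ≤ δ * d * (2 * t) := by
        apply mul_le_mul_of_nonneg_left _ (mul_nonneg hδ hd.le)
        linarith
      linarith
  have hkq : k * q ≤ (1 - ε) * d * q := mul_le_mul_of_nonneg_right hk hq0.le
  have hgoal : k * q ≤ E := by
    by_cases hc : 2 * δ * μ ≤ ε * q
    · have h6 : 2 * δ * d * μ ≤ ε * q * d := by
        have := mul_le_mul_of_nonneg_right hc hd.le
        linarith
      nlinarith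
    · push Not at hc
      -- lower bound of `C = E + F`
      have h7 : ((1 + δ) * d) ^ 2 ≤ 4 * d ^ 2 := by
        rw [mul_pow]
        apply mul_le_mul_of_nonneg_right _ (sq_nonneg d)
        nlinarith
      have h8 : s * t * (γ * d ^ 3 / n) ≤ (2 * (E + F)) * (4 * d ^ 2) := by
        refine h3.trans ?_
        apply mul_le_mul (by linarith) h7 (sq_nonneg _) (by linarith)
      have h9 : μ * (1 / 2) * (γ * d ^ 3) ≤ s * t * (γ * d ^ 3 / n) := by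
        rw [hst]
        have h10 : μ * M * (γ * d ^ 3 / n) = μ * (M / n) * (γ * d ^ 3) := by ring
        rw [h10]
        apply mul_le_mul_of_nonneg_right _ (by positivity)
        apply mul_le_mul_of_nonneg_left _ hμ0
        rw [le_div_iff₀ hn]
        linarith
      have h11 : μ * γ * d / 16 ≤ E + F := by
        have h12 : d ^ 2 * (μ * γ * d / 16) ≤ d ^ 2 * (E + F) := by
          have e1 : d ^ 2 * (μ * γ * d / 16) = μ * (1 / 2) * (γ * d ^ 3) / 8 := by ring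
          have e2 : d ^ 2 * (E + F) = (2 * (E + F)) * (4 * d ^ 2) / 8 := by ring
          rw [e1, e2]
          linarith
        exact le_of_mul_le_mul_left h12 (by positivity)
      -- `2 E = (E + F) + (E - F)`
      have h13 : (γ / 32 - δ) * d * μ ≤ E := by
        have e1 : (γ / 32 - δ) * d * μ = (μ * γ * d / 16 - 2 * δ * d * μ) / 2 := by ring
        have e2 : 0 ≤ q * d := mul_nonneg hq0.le hd.le
        rw [e1]
        linarith
      have h14 : δ ≤ γ / 200 := by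
        have e1 : ε * γ ≤ 1 * γ := mul_le_mul_of_nonneg_right hε1 hγ.le
        linarith
      -- `q * d ≤ (γ/32 - δ) * d * μ`
      have h15 : q ≤ (γ / 32 - δ) * μ := by
        -- `ε q < 2 δ μ ≤ ε γ / 100 μ`
        have h16 : ε * q ≤ ε * (γ / 100 * μ) := by
          have : 2 * δ * μ ≤ 2 * (ε * γ / 200) * μ := by
            apply mul_le_mul_of_nonneg_right _ hμ0
            linarith
          have e1 : 2 * (ε * γ / 200) * μ = ε * (γ / 100 * μ) := by ring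
          linarith
        have h17 : q ≤ γ / 100 * μ := le_of_mul_le_mul_left h16 hε
        have h18 : γ / 100 * μ ≤ (γ / 32 - δ) * μ := by
          apply mul_le_mul_of_nonneg_right _ hμ0
          linarith
        linarith
      have h19 : q * d ≤ (γ / 32 - δ) * d * μ := by
        have := mul_le_mul_of_nonneg_right h15 hd.le
        linarith
      have h20 : (1 - ε) * d * q = q * d - ε * d * q := by ring
      have h21 := mul_nonneg (mul_nonneg hε.le hd.le) hq0.le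
      linarith
  have : k * s + k * t = k * q + k * n := by rw [hqdef]; ring
  linarith

end KRb_

open KRb_ in
open Classical in
theorem t_KRb : S_KRb := by
  intro X Y _ _ G k d δ ε γ hXY hd hε hε1 hγ hδ hδ1 hδε hx hy hP hk S T
  set a : X → Y → ℝ := fun x y => if y ∈ G x then 1 else 0 with ha
  have h0 : ∀ x y, 0 ≤ a x y := by
    intro x y; simp only [ha]; split <;> norm_num
  have hax : ∀ x, ∑ y, a x y = ((G x).card : ℝ) := by
    intro x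
    simp only [ha]
    rw [sum_boole]
    congr 2
    ext y; simp
  have hay : ∀ y, ∑ x, a x y = ((univ.filter fun x => y ∈ G x).card : ℝ) := by
    intro y
    simp only [ha]
    rw [sum_boole]
  have hpath : ∀ x y, ∑ x₁, ∑ y₁, a x y₁ * a x₁ y₁ * a x₁ y =
      ((univ.filter fun w : X × Y => w.2 ∈ G x ∧ w.2 ∈ G w.1 ∧ y ∈ G w.1).card : ℝ) := by
    intro x y
    rw [← sum_boole, ← univ_product_univ, sum_product]
    refine sum_congr rfl fun x₁ _ => sum_congr rfl fun y₁ _ => ?_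
    simp only [ha]
    by_cases h1 : y₁ ∈ G x <;> by_cases h2 : y₁ ∈ G x₁ <;> by_cases h3 : y ∈ G x₁ <;>
      simp [h1, h2, h3]
  have hE : e a S T = ((∑ x ∈ S, (G x ∩ T).card : ℕ) : ℝ) := by
    unfold e
    rw [Nat.cast_sum]
    refine sum_congr rfl fun x _ => ?_
    simp only [ha]
    rw [sum_boole]
    congr 2
    ext y; simp [and_comm]
  by_cases hn : Fintype.card X = 0
  · have hY : Fintype.card Y = 0 := by rw [← hXY]; exact hn
    have h1 : S.card = 0 := Nat.le_zero.mp (hn ▸ card_le_univ S)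
    have h2 : T.card = 0 := Nat.le_zero.mp (hY ▸ card_le_univ T)
    rw [h1, h2]; omega
  have hn0 : (0 : ℝ) < Fintype.card X := by exact_mod_cast Nat.pos_of_ne_zero hn
  have hSc : (Sᶜ.card : ℝ) = Fintype.card X - S.card := by
    rw [card_compl, Nat.cast_sub (card_le_univ S)]
  have hTc : (Tᶜ.card : ℝ) = Fintype.card X - T.card := by
    rw [card_compl, Nat.cast_sub (card_le_univ T), hXY]
  have hD1 := D1 (a := a) (d := d) (δ := δ) S T (fun x => by rw [hax]; exact (hx x).1)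
    (fun y => by rw [hay]; exact (hy y).2)
  have hD2 := D2 (a := a) (d := d) (δ := δ) S T (fun x => by rw [hax]; exact (hx x).2)
    (fun y => by rw [hay]; exact (hy y).1)
  rw [hTc] at hD1
  rw [hSc] at hD2
  have hP2 := paths (a := a) (D := (1 + δ) * d) h0 S T (fun x => by rw [hax]; exact (hx x).2)
    (fun y => by rw [hay]; exact (hy y).2) (by positivity)
  have hP1 : (S.card : ℝ) * T.card * (γ * d ^ 3 / Fintype.card X) ≤
      ∑ x ∈ S, ∑ y ∈ T, ∑ x₁, ∑ y₁, a x y₁ * a x₁ y₁ * a x₁ y := by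
    have : (S.card : ℝ) * T.card * (γ * d ^ 3 / Fintype.card X) =
        ∑ x ∈ S, ∑ y ∈ T, (γ * d ^ 3 / Fintype.card X) := by
      simp only [sum_const, nsmul_eq_mul]; ring
    rw [this]
    refine sum_le_sum fun x _ => sum_le_sum fun y _ => ?_
    rw [hpath]
    exact hP x y
  have hfin := fin_ (k := (k : ℝ)) (n := Fintype.card X) (s := S.card) (t := T.card) (d := d) (δ := δ) (ε := ε)
    (γ := γ) (E := e a S T) (F := e a Sᶜ Tᶜ) (Nat.cast_nonneg k) hn0 (Nat.cast_nonneg _)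
    (Nat.cast_nonneg _) (by exact_mod_cast card_le_univ S) (by rw [hXY]; exact_mod_cast card_le_univ T)
    hd hε hε1 hγ hδ hδ1 hδε hk (e_nonneg h0 _ _) (e_nonneg h0 _ _) hD1 hD2 (hP1.trans hP2)
  rw [hE] at hfin
  rw [hXY] at hfin
  exact_mod_cast hfin

end Pool.Agent.N785.PC
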