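import Mathlib
import Pool.Agent.N785.PC.Stmts

set_option autoImplicit false

/-!
Project PC (helper785), part LA (helper681): the list of a cyclic permutation.
-/

namespace Pool.Agent.N785.PC

/-- the list of a cyclic permutation -/
theorem t_LA : S_LA := by
  intro α _ π u hπ
  obtain ⟨p, hp⟩ : ∃ p, p = Function.minimalPeriod π u := ⟨_, rfl⟩
  have hper : u ∈ Function.periodicPts (π : α → α) := by
    refine Function.mk_mem_periodicPts (orderOf_pos π) ?_
    rw [Function.IsPeriodicPt, Function.IsFixedPt, ← Equiv.Perm.coe_pow, pow_orderOf_eq_one]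
    rfl
  have hp0 : 0 < p := by
    rw [hp]
    exact Function.minimalPeriod_pos_of_mem_periodicPts hper
  refine ⟨(List.range p).map (fun i => (π : α → α)^[i] u), ?_, ?_, ?_, ?_, ?_⟩
  · refine List.Nodup.map_on ?_ List.nodup_range
    intro i hi j hj h
    rw [List.mem_range, hp] at hi hj
    exact Function.iterate_injOn_Iio_minimalPeriod hi hj h
  · intro x
    obtain ⟨i, hi⟩ := (hπ u x).exists_nat_pow_eq
    rw [List.mem_map]
    refine ⟨i % p, List.mem_range.2 (Nat.mod_lt _ hp0), ?_⟩
    rw [hp, Function.iterate_mod_minimalPeriod_eq, ← hi, Equiv.Perm.coe_pow]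
  · obtain ⟨q, rfl⟩ : ∃ q, p = q + 1 := ⟨p - 1, by omega⟩
    rw [List.range_succ_eq_map]
    simp
  · rw [List.isChain_map, List.isChain_range]
    intro i _
    exact Function.iterate_succ_apply' _ _ _
  · intro w hw
    obtain ⟨q, hq⟩ : ∃ q, p = q + 1 := ⟨p - 1, by omega⟩
    rw [hq, List.range_succ] at hw
    simp only [List.map_append, List.map_cons, List.map_nil, List.getLast?_append, List.getLast?_singleton,
      Option.some_or, Option.some.injEq] at hw
    rw [← hw, ← Function.iterate_succ_apply' (π : α → α), Nat.succ_eq_add_one, ← hq, hp]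
    exact Function.iterate_minimalPeriod

end Pool.Agent.N785.PC
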