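import Pool.Agent.N785.PC.Stmts

/-!
# Project PC: LB, concatenation of blocks (helper152)
-/

set_option autoImplicit false

namespace Pool.Agent.N785.PC

/-- concatenation of blocks -/
theorem t_LB : S_LB := by
  intro α β L blk Q hL h1 h2 h3
  constructor
  · rw [List.nodup_flatMap]
    refine ⟨fun x hx => (h1 x hx).2.1, ?_⟩
    exact hL.pairwise_of_forall_ne fun x hx y hy hxy => h2 x hx y hy hxy
  · rw [List.flatMap_def, List.isChain_flatten]
    · constructor
      · intro l hl
        rw [List.mem_map] at hl
        obtain ⟨x, hx, rfl⟩ := hl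
        exact (h1 x hx).2.2
      · rw [List.isChain_map]
        exact h3
    · intro h
      rw [List.mem_map] at h
      obtain ⟨x, hx, h0⟩ := h
      exact (h1 x hx).1 h0

end Pool.Agent.N785.PC
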