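import Pool.Agent.N785.PC.Stmts3

/-!
# MAIN2: the main theorem with a rate (helper136)
-/

set_option autoImplicit false

namespace Pool.Agent.N785.PC

open Finset

namespace MAIN2_

/-- the logarithmic inequality -/
lemma log_ineq {C : ℝ} (hC : 0 < C) {m : ℕ} (hm : 2 ≤ m) (hL1 : 1 ≤ Real.log m) (hLC : 2 * C ≤ Real.log m) :
    mt (2 * m) - (4 * C + 16) * m / Real.log m + ((2 * ⌊(m : ℝ) / Real.log m ^ 8⌋₊ : ℕ) : ℝ) * Real.log (m + 1) ≤
      -Real.log 4 + ((2 * m - 3 * rr m - 1 : ℕ) : ℝ) *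
        (Real.log (1 - C / Real.log m) + (Real.log (dd m) - 1)) := by
  have hm0 : (0 : ℝ) < m := by exact_mod_cast (show 0 < m by omega)
  have hm2 : (2 : ℝ) ≤ m := by exact_mod_cast hm
  set L := Real.log m with hL
  have hL0 : 0 < L := by linarith
  have hL2 : Real.log (2 * m) = Real.log 2 + L := Real.log_mul (by norm_num) hm0.ne'
  have hlog2 := Real.log_two_lt_d9
  have hlog2' := Real.log_two_gt_d9
  have hL2le : Real.log (2 * m) ≤ 2 * L := by rw [hL2]; linarith
  have hL2pos : 0 < Real.log (2 * m) := by rw [hL2]; linarith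
  have hdd : Real.log (dd m) = Real.log (2 * m) - Real.log (Real.log (2 * m)) := by
    unfold dd
    rw [Real.log_div (by positivity) hL2pos.ne']
  have hmt : mt (2 * m) = 2 * m * (Real.log (dd m) - 1) := by
    unfold mt
    rw [hdd]
    push_cast
    ring
  have hll : Real.log (Real.log (2 * m)) ≤ Real.log (2 * m) - 1 := Real.log_le_sub_one_of_pos hL2pos
  have hll0 : 0 ≤ Real.log (Real.log (2 * m)) := Real.log_nonneg (by rw [hL2]; linarith)
  have hd0 : 0 ≤ Real.log (dd m) - 1 := by rw [hdd]; linarith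
  have hd1 : Real.log (dd m) - 1 ≤ 2 * L := by rw [hdd]; linarith
  -- the exponent
  have hE1 : (2 * m : ℝ) - 3 * rr m - 1 ≤ ((2 * m - 3 * rr m - 1 : ℕ) : ℝ) := by
    have h : 2 * m ≤ (2 * m - 3 * rr m - 1) + 3 * rr m + 1 := by omega
    have h' : ((2 * m : ℕ) : ℝ) ≤ (((2 * m - 3 * rr m - 1) + 3 * rr m + 1 : ℕ) : ℝ) := by exact_mod_cast h
    push_cast at h' ⊢
    linarith
  have hE2 : ((2 * m - 3 * rr m - 1 : ℕ) : ℝ) ≤ 2 * m := by
    have h : 2 * m - 3 * rr m - 1 ≤ 2 * m := by omega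
    exact_mod_cast h
  set E : ℝ := ((2 * m - 3 * rr m - 1 : ℕ) : ℝ) with hE
  -- the reservoir
  have hpow : ∀ k : ℕ, 1 ≤ L ^ k := fun k => one_le_pow₀ hL1
  have hr : (rr m : ℝ) ≤ m / L ^ 4 := by
    unfold rr
    exact Nat.floor_le (by positivity)
  have hq : ((⌊(m : ℝ) / L ^ 8⌋₊ : ℕ) : ℝ) ≤ m / L ^ 8 := Nat.floor_le (by positivity)
  have hLm : L ≤ m := by
    have := Real.log_le_sub_one_of_pos hm0
    linarith
  have hLsq : L ^ 2 ≤ 2 * m := by
    have h := Real.quadratic_le_exp_of_nonneg hL0.le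
    rw [hL, Real.exp_log hm0, ← hL] at h
    linarith
  have t1 : (3 * (rr m : ℝ) + 1) * (2 * L) ≤ 10 * (m / L) := by
    have h1 : (m / L ^ 4) * L ≤ m / L := by
      rw [div_mul_eq_mul_div, div_le_div_iff₀ (by positivity) hL0]
      have : L ^ 4 = L ^ 2 * (L * L) := by ring
      rw [this]
      have h2 := hpow 2
      nlinarith [mul_pos hm0 (mul_pos hL0 hL0)]
    have h2 : L ≤ 2 * (m / L) := by
      rw [mul_div_assoc', le_div_iff₀ hL0]
      nlinarith
    have h3 : (rr m : ℝ) * L ≤ (m / L ^ 4) * L := mul_le_mul_of_nonneg_right hr hL0.le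
    linarith
  have t2 : ((2 * ⌊(m : ℝ) / L ^ 8⌋₊ : ℕ) : ℝ) * Real.log (m + 1) ≤ 4 * (m / L) := by
    have h1 : Real.log (m + 1) ≤ 2 * L := by
      refine le_trans (Real.log_le_log (by linarith) ?_) hL2le
      linarith
    have h2 : (m / L ^ 8) * L ≤ m / L := by
      rw [div_mul_eq_mul_div, div_le_div_iff₀ (by positivity) hL0]
      have : L ^ 8 = L ^ 6 * (L * L) := by ring
      rw [this]
      have h2 := hpow 6
      nlinarith [mul_pos hm0 (mul_pos hL0 hL0)]
    have h3 : ((⌊(m : ℝ) / L ^ 8⌋₊ : ℕ) : ℝ) * L ≤ (m / L ^ 8) * L := mul_le_mul_of_nonneg_right hq hL0.le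
    have h4 : (0 : ℝ) ≤ ((⌊(m : ℝ) / L ^ 8⌋₊ : ℕ) : ℝ) := Nat.cast_nonneg _
    push_cast
    nlinarith
  have t3 : Real.log 4 ≤ 2 * (m / L) := by
    have h1 : Real.log 4 = 2 * Real.log 2 := by
      rw [show (4 : ℝ) = 2 ^ 2 by norm_num, Real.log_pow]
      norm_num
    have h2 : 1 ≤ m / L := by
      rw [le_div_iff₀ hL0]
      linarith
    rw [h1]
    linarith
  have hCL : C / L ≤ 1 / 2 := by
    rw [div_le_iff₀ hL0]
    linarith
  have hCL0 : 0 < C / L := by positivity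
  have t4 : -(2 * (C / L)) ≤ Real.log (1 - C / L) := by
    have h1 := Real.one_sub_inv_le_log_of_pos (show 0 < 1 - C / L by linarith)
    refine le_trans ?_ h1
    have h2 : (1 - C / L)⁻¹ ≤ 1 + 2 * (C / L) := by
      rw [inv_le_iff_one_le_mul₀ (by linarith)]
      nlinarith
    linarith
  have t5 : Real.log (1 - C / L) ≤ 0 := Real.log_nonpos (by linarith) (by linarith)
  have t6 : -(4 * C * (m / L)) ≤ E * Real.log (1 - C / L) := by
    have h1 : 2 * m * Real.log (1 - C / L) ≤ E * Real.log (1 - C / L) :=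
      mul_le_mul_of_nonpos_right hE2 t5
    have h2 : 2 * m * (-(2 * (C / L))) ≤ 2 * m * Real.log (1 - C / L) :=
      mul_le_mul_of_nonneg_left t4 (by positivity)
    have h3 : 2 * m * (-(2 * (C / L))) = -(4 * C * (m / L)) := by ring
    linarith
  have t7 : 2 * m * (Real.log (dd m) - 1) - 10 * (m / L) ≤ E * (Real.log (dd m) - 1) := by
    have h1 : ((2 * m : ℝ) - 3 * rr m - 1) * (Real.log (dd m) - 1) ≤ E * (Real.log (dd m) - 1) :=
      mul_le_mul_of_nonneg_right hE1 hd0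
    have h2 : (3 * (rr m : ℝ) + 1) * (Real.log (dd m) - 1) ≤ (3 * (rr m : ℝ) + 1) * (2 * L) :=
      mul_le_mul_of_nonneg_left hd1 (by positivity)
    nlinarith
  have t8 : (4 * C + 16) * m / L = 4 * C * (m / L) + 16 * (m / L) := by ring
  rw [hmt, t8]
  have t9 : E * (Real.log (1 - C / L) + (Real.log (dd m) - 1)) =
    E * Real.log (1 - C / L) + E * (Real.log (dd m) - 1) := by ring
  rw [t9]
  linarith

end MAIN2_

open MAIN2_ in
theorem t_MAIN2 (h : S_MAINC2) : S_MAIN2 := by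
  obtain ⟨C, hC, m₀, hm₀⟩ := h
  have hlim : Filter.Tendsto (fun m : ℕ => Real.log (m : ℝ)) Filter.atTop Filter.atTop :=
    Real.tendsto_log_atTop.comp tendsto_natCast_atTop_atTop
  obtain ⟨m₁, hm₁⟩ := Filter.eventually_atTop.1 (hlim.eventually_ge_atTop (1 + 2 * C))
  refine ⟨4 * C + 16, by positivity, max 2 (max m₀ m₁), fun m hm u v he => ?_⟩
  have h1 : 2 ≤ m := (le_max_left _ _).trans hm
  have h2 : m₀ ≤ m := ((le_max_left _ _).trans (le_max_right _ _)).trans hm
  have h3 : m₁ ≤ m := ((le_max_right _ _).trans (le_max_right _ _)).trans hm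
  have hL := hm₁ m h3
  have hL1 : 1 ≤ Real.log m := by linarith
  have hLC : 2 * C ≤ Real.log m := by linarith
  have key := log_ineq hC h1 hL1 hLC
  have main := hm₀ m h2 u v he
  have hm0 : (0 : ℝ) < m := by exact_mod_cast (show 0 < m by omega)
  have hL0 : 0 < Real.log m := by linarith
  have hL2pos : 0 < Real.log (2 * m) := by
    rw [Real.log_mul (by norm_num) hm0.ne']
    have := Real.log_two_gt_d9
    linarith
  have hddpos : 0 < dd m := by unfold dd; positivity
  have hc1 : 0 < 1 - C / Real.log m := by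
    have : C / Real.log m < 1 := by
      rw [div_lt_one hL0]
      linarith
    linarith
  have ha : 0 < (1 - C / Real.log m) * dd m / Real.exp 1 := by positivity
  have hloga : Real.log ((1 - C / Real.log m) * dd m / Real.exp 1) =
      Real.log (1 - C / Real.log m) + (Real.log (dd m) - 1) := by
    rw [Real.log_div (by positivity) (Real.exp_pos 1).ne', Real.log_mul hc1.ne' hddpos.ne', Real.log_exp]
    ring
  have hA : 1 / 4 * ((1 - C / Real.log m) * dd m / Real.exp 1) ^ (2 * m - 3 * rr m - 1) =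
      Real.exp (-Real.log 4 + ((2 * m - 3 * rr m - 1 : ℕ) : ℝ) *
        (Real.log (1 - C / Real.log m) + (Real.log (dd m) - 1))) := by
    rw [Real.exp_add, Real.exp_neg, Real.exp_log (by norm_num), ← hloga, Real.exp_nat_mul, Real.exp_log ha]
    norm_num
  have hB : ((m : ℝ) + 1) ^ (2 * ⌊(m : ℝ) / Real.log m ^ 8⌋₊) =
      Real.exp (((2 * ⌊(m : ℝ) / Real.log m ^ 8⌋₊ : ℕ) : ℝ) * Real.log (m + 1)) := by
    rw [Real.exp_nat_mul, Real.exp_log (by positivity)]
  have hBpos : 0 < ((m : ℝ) + 1) ^ (2 * ⌊(m : ℝ) / Real.log m ^ 8⌋₊) := by positivity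
  have hfin : Real.exp (mt (2 * m) - (4 * C + 16) * m / Real.log m) *
      ((m : ℝ) + 1) ^ (2 * ⌊(m : ℝ) / Real.log m ^ 8⌋₊) ≤
      ((HP m u v).ncard : ℝ) * ((m : ℝ) + 1) ^ (2 * ⌊(m : ℝ) / Real.log m ^ 8⌋₊) := by
    refine le_trans ?_ main
    rw [hA, hB, ← Real.exp_add]
    exact Real.exp_le_exp.2 key
  exact le_of_mul_le_mul_right hfin hBpos

end Pool.Agent.N785.PC
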