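import Pool.Agent.N785.PC.Stmts

/-!
# Project PC, leaf MAINC: the main counting inequality
-/

set_option autoImplicit false

namespace Pool.Agent.N785.PC

open Finset

namespace MAINC_

theorem card_filter_eq {α : Type} [Fintype α] (p : α → Prop) [DecidablePred p] :
    (univ.filter p).card = Nat.card {x // p x} := by
  rw [Nat.card_eq_fintype_card, Fintype.card_subtype]

theorem aa_mem (m r i : ℕ) (_hm : 200 ≤ m) (hr : 40 * r ≤ m) (hi : i < r) : aa m i ∈ Od m := by
  simp only [Od, mem_filter, mem_Icc, aa]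
  omega

theorem aa_inj (m : ℕ) {i j : ℕ} (h : aa m i = aa m j) : i = j := by
  simp only [aa] at h
  omega

theorem paa_mem (m r P p h i : ℕ) (hG : Gad m r P p h) (hi : i < r) : P - aa m i ∈ Ev m := by
  have h1 := hG.hm
  have h2 := hG.hr
  have h3 := hG.low
  have h4 := hG.sep
  have h5 := hG.upp
  have h6 : P % 2 = 1 := by
    rcases hG.P1.eq_two_or_odd with h | h
    · omega
    · exact h
  simp only [Ev, mem_filter, mem_Icc, aa]
  omega

theorem card_Od (m : ℕ) : (Od m).card = m := by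
  have : Od m = (range m).image (fun i => 2 * i + 1) := by
    ext x
    simp only [Od, mem_filter, mem_Icc, mem_image, mem_range]
    constructor
    · intro hx
      exact ⟨x / 2, by omega, by omega⟩
    · rintro ⟨i, hi, rfl⟩
      omega
  rw [this, card_image_of_injective]
  · simp
  · intro a b hab
    simp only at hab
    omega

theorem card_Ev (m : ℕ) : (Ev m).card = m := by
  have : Ev m = (range m).image (fun i => 2 * i + 2) := by
    ext x
    simp only [Ev, mem_filter, mem_Icc, mem_image, mem_range]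
    constructor
    · intro hx
      exact ⟨x / 2 - 1, by omega, by omega⟩
    · rintro ⟨i, hi, rfl⟩
      omega
  rw [this, card_image_of_injective]
  · simp
  · intro a b hab
    simp only at hab
    omega

theorem card_AA (m r P p h : ℕ) (hG : Gad m r P p h) : (AA m r).card = m - r := by
  unfold AA
  rw [card_sdiff_of_subset]
  · rw [card_Od, card_image_of_injective]
    · simp
    · intro a b hab
      exact aa_inj m hab
  · intro x hx
    rw [mem_image] at hx
    obtain ⟨i, hi, rfl⟩ := hx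
    exact aa_mem m r i hG.hm hG.hr (mem_range.1 hi)

theorem card_BB (m r P p h : ℕ) (hG : Gad m r P p h) : (BB m r P).card = m - r := by
  unfold BB
  rw [card_sdiff_of_subset]
  · rw [card_Ev, card_image_of_injOn]
    · simp
    · intro a ha b hb hab
      have h1 := paa_mem m r P p h a hG (by simpa using ha)
      have h2 := paa_mem m r P p h b hG (by simpa using hb)
      simp only [Ev, mem_filter, mem_Icc] at h1 h2
      apply aa_inj m
      simp only at hab
      omega
  · intro x hx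
    rw [mem_image] at hx
    obtain ⟨i, hi, rfl⟩ := hx
    exact paa_mem m r P p h i hG (mem_range.1 hi)

theorem finite_HP (m u v : ℕ) : (HP m u v).Finite := by
  apply Set.Finite.subset (List.finite_toSet ((Icc 1 (2 * m)).toList).permutations)
  intro l hl
  obtain ⟨h1, h2, -⟩ := hl
  change l ∈ (Icc 1 (2 * m)).toList.permutations
  rw [List.mem_permutations]
  apply List.perm_of_nodup_nodup_toFinset_eq h1 (nodup_toList _)
  ext x
  simp only [List.mem_toFinset, h2, mem_toList, mem_Icc]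

theorem Nx_fun {A B : Finset ℕ} {l : List ℕ} (hl : l.Nodup) {x y y' : ℕ} (h : Nx A B l x y)
    (h' : Nx A B l x y') : y = y' := by
  obtain ⟨s, t, hs⟩ := h
  obtain ⟨s', t', hs'⟩ := h'
  have hn : (l.filter (fun z => decide (z ∈ A ∪ B))).Nodup := hl.filter _
  have h1 : x ∉ s := by
    rw [hs] at hn
    intro hx
    exact (List.nodup_append.1 hn).2.2 x hx x (by simp) rfl
  have h2 : x ∉ s' := by
    rw [hs'] at hn
    intro hx
    exact (List.nodup_append.1 hn).2.2 x hx x (by simp) rfl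
  have h3 : s ++ x :: y :: t = s' ++ x :: y' :: t' := by rw [← hs, ← hs']
  have h4 : s.length = s'.length := by
    have e1 : (s ++ x :: y :: t).idxOf x = s.length := by
      rw [List.idxOf_append_of_notMem h1]
      simp
    have e2 : (s' ++ x :: y' :: t').idxOf x = s'.length := by
      rw [List.idxOf_append_of_notMem h2]
      simp
    rw [← e1, h3, e2]
  obtain ⟨-, h5⟩ := List.append_inj h3 h4
  simp only [List.cons.injEq, true_and] at h5
  exact h5.1

/-- the number of the elements of a filter -/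
theorem card_filter_nat {β : Type} (i : Fintype β) (p : β → Prop) (d : DecidablePred p) :
    (@Finset.filter β p d (@Finset.univ β i)).card = Nat.card {x // p x} := by
  rw [Nat.card_eq_fintype_card, Fintype.card_subtype]

/-- independence of the instances -/
theorem supp_inst {β : Type} (d e : DecidableEq β) (i j : Fintype β) (τ : Equiv.Perm β) :
    (@Equiv.Perm.support β d i τ).card = (@Equiv.Perm.support β e j τ).card := by
  have h1 : d = e := Subsingleton.elim _ _
  subst h1
  have h2 : i = j := Subsingleton.elim _ _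
  subst h2
  rfl

end MAINC_

open MAINC_

theorem t_MAINC (h1 : S_CNT) (h2 : S_GAD) (h3 : S_CON) (h4 : S_MERGE) (h5 : S_TAU) (h6 : S_ASM)
    (h7 : S_GGN) : S_MAINC := by
  intro ε hε0 hε1
  obtain ⟨M1, hM1⟩ := h1 ε hε0 hε1
  obtain ⟨M2, hM2⟩ := h2
  obtain ⟨M3, hM3⟩ := h3
  obtain ⟨M7, hM7⟩ := h7 ε hε0 hε1
  refine ⟨max (max M1 M2) (max M3 M7), ?_⟩
  intro m hm u v hE
  simp only [max_le_iff] at hm
  obtain ⟨⟨m1, m2⟩, m3, m7⟩ := hm
  obtain ⟨P, p, h, hG⟩ := hM2 m m2
  set r := rr m with hr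
  have hm200 := hG.hm
  have h40 := hG.hr
  have cA : (AA m r).card = m - r := card_AA m r P p h hG
  have cB : (BB m r P).card = m - r := card_BB m r P p h hG
  have hAs : AA m r ⊆ Od m := sdiff_subset
  have hBs : BB m r P ⊆ Ev m := sdiff_subset
  have hlog : 1 ≤ Real.log m := by
    rw [Real.le_log_iff_exp_le (by positivity)]
    have : (3 : ℝ) ≤ m := by exact_mod_cast (by omega : 3 ≤ m)
    linarith [Real.exp_one_lt_d9]
  have hmA : (m : ℝ) ≤ (AA m r).card + m / Real.log m ^ 3 := by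
    rw [cA, Nat.cast_sub (by omega)]
    have e1 : (r : ℝ) ≤ m / Real.log m ^ 4 := by
      rw [hr]
      unfold rr
      apply Nat.floor_le
      positivity
    have e2 : (m : ℝ) / Real.log m ^ 4 ≤ m / Real.log m ^ 3 := by
      apply div_le_div_of_nonneg_left (by positivity) (by positivity)
      exact pow_le_pow_right₀ hlog (by norm_num)
    linarith
  set X : ℝ := (1 - ε) * dd m / Real.exp 1 with hX
  have hX0 : 0 ≤ X := by
    rw [hX]
    unfold dd
    have : 0 ≤ Real.log (2 * m) := Real.log_nonneg (by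
      have : (3 : ℝ) ≤ m := by exact_mod_cast (by omega : 3 ≤ m)
      linarith)
    have h1e : 0 ≤ 1 - ε := by linarith
    positivity
  -- the pairs
  let GT : Type := {g : BB m r P ≃ AA m r // GG m r P p h u v g}
  let FT : GT → Type := fun g => {f : AA m r ≃ BB m r P //
    (∀ x : AA m r, ((x : ℕ) + (f x : ℕ)).Prime) ∧ (ncyc (f.trans g.1) : ℝ) ≤ m / Real.log m ^ 8}
  let q : ℕ := ⌊(m : ℝ) / Real.log m ^ 8⌋₊
  let TT : Type := {τ : Equiv.Perm (AA m r) // τ.support.card ≤ q}
  have hGT : 1 / 2 * X ^ (m - 2 * r - 1) ≤ (Nat.card GT : ℝ) := by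
    have := hM7 m m7 P p h u v hG hE
    rw [card_filter_eq] at this
    exact this
  have hFT : ∀ g : GT, 1 / 2 * X ^ (m - r) ≤ (Nat.card (FT g) : ℝ) := by
    intro g
    have := hM1 m m1 (AA m r) (BB m r P) hAs hBs (by rw [cA, cB]) hmA g.1
    rw [card_filter_eq, cA] at this
    exact this
  have hTT : Nat.card TT ≤ (m + 1) ^ (2 * q) := by
    have h := h5 (AA m r) q
    have h' : Nat.card TT ≤ (Fintype.card (AA m r) + 1) ^ (2 * q) := by
      refine le_trans (le_of_eq ?_) h
      rw [card_filter_nat]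
      exact Nat.card_congr (Equiv.subtypeEquivRight fun τ => iff_of_eq (congrArg (fun k => k ≤ q)
        (supp_inst _ _ _ _ τ)))
    refine h'.trans (Nat.pow_le_pow_left ?_ _)
    rw [Fintype.card_coe, cA]
    omega
  -- the choices
  have key : ∀ w : (Σ g : GT, FT g), ∃ z : HP m u v × TT,
      (∀ x : AA m r, Nx (AA m r) (BB m r P) z.1.1 x (w.2.1 (z.2.1 x))) ∧
      ∀ y : BB m r P, (y : ℕ) ≠ v → Nx (AA m r) (BB m r P) z.1.1 y (w.1.1 y) := by
    rintro ⟨⟨g, hg⟩, ⟨f, hf1, hf2⟩⟩
    obtain ⟨τ, hτ1, hτ2⟩ := h4 (AA m r) (f.trans g)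
    have hs : (τ.support.card : ℝ) ≤ m / Real.log m ^ 8 :=
      le_trans (by exact_mod_cast hτ1) hf2
    have hodd : Odd P := by
      rcases hG.P1.eq_two_or_odd' with h | h
      · have := hG.low
        omega
      · exact h
    obtain ⟨I, J, hC⟩ := hM3 m m3 P hG.low (by have := hG.sep; have := hG.upp; omega) hodd
      (τ.support.map (Function.Embedding.subtype _)) (by
        intro x hx
        rw [mem_map] at hx
        obtain ⟨a, -, rfl⟩ := hx
        exact hAs a.2) (by rw [card_map]; exact hs) (fn (τ.trans f)) (by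
        intro x hx
        rw [mem_map] at hx
        obtain ⟨a, -, rfl⟩ := hx
        have : fn (τ.trans f) (Function.Embedding.subtype _ a) = ((τ.trans f) a : ℕ) := by
          unfold fn
          simp
        rw [this]
        exact hBs ((τ.trans f) a).2)
    obtain ⟨l, hl, hl1, hl2⟩ := h6 m r P p h u v hG hE g hg f hf1 τ hτ2 I J hC
    exact ⟨⟨⟨l, hl⟩, ⟨τ, Nat.le_floor hs⟩⟩, hl1, hl2⟩
  choose Z hZ1 hZ2 using key
  have hinj : Function.Injective Z := by
    rintro ⟨⟨g, hg⟩, ⟨f, hf⟩⟩ ⟨⟨g', hg'⟩, ⟨f', hf'⟩⟩ hZ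
    have hnd : ((Z ⟨⟨g, hg⟩, ⟨f, hf⟩⟩).1.1).Nodup := (Z ⟨⟨g, hg⟩, ⟨f, hf⟩⟩).1.2.1
    have a1 := hZ1 ⟨⟨g, hg⟩, ⟨f, hf⟩⟩
    have a2 := hZ2 ⟨⟨g, hg⟩, ⟨f, hf⟩⟩
    have b1 := hZ1 ⟨⟨g', hg'⟩, ⟨f', hf'⟩⟩
    have b2 := hZ2 ⟨⟨g', hg'⟩, ⟨f', hf'⟩⟩
    rw [← hZ] at b1 b2
    have hgg : g = g' := by
      ext y
      by_cases hy : (y : ℕ) = v
      · rw [hg.uv y hy, hg'.uv y hy]
      · exact Nx_fun hnd (a2 y hy) (b2 y hy)
    subst hgg
    have hff : f = f' := by
      ext x
      have := Nx_fun hnd (a1 ((Z ⟨⟨g, hg⟩, ⟨f, hf⟩⟩).2.1.symm x)) (b1 ((Z ⟨⟨g, hg⟩, ⟨f, hf⟩⟩).2.1.symm x))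
      simpa using this
    subst hff
    rfl
  have hfin : Finite (HP m u v) := (finite_HP m u v).to_subtype
  have hcard : Nat.card (Σ g : GT, FT g) ≤ (HP m u v).ncard * (m + 1) ^ (2 * q) := by
    have e1 : Nat.card (Σ g : GT, FT g) ≤ Nat.card (HP m u v × TT) :=
      Nat.card_le_card_of_injective Z hinj
    rw [Nat.card_prod, Nat.card_coe_set_eq] at e1
    exact e1.trans (Nat.mul_le_mul_left _ hTT)
  have hsum : 1 / 4 * X ^ (2 * m - 3 * r - 1) ≤ (Nat.card (Σ g : GT, FT g) : ℝ) := by
    classical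
    have : Fintype GT := Fintype.ofFinite GT
    rw [Nat.card_sigma, Nat.cast_sum]
    calc 1 / 4 * X ^ (2 * m - 3 * r - 1) = (1 / 2 * X ^ (m - 2 * r - 1)) * (1 / 2 * X ^ (m - r)) := by
          rw [show 2 * m - 3 * r - 1 = (m - 2 * r - 1) + (m - r) by omega, pow_add]
          ring
      _ ≤ (Nat.card GT : ℝ) * (1 / 2 * X ^ (m - r)) :=
          mul_le_mul_of_nonneg_right hGT (by positivity)
      _ = ∑ _g : GT, (1 / 2 * X ^ (m - r)) := by
          rw [sum_const, card_univ, nsmul_eq_mul, Nat.card_eq_fintype_card]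
      _ ≤ ∑ g : GT, (Nat.card (FT g) : ℝ) := sum_le_sum fun g _ => hFT g
  refine hsum.trans ?_
  have := hcard
  have h9 : (Nat.card (Σ g : GT, FT g) : ℝ) ≤ (((HP m u v).ncard * (m + 1) ^ (2 * q) : ℕ) : ℝ) := by
    exact_mod_cast this
  refine h9.trans (le_of_eq ?_)
  push_cast
  rfl

end Pool.Agent.N785.PC
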