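import Pool.Agent.N785.PC.Stmts3
import Pool.Agent.N785.PC.MAINC

/-!
# Project PC, leaf MAINC2: the main counting inequality, with a rate
-/

set_option autoImplicit false

namespace Pool.Agent.N785.PC

open Finset

open MAINC_

theorem t_MAINC2 (h1 : S_CNT2) (h2 : S_GAD) (h3 : S_CON) (h4 : S_MERGE) (h5 : S_TAU)
    (h6 : S_ASM) (h7 : S_GGN2) : S_MAINC2 := by
  obtain ⟨C1, hC1, M1, hM1⟩ := h1
  obtain ⟨M2, hM2⟩ := h2
  obtain ⟨M3, hM3⟩ := h3
  obtain ⟨C7, hC7, M7, hM7⟩ := h7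
  refine ⟨max C1 C7, lt_max_of_lt_left hC1,
    max (max M1 M2) (max (max M3 M7) ⌈Real.exp (max C1 C7)⌉₊), ?_⟩
  intro m hm u v hE
  simp only [max_le_iff] at hm
  obtain ⟨⟨m1, m2⟩, ⟨m3, m7⟩, m8⟩ := hm
  obtain ⟨P, p, h, hG⟩ := hM2 m m2
  set r := rr m with hr
  have hm200 := hG.hm
  have h40 := hG.hr
  have cA : (AA m r).card = m - r := card_AA m r P p h hG
  have cB : (BB m r P).card = m - r := card_BB m r P p h hG
  have hAs : AA m r ⊆ Od m := sdiff_subset
  have hBs : BB m r P ⊆ Ev m := sdiff_subset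
  have hlog : 1 ≤ Real.log m := by
    rw [Real.le_log_iff_exp_le (by positivity)]
    have : (3 : ℝ) ≤ m := by exact_mod_cast (by omega : 3 ≤ m)
    linarith [Real.exp_one_lt_d9]
  have hmA : (m : ℝ) ≤ (AA m r).card + m / Real.log m ^ 3 := by
    rw [cA, Nat.cast_sub (by omega)]
    have e1 : (r : ℝ) ≤ m / Real.log m ^ 4 := by
      rw [hr]
      unfold rr
      apply Nat.floor_le
      positivity
    have e2 : (m : ℝ) / Real.log m ^ 4 ≤ m / Real.log m ^ 3 := by
      apply div_le_div_of_nonneg_left (by positivity) (by positivity)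
      exact pow_le_pow_right₀ hlog (by norm_num)
    linarith
  set C : ℝ := max C1 C7 with hC
  set X : ℝ := (1 - C / Real.log m) * dd m / Real.exp 1 with hX
  have hdd : 0 ≤ dd m := by
    unfold dd
    have : 0 ≤ Real.log (2 * m) := Real.log_nonneg (by
      have : (3 : ℝ) ≤ m := by exact_mod_cast (by omega : 3 ≤ m)
      linarith)
    positivity
  have hX0 : 0 ≤ X := by
    rw [hX]
    have h1e : 0 ≤ 1 - C / Real.log m := by
      have hm0 : (0 : ℝ) < m := by exact_mod_cast (by omega : 0 < m)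
      have hCl : C ≤ Real.log m := by
        rw [Real.le_log_iff_exp_le hm0]
        exact (Nat.le_ceil _).trans (by exact_mod_cast m8)
      have : C / Real.log m ≤ 1 := (div_le_one (by linarith)).2 hCl
      linarith
    positivity
  have hXle : ∀ C' : ℝ, C' ≤ C → X ≤ (1 - C' / Real.log m) * dd m / Real.exp 1 := by
    intro C' hC'
    rw [hX]
    have : C' / Real.log m ≤ C / Real.log m := div_le_div_of_nonneg_right hC' (by linarith)
    refine div_le_div_of_nonneg_right ?_ (Real.exp_pos 1).le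
    exact mul_le_mul_of_nonneg_right (by linarith) hdd
  -- the pairs
  let GT : Type := {g : BB m r P ≃ AA m r // GG m r P p h u v g}
  let FT : GT → Type := fun g => {f : AA m r ≃ BB m r P //
    (∀ x : AA m r, ((x : ℕ) + (f x : ℕ)).Prime) ∧ (ncyc (f.trans g.1) : ℝ) ≤ m / Real.log m ^ 8}
  let q : ℕ := ⌊(m : ℝ) / Real.log m ^ 8⌋₊
  let TT : Type := {τ : Equiv.Perm (AA m r) // τ.support.card ≤ q}
  have hGT : 1 / 2 * X ^ (m - 2 * r - 1) ≤ (Nat.card GT : ℝ) := by
    have := hM7 m m7 P p h u v hG hE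
    rw [card_filter_eq] at this
    refine le_trans ?_ this
    exact mul_le_mul_of_nonneg_left (pow_le_pow_left₀ hX0 (hXle C7 (le_max_right _ _)) _)
      (by norm_num)
  have hFT : ∀ g : GT, 1 / 2 * X ^ (m - r) ≤ (Nat.card (FT g) : ℝ) := by
    intro g
    have := hM1 m m1 (AA m r) (BB m r P) hAs hBs (by rw [cA, cB]) hmA g.1
    rw [card_filter_eq, cA] at this
    refine le_trans ?_ this
    exact mul_le_mul_of_nonneg_left (pow_le_pow_left₀ hX0 (hXle C1 (le_max_left _ _)) _)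
      (by norm_num)
  have hTT : Nat.card TT ≤ (m + 1) ^ (2 * q) := by
    have h := h5 (AA m r) q
    have h' : Nat.card TT ≤ (Fintype.card (AA m r) + 1) ^ (2 * q) := by
      refine le_trans (le_of_eq ?_) h
      rw [card_filter_nat]
      exact Nat.card_congr (Equiv.subtypeEquivRight fun τ => iff_of_eq (congrArg (fun k => k ≤ q)
        (supp_inst _ _ _ _ τ)))
    refine h'.trans (Nat.pow_le_pow_left ?_ _)
    rw [Fintype.card_coe, cA]
    omega
  -- the choices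
  have key : ∀ w : (Σ g : GT, FT g), ∃ z : HP m u v × TT,
      (∀ x : AA m r, Nx (AA m r) (BB m r P) z.1.1 x (w.2.1 (z.2.1 x))) ∧
      ∀ y : BB m r P, (y : ℕ) ≠ v → Nx (AA m r) (BB m r P) z.1.1 y (w.1.1 y) := by
    rintro ⟨⟨g, hg⟩, ⟨f, hf1, hf2⟩⟩
    obtain ⟨τ, hτ1, hτ2⟩ := h4 (AA m r) (f.trans g)
    have hs : (τ.support.card : ℝ) ≤ m / Real.log m ^ 8 :=
      le_trans (by exact_mod_cast hτ1) hf2
    have hodd : Odd P := by
      rcases hG.P1.eq_two_or_odd' with h | h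
      · have := hG.low
        omega
      · exact h
    obtain ⟨I, J, hC⟩ := hM3 m m3 P hG.low (by have := hG.sep; have := hG.upp; omega) hodd
      (τ.support.map (Function.Embedding.subtype _)) (by
        intro x hx
        rw [mem_map] at hx
        obtain ⟨a, -, rfl⟩ := hx
        exact hAs a.2) (by rw [card_map]; exact hs) (fn (τ.trans f)) (by
        intro x hx
        rw [mem_map] at hx
        obtain ⟨a, -, rfl⟩ := hx
        have : fn (τ.trans f) (Function.Embedding.subtype _ a) = ((τ.trans f) a : ℕ) := by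
          unfold fn
          simp
        rw [this]
        exact hBs ((τ.trans f) a).2)
    obtain ⟨l, hl, hl1, hl2⟩ := h6 m r P p h u v hG hE g hg f hf1 τ hτ2 I J hC
    exact ⟨⟨⟨l, hl⟩, ⟨τ, Nat.le_floor hs⟩⟩, hl1, hl2⟩
  choose Z hZ1 hZ2 using key
  have hinj : Function.Injective Z := by
    rintro ⟨⟨g, hg⟩, ⟨f, hf⟩⟩ ⟨⟨g', hg'⟩, ⟨f', hf'⟩⟩ hZ
    have hnd : ((Z ⟨⟨g, hg⟩, ⟨f, hf⟩⟩).1.1).Nodup := (Z ⟨⟨g, hg⟩, ⟨f, hf⟩⟩).1.2.1
    have a1 := hZ1 ⟨⟨g, hg⟩, ⟨f, hf⟩⟩
    have a2 := hZ2 ⟨⟨g, hg⟩, ⟨f, hf⟩⟩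
    have b1 := hZ1 ⟨⟨g', hg'⟩, ⟨f', hf'⟩⟩
    have b2 := hZ2 ⟨⟨g', hg'⟩, ⟨f', hf'⟩⟩
    rw [← hZ] at b1 b2
    have hgg : g = g' := by
      ext y
      by_cases hy : (y : ℕ) = v
      · rw [hg.uv y hy, hg'.uv y hy]
      · exact Nx_fun hnd (a2 y hy) (b2 y hy)
    subst hgg
    have hff : f = f' := by
      ext x
      have := Nx_fun hnd (a1 ((Z ⟨⟨g, hg⟩, ⟨f, hf⟩⟩).2.1.symm x)) (b1 ((Z ⟨⟨g, hg⟩, ⟨f, hf⟩⟩).2.1.symm x))
      simpa using this
    subst hff
    rfl
  have hfin : Finite (HP m u v) := (finite_HP m u v).to_subtype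
  have hcard : Nat.card (Σ g : GT, FT g) ≤ (HP m u v).ncard * (m + 1) ^ (2 * q) := by
    have e1 : Nat.card (Σ g : GT, FT g) ≤ Nat.card (HP m u v × TT) :=
      Nat.card_le_card_of_injective Z hinj
    rw [Nat.card_prod, Nat.card_coe_set_eq] at e1
    exact e1.trans (Nat.mul_le_mul_left _ hTT)
  have hsum : 1 / 4 * X ^ (2 * m - 3 * r - 1) ≤ (Nat.card (Σ g : GT, FT g) : ℝ) := by
    classical
    have : Fintype GT := Fintype.ofFinite GT
    rw [Nat.card_sigma, Nat.cast_sum]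
    calc 1 / 4 * X ^ (2 * m - 3 * r - 1) = (1 / 2 * X ^ (m - 2 * r - 1)) * (1 / 2 * X ^ (m - r)) := by
          rw [show 2 * m - 3 * r - 1 = (m - 2 * r - 1) + (m - r) by omega, pow_add]
          ring
      _ ≤ (Nat.card GT : ℝ) * (1 / 2 * X ^ (m - r)) :=
          mul_le_mul_of_nonneg_right hGT (by positivity)
      _ = ∑ _g : GT, (1 / 2 * X ^ (m - r)) := by
          rw [sum_const, card_univ, nsmul_eq_mul, Nat.card_eq_fintype_card]
      _ ≤ ∑ g : GT, (Nat.card (FT g) : ℝ) := sum_le_sum fun g _ => hFT g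
  refine hsum.trans ?_
  have := hcard
  have h9 : (Nat.card (Σ g : GT, FT g) : ℝ) ≤ (((HP m u v).ncard * (m + 1) ^ (2 * q) : ℕ) : ℝ) := by
    exact_mod_cast this
  refine h9.trans (le_of_eq ?_)
  push_cast
  rfl

end Pool.Agent.N785.PC
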