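import Pool.Agent.N785.PC.Stmts

/-!
# Project PC, task MERGE (helper492): merging the cycles of a permutation
-/

set_option autoImplicit false

namespace Pool.Agent.N785.PC

open Finset

namespace MERGE_

variable {α : Type} [Fintype α] [DecidableEq α]

theorem merge_pt (σ : Equiv.Perm α) {x x' : α} (h : ¬ σ.SameCycle x x') :
    (σ * Equiv.swap x x').SameCycle x' x := by
  classical
  have hex : ∃ p : ℕ, 0 < p ∧ (σ ^ p) x = x :=
    ⟨orderOf σ, orderOf_pos σ, by rw [pow_orderOf_eq_one]; rfl⟩
  obtain ⟨hp, hpx⟩ := Nat.find_spec hex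
  set p := Nat.find hex with hpdef
  have hmin : ∀ j, 0 < j → j < p → (σ ^ j) x ≠ x := by
    intro j hj hjp hjx
    exact Nat.find_min hex hjp ⟨hj, hjx⟩
  have key : ∀ j : ℕ, j + 1 ≤ p → ((σ * Equiv.swap x x') ^ (j + 1)) x' = (σ ^ (j + 1)) x := by
    intro j
    induction j with
    | zero =>
      intro _
      rw [zero_add, pow_one, pow_one, Equiv.Perm.mul_apply, Equiv.swap_apply_right]
    | succ j ih =>
      intro hj
      rw [pow_succ', Equiv.Perm.mul_apply, ih (by omega), Equiv.Perm.mul_apply,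
        Equiv.swap_apply_of_ne_of_ne (hmin (j + 1) (by omega) (by omega)), pow_succ' σ (j + 1),
        Equiv.Perm.mul_apply]
      intro h1
      exact h ⟨(j + 1 : ℕ), by rw [zpow_natCast]; exact h1⟩
  refine ⟨(p : ℕ), ?_⟩
  rw [zpow_natCast]
  obtain ⟨j, hj⟩ : ∃ j, p = j + 1 := ⟨p - 1, by omega⟩
  rw [hj] at hpx
  rw [hj, key j hj.ge, hpx]

theorem merge_step (σ : Equiv.Perm α) {x x' : α} (h : ¬ σ.SameCycle x x') (a b : α)
    (hab : σ.SameCycle a b) : (σ * Equiv.swap x x').SameCycle a b := by
  have h0 := merge_pt σ h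
  set σ' := σ * Equiv.swap x x' with hσ'
  have h1 : ∀ c, σ'.SameCycle c (σ c) := by
    intro c
    by_cases hx : c = x
    · have h2 : σ c = σ' x' := by
        rw [hσ', Equiv.Perm.mul_apply, Equiv.swap_apply_right, hx]
      rw [h2, hx, Equiv.Perm.sameCycle_apply_right]
      exact h0.symm
    · by_cases hx' : c = x'
      · have h2 : σ c = σ' x := by
          rw [hσ', Equiv.Perm.mul_apply, Equiv.swap_apply_left, hx']
        rw [h2, hx', Equiv.Perm.sameCycle_apply_right]
        exact h0
      · have h2 : σ c = σ' c := by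
          rw [hσ', Equiv.Perm.mul_apply, Equiv.swap_apply_of_ne_of_ne hx hx']
        rw [h2, Equiv.Perm.sameCycle_apply_right]
  obtain ⟨n, -, hn⟩ := hab.exists_pow_eq'
  have h2 : ∀ n : ℕ, σ'.SameCycle a ((σ ^ n) a) := by
    intro n
    induction n with
    | zero => exact Equiv.Perm.SameCycle.refl _ _
    | succ n ih =>
      rw [pow_succ', Equiv.Perm.mul_apply]
      exact ih.trans (h1 _)
  rw [← hn]
  exact h2 n

theorem merge_aux (n : ℕ) : ∀ (σ : Equiv.Perm α) (R : Finset α), R.card = n →
    (∀ y, ∃ x ∈ R, σ.SameCycle x y) →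
    ∃ τ : Equiv.Perm α, τ.support ⊆ R ∧ ∀ x y, (σ * τ).SameCycle x y := by
  induction n with
  | zero =>
    intro σ R hR hy
    refine ⟨1, ?_, fun x y => ?_⟩
    · rw [Equiv.Perm.support_one]
      exact Finset.empty_subset _
    · obtain ⟨r, hr, -⟩ := hy x
      rw [Finset.card_eq_zero] at hR
      rw [hR] at hr
      exact absurd hr (Finset.notMem_empty r)
  | succ n ih =>
    intro σ R hR hy
    by_cases hall : ∀ x ∈ R, ∀ x' ∈ R, σ.SameCycle x x'
    · refine ⟨1, ?_, fun x y => ?_⟩
      · rw [Equiv.Perm.support_one]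
        exact Finset.empty_subset _
      · rw [mul_one]
        obtain ⟨r, hr, hrx⟩ := hy x
        obtain ⟨r', hr', hry⟩ := hy y
        exact hrx.symm.trans ((hall r hr r' hr').trans hry)
    · push Not at hall
      obtain ⟨x, hx, x', hx', hxx⟩ := hall
      have hne : x ≠ x' := by
        intro h
        rw [h] at hxx
        exact hxx (Equiv.Perm.SameCycle.refl _ _)
      obtain ⟨τ, hτ1, hτ2⟩ := ih (σ * Equiv.swap x x') (R.erase x')
        (by rw [Finset.card_erase_of_mem hx', hR]; rfl) (by
          intro y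
          obtain ⟨r, hr, hry⟩ := hy y
          by_cases hrx : r = x'
          · refine ⟨x, Finset.mem_erase.2 ⟨hne, hx⟩, ?_⟩
            rw [hrx] at hry
            exact (merge_pt σ hxx).symm.trans (merge_step σ hxx _ _ hry)
          · exact ⟨r, Finset.mem_erase.2 ⟨hrx, hr⟩, merge_step σ hxx _ _ hry⟩)
      refine ⟨Equiv.swap x x' * τ, ?_, ?_⟩
      · intro z hz
        by_contra hzR
        rw [Equiv.Perm.mem_support, Equiv.Perm.mul_apply] at hz
        have h1 : τ z = z := by
          by_contra h2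
          exact hzR (Finset.mem_of_mem_erase (hτ1 (Equiv.Perm.mem_support.2 h2)))
        rw [h1, Equiv.swap_apply_of_ne_of_ne] at hz
        · exact hz rfl
        · rintro rfl
          exact hzR hx
        · rintro rfl
          exact hzR hx'
      · intro a b
        rw [← mul_assoc]
        exact hτ2 a b

end MERGE_

open MERGE_ in
theorem t_MERGE : S_MERGE := by
  intro α _ _ σ
  classical
  let R : Finset α := univ.image fun q : Quotient (Equiv.Perm.SameCycle.setoid σ) => q.out
  obtain ⟨τ, h1, h2⟩ := merge_aux R.card σ R rfl (by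
    intro y
    refine ⟨(Quotient.mk (Equiv.Perm.SameCycle.setoid σ) y).out,
      Finset.mem_image.2 ⟨_, Finset.mem_univ _, rfl⟩, ?_⟩
    exact Quotient.exact (Quotient.out_eq (Quotient.mk (Equiv.Perm.SameCycle.setoid σ) y)))
  refine ⟨τ, ?_, h2⟩
  refine (Finset.card_le_card h1).trans ?_
  refine Finset.card_image_le.trans ?_
  rw [Finset.card_univ, ncyc, Nat.card_eq_fintype_card]

end Pool.Agent.N785.PC
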