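import Pool.Agent.N785.PC.Stmts2

/-!
# Project PC: ternary Goldbach with windows (helper543)
-/

set_option autoImplicit false

namespace Pool.Agent.N785.PC

open Finset
open Pool.Agent.H373R2.T7 (lamz)

namespace NTG_

open ArithmeticFunction (vonMangoldt)

open Classical in
/-- the proper prime powers -/
noncomputable def PP (M : ℕ) : Finset ℕ := (Icc 1 M).filter fun n => vonMangoldt n ≠ 0 ∧ ¬ n.Prime

theorem card_PP (M : ℕ) : (PP M).card ≤ Nat.sqrt M * Nat.log 2 M := by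
  classical
  have h : PP M ⊆ ((Icc 1 (Nat.sqrt M)) ×ˢ (Icc 1 (Nat.log 2 M))).image
      (fun w : ℕ × ℕ => w.1 ^ w.2) := by
    intro n hn
    simp only [PP, mem_filter, mem_Icc] at hn
    obtain ⟨⟨h1, h2⟩, h3, h4⟩ := hn
    have h5 : IsPrimePow n := by
      by_contra h
      exact h3 (by rw [ArithmeticFunction.vonMangoldt_apply, if_neg h])
    obtain ⟨p, k, hp, hk, rfl⟩ := (isPrimePow_nat_iff n).1 h5
    have hk1 : k ≠ 1 := by
      rintro rfl
      exact h4 (by simpa using hp)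
    have hk2 : 2 ≤ k := by omega
    rw [mem_image]
    refine ⟨(p, k), ?_, rfl⟩
    rw [mem_product, mem_Icc, mem_Icc]
    refine ⟨⟨hp.one_le, ?_⟩, hk, ?_⟩
    · rw [Nat.le_sqrt']
      exact (Nat.pow_le_pow_right hp.pos hk2).trans h2
    · exact Nat.le_log_of_pow_le (by norm_num) ((Nat.pow_le_pow_left hp.two_le k).trans h2)
  refine (card_le_card h).trans (card_image_le.trans ?_)
  rw [card_product, Nat.card_Icc, Nat.card_Icc]
  simp

theorem ind (M H : ℕ) (g : ℕ → ℕ) (hg : Set.InjOn g (range H)) :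
    ∑ i ∈ range H, (if g i ∈ PP M then (1 : ℝ) else 0) ≤ (PP M).card := by
  classical
  rw [Finset.sum_boole]
  have : ((range H).filter fun i => g i ∈ PP M).card ≤ (PP M).card := by
    refine Finset.card_le_card_of_injOn g (fun i hi => ?_) (fun i hi j hj h => ?_)
    · simp only [coe_filter, Set.mem_ofPred_eq] at hi
      exact hi.2
    · simp only [coe_filter, Set.mem_ofPred_eq] at hi hj
      exact hg (by simpa using hi.1) (by simpa using hj.1) h
  exact_mod_cast this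

theorem lam_le (M n : ℕ) (h1 : 1 ≤ n) (h2 : n ≤ M) : vonMangoldt n ≤ Real.log M := by
  refine ArithmeticFunction.vonMangoldt_le_log.trans ?_
  refine Real.log_le_log (by exact_mod_cast h1) (by exact_mod_cast h2)

open Classical in
theorem weight (F1 F3 : ℕ → ℕ) (F2 : ℕ → ℕ → ℕ) (H M : ℕ)
    (h1 : ∀ i < H, 1 ≤ F1 i ∧ F1 i ≤ M) (h2 : ∀ i < H, ∀ j < H, 1 ≤ F2 i j ∧ F2 i j ≤ M)
    (h3 : ∀ j < H, 1 ≤ F3 j ∧ F3 j ≤ M) (i1 : Set.InjOn F1 (range H))
    (i2 : ∀ i < H, Set.InjOn (F2 i) (range H)) (i3 : Set.InjOn F3 (range H)) :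
    ∑ i ∈ range H, ∑ j ∈ range H, vonMangoldt (F1 i) * vonMangoldt (F2 i j) * vonMangoldt (F3 j) ≤
      Real.log M ^ 3 * ((((range H ×ˢ range H).filter fun w : ℕ × ℕ =>
        (F1 w.1).Prime ∧ (F2 w.1 w.2).Prime ∧ (F3 w.2).Prime).card : ℝ) +
        3 * (H * (PP M).card)) := by
  have key : ∀ i ∈ range H, ∀ j ∈ range H,
      vonMangoldt (F1 i) * vonMangoldt (F2 i j) * vonMangoldt (F3 j) ≤ Real.log M ^ 3 *
        ((if (F1 i).Prime ∧ (F2 i j).Prime ∧ (F3 j).Prime then (1 : ℝ) else 0) +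
        ((if F1 i ∈ PP M then (1 : ℝ) else 0) + (if F2 i j ∈ PP M then (1 : ℝ) else 0) +
          (if F3 j ∈ PP M then (1 : ℝ) else 0))) := by
    intro i hi j hj
    rw [mem_range] at hi hj
    have a1 := h1 i hi
    have a2 := h2 i hi j hj
    have a3 := h3 j hj
    have b1 := lam_le M _ a1.1 a1.2
    have b2 := lam_le M _ a2.1 a2.2
    have b3 := lam_le M _ a3.1 a3.2
    have c1 : 0 ≤ vonMangoldt (F1 i) := ArithmeticFunction.vonMangoldt_nonneg
    have c2 : 0 ≤ vonMangoldt (F2 i j) := ArithmeticFunction.vonMangoldt_nonneg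
    have c3 : 0 ≤ vonMangoldt (F3 j) := ArithmeticFunction.vonMangoldt_nonneg
    have d : vonMangoldt (F1 i) * vonMangoldt (F2 i j) * vonMangoldt (F3 j) ≤
        Real.log M ^ 3 := by
      calc vonMangoldt (F1 i) * vonMangoldt (F2 i j) * vonMangoldt (F3 j)
          ≤ Real.log M * Real.log M * Real.log M :=
            mul_le_mul (mul_le_mul b1 b2 c2 (c1.trans b1)) b3 c3
              (mul_nonneg (c1.trans b1) (c1.trans b1))
        _ = _ := by ring
    have l0 : 0 ≤ Real.log M ^ 3 := pow_nonneg (c1.trans b1) 3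
    by_cases hz : vonMangoldt (F1 i) * vonMangoldt (F2 i j) * vonMangoldt (F3 j) = 0
    · rw [hz]
      refine mul_nonneg l0 ?_
      positivity
    · have e1 : vonMangoldt (F1 i) ≠ 0 := fun h => hz (by rw [h]; ring)
      have e2 : vonMangoldt (F2 i j) ≠ 0 := fun h => hz (by rw [h]; ring)
      have e3 : vonMangoldt (F3 j) ≠ 0 := fun h => hz (by rw [h]; ring)
      refine d.trans (le_mul_of_one_le_right l0 ?_)
      by_cases p1 : (F1 i).Prime
      · by_cases p2 : (F2 i j).Prime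
        · by_cases p3 : (F3 j).Prime
          · rw [if_pos ⟨p1, p2, p3⟩]
            have : (0 : ℝ) ≤ ((if F1 i ∈ PP M then (1 : ℝ) else 0) +
              (if F2 i j ∈ PP M then (1 : ℝ) else 0) + (if F3 j ∈ PP M then (1 : ℝ) else 0)) := by
              positivity
            linarith
          · have : F3 j ∈ PP M := by
              simp only [PP, mem_filter, mem_Icc]
              exact ⟨a3, e3, p3⟩
            rw [if_pos this]
            have : (0 : ℝ) ≤ (if (F1 i).Prime ∧ (F2 i j).Prime ∧ (F3 j).Prime then (1 : ℝ) else 0) +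
              ((if F1 i ∈ PP M then (1 : ℝ) else 0) +
              (if F2 i j ∈ PP M then (1 : ℝ) else 0)) := by
              positivity
            linarith
        · have : F2 i j ∈ PP M := by
            simp only [PP, mem_filter, mem_Icc]
            exact ⟨a2, e2, p2⟩
          rw [if_pos this]
          have : (0 : ℝ) ≤ (if (F1 i).Prime ∧ (F2 i j).Prime ∧ (F3 j).Prime then (1 : ℝ) else 0) +
            ((if F1 i ∈ PP M then (1 : ℝ) else 0) +
            (if F3 j ∈ PP M then (1 : ℝ) else 0)) := by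
            positivity
          linarith
      · have : F1 i ∈ PP M := by
          simp only [PP, mem_filter, mem_Icc]
          exact ⟨a1, e1, p1⟩
        rw [if_pos this]
        have : (0 : ℝ) ≤ (if (F1 i).Prime ∧ (F2 i j).Prime ∧ (F3 j).Prime then (1 : ℝ) else 0) +
          ((if F2 i j ∈ PP M then (1 : ℝ) else 0) +
          (if F3 j ∈ PP M then (1 : ℝ) else 0)) := by
          positivity
        linarith
  rcases Nat.eq_zero_or_pos H with hH | hH
  · subst hH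
    simp
  have l0 : 0 ≤ Real.log M ^ 3 := by
    have := h1 0 hH
    exact pow_nonneg (Real.log_nonneg (by exact_mod_cast this.1.trans this.2)) 3
  refine (Finset.sum_le_sum fun i hi => Finset.sum_le_sum fun j hj => key i hi j hj).trans ?_
  simp only [← Finset.mul_sum, Finset.sum_add_distrib]
  refine mul_le_mul_of_nonneg_left ?_ l0
  have s0 : ∑ i ∈ range H, ∑ j ∈ range H,
      (if (F1 i).Prime ∧ (F2 i j).Prime ∧ (F3 j).Prime then (1 : ℝ) else 0) =
      (((range H ×ˢ range H).filter fun w : ℕ × ℕ =>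
        (F1 w.1).Prime ∧ (F2 w.1 w.2).Prime ∧ (F3 w.2).Prime).card : ℝ) := by
    rw [← Finset.sum_boole, Finset.sum_product]
  have s1 : ∑ i ∈ range H, ∑ j ∈ range H, (if F1 i ∈ PP M then (1 : ℝ) else 0) ≤
      H * (PP M).card := by
    rw [Finset.sum_comm]
    refine (Finset.sum_le_sum fun j _ => ind M H F1 i1).trans ?_
    rw [Finset.sum_const, card_range, nsmul_eq_mul]
  have s2 : ∑ i ∈ range H, ∑ j ∈ range H, (if F2 i j ∈ PP M then (1 : ℝ) else 0) ≤
      H * (PP M).card := by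
    refine (Finset.sum_le_sum fun i hi => ind M H (F2 i) (i2 i (mem_range.1 hi))).trans ?_
    rw [Finset.sum_const, card_range, nsmul_eq_mul]
  have s3 : ∑ i ∈ range H, ∑ j ∈ range H, (if F3 j ∈ PP M then (1 : ℝ) else 0) ≤
      H * (PP M).card := by
    refine (Finset.sum_le_sum fun i _ => ind M H F3 i3).trans ?_
    rw [Finset.sum_const, card_range, nsmul_eq_mul]
  rw [s0]
  linarith

/-- the growth conditions -/
theorem growth : ∃ N₁ : ℕ, ∀ N : ℕ, N₁ ≤ N → 10 ≤ N ∧ 10 ≤ Real.log N ∧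
    1152 * Real.log N ^ 9 ≤ Real.sqrt N := by
  have t1 : Filter.Tendsto (fun N : ℕ => Real.sqrt N) Filter.atTop Filter.atTop :=
    Real.tendsto_sqrt_atTop.comp tendsto_natCast_atTop_atTop
  have o1 := ((Real.isLittleO_pow_log_id_atTop (n := 9)).comp_tendsto t1).def
    (show (0 : ℝ) < 1 / (1152 * 2 ^ 9) by positivity)
  have o2 : ∀ᶠ N : ℕ in Filter.atTop, 10 ≤ Real.log N :=
    (Real.tendsto_log_atTop.comp tendsto_natCast_atTop_atTop).eventually_ge_atTop 10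
  have o3 : ∀ᶠ N : ℕ in Filter.atTop, 10 ≤ N := Filter.eventually_ge_atTop 10
  obtain ⟨N₁, h⟩ := Filter.eventually_atTop.1 ((o1.and o2).and o3)
  refine ⟨N₁, fun N hN => ?_⟩
  obtain ⟨⟨a, b⟩, c⟩ := h N hN
  refine ⟨c, b, ?_⟩
  simp only [Function.comp, id, Real.norm_eq_abs] at a
  rw [Real.log_sqrt (Nat.cast_nonneg N), abs_of_nonneg (Real.sqrt_nonneg _),
    abs_of_nonneg (by positivity), div_pow, div_mul_eq_mul_div, one_mul,
    div_le_div_iff₀ (by positivity) (by positivity)] at a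
  nlinarith [Real.sqrt_nonneg (N : ℝ)]

theorem PP_real (N : ℕ) (hN : 10 ≤ N) (hL : 10 ≤ Real.log N) :
    ((PP (10 * N)).card : ℝ) ≤ 12 * (Real.sqrt N * Real.log N) := by
  have hN0 : (0 : ℝ) < N := by
    have : 0 < N := by omega
    exact_mod_cast this
  have h1 : ((PP (10 * N)).card : ℝ) ≤ (Nat.sqrt (10 * N) : ℝ) * (Nat.log 2 (10 * N) : ℝ) := by
    exact_mod_cast card_PP (10 * N)
  have h2 : (Nat.sqrt (10 * N) : ℝ) ≤ 4 * Real.sqrt N := by
    refine Real.nat_sqrt_le_real_sqrt.trans ?_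
    rw [Real.sqrt_le_left (by positivity), mul_pow, Real.sq_sqrt hN0.le]
    push_cast
    linarith
  have h3 : (Nat.log 2 (10 * N) : ℝ) ≤ 3 * Real.log N := by
    refine (Real.natLog_le_logb (10 * N) 2).trans ?_
    rw [Real.logb]
    push_cast
    rw [div_le_iff₀ (Real.log_pos (by norm_num)), Real.log_mul (by norm_num) hN0.ne']
    have h4 : Real.log 10 ≤ Real.log N := Real.log_le_log (by norm_num) (by exact_mod_cast hN)
    have h5 := Real.log_two_gt_d9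
    nlinarith
  calc ((PP (10 * N)).card : ℝ) ≤ _ := h1
    _ ≤ (4 * Real.sqrt N) * (3 * Real.log N) := by
      refine mul_le_mul h2 h3 (Nat.cast_nonneg _) (by positivity)
    _ = _ := by ring

theorem inj_aux (σ : ℤ) (hσ : σ = 1 ∨ σ = -1) (α : ℤ) (s H : ℕ)
    (h : ∀ i : ℕ, i < H → 1 ≤ α + σ * (s + 2 * i)) :
    Set.InjOn (fun i : ℕ => (α + σ * (s + 2 * i)).toNat) (range H) := by
  intro i hi j hj hij
  rw [mem_coe, mem_range] at hi hj
  have h1 := h i hi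
  have h2 := h j hj
  simp only at hij
  have h3 : α + σ * (s + 2 * i) = α + σ * (s + 2 * j) := by
    rw [← Int.toNat_of_nonneg (by linarith : 0 ≤ α + σ * (s + 2 * i)),
      ← Int.toNat_of_nonneg (by linarith : 0 ≤ α + σ * (s + 2 * j)), hij]
  rcases hσ with rfl | rfl <;> omega

theorem core (lam : ℕ → ℕ → ℝ)
    (ha : ∀ U : ℕ, ∃ B : ℕ, ∀ E : ℕ, ∃ N₀ : ℕ, ∀ N : ℕ, N₀ ≤ N → ∀ z : ℕ, Real.log N ^ B ≤ z →
      (z : ℝ) ≤ Real.log N ^ E → ∀ H s₀ t₀ : ℕ, 1 ≤ s₀ → 1 ≤ t₀ → s₀ + 2 * H ≤ 5 * N →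
      t₀ + 2 * H ≤ 5 * N → ∀ a b : ℕ → ℝ, (∀ i, |a i| ≤ 1) → (∀ j, |b j| ≤ 1) →
      |∑ i ∈ range H, ∑ j ∈ range H, a i * b j * (vonMangoldt (s₀ + 2 * i + (t₀ + 2 * j)) -
        lam z (s₀ + 2 * i + (t₀ + 2 * j)))| ≤ (N : ℝ) ^ 2 / Real.log N ^ U)
    (hb : ∀ E : ℕ, ∃ N₀ : ℕ, ∀ N H : ℕ, N₀ ≤ N → H ≤ N → (N : ℝ) ≤ H * Real.log N ^ 5 →
      ∀ z : ℕ, 3 ≤ z → (z : ℝ) ≤ Real.log N ^ E →
      ∀ σ : ℤ, (σ = 1 ∨ σ = -1) → ∀ β : ℤ, ∀ s t₀ : ℕ, 1 ≤ s → 1 ≤ t₀ → s ≤ 5 * N →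
      t₀ + 2 * H ≤ 5 * N →
      (∀ j : ℕ, j < H → 1 ≤ β + σ * (t₀ + 2 * j) ∧ β + σ * (t₀ + 2 * j) ≤ 10 * N) →
      Odd (s + t₀) → Odd (β + σ * t₀) →
      (H : ℝ) ≤ ∑ j ∈ range H, lam z (s + (t₀ + 2 * j)) *
        vonMangoldt (β + σ * (t₀ + 2 * j)).toNat)
    (hc : S_NTc) : S_NTG := by
  obtain ⟨B, hB⟩ := ha 20
  obtain ⟨Na, hNa⟩ := hB (B + 2)
  obtain ⟨Nb, hNb⟩ := hb (B + 2)
  obtain ⟨Nc, hNc⟩ := hc
  obtain ⟨N₁, hN₁⟩ := growth
  refine ⟨1 / 32, by norm_num, max (max Na Nb) (max Nc N₁), ?_⟩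
  intro N H hN hHN hNH σ hσ α β s₀ t₀ hs₀ ht₀ hsH htH hα hβ oα ost oβ
  have nA : Na ≤ N := (le_max_left _ _).trans ((le_max_left _ _).trans hN)
  have nB : Nb ≤ N := (le_max_right _ _).trans ((le_max_left _ _).trans hN)
  have nC : Nc ≤ N := (le_max_left _ _).trans ((le_max_right _ _).trans hN)
  have n1 : N₁ ≤ N := (le_max_right _ _).trans ((le_max_right _ _).trans hN)
  obtain ⟨g1, g2, g3⟩ := hN₁ N n1
  obtain ⟨L, hL⟩ : ∃ L, L = Real.log N := ⟨_, rfl⟩
  rw [← hL] at g2 g3 hNH ⊢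
  have hN0 : (0 : ℝ) < N := by
    have : 0 < N := by omega
    exact_mod_cast this
  obtain ⟨ℓ, hℓ⟩ : ∃ ℓ, ℓ = Real.log ((10 * N : ℕ) : ℝ) := ⟨_, rfl⟩
  have hL0 : 0 < L := by linarith
  have hL1 : 1 ≤ L := by linarith
  have hℓ2 : ℓ ≤ 2 * L := by
    rw [hℓ, hL]
    push_cast
    rw [Real.log_mul (by norm_num) hN0.ne']
    have h4 : Real.log 10 ≤ Real.log N := Real.log_le_log (by norm_num) (by exact_mod_cast g1)
    linarith
  have hℓ0 : 0 < ℓ := by
    rw [hℓ]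
    apply Real.log_pos
    have : 1 < 10 * N := by omega
    exact_mod_cast this
  -- the parameter z
  obtain ⟨z, hz⟩ : ∃ z, z = ⌈L ^ (B + 1)⌉₊ := ⟨_, rfl⟩
  have z1 : L ^ (B + 1) ≤ z := by
    rw [hz]
    exact Nat.le_ceil _
  have z2 : Real.log N ^ B ≤ z := by
    rw [← hL]
    exact (pow_le_pow_right₀ hL1 (Nat.le_succ B)).trans z1
  have z3 : (z : ℝ) ≤ Real.log N ^ (B + 2) := by
    rw [← hL]
    have h1 : (z : ℝ) < L ^ (B + 1) + 1 := by
      rw [hz]
      exact Nat.ceil_lt_add_one (by positivity)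
    have h2 : 1 ≤ L ^ (B + 1) := one_le_pow₀ hL1
    have h3 : L ^ (B + 2) = L ^ (B + 1) * L := pow_succ _ _
    rw [h3]
    nlinarith
  have z4 : 3 ≤ z := by
    have h1 : L ≤ L ^ (B + 1) := by
      calc L = L ^ 1 := (pow_one L).symm
        _ ≤ _ := pow_le_pow_right₀ hL1 (by omega)
    have h2 : (3 : ℝ) ≤ z := by linarith
    exact_mod_cast h2
  -- the functions
  obtain ⟨F1, hF1⟩ : ∃ F1 : ℕ → ℕ, F1 = fun i : ℕ => (α + σ * (s₀ + 2 * i)).toNat := ⟨_, rfl⟩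
  obtain ⟨F3, hF3⟩ : ∃ F3 : ℕ → ℕ, F3 = fun j : ℕ => (β + σ * (t₀ + 2 * j)).toNat := ⟨_, rfl⟩
  obtain ⟨F2, hF2⟩ : ∃ F2 : ℕ → ℕ → ℕ, F2 = fun i j => s₀ + 2 * i + (t₀ + 2 * j) := ⟨_, rfl⟩
  have b1 : ∀ i < H, 1 ≤ F1 i ∧ F1 i ≤ 10 * N := by
    intro i hi
    have := hα i hi
    rw [hF1]
    constructor <;> simp only <;> omega
  have b3 : ∀ j < H, 1 ≤ F3 j ∧ F3 j ≤ 10 * N := by
    intro j hj
    have := hβ j hj
    rw [hF3]
    constructor <;> simp only <;> omega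
  have b2 : ∀ i < H, ∀ j < H, 1 ≤ F2 i j ∧ F2 i j ≤ 10 * N := by
    intro i hi j hj
    rw [hF2]
    constructor <;> simp only <;> omega
  have i1 : Set.InjOn F1 (range H) := by
    rw [hF1]
    exact inj_aux σ hσ α s₀ H fun i hi => (hα i hi).1
  have i3 : Set.InjOn F3 (range H) := by
    rw [hF3]
    exact inj_aux σ hσ β t₀ H fun i hi => (hβ i hi).1
  have i2 : ∀ i < H, Set.InjOn (F2 i) (range H) := by
    intro i _ j _ j' _ h
    rw [hF2] at h
    simp only at h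
    omega
  have hw := weight F1 F3 F2 H (10 * N) b1 b2 b3 i1 i2 i3
  rw [← hℓ] at hw
  -- the lower bound of the sum
  obtain ⟨T, hT⟩ : ∃ T, T = ∑ i ∈ range H, ∑ j ∈ range H,
    vonMangoldt (F1 i) * vonMangoldt (F2 i j) * vonMangoldt (F3 j) := ⟨_, rfl⟩
  rw [← hT] at hw
  have hTlow : (H : ℝ) ^ 2 / 2 ≤ T := by
    obtain ⟨a, haa⟩ : ∃ a : ℕ → ℝ, a = fun i => if i < H then vonMangoldt (F1 i) / ℓ else 0 :=
      ⟨_, rfl⟩
    obtain ⟨b, hbb⟩ : ∃ b : ℕ → ℝ, b = fun j => if j < H then vonMangoldt (F3 j) / ℓ else 0 :=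
      ⟨_, rfl⟩
    have a1 : ∀ i, |a i| ≤ 1 := by
      intro i
      rw [haa]
      simp only
      split_ifs with h
      · have c1 : 0 ≤ vonMangoldt (F1 i) := ArithmeticFunction.vonMangoldt_nonneg
        rw [abs_of_nonneg (div_nonneg c1 hℓ0.le), div_le_one hℓ0, hℓ]
        exact lam_le _ _ (b1 i h).1 (b1 i h).2
      · simp
    have a3 : ∀ j, |b j| ≤ 1 := by
      intro j
      rw [hbb]
      simp only
      split_ifs with h
      · have c1 : 0 ≤ vonMangoldt (F3 j) := ArithmeticFunction.vonMangoldt_nonneg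
        rw [abs_of_nonneg (div_nonneg c1 hℓ0.le), div_le_one hℓ0, hℓ]
        exact lam_le _ _ (b3 j h).1 (b3 j h).2
      · simp
    have hA := hNa N nA z z2 z3 H s₀ t₀ hs₀ ht₀ hsH htH a b a1 a3
    rw [← hL] at hA
    obtain ⟨D, hD⟩ : ∃ D, D = ∑ i ∈ range H, ∑ j ∈ range H, a i * b j *
      (vonMangoldt (s₀ + 2 * i + (t₀ + 2 * j)) - lam z (s₀ + 2 * i + (t₀ + 2 * j))) := ⟨_, rfl⟩
    rw [← hD] at hA
    have e1 : T = ∑ i ∈ range H, vonMangoldt (F1 i) * (∑ j ∈ range H,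
        lam z (s₀ + 2 * i + (t₀ + 2 * j)) * vonMangoldt (F3 j)) + ℓ ^ 2 * D := by
      rw [hT, hD, Finset.mul_sum, ← Finset.sum_add_distrib]
      refine Finset.sum_congr rfl fun i hi => ?_
      rw [Finset.mul_sum, Finset.mul_sum, ← Finset.sum_add_distrib]
      refine Finset.sum_congr rfl fun j hj => ?_
      rw [mem_range] at hi hj
      rw [haa, hbb, hF2]
      simp only [if_pos hi, if_pos hj]
      have : ℓ ≠ 0 := hℓ0.ne'
      field_simp
      ring
    have e2 : ∀ i ∈ range H, vonMangoldt (F1 i) * (H : ℝ) ≤ vonMangoldt (F1 i) *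
        (∑ j ∈ range H, lam z (s₀ + 2 * i + (t₀ + 2 * j)) * vonMangoldt (F3 j)) := by
      intro i hi
      rw [mem_range] at hi
      refine mul_le_mul_of_nonneg_left ?_ ArithmeticFunction.vonMangoldt_nonneg
      rw [hF3]
      refine hNb N H nB hHN (by rw [← hL]; exact hNH) z z4 z3 σ hσ β (s₀ + 2 * i) t₀ (by omega) ht₀
        (by omega) htH hβ ?_ oβ
      have : s₀ + 2 * i + t₀ = s₀ + t₀ + 2 * i := by ring
      rw [this]
      exact ost.add_even (even_two_mul i)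
    have e3 : (H : ℝ) ≤ ∑ i ∈ range H, vonMangoldt (F1 i) := by
      rw [hF1]
      exact hNc N H nC hHN (by rw [← hL]; exact hNH) σ hσ α s₀ hα oα
    have e4 : (H : ℝ) * H ≤ ∑ i ∈ range H, vonMangoldt (F1 i) * (∑ j ∈ range H,
        lam z (s₀ + 2 * i + (t₀ + 2 * j)) * vonMangoldt (F3 j)) := by
      refine le_trans ?_ (Finset.sum_le_sum e2)
      rw [← Finset.sum_mul]
      exact mul_le_mul_of_nonneg_right e3 (Nat.cast_nonneg H)
    have e5 : ℓ ^ 2 * |D| ≤ (H : ℝ) ^ 2 / 2 := by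
      have f1 : (N : ℝ) ^ 2 / L ^ 20 ≤ (H : ℝ) ^ 2 / L ^ 10 := by
        rw [div_le_div_iff₀ (by positivity) (by positivity)]
        have f2 : (N : ℝ) ^ 2 ≤ (H * L ^ 5) ^ 2 := pow_le_pow_left₀ hN0.le hNH 2
        calc (N : ℝ) ^ 2 * L ^ 10 ≤ (H * L ^ 5) ^ 2 * L ^ 10 := by gcongr
          _ = _ := by ring
      have f3 : ℓ ^ 2 ≤ 4 * L ^ 2 := by
        calc ℓ ^ 2 ≤ (2 * L) ^ 2 := pow_le_pow_left₀ hℓ0.le hℓ2 2
          _ = _ := by ring
      calc ℓ ^ 2 * |D| ≤ (4 * L ^ 2) * ((H : ℝ) ^ 2 / L ^ 10) :=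
            mul_le_mul f3 (hA.trans f1) (abs_nonneg _) (by positivity)
        _ = (H : ℝ) ^ 2 * (4 / L ^ 8) := by
            field_simp
        _ ≤ (H : ℝ) ^ 2 * (1 / 2) := by
            refine mul_le_mul_of_nonneg_left ?_ (by positivity)
            rw [div_le_div_iff₀ (by positivity) (by norm_num)]
            have : (8 : ℝ) ≤ L ^ 8 := by
              calc (8 : ℝ) ≤ L := by linarith
                _ = L ^ 1 := (pow_one L).symm
                _ ≤ _ := pow_le_pow_right₀ hL1 (by norm_num)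
            linarith
        _ = _ := by ring
    have e6 : -(ℓ ^ 2 * |D|) ≤ ℓ ^ 2 * D := by
      have := neg_abs_le D
      have := mul_le_mul_of_nonneg_left this (sq_nonneg ℓ)
      linarith
    rw [e1]
    have : (H : ℝ) ^ 2 = H * H := sq _
    linarith
  -- the conclusion
  have hPP := PP_real N g1 (by rw [← hL]; exact g2)
  rw [← hL] at hPP
  obtain ⟨c, hcc⟩ : ∃ c : ℝ, c = ((((range H ×ˢ range H).filter fun w : ℕ × ℕ =>
    (F1 w.1).Prime ∧ (F2 w.1 w.2).Prime ∧ (F3 w.2).Prime).card : ℕ) : ℝ) := ⟨_, rfl⟩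
  rw [← hcc] at hw
  have goal : 1 / 32 * (H : ℝ) ^ 2 / L ^ 3 ≤ c := by
    have h0 : (0 : ℝ) ≤ H := Nat.cast_nonneg H
    have h1 : ℓ ^ 3 ≤ 8 * L ^ 3 := by
      calc ℓ ^ 3 ≤ (2 * L) ^ 3 := pow_le_pow_left₀ hℓ0.le hℓ2 3
        _ = _ := by ring
    have hc0 : 0 ≤ c + 3 * (H * ((PP (10 * N)).card : ℝ)) := by
      rw [hcc]
      positivity
    have h2 : (H : ℝ) ^ 2 / 2 ≤ 8 * L ^ 3 * (c + 3 * (H * ((PP (10 * N)).card : ℝ))) :=
      hTlow.trans (hw.trans (mul_le_mul_of_nonneg_right h1 hc0))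
    have h3 : 96 * L ^ 3 * ((PP (10 * N)).card : ℝ) ≤ H := by
      have h4 : 96 * L ^ 3 * ((PP (10 * N)).card : ℝ) * L ^ 5 ≤ H * L ^ 5 := by
        refine le_trans ?_ hNH
        calc 96 * L ^ 3 * ((PP (10 * N)).card : ℝ) * L ^ 5
            ≤ 96 * L ^ 3 * (12 * (Real.sqrt N * L)) * L ^ 5 := by gcongr
          _ = (1152 * L ^ 9) * Real.sqrt N := by ring
          _ ≤ Real.sqrt N * Real.sqrt N := by gcongr
          _ = N := Real.mul_self_sqrt hN0.le
      exact le_of_mul_le_mul_right h4 (by positivity)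
    rw [div_le_iff₀ (by positivity)]
    have h5 : 96 * L ^ 3 * ((PP (10 * N)).card : ℝ) * H ≤ H * H :=
      mul_le_mul_of_nonneg_right h3 h0
    nlinarith
  rw [hcc, hF1, hF2, hF3] at goal
  exact goal

end NTG_

theorem t_NTG (ha : S_NTa) (hb : S_NTb) (hc : S_NTc) : S_NTG :=
  NTG_.core lamz ha hb hc

end Pool.Agent.N785.PC
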