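import Pool.Agent.N785.PC.Stmts2
import Pool.Agent.H373R2.T7.SysMain2
import Pool.Agent.H373R2.T7.LamMaj

/-!
# Project PC, task NTb (helper717 for helper785): the inner sum with the sieve model
-/

set_option autoImplicit false

namespace Pool.Agent.N785.PC

open Finset
open Pool.Agent.H373R2.T7

namespace NTb_

/-- the excluded class -/
def Qc (c : ℤ) (p n : ℕ) : Prop := (p : ℤ) ∣ (n : ℤ) + c

lemma Qc_per (c : ℤ) (p n : ℕ) : Qc c p n ↔ Qc c p (n % p) := by
  unfold Qc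
  have h : (n : ℤ) + c = ((n % p : ℕ) : ℤ) + c + (p : ℤ) * ((n / p : ℕ) : ℤ) := by
    have h2 := Int.emod_add_mul_ediv (n : ℤ) p
    push_cast
    linarith
  rw [h]
  constructor
  · intro hd
    exact (dvd_add_left (dvd_mul_right _ _)).1 hd
  · intro hd
    exact dvd_add hd (dvd_mul_right _ _)

lemma Qc_few (c : ℤ) (p : ℕ) (_hp : p.Prime) : rhoA (Qc c) p ≤ 1 := by
  classical
  unfold rhoA
  rw [card_le_one]
  intro x hx y hy
  rw [mem_filter, mem_range] at hx hy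
  obtain ⟨h1, _, h2⟩ := hx
  obtain ⟨h3, _, h4⟩ := hy
  unfold Qc at h2 h4
  have h5 : (p : ℤ) ∣ (x : ℤ) - y := by
    have := dvd_sub h2 h4
    have e : (x : ℤ) + c - (y + c) = x - y := by ring
    rwa [e] at this
  have h6 : |(x : ℤ) - y| < p := by
    rw [abs_lt]
    constructor <;> omega
  have h7 := Int.eq_zero_of_abs_lt_dvd h5 h6
  omega

lemma Qc_A (c : ℤ) : PerA (Qc c) 1 := ⟨Qc_per c, Qc_few c⟩

lemma rho_two (c : ℤ) (hc : Even c) : rhoA (Qc c) 2 = 0 := by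
  classical
  unfold rhoA
  rw [card_eq_zero, filter_eq_empty_iff]
  intro x hx
  rw [mem_range] at hx
  rintro ⟨h1, h2⟩
  unfold Qc at h2
  have h3 : x = 1 := by
    interval_cases x
    · exact absurd (dvd_zero 2) h1
    · rfl
  subst h3
  obtain ⟨d, hd⟩ := hc
  obtain ⟨e, he⟩ := h2
  push_cast at he
  omega

lemma pz_succ_prime (z : ℕ) (hp : (z + 1).Prime) : pz (z + 1) = insert (z + 1) (pz z) := by
  ext p
  rw [mem_insert, mem_pz, mem_pz]
  constructor
  · rintro ⟨h1, h2⟩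
    rcases Nat.lt_or_ge p (z + 1) with h | h
    · exact Or.inr ⟨by omega, h2⟩
    · exact Or.inl (by omega)
  · rintro (h | ⟨h1, h2⟩)
    · rw [h]; exact ⟨le_rfl, hp⟩
    · exact ⟨by omega, h2⟩

lemma pz_succ_not (z : ℕ) (hp : ¬ (z + 1).Prime) : pz (z + 1) = pz z := by
  ext p
  rw [mem_pz, mem_pz]
  constructor
  · rintro ⟨h1, h2⟩
    rcases Nat.lt_or_ge p (z + 1) with h | h
    · exact ⟨by omega, h2⟩
    · have : p = z + 1 := by omega
      exact absurd (this ▸ h2) hp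
  · rintro ⟨h1, h2⟩
    exact ⟨by omega, h2⟩

lemma not_mem_pz (z : ℕ) : z + 1 ∉ pz z := by
  rw [mem_pz]
  omega

lemma pz_two : pz 2 = {2} := by
  ext p
  rw [mem_pz, mem_singleton]
  constructor
  · rintro ⟨h1, h2⟩
    have := h2.two_le
    omega
  · intro h
    rw [h]
    exact ⟨le_rfl, Nat.prime_two⟩

/-- the singular series is at least one -/
lemma prod_ge (ρ : ℕ → ℕ) (h2 : ρ 2 = 0) (h1 : ∀ p, p.Prime → ρ p ≤ 1) (z : ℕ) (hz : 2 ≤ z) :
    (z : ℝ) / (z - 1) * Vz z ≤ ∏ p ∈ pz z, (1 - (ρ p : ℝ) / (p - 1 : ℝ)) := by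
  induction z, hz using Nat.le_induction with
  | base =>
    unfold Vz
    rw [pz_two, prod_singleton, prod_singleton, h2]
    norm_num
  | succ z hz ih =>
    have hz2 : (2 : ℝ) ≤ z := by exact_mod_cast hz
    have hV := Vz_pos z
    have hz1 : (0 : ℝ) < z - 1 := by linarith
    by_cases hp : (z + 1).Prime
    · unfold Vz at ih hV ⊢
      rw [pz_succ_prime z hp, prod_insert (not_mem_pz z), prod_insert (not_mem_pz z)]
      have hρ : (ρ (z + 1) : ℝ) ≤ 1 := by exact_mod_cast h1 _ hp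
      have h3 : 1 - 1 / (z : ℝ) ≤ 1 - (ρ (z + 1) : ℝ) / (((z + 1 : ℕ) : ℝ) - 1) := by
        have e : (((z + 1 : ℕ) : ℝ) - 1) = z := by push_cast; ring
        rw [e]
        have : (ρ (z + 1) : ℝ) / z ≤ 1 / z := div_le_div_of_nonneg_right hρ (by linarith)
        linarith
      have h4 : (0 : ℝ) ≤ 1 - 1 / (z : ℝ) := by
        rw [sub_nonneg, div_le_one (by linarith)]
        linarith
      set V : ℝ := ∏ p ∈ pz z, (1 - 1 / (p : ℝ)) with hVd
      calc ((z + 1 : ℕ) : ℝ) / (((z + 1 : ℕ) : ℝ) - 1) * ((1 - 1 / ((z + 1 : ℕ) : ℝ)) * V)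
          = (1 - 1 / (z : ℝ)) * ((z : ℝ) / (z - 1) * V) := by
            push_cast
            have : (z : ℝ) + 1 - 1 = z := by ring
            rw [this]
            field_simp
            ring
        _ ≤ (1 - 1 / (z : ℝ)) * ∏ p ∈ pz z, (1 - (ρ p : ℝ) / (p - 1 : ℝ)) :=
            mul_le_mul_of_nonneg_left ih h4
        _ ≤ _ := by
            apply mul_le_mul_of_nonneg_right h3
            refine le_trans ?_ ih
            positivity
    · unfold Vz at ih hV ⊢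
      rw [pz_succ_not z hp]
      refine le_trans (mul_le_mul_of_nonneg_right ?_ hV.le) ih
      push_cast
      have : (z : ℝ) + 1 - 1 = z := by ring
      rw [this, div_le_div_iff₀ (by linarith) hz1]
      nlinarith

open Classical in
/-- the counting function -/
noncomputable def W (c : ℤ) (z X : ℕ) : ℝ :=
  ∑ n ∈ Icc 1 X, if (∀ p ∈ pz z, ¬ Qc c p n) then ArithmeticFunction.vonMangoldt n else 0

open Classical in
/-- the sum over the odd numbers -/
lemma W_diff (c : ℤ) (hc : Even c) (z : ℕ) (hz : 3 ≤ z) (a : ℕ) (ha : Odd a) (H : ℕ) :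
    ∑ j ∈ range H, (if (∀ p ∈ pz z, ¬ Qc c p (a + 2 * j)) then ArithmeticFunction.vonMangoldt (a + 2 * j) else 0) =
      W c z (a - 1 + 2 * H) - W c z (a - 1) := by
  induction H with
  | zero => simp
  | succ H ih =>
    rw [sum_range_succ, ih]
    have ha1 : 1 ≤ a := ha.pos
    have e1 : a - 1 + 2 * (H + 1) = (a - 1 + 2 * H) + 1 + 1 := by ring
    have e2 : (a - 1 + 2 * H) + 1 = a + 2 * H := by omega
    unfold W
    rw [e1, sum_Icc_succ_top (by omega), sum_Icc_succ_top (by omega), e2]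
    have h3 : ¬ (∀ p ∈ pz z, ¬ Qc c p (a + 2 * H + 1)) := by
      push Not
      refine ⟨2, mem_pz.2 ⟨by omega, Nat.prime_two⟩, ?_⟩
      unfold Qc
      obtain ⟨d, hd⟩ := hc
      obtain ⟨e, he⟩ := ha
      refine ⟨e + H + 1 + d, ?_⟩
      rw [he, hd]
      push_cast
      ring
    rw [if_neg h3]
    ring

/-- the core -/
lemma core (E : ℕ) : ∃ N₀ : ℕ, ∀ N H : ℕ, N₀ ≤ N → (N : ℝ) ≤ H * Real.log N ^ 5 →
    ∀ z : ℕ, 3 ≤ z → (z : ℝ) ≤ Real.log N ^ E → ∀ (c : ℤ) (a : ℕ), Even c → Odd a → a + 2 * H ≤ 10 * N + 2 →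
    (H : ℝ) ≤ (Vz z)⁻¹ * (W c z (a - 1 + 2 * H) - W c z (a - 1)) := by
  classical
  obtain ⟨M0, hM0⟩ := sys_main 1 (E + 1) (E + 6) le_rfl
  obtain ⟨n1, h1⟩ := ev_log' (E + 5) 24
  obtain ⟨n2, h2⟩ := ev_L' (2 * 2 ^ E + 44 * 2 ^ (E + 6) + 2)
  refine ⟨max (max (M0 ^ 2) n1) (max n2 4), fun N H hN hNH z hz hzE c a hc ha haN => ?_⟩
  have b1 : M0 ^ 2 ≤ N := le_trans (le_trans (le_max_left _ _) (le_max_left _ _)) hN
  have b2 : n1 ≤ N := le_trans (le_trans (le_max_right _ _) (le_max_left _ _)) hN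
  have b3 : n2 ≤ N := le_trans (le_trans (le_max_left _ _) (le_max_right _ _)) hN
  have b4 : 4 ≤ N := le_trans (le_trans (le_max_right _ _) (le_max_right _ _)) hN
  have a1 := h1 N b2
  have a2 := h2 N b3
  have hNr : (4 : ℝ) ≤ N := by exact_mod_cast b4
  have hN0 : (0 : ℝ) < N := by linarith
  set L := Real.log N with hL
  have hE0 : (1 : ℝ) ≤ 2 ^ E := one_le_pow₀ (by norm_num)
  have hE6 : (1 : ℝ) ≤ 2 ^ (E + 6) := one_le_pow₀ (by norm_num)
  have hL2 : 2 ≤ L := by linarith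
  have hL1 : 1 ≤ L := by linarith
  have hL0 : 0 < L := by linarith
  have hss : √(N : ℝ) * √(N : ℝ) = N := Real.mul_self_sqrt hN0.le
  have hs0 : 0 < √(N : ℝ) := Real.sqrt_pos.2 hN0
  have hH0 : (0 : ℝ) ≤ H := Nat.cast_nonneg _
  -- `H` is large
  have hHs : 24 * √(N : ℝ) * L ^ E ≤ H := by
    have h3 : 24 * √(N : ℝ) * L ^ E * L ^ 5 ≤ H * L ^ 5 := by
      calc 24 * √(N : ℝ) * L ^ E * L ^ 5 = (24 * L ^ (E + 5)) * √N := by rw [pow_add]; ring
        _ ≤ √N * √N := mul_le_mul_of_nonneg_right a1 hs0.le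
        _ = N := hss
        _ ≤ _ := hNH
    exact le_of_mul_le_mul_right h3 (by positivity)
  have hLE1 : 1 ≤ L ^ E := one_le_pow₀ hL1
  have hHs' : 24 * √(N : ℝ) ≤ H := by
    refine le_trans ?_ hHs
    exact le_mul_of_one_le_right (by positivity) hLE1
  -- good bounds of `W`
  have hgood : ∀ X : ℕ, √(N : ℝ) ≤ X → X ≤ 11 * N →
      |W c z X - X * ∏ p ∈ pz z, (1 - (rhoA (Qc c) p : ℝ) / (p - 1 : ℝ))| ≤ 11 * 2 ^ (E + 6) * (N / L ^ (E + 6)) := by
    intro X hX hX2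
    have hX0 : (0 : ℝ) < X := by linarith
    have hXM : M0 ≤ X := by
      have h3 : (M0 : ℝ) ≤ √N := by
        apply Real.le_sqrt_of_sq_le
        exact_mod_cast b1
      have : (M0 : ℝ) ≤ X := h3.trans hX
      exact_mod_cast this
    have hlX : L / 2 ≤ Real.log X := by
      have h3 : Real.log (√(N : ℝ)) = L / 2 := by rw [Real.log_sqrt hN0.le]
      rw [← h3]
      exact Real.log_le_log hs0 hX
    have hlX0 : 0 < Real.log X := by linarith
    have hzX : (z : ℝ) ≤ Real.log X ^ (E + 1) := by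
      calc (z : ℝ) ≤ L ^ E := hzE
        _ ≤ (2 * Real.log X) ^ E := pow_le_pow_left₀ hL0.le (by linarith) E
        _ = 2 ^ E * Real.log X ^ E := mul_pow _ _ _
        _ ≤ Real.log X * Real.log X ^ E := by
            apply mul_le_mul_of_nonneg_right _ (by positivity)
            linarith
        _ = _ := by rw [pow_succ]; ring
    have h3 := hM0 X hXM z (by omega) hzX (Qc c) (Qc_A c)
    have h4 : W c z X = ∑ n ∈ (Icc 1 X).filter (fun n : ℕ => ∀ p ∈ pz z, ¬ Qc c p n), ArithmeticFunction.vonMangoldt n := by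
      unfold W
      rw [sum_filter]
    rw [h4]
    refine le_trans h3 ?_
    have h5 : L ^ (E + 6) ≤ 2 ^ (E + 6) * Real.log X ^ (E + 6) := by
      rw [← mul_pow]
      exact pow_le_pow_left₀ hL0.le (by linarith) _
    have h6 : (X : ℝ) ≤ 11 * N := by exact_mod_cast hX2
    rw [div_le_iff₀ (by positivity)]
    calc (X : ℝ) ≤ 11 * N * 1 := by linarith
      _ ≤ 11 * N * ((2 ^ (E + 6) * Real.log X ^ (E + 6)) / L ^ (E + 6)) := by
          apply mul_le_mul_of_nonneg_left _ (by positivity)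
          rw [one_le_div (by positivity)]
          exact h5
      _ = _ := by ring
  set P1 : ℝ := ∏ p ∈ pz z, (1 - (rhoA (Qc c) p : ℝ) / (p - 1 : ℝ)) with hP1
  have hV0 := Vz_pos z
  have hPV : Vz z ≤ P1 := by
    refine le_trans ?_ (prod_ge (rhoA (Qc c)) (rho_two c hc) (Qc_few c) z (by omega))
    have hz3 : (3 : ℝ) ≤ z := by exact_mod_cast hz
    apply le_mul_of_one_le_left hV0.le
    rw [one_le_div (by linarith)]
    linarith
  have hVi : (Vz z)⁻¹ ≤ L ^ E := (Vz_inv_le z (by omega)).trans hzE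
  have hVi0 : 0 < (Vz z)⁻¹ := inv_pos.2 hV0
  set T : ℝ := 11 * 2 ^ (E + 6) * (N / L ^ (E + 6)) with hT
  have hT0 : 0 < T := by positivity
  -- the error
  have hVT : (Vz z)⁻¹ * T ≤ H / 4 := by
    calc (Vz z)⁻¹ * T ≤ L ^ E * T := mul_le_mul_of_nonneg_right hVi hT0.le
      _ = 11 * 2 ^ (E + 6) * (N / L ^ 6) := by rw [hT, pow_add L E 6]; field_simp
      _ ≤ 11 * 2 ^ (E + 6) * (H / L) := by
          apply mul_le_mul_of_nonneg_left _ (by positivity)
          rw [div_le_div_iff₀ (by positivity) hL0]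
          calc (N : ℝ) * L ≤ (H * L ^ 5) * L := mul_le_mul_of_nonneg_right hNH hL0.le
            _ = H * L ^ 6 := by ring
      _ = H * (11 * 2 ^ (E + 6) / L) := by ring
      _ ≤ H * (1 / 4) := by
          apply mul_le_mul_of_nonneg_left _ hH0
          rw [div_le_div_iff₀ hL0 (by norm_num)]
          linarith
      _ = H / 4 := by ring
  -- the two ends
  have hX2 : √(N : ℝ) ≤ ((a - 1 + 2 * H : ℕ) : ℝ) := by
    push_cast
    have : (0 : ℝ) ≤ ((a - 1 : ℕ) : ℝ) := Nat.cast_nonneg _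
    linarith
  have hW2 := (abs_le.1 (hgood (a - 1 + 2 * H) hX2 (by omega))).1
  have hW1 : W c z (a - 1) ≤ ((a - 1 : ℕ) : ℝ) * P1 + (T + 6 * √(N : ℝ)) := by
    rcases le_or_gt (√(N : ℝ)) ((a - 1 : ℕ) : ℝ) with h3 | h3
    · have h4 := (abs_le.1 (hgood (a - 1) h3 (by omega))).2
      linarith
    · have h4 : W c z (a - 1) ≤ lam1 (a - 1) := by
        unfold W lam1
        apply sum_le_sum
        intro n _
        split_ifs
        · exact le_rfl
        · exact ArithmeticFunction.vonMangoldt_nonneg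
      have h5 := lam1_le (a - 1)
      have h6 : 0 ≤ ((a - 1 : ℕ) : ℝ) * P1 := mul_nonneg (Nat.cast_nonneg _) (hV0.le.trans hPV)
      linarith
  have hmain : 2 * H * P1 - 2 * T - 6 * √(N : ℝ) ≤ W c z (a - 1 + 2 * H) - W c z (a - 1) := by
    have e : ((a - 1 + 2 * H : ℕ) : ℝ) = ((a - 1 : ℕ) : ℝ) + 2 * H := by push_cast; ring
    rw [e] at hW2
    have e2 : (((a - 1 : ℕ) : ℝ) + 2 * H) * P1 = ((a - 1 : ℕ) : ℝ) * P1 + 2 * H * P1 := by ring
    rw [e2] at hW2
    linarith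
  have hVP : 1 ≤ (Vz z)⁻¹ * P1 := by
    rw [← inv_mul_cancel₀ hV0.ne']
    exact mul_le_mul_of_nonneg_left hPV hVi0.le
  have hVs : (Vz z)⁻¹ * (6 * √(N : ℝ)) ≤ H / 4 := by
    calc (Vz z)⁻¹ * (6 * √(N : ℝ)) ≤ L ^ E * (6 * √(N : ℝ)) := mul_le_mul_of_nonneg_right hVi (by positivity)
      _ = (24 * √(N : ℝ) * L ^ E) / 4 := by ring
      _ ≤ H / 4 := by linarith
  calc (H : ℝ) ≤ 2 * H * 1 - 2 * (H / 4) - H / 4 := by linarith
    _ ≤ 2 * H * ((Vz z)⁻¹ * P1) - 2 * ((Vz z)⁻¹ * T) - (Vz z)⁻¹ * (6 * √(N : ℝ)) := by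
        have : 2 * (H : ℝ) * 1 ≤ 2 * H * ((Vz z)⁻¹ * P1) := mul_le_mul_of_nonneg_left hVP (by positivity)
        linarith
    _ = (Vz z)⁻¹ * (2 * H * P1 - 2 * T - 6 * √(N : ℝ)) := by ring
    _ ≤ _ := mul_le_mul_of_nonneg_left hmain hVi0.le

open Classical in
lemma lamz_mul (c : ℤ) (z m n : ℕ) (h : ∀ p : ℕ, p ∣ m ↔ Qc c p n) :
    lamz z m * ArithmeticFunction.vonMangoldt n =
      (Vz z)⁻¹ * (if (∀ p ∈ pz z, ¬ Qc c p n) then ArithmeticFunction.vonMangoldt n else 0) := by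
  unfold lamz
  have e : (∀ p ∈ pz z, ¬ p ∣ m) ↔ (∀ p ∈ pz z, ¬ Qc c p n) := by
    constructor
    · intro h1 p hp h2
      exact h1 p hp ((h p).2 h2)
    · intro h1 p hp h2
      exact h1 p hp ((h p).1 h2)
  by_cases h1 : ∀ p ∈ pz z, ¬ p ∣ m
  · rw [if_pos h1, if_pos (e.1 h1)]
  · rw [if_neg h1, if_neg (fun h2 => h1 (e.2 h2))]
    ring

end NTb_

open NTb_ in
theorem t_NTb : S_NTb := by
  classical
  intro E
  obtain ⟨N0, h0⟩ := core E
  refine ⟨max N0 2, fun N H hN hHN hNH z hz hzE σ hσ β s t₀ hs ht hsN htN hrange hodd1 hodd2 => ?_⟩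
  have hN0 : N0 ≤ N := le_trans (le_max_left _ _) hN
  have hN2 : 2 ≤ N := le_trans (le_max_right _ _) hN
  have hH : 0 < H := by
    rcases Nat.eq_zero_or_pos H with h | h
    · rw [h] at hNH
      have : (2 : ℝ) ≤ N := by exact_mod_cast hN2
      simp at hNH
      omega
    · exact h
  rcases hσ with hσ | hσ
  · -- `σ = 1`
    subst hσ
    have r0 := hrange 0 hH
    have r1 := hrange (H - 1) (by omega)
    obtain ⟨a, ha⟩ : ∃ a : ℕ, (a : ℤ) = β + 1 * t₀ := ⟨(β + 1 * t₀).toNat, Int.toNat_of_nonneg (by push_cast at r0; omega)⟩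
    have haodd : Odd a := by
      rw [← Int.odd_coe_nat, ha]
      exact_mod_cast hodd2
    have hceven : Even ((s : ℤ) - β) := by
      have h1 : Odd ((s : ℤ) + t₀) := by exact_mod_cast hodd1
      have h2 : (s : ℤ) - β = ((s : ℤ) + t₀) - (β + 1 * t₀) := by ring
      rw [h2]
      exact h1.sub_odd hodd2
    have hc := h0 N H hN0 hNH z hz hzE ((s : ℤ) - β) a hceven haodd (by
      push_cast [Nat.cast_sub (show 1 ≤ H by omega)] at r1
      omega)
    rw [← W_diff _ hceven z hz a haodd H, mul_sum] at hc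
    refine hc.trans (le_of_eq ?_)
    apply sum_congr rfl
    intro j hj
    rw [mem_range] at hj
    have e1 : (β + 1 * ((t₀ : ℤ) + 2 * j)).toNat = a + 2 * j := by
      have : β + 1 * ((t₀ : ℤ) + 2 * j) = ((a + 2 * j : ℕ) : ℤ) := by push_cast; rw [ha]; ring
      rw [this, Int.toNat_natCast]
    rw [e1]
    refine (lamz_mul _ z _ _ ?_).symm
    intro p
    unfold Qc
    rw [← Int.natCast_dvd_natCast]
    have : ((s + (t₀ + 2 * j) : ℕ) : ℤ) = ((a + 2 * j : ℕ) : ℤ) + (s - β) := by push_cast; rw [ha]; ring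
    rw [this]
  · -- `σ = -1`
    subst hσ
    have r0 := hrange 0 hH
    have r1 := hrange (H - 1) (by omega)
    have e0 : ((H - 1 : ℕ) : ℤ) = (H : ℤ) - 1 := by push_cast [Nat.cast_sub (show 1 ≤ H by omega)]; ring
    obtain ⟨a, ha⟩ : ∃ a : ℕ, (a : ℤ) = β - t₀ - 2 * (H - 1) :=
      ⟨(β - t₀ - 2 * (H - 1)).toNat, Int.toNat_of_nonneg (by rw [e0] at r1; omega)⟩
    have haodd : Odd a := by
      rw [← Int.odd_coe_nat, ha]
      have : β - t₀ - 2 * ((H : ℤ) - 1) = (β + -1 * t₀) - 2 * (H - 1) := by ring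
      rw [this]
      exact hodd2.sub_even (even_two_mul _)
    have hceven : Even (-(s : ℤ) - β) := by
      have h1 : Odd ((s : ℤ) + t₀) := by exact_mod_cast hodd1
      have h2 : -(s : ℤ) - β = -(((s : ℤ) + t₀) + (β + -1 * t₀)) := by ring
      rw [h2]
      exact (h1.add_odd hodd2).neg
    have hc := h0 N H hN0 hNH z hz hzE (-(s : ℤ) - β) a hceven haodd (by
      push_cast at r0
      omega)
    rw [← W_diff _ hceven z hz a haodd H, mul_sum] at hc
    refine hc.trans (le_of_eq ?_)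
    rw [← sum_range_reflect]
    apply sum_congr rfl
    intro j hj
    rw [mem_range] at hj
    have e2 : ((H - 1 - j : ℕ) : ℤ) = (H : ℤ) - 1 - j := by omega
    have e1 : (β + -1 * ((t₀ : ℤ) + 2 * j)).toNat = a + 2 * (H - 1 - j) := by
      have : β + -1 * ((t₀ : ℤ) + 2 * j) = ((a + 2 * (H - 1 - j) : ℕ) : ℤ) := by
        rw [Nat.cast_add, Nat.cast_mul, ha, e2]; push_cast; ring
      rw [this, Int.toNat_natCast]
    rw [e1]
    refine (lamz_mul _ z _ _ ?_).symm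
    intro p
    unfold Qc
    rw [← Int.natCast_dvd_natCast]
    have : ((s + (t₀ + 2 * j) : ℕ) : ℤ) = -(((a + 2 * (H - 1 - j) : ℕ) : ℤ) + (-s - β)) := by
      rw [Nat.cast_add a, Nat.cast_mul, ha, e2]; push_cast; ring
    rw [this, dvd_neg]

end Pool.Agent.N785.PC
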