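import Pool.Agent.N785.PC.Stmts2
import Pool.Agent.H373R2.T7.LamMaj

/-!
# Project PC, part NTc: the prime number theorem in a window of odd numbers (helper614)
-/

set_option autoImplicit false

namespace Pool.Agent.N785.PC

open Finset

namespace NTc_


/-- The sum over the odd numbers in an interval. -/
theorem sum_odd (b : ℕ) (hb : Odd b) (H : ℕ) :
    ∑ n ∈ (Icc 1 (b - 1 + 2 * H)).filter (fun n => n ≡ 1 [MOD 2]), (ArithmeticFunction.vonMangoldt n : ℝ) =
      ∑ n ∈ (Icc 1 (b - 1)).filter (fun n => n ≡ 1 [MOD 2]), (ArithmeticFunction.vonMangoldt n : ℝ) +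
        ∑ i ∈ range H, (ArithmeticFunction.vonMangoldt (b + 2 * i) : ℝ) := by
  obtain ⟨k, rfl⟩ := hb
  induction H with
  | zero => simp
  | succ H ih =>
    rw [sum_filter] at ih ⊢
    have e : 2 * k + 1 - 1 + 2 * (H + 1) = 2 * k + 1 - 1 + 2 * H + 1 + 1 := by omega
    rw [e, sum_Icc_succ_top (by omega), sum_Icc_succ_top (by omega), ih, sum_range_succ]
    have h1 : (2 * k + 1 - 1 + 2 * H + 1) ≡ 1 [MOD 2] := by
      unfold Nat.ModEq; omega
    have h2 : ¬ (2 * k + 1 - 1 + 2 * H + 1 + 1) ≡ 1 [MOD 2] := by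
      unfold Nat.ModEq; omega
    rw [if_pos h1, if_neg h2]
    have h3 : 2 * k + 1 - 1 + 2 * H + 1 = 2 * k + 1 + 2 * H := by omega
    rw [h3]
    ring

theorem main : ∃ N₀ : ℕ, ∀ N H : ℕ, N₀ ≤ N → (N : ℝ) ≤ H * Real.log N ^ 5 →
    ∀ b : ℕ, Odd b → b + 2 * H ≤ 10 * N + 2 → (H : ℝ) ≤ ∑ i ∈ range H, (ArithmeticFunction.vonMangoldt (b + 2 * i) : ℝ) := by
  obtain ⟨N0, h0⟩ := Pool.Agent.H373R2.T7.lam_ap 1 7
  refine ⟨max N0 (max 2 ⌈Real.exp 5⌉₊), fun N H hN hNH b hb hbH => ?_⟩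
  have hN1 : N0 ≤ N := le_trans (le_max_left _ _) hN
  have hN2 : 2 ≤ N := le_trans (le_trans (le_max_left _ _) (le_max_right _ _)) hN
  have hN3 : Real.exp 5 ≤ N :=
    (Nat.le_ceil _).trans (by exact_mod_cast le_trans (le_trans (le_max_right _ _) (le_max_right _ _)) hN)
  have hNr : (2 : ℝ) ≤ N := by exact_mod_cast hN2
  set L := Real.log N with hL
  have hL5 : 5 ≤ L := by
    rw [hL, Real.le_log_iff_exp_le (by linarith)]
    exact hN3
  set N' : ℕ := 10 * N + 2 with hN'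
  have hN'r : (N' : ℝ) = 10 * N + 2 := by rw [hN']; push_cast; ring
  have hLL : L ≤ Real.log N' := by
    apply Real.log_le_log (by linarith)
    rw [hN'r]; linarith
  have h1 := h0 N' (by omega) 2 (by norm_num) (by
    rw [pow_one]
    push_cast
    linarith) 1
  have h2 := h1 (b - 1) (by omega)
  have h3 := h1 (b - 1 + 2 * H) (by omega)
  rw [if_pos (Nat.coprime_one_left 2), Nat.totient_two, Nat.cast_one, div_one] at h2 h3
  rw [sum_odd b hb H] at h3
  rw [abs_le] at h2 h3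
  have h4 : ((b - 1 + 2 * H : ℕ) : ℝ) = ((b - 1 : ℕ) : ℝ) + 2 * H := by push_cast; ring
  rw [h4] at h3
  -- the error term
  have h5 : (N' : ℝ) / Real.log N' ^ 7 ≤ H / 2 := by
    have h6 : (0 : ℝ) < L ^ 7 := by positivity
    have h7 : (N' : ℝ) / Real.log N' ^ 7 ≤ N' / L ^ 7 :=
      div_le_div_of_nonneg_left (Nat.cast_nonneg _) h6 (pow_le_pow_left₀ (by linarith) hLL 7)
    refine h7.trans ?_
    rw [div_le_iff₀ h6]
    have h8 : (N' : ℝ) ≤ 11 * N := by rw [hN'r]; linarith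
    have h9 : (25 : ℝ) ≤ L ^ 2 := by nlinarith
    have h10 : (0 : ℝ) ≤ H * L ^ 5 := by positivity
    have h11 : (H : ℝ) * L ^ 7 = (H * L ^ 5) * L ^ 2 := by ring
    nlinarith
  linarith [h2.1, h2.2, h3.1, h3.2]

end NTc_

open NTc_ in
theorem t_NTc : S_NTc := by
  obtain ⟨N₀, h⟩ := main
  refine ⟨N₀, fun N H hN _ hNH σ hσ α s₀ hr ho => ?_⟩
  rcases Nat.eq_zero_or_pos H with rfl | hH
  · simp
  rcases hσ with rfl | rfl
  · obtain ⟨b, hb⟩ : ∃ b : ℕ, (b : ℤ) = α + 1 * s₀ := by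
      have := (hr 0 hH).1
      push_cast at this
      exact ⟨(α + 1 * s₀).toNat, by omega⟩
    have hbo : Odd b := by
      rw [← hb] at ho
      exact_mod_cast ho
    have h1 := (hr (H - 1) (by omega)).2
    have h2 := h N H hN hNH b hbo (by
      have : ((H - 1 : ℕ) : ℤ) = (H : ℤ) - 1 := by omega
      rw [this] at h1
      zify
      linarith)
    refine h2.trans (le_of_eq (sum_congr rfl fun i _ => ?_))
    congr 1
    have : α + 1 * ((s₀ : ℤ) + 2 * i) = ((b + 2 * i : ℕ) : ℤ) := by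
      push_cast
      rw [hb]
      ring
    rw [this, Int.toNat_natCast]
  · obtain ⟨b, hb⟩ : ∃ b : ℕ, (b : ℤ) = α + -1 * (s₀ + 2 * (H - 1 : ℕ)) := by
      have := (hr (H - 1) (by omega)).1
      exact ⟨(α + -1 * (s₀ + 2 * (H - 1 : ℕ))).toNat, by omega⟩
    have hbo : Odd b := by
      have h1 : Odd (b : ℤ) := by
        rw [hb]
        obtain ⟨k, hk⟩ := ho
        exact ⟨k - (H - 1 : ℕ), by linarith⟩
      exact_mod_cast h1
    have h1 := (hr 0 hH).2
    have h2 := h N H hN hNH b hbo (by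
      have : ((H - 1 : ℕ) : ℤ) = (H : ℤ) - 1 := by omega
      rw [this] at hb
      push_cast at h1
      zify
      linarith)
    rw [← sum_range_reflect] at h2
    refine h2.trans (le_of_eq (sum_congr rfl fun i hi => ?_))
    rw [mem_range] at hi
    congr 1
    have : α + -1 * ((s₀ : ℤ) + 2 * i) = ((b + 2 * (H - 1 - i) : ℕ) : ℤ) := by
      have h3 : ((H - 1 - i : ℕ) : ℤ) = ((H - 1 : ℕ) : ℤ) - i := by omega
      rw [Nat.cast_add, Nat.cast_mul, h3, hb]
      push_cast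
      ring
    rw [this, Int.toNat_natCast]

end Pool.Agent.N785.PC
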