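import Pool.Agent.N785.PC.Stmts
import Pool.Agent.Helper507.PNT

/-!
# Project PC: the lower bound for the prime pyramid
-/

set_option autoImplicit false

namespace Pool.Agent.N785.PC

open Finset Filter Topology

namespace PYRL_

theorem exists_prime : ∃ m₀ : ℕ, ∀ m : ℕ, m₀ ≤ m →
    ∃ t : ℕ, t.Prime ∧ 31 * m + 8 < 8 * t ∧ t ≤ 4 * m + 1 := by
  have h1 : ∀ᶠ x : ℝ in atTop, |Chebyshev.theta x / x - 1| < 1 / 100 := by
    have h := (Metric.tendsto_nhds.1 Pool.Agent.Helper507.PNT.theta_div_tendsto) (1 / 100)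
      (by norm_num)
    simpa [Real.dist_eq] using h
  obtain ⟨X, hX⟩ := eventually_atTop.1 h1
  refine ⟨max 1 ⌈X⌉₊, fun m hm => ?_⟩
  have hm1 : 1 ≤ m := le_trans (le_max_left _ _) hm
  have hm1' : (1 : ℝ) ≤ m := by exact_mod_cast hm1
  have hmX : X ≤ m := le_trans (Nat.le_ceil X) (by exact_mod_cast le_trans (le_max_right _ _) hm)
  by_contra hcon
  push Not at hcon
  have e : Chebyshev.theta (4 * m + 1 : ℝ) = Chebyshev.theta ((31 * m + 8) / 8 : ℝ) := by
    unfold Chebyshev.theta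
    refine Finset.sum_congr ?_ (fun _ _ => rfl)
    ext p
    simp only [mem_filter, mem_Ioc]
    rw [Nat.le_floor_iff (by positivity), Nat.le_floor_iff (by positivity)]
    constructor
    · rintro ⟨⟨h2, h3⟩, h4⟩
      have h3' : p ≤ 4 * m + 1 := by exact_mod_cast h3
      have h5 : 8 * p ≤ 31 * m + 8 := by
        by_contra h6
        have h7 := hcon p h4 (by omega)
        omega
      refine ⟨⟨h2, ?_⟩, h4⟩
      rw [le_div_iff₀ (by norm_num)]
      have h8 : (8 : ℝ) * p ≤ 31 * m + 8 := by exact_mod_cast h5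
      linarith
    · rintro ⟨⟨h2, h3⟩, h4⟩
      refine ⟨⟨h2, ?_⟩, h4⟩
      rw [le_div_iff₀ (by norm_num)] at h3
      linarith
  have h2 := hX (4 * m + 1) (by linarith)
  have h3 := hX ((31 * m + 8) / 8) (by linarith)
  rw [← e, abs_lt] at h3
  rw [abs_lt] at h2
  have p1 : (0 : ℝ) < 4 * m + 1 := by linarith
  have p2 : (0 : ℝ) < (31 * m + 8) / 8 := by linarith
  have h4 : (99 / 100 : ℝ) * (4 * m + 1) < Chebyshev.theta (4 * m + 1 : ℝ) := by
    rw [← lt_div_iff₀ p1]
    linarith [h2.1]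
  have h5 : Chebyshev.theta (4 * m + 1 : ℝ) < (101 / 100 : ℝ) * ((31 * m + 8) / 8) := by
    rw [← div_lt_iff₀ p2]
    linarith [h3.2]
  linarith

theorem fin (n u v : ℕ) : (HPn n u v).Finite := by
  refine Set.Finite.subset (List.finite_toSet ((List.range' 1 n).permutations)) ?_
  intro l hl
  change l ∈ (List.range' 1 n).permutations
  rw [List.mem_permutations]
  refine (List.perm_ext_iff_of_nodup hl.1 List.nodup_range').2 ?_
  intro a
  rw [hl.2.1 a, List.mem_range'_1]
  omega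

theorem odd_le (m b t : ℕ) (ht : t.Prime) (hb : b + (2 * m + 1) = t) :
    (HP m 1 b).ncard ≤ R (2 * m + 1) := by
  refine Set.ncard_le_ncard_of_injOn (fun l => l ++ [2 * m + 1]) ?_ ?_ (fin _ _ _)
  · rintro l ⟨h1, h2, h3, h4, h5⟩
    refine ⟨?_, ?_, ?_, ?_, ?_⟩
    · refine List.Nodup.append h1 (List.nodup_singleton _) ?_
      intro x hx hx'
      rw [List.mem_singleton] at hx'
      have h6 := (h2 x).1 hx
      omega
    · intro x
      rw [List.mem_append, List.mem_singleton, h2 x]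
      omega
    · rw [List.head?_append, h3]
      rfl
    · simp
    · rw [List.isChain_append]
      refine ⟨h5, List.isChain_singleton _, ?_⟩
      intro x hx y hy
      rw [h4] at hx
      simp only [Option.mem_def, Option.some.injEq] at hx
      simp only [List.head?_cons, Option.mem_def, Option.some.injEq] at hy
      rw [← hx, ← hy, hb]
      exact ht
  · intro l _ l' _ h
    exact List.append_cancel_right h

theorem num (ε : ℝ) (h0 : 0 < ε) (h1 : ε < 1) : ∃ m₀ : ℕ, ∀ m : ℕ, m₀ ≤ m →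
    ((1 - ε) * ((2 * m + 1 : ℕ) : ℝ) / (Real.exp 1 * Real.log ((2 * m + 1 : ℕ) : ℝ))) ^
      (2 * m + 1) ≤
    ((1 - ε / 2) * (2 * m) / (Real.exp 1 * Real.log (2 * m))) ^ (2 * m) := by
  set r : ℝ := (1 - ε) / (1 - ε / 2) with hr
  have hd : 0 < 1 - ε / 2 := by linarith
  have hr0 : 0 < r := div_pos (by linarith) hd
  have hr1 : r < 1 := by
    rw [hr, div_lt_one hd]
    linarith
  set s : ℝ := (1 + r) / 2 with hs
  have hs0 : 0 < s := by rw [hs]; linarith
  have hs1 : s < 1 := by rw [hs]; linarith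
  have ht := tendsto_self_mul_const_pow_of_lt_one hs0.le hs1
  have ht2 : ∀ᶠ n : ℕ in atTop, (n : ℝ) * s ^ n < s := ht.eventually_lt_const hs0
  obtain ⟨n0, hn0⟩ := eventually_atTop.1 ht2
  refine ⟨max (max 2 n0) ⌈1 / (1 - r)⌉₊, fun m hm => ?_⟩
  have hm2 : 2 ≤ m := le_trans (le_max_left _ _) (le_trans (le_max_left _ _) hm)
  have hmn : n0 ≤ m := le_trans (le_max_right _ _) (le_trans (le_max_left _ _) hm)
  have hmr : 1 / (1 - r) ≤ (m : ℝ) :=
    le_trans (Nat.le_ceil _) (by exact_mod_cast le_trans (le_max_right _ _) hm)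
  have hm2' : (2 : ℝ) ≤ m := by exact_mod_cast hm2
  have h3 : 1 ≤ (m : ℝ) * (1 - r) := by
    rwa [div_le_iff₀ (by linarith)] at hmr
  set N : ℝ := ((2 * m + 1 : ℕ) : ℝ) with hN
  have hNe : N = 2 * m + 1 := by rw [hN]; push_cast; ring
  have hx1 : (1 : ℝ) < 2 * m := by linarith
  have hlx : 0 < Real.log (2 * m) := Real.log_pos hx1
  have hlog : Real.log (2 * m) ≤ Real.log N := Real.log_le_log (by linarith) (by linarith)
  have he : 0 < Real.exp 1 := Real.exp_pos 1
  have he1 : (1 : ℝ) ≤ Real.exp 1 := Real.one_le_exp (by norm_num)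
  have hlN : 1 ≤ Real.log N := by
    rw [Real.le_log_iff_exp_le (by linarith)]
    have := Real.exp_one_lt_d9
    linarith
  set A : ℝ := (1 - ε / 2) * (2 * m) / (Real.exp 1 * Real.log (2 * m)) with hA
  set B : ℝ := (1 - ε) * N / (Real.exp 1 * Real.log N) with hB
  have hB0 : 0 ≤ B := by
    rw [hB]
    exact div_nonneg (mul_nonneg (by linarith) (by linarith)) (by positivity)
  have hA0 : 0 < A := by
    rw [hA]
    exact div_pos (mul_pos hd (by linarith)) (mul_pos he hlx)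
  have hBN : B ≤ N := by
    rw [hB, div_le_iff₀ (by positivity)]
    have h4 : (1 - ε) * N ≤ 1 * N := mul_le_mul_of_nonneg_right (by linarith) (by linarith)
    have h5 : 1 ≤ Real.exp 1 * Real.log N := one_le_mul_of_one_le_of_one_le he1 hlN
    nlinarith
  have hBA : B ≤ A * s := by
    have h4 : B ≤ (1 - ε) * N / (Real.exp 1 * Real.log (2 * m)) := by
      rw [hB]
      exact div_le_div_of_nonneg_left (mul_nonneg (by linarith) (by linarith)) (by positivity)
        (mul_le_mul_of_nonneg_left hlog he.le)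
    have h5 : (1 - ε) * N ≤ (1 - ε / 2) * (2 * m) * s := by
      have h6 : 1 - ε = r * (1 - ε / 2) := by rw [hr, div_mul_cancel₀ _ hd.ne']
      rw [h6, hNe, hs]
      have h7 : r * (2 * m + 1) ≤ 2 * m * ((1 + r) / 2) := by nlinarith
      nlinarith
    calc B ≤ (1 - ε) * N / (Real.exp 1 * Real.log (2 * m)) := h4
      _ ≤ (1 - ε / 2) * (2 * m) * s / (Real.exp 1 * Real.log (2 * m)) :=
          div_le_div_of_nonneg_right h5 (by positivity)
      _ = A * s := by rw [hA]; ring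
  have h6 : s ^ (2 * m) * N ≤ 1 := by
    have h7 := hn0 (2 * m + 1) (by omega)
    rw [← hN, pow_succ] at h7
    have h8 : (s ^ (2 * m) * N) * s < 1 * s := by nlinarith
    exact (lt_of_mul_lt_mul_right h8 hs0.le).le
  calc B ^ (2 * m + 1) = B ^ (2 * m) * B := pow_succ _ _
    _ ≤ (A * s) ^ (2 * m) * N :=
        mul_le_mul (pow_le_pow_left₀ hB0 hBA _) hBN hB0 (by positivity)
    _ = A ^ (2 * m) * (s ^ (2 * m) * N) := by rw [mul_pow]; ring
    _ ≤ A ^ (2 * m) * 1 := mul_le_mul_of_nonneg_left h6 (by positivity)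
    _ = A ^ (2 * m) := mul_one _

end PYRL_

theorem t_PYRL (h : S_MAIN) : S_PYRL := by
  intro ε h0 h1
  obtain ⟨m1, hm1⟩ := h ε h0 h1
  obtain ⟨m2, hm2⟩ := h (ε / 2) (by linarith) (by linarith)
  obtain ⟨m3, hm3⟩ := PYRL_.num ε h0 h1
  obtain ⟨m4, hm4⟩ := PYRL_.exists_prime
  refine ⟨2 * (m1 + m2 + m3 + m4 + 9) + 1, fun n hn => ?_⟩
  obtain ⟨m, rfl | rfl⟩ := Nat.even_or_odd' n
  · have h2 : Ends m 1 (2 * m) := by
      refine ⟨?_, ?_, Or.inl (by omega), Or.inr (by omega)⟩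
      · exact mem_filter.2 ⟨mem_Icc.2 ⟨le_rfl, by omega⟩, rfl⟩
      · simp only [Ev, mem_filter, mem_Icc]
        omega
    have h3 := hm1 m (by omega) 1 (2 * m) h2
    push_cast
    exact h3
  · obtain ⟨t, ht, ht1, ht2⟩ := hm4 m (by omega)
    obtain ⟨k, hk⟩ : Odd t := ht.odd_of_ne_two (by omega)
    have h2 : Ends m 1 (t - (2 * m + 1)) := by
      refine ⟨?_, ?_, Or.inl (by omega), Or.inr (by omega)⟩
      · exact mem_filter.2 ⟨mem_Icc.2 ⟨le_rfl, by omega⟩, rfl⟩
      · simp only [Ev, mem_filter, mem_Icc]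
        omega
    have h3 := hm2 m (by omega) 1 (t - (2 * m + 1)) h2
    have h4 := PYRL_.odd_le m (t - (2 * m + 1)) t ht (by omega)
    have h5 : ((HP m 1 (t - (2 * m + 1))).ncard : ℝ) ≤ (R (2 * m + 1) : ℝ) := by
      exact_mod_cast h4
    exact (hm3 m (by omega)).trans (h3.trans h5)

end Pool.Agent.N785.PC
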