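import Pool.Agent.N785.PC.Stmts3
import Pool.Agent.N785.PC.PYRL

/-!
# Project PC: the lower bound for the prime pyramid, with a rate
-/

set_option autoImplicit false

namespace Pool.Agent.N785.PC

open Finset Filter Topology

namespace PYRL2_

theorem log_sq_le (x : ℝ) (hx : 1 ≤ x) : Real.log x ^ 2 ≤ 4 * x := by
  have h0 : 0 < x := by linarith
  have hs : 0 < Real.sqrt x := Real.sqrt_pos.2 h0
  have h1 : Real.log x = 2 * Real.log (Real.sqrt x) := by
    rw [Real.log_sqrt h0.le]; ring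
  have h2 : Real.log (Real.sqrt x) ≤ Real.sqrt x - 1 := Real.log_le_sub_one_of_pos hs
  have h3 : 0 ≤ Real.log x := Real.log_nonneg hx
  have h4 : Real.log x ≤ 2 * Real.sqrt x := by linarith
  have h5 : Real.sqrt x ^ 2 = x := Real.sq_sqrt h0.le
  nlinarith

theorem mt_succ (x : ℕ) (hx : 4 ≤ x) : mt (x + 1) - mt x ≤ Real.log ((x + 1 : ℕ) : ℝ) := by
  have hx' : (4 : ℝ) ≤ x := by exact_mod_cast hx
  unfold mt
  push_cast
  have he := Real.exp_one_lt_d9
  have hl1 : 1 ≤ Real.log (x : ℝ) := by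
    rw [Real.le_log_iff_exp_le (by linarith)]
    linarith
  have hl2 : Real.log (x : ℝ) ≤ Real.log ((x : ℝ) + 1) := Real.log_le_log (by linarith) (by linarith)
  have hll : Real.log (Real.log (x : ℝ)) ≤ Real.log (Real.log ((x : ℝ) + 1)) :=
    Real.log_le_log (by linarith) hl2
  have hl0 : 0 ≤ Real.log (Real.log ((x : ℝ) + 1)) := Real.log_nonneg (by linarith)
  have hd : Real.log ((x : ℝ) + 1) - Real.log x ≤ 1 / x := by
    rw [← Real.log_div (by linarith) (by linarith)]
    have h1 := Real.log_le_sub_one_of_pos (show 0 < ((x : ℝ) + 1) / x by positivity)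
    have h2 : ((x : ℝ) + 1) / x - 1 = 1 / x := by
      field_simp
      ring
    linarith
  have hd2 : (x : ℝ) * (Real.log ((x : ℝ) + 1) - Real.log x) ≤ 1 := by
    have h1 := mul_le_mul_of_nonneg_left hd (show (0 : ℝ) ≤ x by linarith)
    have h2 : (x : ℝ) * (1 / x) = 1 := by
      field_simp
    linarith
  nlinarith

theorem rate (C : ℝ) (hC : 0 < C) (m N : ℕ) (hm : 3 ≤ m) (h1 : 2 * m ≤ N) (h2 : N ≤ 2 * m + 1) :
    C * m / Real.log m ≤ C * N / Real.log N := by
  have hm' : (3 : ℝ) ≤ m := by exact_mod_cast hm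
  have h1' : (2 : ℝ) * m ≤ N := by exact_mod_cast h1
  have h2' : (N : ℝ) ≤ 2 * m + 1 := by exact_mod_cast h2
  have hl : 0 < Real.log m := Real.log_pos (by linarith)
  have hN : 0 < Real.log N := Real.log_pos (by linarith)
  have hle : Real.log N ≤ 2 * Real.log m := by
    have h3 : Real.log ((m : ℝ) ^ 2) = 2 * Real.log m := by
      rw [Real.log_pow]; norm_num
    rw [← h3]
    exact Real.log_le_log (by linarith) (by nlinarith)
  rw [div_le_div_iff₀ hl hN]
  have h4 : (m : ℝ) * Real.log N ≤ N * Real.log m := by nlinarith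
  nlinarith

end PYRL2_

theorem t_PYRL2 (h : S_MAIN2) : S_PYRL2 := by
  obtain ⟨C, hC, m1, hm1⟩ := h
  obtain ⟨m4, hm4⟩ := PYRL_.exists_prime
  refine ⟨C + 4, by linarith, 2 * (m1 + m4 + 9) + 1, fun n hn => ?_⟩
  have hnl : 0 < Real.log (n : ℝ) := Real.log_pos (by exact_mod_cast (by omega : 1 < n))
  have hn0 : (0 : ℝ) ≤ n := Nat.cast_nonneg n
  obtain ⟨m, hm⟩ := Nat.even_or_odd' n
  have hr := PYRL2_.rate C hC m n (by omega) (by omega) (by omega)
  have hsq := PYRL2_.log_sq_le n (by exact_mod_cast (by omega : 1 ≤ n))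
  have hq : Real.log (n : ℝ) ≤ 4 * n / Real.log n := by
    rw [le_div_iff₀ hnl]
    nlinarith
  have hsplit : (C + 4) * (n : ℝ) / Real.log n = C * n / Real.log n + 4 * n / Real.log n := by
    ring
  rcases hm with hm | hm
  · subst hm
    have h2 : Ends m 1 (2 * m) := by
      refine ⟨?_, ?_, Or.inl (by omega), Or.inr (by omega)⟩
      · exact mem_filter.2 ⟨mem_Icc.2 ⟨le_rfl, by omega⟩, rfl⟩
      · simp only [Ev, mem_filter, mem_Icc]
        omega
    have h3 := hm1 m (by omega) 1 (2 * m) h2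
    refine le_trans (Real.exp_le_exp.2 ?_) h3
    linarith
  · subst hm
    obtain ⟨t, ht, ht1, ht2⟩ := hm4 m (by omega)
    obtain ⟨k, hk⟩ : Odd t := ht.odd_of_ne_two (by omega)
    have h2 : Ends m 1 (t - (2 * m + 1)) := by
      refine ⟨?_, ?_, Or.inl (by omega), Or.inr (by omega)⟩
      · exact mem_filter.2 ⟨mem_Icc.2 ⟨le_rfl, by omega⟩, rfl⟩
      · simp only [Ev, mem_filter, mem_Icc]
        omega
    have h3 := hm1 m (by omega) 1 (t - (2 * m + 1)) h2
    have h4 := PYRL_.odd_le m (t - (2 * m + 1)) t ht (by omega)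
    have h5 : ((HP m 1 (t - (2 * m + 1))).ncard : ℝ) ≤ (R (2 * m + 1) : ℝ) := by
      exact_mod_cast h4
    have h6 := PYRL2_.mt_succ (2 * m) (by omega)
    refine le_trans (Real.exp_le_exp.2 ?_) (h3.trans h5)
    linarith

end Pool.Agent.N785.PC
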