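import Pool.Agent.N785.PC.Stmts

/-! # Project PC (helper785), part T2 (helper371): paths with three edges -/

set_option autoImplicit false

namespace Pool.Agent.N785.PC

open Finset

open Classical in
theorem t_T2 (h : S_NTG) : S_T2 := by
  obtain ⟨c, hc, N₀, h1⟩ := h
  refine ⟨c, hc, max N₀ 3, fun m hm x hx y hy => ?_⟩
  have hm0 : N₀ ≤ m := (le_max_left _ _).trans hm
  have hm3 : 3 ≤ m := (le_max_right _ _).trans hm
  simp only [Od, Ev, mem_filter, mem_Icc] at hx hy
  have hm3' : (3 : ℝ) ≤ m := by exact_mod_cast hm3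
  have hlog : 1 ≤ Real.log m := by
    rw [Real.le_log_iff_exp_le (by linarith)]
    have := Real.exp_one_lt_d9
    linarith
  have h2 := h1 m m hm0 le_rfl
    (by
      have h3 : (1 : ℝ) ≤ Real.log m ^ 5 := one_le_pow₀ hlog
      nlinarith)
    1 (Or.inl rfl) x y 2 1 (by norm_num) (by norm_num) (by omega) (by omega)
    (fun i hi => by push_cast; constructor <;> omega)
    (fun j hj => by push_cast; constructor <;> omega)
    (by
      rw [one_mul]
      have h3 : Odd (x + 2) := by
        rw [Nat.odd_iff]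
        omega
      exact_mod_cast h3)
    (by decide)
    (by
      rw [one_mul]
      have h3 : Odd (y + 1) := by
        rw [Nat.odd_iff]
        omega
      exact_mod_cast h3)
  refine h2.trans ?_
  norm_cast
  apply Finset.card_le_card_of_injOn (fun w : ℕ × ℕ => (1 + 2 * w.2, 2 + 2 * w.1))
  · intro w hw
    simp only [coe_filter, Set.mem_ofPred_eq, mem_product, mem_range] at hw
    obtain ⟨⟨h3, h4⟩, h5, h6, h7⟩ := hw
    simp only [coe_filter, Set.mem_ofPred_eq, mem_product, Od, Ev, mem_filter, mem_Icc]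
    refine ⟨⟨⟨⟨by omega, by omega⟩, by omega⟩, ⟨by omega, by omega⟩, by omega⟩, ?_, ?_, ?_⟩
    · rwa [one_mul] at h5
    · have e1 : 2 + 2 * w.1 + (1 + 2 * w.2) = 1 + 2 * w.2 + (2 + 2 * w.1) := by ring
      rwa [e1] at h6
    · rwa [one_mul, add_comm] at h7
  · intro w _ w' _ hww
    simp only [Prod.mk.injEq] at hww
    exact Prod.ext (by omega) (by omega)

end Pool.Agent.N785.PC
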