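import Pool.Agent.N785.PC.Stmts

/-!
# Project PC, part T3: connections through the reservoir
-/

set_option autoImplicit false

namespace Pool.Agent.N785.PC

open Finset

namespace T3_

theorem log_facts : ∃ m₁ : ℕ, 21 ≤ m₁ ∧ ∀ m : ℕ, m₁ ≤ m → 3 ≤ Real.log m ∧ Real.log m ^ 5 ≤ m := by
  have h1 : ∀ᶠ x : ℝ in Filter.atTop, Real.log x ^ 5 ≤ x := by
    have h2 := (Real.isLittleO_pow_log_id_atTop (n := 5)).bound (show (0 : ℝ) < 1 by norm_num)
    filter_upwards [h2, Filter.eventually_ge_atTop (1 : ℝ)] with x hx hx1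
    rw [Real.norm_eq_abs, Real.norm_eq_abs, one_mul, id, abs_of_nonneg (by linarith : (0 : ℝ) ≤ x)] at hx
    exact le_trans (le_abs_self _) hx
  obtain ⟨m₁, hm₁⟩ := Filter.eventually_atTop.1 (tendsto_natCast_atTop_atTop.eventually h1)
  refine ⟨max m₁ 21, le_max_right _ _, fun m hm => ⟨?_, hm₁ m (le_trans (le_max_left _ _) hm)⟩⟩
  have hm21 : (21 : ℝ) ≤ m := by exact_mod_cast le_trans (le_max_right _ _) hm
  rw [Real.le_log_iff_exp_le (by linarith)]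
  have h3 : Real.exp 3 = Real.exp 1 ^ 3 := by
    rw [← Real.exp_nat_mul]
    norm_num
  have h4 := Real.exp_one_lt_d9
  have h5 := Real.exp_pos 1
  have h6 : Real.exp 1 ^ 3 ≤ 2.7182818286 ^ 3 := pow_le_pow_left₀ h5.le h4.le 3
  rw [h3]
  norm_num at h6 ⊢
  linarith

theorem rr_facts (m : ℕ) (hm : 21 ≤ m) (h3 : 3 ≤ Real.log m) (h5 : Real.log m ^ 5 ≤ m) :
    40 * rr m ≤ m ∧ 1 ≤ rr m ∧ (m : ℝ) ≤ rr m * Real.log m ^ 5 := by
  have hm0 : (21 : ℝ) ≤ m := by exact_mod_cast hm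
  have hL4 : (81 : ℝ) ≤ Real.log m ^ 4 := by
    calc (81 : ℝ) = 3 ^ 4 := by norm_num
      _ ≤ Real.log m ^ 4 := pow_le_pow_left₀ (by norm_num) h3 4
  have hL40 : (0 : ℝ) < Real.log m ^ 4 := by linarith
  have h0 : (0 : ℝ) ≤ (m : ℝ) / Real.log m ^ 4 := by positivity
  have hH1 : ((rr m : ℕ) : ℝ) ≤ (m : ℝ) / Real.log m ^ 4 := Nat.floor_le h0
  have hH2 : (m : ℝ) / Real.log m ^ 4 < (rr m : ℕ) + 1 := Nat.lt_floor_add_one _
  have hA : ((rr m : ℕ) : ℝ) * Real.log m ^ 4 ≤ m := (le_div_iff₀ hL40).1 hH1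
  have hB : (m : ℝ) < ((rr m : ℕ) + 1) * Real.log m ^ 4 := (div_lt_iff₀ hL40).1 hH2
  have hr0 : (0 : ℝ) ≤ (rr m : ℕ) := Nat.cast_nonneg _
  have hC : (m : ℝ) ≤ rr m * Real.log m ^ 5 := by
    have e1 : (((rr m : ℕ) : ℝ) + 1) * Real.log m ^ 4 * Real.log m =
        rr m * Real.log m ^ 5 + Real.log m ^ 5 := by ring
    have e2 : (m : ℝ) * 3 ≤ (((rr m : ℕ) : ℝ) + 1) * Real.log m ^ 4 * Real.log m :=
      mul_le_mul hB.le h3 (by norm_num) (by positivity)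
    rw [e1] at e2
    linarith
  refine ⟨?_, ?_, hC⟩
  · have : (40 : ℝ) * (rr m : ℕ) ≤ m := by nlinarith
    exact_mod_cast this
  · by_contra hcon
    have h1 : rr m = 0 := by omega
    rw [h1] at hC
    norm_num at hC
    linarith

end T3_

open Classical in
theorem t_T3 (h : S_NTG) : S_T3 := by
  obtain ⟨c, hc, N₀, h⟩ := h
  obtain ⟨m₁, hm₁, hlog⟩ := T3_.log_facts
  refine ⟨c, hc, max N₀ m₁, fun m hm P hP1 hP2 hPo x hx y hy => ?_⟩
  have hmN : N₀ ≤ m := le_trans (le_max_left _ _) hm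
  have hmm : m₁ ≤ m := le_trans (le_max_right _ _) hm
  have hm21 : 21 ≤ m := le_trans hm₁ hmm
  obtain ⟨hl3, hl5⟩ := hlog m hmm
  obtain ⟨hr40, hr1, hrl⟩ := T3_.rr_facts m hm21 hl3 hl5
  rw [Od, mem_filter, mem_Icc] at hx
  rw [Ev, mem_filter, mem_Icc] at hy
  obtain ⟨H, hH⟩ : ∃ H, H = rr m := ⟨_, rfl⟩
  rw [← hH] at hr40 hr1 hrl ⊢
  obtain ⟨s, hs⟩ : ∃ s, s = 2 * (m / 2) + 1 := ⟨_, rfl⟩
  have haa : ∀ i, aa m i = s + 2 * i := fun i => by rw [aa, hs]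
  have hsm : s ≤ m + 1 := by omega
  have hso : s % 2 = 1 := by omega
  obtain ⟨t, ht⟩ : ∃ t, t = P - (s + 2 * (H - 1)) := ⟨_, rfl⟩
  have htP : t + (s + 2 * (H - 1)) = P := by omega
  have hPo' : P % 2 = 1 := Nat.odd_iff.1 hPo
  have key := h m H hmN (by omega) hrl (-1) (Or.inr rfl) ((x : ℤ) + P) ((y : ℤ) + P) s t (by omega)
    (by omega) (by omega) (by omega) (fun i hi => ⟨by omega, by omega⟩)
    (fun j hj => ⟨by omega, by omega⟩)
    (by rw [Int.odd_iff]; omega) (by rw [Nat.odd_iff]; omega)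
    (by rw [Int.odd_iff]; omega)
  refine le_trans key ?_
  norm_cast
  refine card_le_card_of_injOn (fun w => (w.1, H - 1 - w.2)) ?_ ?_
  · rintro ⟨i, j⟩ hw
    rw [mem_coe, mem_filter, mem_product, mem_range, mem_range] at hw
    rw [mem_coe, mem_filter, mem_product, mem_range, mem_range]
    obtain ⟨⟨hi, hj⟩, h1, h2, h3⟩ := hw
    simp only at hi hj h1 h2 h3 ⊢
    rw [haa, haa]
    refine ⟨⟨hi, by omega⟩, ?_, ?_, ?_⟩
    · have e1 : x + (P - (s + 2 * i)) = ((x : ℤ) + P + -1 * (s + 2 * i)).toNat := by omega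
      rw [e1]
      exact h1
    · have e1 : s + 2 * i + (P - (s + 2 * (H - 1 - j))) = s + 2 * i + (t + 2 * j) := by omega
      rw [e1]
      exact h2
    · have e1 : s + 2 * (H - 1 - j) + y = ((y : ℤ) + P + -1 * (t + 2 * j)).toNat := by omega
      rw [e1]
      exact h3
  · rintro ⟨i, j⟩ hw ⟨i', j'⟩ hw' heq
    rw [mem_coe, mem_filter, mem_product, mem_range, mem_range] at hw hw'
    rw [Prod.mk.injEq] at heq
    obtain ⟨h1, h2⟩ := heq
    simp only at h1 h2 hw hw'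
    rw [Prod.mk.injEq]
    exact ⟨h1, by omega⟩

end Pool.Agent.N785.PC
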