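import Pool.Agent.N785.PC.Stmts

set_option autoImplicit false

/-! Project PC, part TAU (helper769): permutations with small support. -/

namespace Pool.Agent.N785.PC

open Finset

open Classical in
theorem t_TAU : S_TAU := by
  intro α _ q
  obtain ⟨code, hcode⟩ : ∃ code : Equiv.Perm α → (Fin q → Option α) × (Fin q → Option α),
    code = fun τ : Equiv.Perm α => (fun i : Fin q => (Equiv.Perm.support τ).toList[(i : ℕ)]?,
      fun i : Fin q => (τ.support.toList[(i : ℕ)]?).map τ) := ⟨_, rfl⟩
  have h1 : ∀ τ τ' : Equiv.Perm α, τ.support.card ≤ q → code τ = code τ' →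
      ∀ x ∈ τ.support, x ∈ τ'.support ∧ τ x = τ' x := by
    intro τ τ' hτ h x hx
    rw [hcode] at h
    obtain ⟨ha, hb⟩ := Prod.mk.inj h
    have hx' : x ∈ τ.support.toList := Finset.mem_toList.2 hx
    obtain ⟨i, hi, hxi⟩ := List.getElem_of_mem hx'
    have hiq : i < q := by
      rw [Finset.length_toList] at hi
      omega
    have e1 : τ.support.toList[i]? = some x := by
      rw [List.getElem?_eq_getElem hi, hxi]
    have e2 := congrFun ha ⟨i, hiq⟩
    have e3 := congrFun hb ⟨i, hiq⟩
    simp only at e2 e3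
    rw [e1] at e2 e3
    rw [← e2] at e3
    refine ⟨?_, ?_⟩
    · exact Finset.mem_toList.1 (List.mem_of_getElem? e2.symm)
    · simpa using e3
  have hinj : Set.InjOn code (univ.filter fun τ : Equiv.Perm α => τ.support.card ≤ q :
      Finset (Equiv.Perm α)) := by
    intro τ hτ τ' hτ' h
    rw [mem_coe, mem_filter] at hτ hτ'
    refine Equiv.ext fun x => ?_
    by_cases hx : x ∈ τ.support
    · exact (h1 τ τ' hτ.2 h x hx).2
    · have hx' : x ∉ τ'.support := fun h2 => hx (h1 τ' τ hτ'.2 h.symm x h2).1
      rw [Equiv.Perm.notMem_support.1 hx, Equiv.Perm.notMem_support.1 hx']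
  have h2 := card_le_card_of_injOn code (t := univ) (fun _ _ => mem_univ _) hinj
  refine h2.trans (le_of_eq ?_)
  rw [card_univ, Fintype.card_prod, Fintype.card_fun, Fintype.card_option, Fintype.card_fin,
    ← pow_add, two_mul]

end Pool.Agent.N785.PC
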