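import Pool.Agent.N785.PC.Stmts
import Pool.Agent.Helper886.HCube.Perm

/-!
# Project PC, part VDW: perfect matchings of regular bipartite graphs. By helper488.
-/

set_option autoImplicit false

namespace Pool.Agent.N785.PC

open Finset

namespace VDW_

theorem sum_eq {n : ℕ} (K : Fin n → Fin n → Prop) [∀ i j, Decidable (K i j)] (k : ℝ) :
    ∑ σ : Equiv.Perm (Fin n), ∏ i, (if K i (σ i) then 1 / k else 0) =
      ((univ.filter fun σ : Equiv.Perm (Fin n) => ∀ i, K i (σ i)).card : ℝ) * (1 / k) ^ n := by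
  have h : ∀ σ : Equiv.Perm (Fin n), ∏ i, (if K i (σ i) then 1 / k else 0) =
      if (∀ i, K i (σ i)) then (1 / k) ^ n else 0 := by
    intro σ
    rw [Finset.prod_ite_zero]
    simp
  rw [Finset.sum_congr rfl fun σ _ => h σ, ← Finset.sum_filter, Finset.sum_const, nsmul_eq_mul]

end VDW_

open Classical in
theorem t_VDW : S_VDW := by
  intro X Y _ _ K k hXY hr hc
  obtain ⟨n, hn⟩ : ∃ n, n = Fintype.card X := ⟨_, rfl⟩
  have eX : X ≃ Fin n := (Fintype.equivFinOfCardEq hn.symm)
  have eY : Y ≃ Fin n := (Fintype.equivFinOfCardEq (hXY.symm.trans hn.symm))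
  rw [← hn]
  by_cases hk : k = 0 ∧ 0 < n
  · rw [hk.1, Nat.cast_zero, zero_div, zero_pow hk.2.ne']
    positivity
  have hk' : ∀ _ : Fin n, (k : ℝ) ≠ 0 := by
    intro i h
    apply hk
    exact ⟨by exact_mod_cast h, i.pos⟩
  have h1 := Pool.Agent.Helper886.HCube.perm_lower
    (fun i j : Fin n => if eY.symm j ∈ K (eX.symm i) then 1 / (k : ℝ) else 0)
    (fun i j => by positivity) ?_ ?_
  · rw [VDW_.sum_eq (fun i j : Fin n => eY.symm j ∈ K (eX.symm i)) (k : ℝ)] at h1
    have hcard : (univ.filter fun f : X ≃ Y => ∀ x, f x ∈ K x).card =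
        (univ.filter fun σ : Equiv.Perm (Fin n) => ∀ i, eY.symm (σ i) ∈ K (eX.symm i)).card := by
      refine Finset.card_bij (fun f _ => (eX.symm.trans (f.trans eY))) ?_ ?_ ?_
      · intro f hf
        rw [mem_filter] at hf ⊢
        refine ⟨mem_univ _, fun i => ?_⟩
        simp only [Equiv.trans_apply, Equiv.symm_apply_apply]
        exact hf.2 _
      · intro f _ g _ h
        ext x
        have := congrArg (fun e : Equiv.Perm (Fin n) => eY.symm (e (eX x))) h
        simpa using this
      · intro σ hσ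
        rw [mem_filter] at hσ
        refine ⟨eX.trans (σ.trans eY.symm), ?_, ?_⟩
        · rw [mem_filter]
          refine ⟨mem_univ _, fun x => ?_⟩
          have := hσ.2 (eX x)
          simpa using this
        · ext i
          simp
    rw [hcard]
    generalize (univ.filter fun σ : Equiv.Perm (Fin n) =>
      ∀ i, eY.symm (σ i) ∈ K (eX.symm i)).card = N at h1 ⊢
    rcases Nat.eq_zero_or_pos n with h0 | h0
    · rw [h0] at h1 ⊢
      simpa using h1
    · have hk0 : (0 : ℝ) < k := lt_of_le_of_ne (Nat.cast_nonneg k) (hk' ⟨0, h0⟩).symm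
      rw [div_pow, ← Real.exp_nat_mul, mul_one, div_le_iff₀ (Real.exp_pos _)]
      rw [Real.exp_neg, inv_le_iff_one_le_mul₀ (Real.exp_pos _), one_div, inv_pow] at h1
      have hkn : (0 : ℝ) < (k : ℝ) ^ n := pow_pos hk0 n
      have h2 := mul_le_mul_of_nonneg_left h1 hkn.le
      rw [mul_one] at h2
      refine h2.trans (le_of_eq ?_)
      field_simp
  · intro i
    have h0 := hk' i
    have e : ∑ j : Fin n, (if eY.symm j ∈ K (eX.symm i) then 1 / (k : ℝ) else 0) =
        ∑ y : Y, (if y ∈ K (eX.symm i) then 1 / (k : ℝ) else 0) :=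
      Equiv.sum_comp eY.symm (fun y : Y => if y ∈ K (eX.symm i) then 1 / (k : ℝ) else 0)
    rw [e, ← Finset.sum_filter, Finset.sum_const, nsmul_eq_mul]
    have : (univ.filter fun y => y ∈ K (eX.symm i)) = K (eX.symm i) := by ext y; simp
    rw [this, hr]
    field_simp
  · intro j
    have h0 := hk' j
    have e : ∑ i : Fin n, (if eY.symm j ∈ K (eX.symm i) then 1 / (k : ℝ) else 0) =
        ∑ x : X, (if eY.symm j ∈ K x then 1 / (k : ℝ) else 0) :=
      Equiv.sum_comp eX.symm (fun x : X => if eY.symm j ∈ K x then 1 / (k : ℝ) else 0)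
    rw [e, ← Finset.sum_filter, Finset.sum_const, nsmul_eq_mul, hc]
    field_simp

end Pool.Agent.N785.PC
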