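import Pool.Agent.N785.PC.NTa
import Pool.Agent.N785.PC.NTb
import Pool.Agent.N785.PC.NTc
import Pool.Agent.N785.PC.NTG
import Pool.Agent.N785.PC.T2
import Pool.Agent.N785.PC.T3
import Pool.Agent.N785.PC.DEG2
import Pool.Agent.N785.PC.KRa
import Pool.Agent.N785.PC.KRb
import Pool.Agent.N785.PC.KR2
import Pool.Agent.N785.PC.VDW
import Pool.Agent.N785.PC.FC1
import Pool.Agent.N785.PC.FC2
import Pool.Agent.N785.PC.FC3
import Pool.Agent.N785.PC.FC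
import Pool.Agent.N785.PC.CNT2
import Pool.Agent.N785.PC.GAD
import Pool.Agent.N785.PC.Connect
import Pool.Agent.N785.PC.MERGE
import Pool.Agent.N785.PC.TAU
import Pool.Agent.N785.PC.LA
import Pool.Agent.N785.PC.LB
import Pool.Agent.N785.PC.ASM
import Pool.Agent.N785.PC.GGN2
import Pool.Agent.N785.PC.MAINC2
import Pool.Agent.N785.PC.MAIN2
import Pool.Agent.N785.PC.CIR
import Pool.Agent.N785.PC.CIRU2
import Pool.Agent.N785.PC.PYRL2
import Pool.Agent.N785.PC.PYRU2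

/-!
# Project PC: assembly
-/

set_option autoImplicit false

namespace Pool.Agent.N785.PC

theorem f_T : S_NTG := t_NTG t_NTa t_NTb t_NTc

theorem f_CNT2 : S_CNT2 :=
  t_CNT2 (t_KR2 t_DEG2 (t_T2 f_T) t_KRa t_KRb) t_VDW (t_FC t_FC1 t_FC2 t_FC3)

theorem f_MAIN2 : S_MAIN2 :=
  t_MAIN2 (t_MAINC2 f_CNT2 t_GAD (t_CON (t_T3 f_T)) t_MERGE t_TAU (t_ASM t_LA t_LB) (t_GGN2 f_CNT2))

theorem f_PYRL2 : S_PYRL2 := t_PYRL2 f_MAIN2

theorem f_PYRU2 : S_PYRU2 := t_PYRU2 t_DEG2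

theorem f_CIRU2 : S_CIRU2 := t_CIRU2 t_DEG2

theorem f_CIR : S_CIR := t_CIR

end Pool.Agent.N785.PC
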