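import Pool.Agent.N785.PC.Stmts

/-!
# Project PC, part MAIN: final analysis (helper11)
-/

set_option autoImplicit false

namespace Pool.Agent.N785.PC

open Finset Filter

namespace MAIN_

lemma tend_log : Tendsto (fun m : ℕ => Real.log (m : ℝ)) atTop atTop :=
  Real.tendsto_log_atTop.comp tendsto_natCast_atTop_atTop

lemma tend : Tendsto (fun m : ℕ => Real.log 4 / (m : ℝ) + 4 / Real.log m ^ 7 +
    3 / Real.log m ^ 3 + Real.log m / m) atTop (nhds 0) := by
  have h1 : Tendsto (fun m : ℕ => Real.log 4 / (m : ℝ)) atTop (nhds 0) :=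
    tendsto_const_div_atTop_nhds_zero_nat _
  have h2 : Tendsto (fun m : ℕ => 4 / Real.log (m : ℝ) ^ 7) atTop (nhds 0) :=
    ((tendsto_pow_atTop (by norm_num)).comp tend_log).const_div_atTop _
  have h3 : Tendsto (fun m : ℕ => 3 / Real.log (m : ℝ) ^ 3) atTop (nhds 0) :=
    ((tendsto_pow_atTop (by norm_num)).comp tend_log).const_div_atTop _
  have h4 : Tendsto (fun m : ℕ => Real.log (m : ℝ) / (m : ℝ)) atTop (nhds 0) :=
    Real.isLittleO_log_id_atTop.tendsto_div_nhds_zero.comp tendsto_natCast_atTop_atTop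
  simpa using ((h1.add h2).add h3).add h4

end MAIN_

open MAIN_ in
theorem t_MAIN (h : S_MAINC) : S_MAIN := by
  intro ε hε0 hε1
  obtain ⟨m₁, hm₁⟩ := h (ε / 2) (by linarith) (by linarith)
  set ρ : ℝ := (1 - ε) / (1 - ε / 2) with hρ
  have hρ0 : 0 < ρ := div_pos (by linarith) (by linarith)
  have hρ1 : ρ < 1 := by
    rw [hρ, div_lt_one (by linarith)]
    linarith
  set c : ℝ := -Real.log ρ with hc
  have hc0 : 0 < c := by
    have := Real.log_neg hρ0 hρ1
    linarith
  obtain ⟨m₂, hm₂⟩ := eventually_atTop.1 ((tendsto_order.1 tend).2 (2 * c) (by linarith))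
  refine ⟨max m₁ (max m₂ 8), fun m hm u v huv => ?_⟩
  have hm1 : m₁ ≤ m := le_trans (le_max_left _ _) hm
  have hm2 : m₂ ≤ m := le_trans (le_trans (le_max_left _ _) (le_max_right _ _)) hm
  have hm8 : 8 ≤ m := le_trans (le_trans (le_max_right _ _) (le_max_right _ _)) hm
  have hm8r : (8 : ℝ) ≤ m := by exact_mod_cast hm8
  have hmpos : (0 : ℝ) < m := by linarith
  set L : ℝ := Real.log m with hL
  have hL2 : 2 ≤ L := by
    have h1 : Real.log 8 ≤ L := Real.log_le_log (by norm_num) hm8r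
    have h2 : Real.log 8 = 3 * Real.log 2 := by
      rw [show (8 : ℝ) = 2 ^ 3 by norm_num, Real.log_pow]
      norm_num
    have h3 := Real.log_two_gt_d9
    linarith
  have hL0 : 0 < L := by linarith
  have hlim := (hm₂ m hm2).le
  have hmain := hm₁ m hm1 u v huv
  set X : ℝ := (1 - ε / 2) * dd m / Real.exp 1 with hX
  have hlog2m : 1 ≤ Real.log (2 * m) := by
    have : L ≤ Real.log (2 * m) := Real.log_le_log hmpos (by linarith)
    linarith
  have hdd0 : 0 < dd m := by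
    unfold dd
    exact div_pos (by linarith) (by linarith)
  have he : 2 < Real.exp 1 := by
    have := Real.exp_one_gt_d9
    linarith
  have hX0 : 0 < X := by
    rw [hX]
    exact div_pos (mul_pos (by linarith) hdd0) (Real.exp_pos _)
  have hXm : X ≤ m := by
    rw [hX, div_le_iff₀ (Real.exp_pos _)]
    have h1 : dd m ≤ 2 * m := by
      unfold dd
      exact div_le_self (by linarith) hlog2m
    have h2 : (1 - ε / 2) * dd m ≤ 1 * (2 * m) :=
      mul_le_mul (by linarith) h1 hdd0.le (by norm_num)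
    nlinarith
  have hY : (1 - ε) * (2 * m) / (Real.exp 1 * Real.log (2 * m)) = ρ * X := by
    have h1 : (1 - ε / 2) ≠ 0 := by linarith
    have h3 : ρ * (1 - ε / 2) = 1 - ε := by rw [hρ, div_mul_cancel₀ _ h1]
    rw [hX, dd, ← h3]
    ring
  rw [hY]
  set r := rr m with hr
  set q := ⌊(m : ℝ) / L ^ 8⌋₊ with hq
  have hrle : (r : ℝ) ≤ m / L ^ 4 := Nat.floor_le (by positivity)
  have hqle : (q : ℝ) ≤ m / L ^ 8 := Nat.floor_le (by positivity)
  have hL4 : 16 ≤ L ^ 4 := by
    calc (16 : ℝ) = 2 ^ 4 := by norm_num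
      _ ≤ L ^ 4 := pow_le_pow_left₀ (by norm_num) hL2 4
  have hr16 : 16 * (r : ℝ) ≤ m := by
    have h1 : (m : ℝ) / L ^ 4 ≤ m / 16 := div_le_div_of_nonneg_left hmpos.le (by norm_num) hL4
    linarith
  have hr16' : 16 * r ≤ m := by exact_mod_cast hr16
  have hsub : 2 * m - 3 * r - 1 + (3 * r + 1) = 2 * m := by omega
  -- the factors
  have f1 : ((m : ℝ) + 1) ^ (2 * q) ≤ Real.exp (4 * m / L ^ 7) := by
    have h1 : Real.log ((m : ℝ) + 1) ≤ 2 * L := by
      have h2 : (m : ℝ) + 1 ≤ (m : ℝ) ^ 2 := by nlinarith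
      have h3 := Real.log_le_log (by linarith) h2
      rw [Real.log_pow] at h3
      exact_mod_cast h3
    have h2 : ((m : ℝ) + 1) ^ (2 * q) = Real.exp ((2 * q : ℕ) * Real.log ((m : ℝ) + 1)) := by
      rw [Real.exp_nat_mul, Real.exp_log (by linarith)]
    rw [h2]
    apply Real.exp_le_exp.2
    have h3 : ((2 * q : ℕ) : ℝ) * Real.log ((m : ℝ) + 1) ≤ (2 * (m / L ^ 8)) * (2 * L) := by
      push_cast
      apply mul_le_mul _ h1 _ (by positivity)
      · linarith
      · exact Real.log_nonneg (by linarith)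
    refine h3.trans (le_of_eq ?_)
    field_simp
    norm_num
  have f2 : X ^ (3 * r + 1) ≤ Real.exp (3 * m / L ^ 3 + L) := by
    have h1 : X ^ (3 * r + 1) ≤ (m : ℝ) ^ (3 * r + 1) := pow_le_pow_left₀ hX0.le hXm _
    have h2 : (m : ℝ) ^ (3 * r + 1) = Real.exp ((3 * r + 1 : ℕ) * L) := by
      rw [Real.exp_nat_mul, hL, Real.exp_log hmpos]
    refine h1.trans ?_
    rw [h2]
    apply Real.exp_le_exp.2
    push_cast
    have h3 : (r : ℝ) * L ≤ m / L ^ 4 * L := mul_le_mul_of_nonneg_right hrle hL0.le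
    have h4 : (m : ℝ) / L ^ 4 * L = m / L ^ 3 := by
      field_simp
    rw [h4] at h3
    have h5 : 3 * (m : ℝ) / L ^ 3 = 3 * (m / L ^ 3) := by ring
    rw [h5]
    linarith
  have f3 : ρ ^ (2 * m) = Real.exp (-(2 * m * c)) := by
    have h1 : -(2 * (m : ℝ) * c) = ((2 * m : ℕ) : ℝ) * Real.log ρ := by
      rw [hc]
      push_cast
      ring
    rw [h1, Real.exp_nat_mul, Real.exp_log hρ0]
  have hprod : 4 * ((m : ℝ) + 1) ^ (2 * q) * X ^ (3 * r + 1) * ρ ^ (2 * m) ≤ 1 := by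
    have h4 : (4 : ℝ) = Real.exp (Real.log 4) := (Real.exp_log (by norm_num)).symm
    calc 4 * ((m : ℝ) + 1) ^ (2 * q) * X ^ (3 * r + 1) * ρ ^ (2 * m)
        ≤ Real.exp (Real.log 4) * Real.exp (4 * m / L ^ 7) * Real.exp (3 * m / L ^ 3 + L) *
          Real.exp (-(2 * m * c)) := by
          rw [f3, ← h4]
          apply mul_le_mul_of_nonneg_right _ (Real.exp_pos _).le
          apply mul_le_mul _ f2 (by positivity) (by positivity)
          exact mul_le_mul_of_nonneg_left f1 (by norm_num)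
      _ = Real.exp (Real.log 4 + 4 * m / L ^ 7 + (3 * m / L ^ 3 + L) + -(2 * m * c)) := by
          rw [← Real.exp_add, ← Real.exp_add, ← Real.exp_add]
      _ ≤ Real.exp 0 := by
          apply Real.exp_le_exp.2
          have h5 := mul_le_mul_of_nonneg_left hlim hmpos.le
          have h6 : (m : ℝ) * (Real.log 4 / (m : ℝ) + 4 / L ^ 7 + 3 / L ^ 3 + L / m) =
              Real.log 4 + 4 * m / L ^ 7 + (3 * m / L ^ 3 + L) := by
            rw [mul_add, mul_add, mul_add, mul_div_cancel₀ _ hmpos.ne', mul_div_cancel₀ _ hmpos.ne']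
            ring
          rw [h6] at h5
          linarith
      _ = 1 := Real.exp_zero
  -- conclusion
  have hcard0 : (0 : ℝ) ≤ ((HP m u v).ncard : ℝ) := Nat.cast_nonneg _
  have hpow : X ^ (2 * m) = X ^ (2 * m - 3 * r - 1) * X ^ (3 * r + 1) := by
    rw [← pow_add, hsub]
  have hq0 : (0 : ℝ) < ((m : ℝ) + 1) ^ (2 * q) := by positivity
  have hXr : (0 : ℝ) < X ^ (3 * r + 1) := by positivity
  have hρm : (0 : ℝ) < ρ ^ (2 * m) := by positivity
  rw [mul_pow, hpow]
  calc ρ ^ (2 * m) * (X ^ (2 * m - 3 * r - 1) * X ^ (3 * r + 1))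
      = 4 * (ρ ^ (2 * m) * X ^ (3 * r + 1)) * (1 / 4 * X ^ (2 * m - 3 * r - 1)) := by ring
    _ ≤ 4 * (ρ ^ (2 * m) * X ^ (3 * r + 1)) *
        (((HP m u v).ncard : ℝ) * ((m : ℝ) + 1) ^ (2 * q)) :=
        mul_le_mul_of_nonneg_left hmain (by positivity)
    _ = (4 * ((m : ℝ) + 1) ^ (2 * q) * X ^ (3 * r + 1) * ρ ^ (2 * m)) * ((HP m u v).ncard : ℝ) := by
        ring
    _ ≤ 1 * ((HP m u v).ncard : ℝ) := mul_le_mul_of_nonneg_right hprod hcard0
    _ = ((HP m u v).ncard : ℝ) := one_mul _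

end Pool.Agent.N785.PC
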