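import Pool.Agent.N785.PC.Stmts2
import Pool.Agent.H373R2.T7.BilLam

/-!
# Project PC: replacing the von Mangoldt function by the sieve model (by helper674)
-/

set_option autoImplicit false

namespace Pool.Agent.N785.PC

open Finset
open Pool.Agent.H373R2.T7 (lamz lamI lamzI)

namespace NTa_

/-- the weights on an arithmetic progression -/
noncomputable def gg (H s₀ : ℕ) (a : ℕ → ℝ) (n : ℕ) : ℂ :=
  if s₀ ≤ n ∧ (n - s₀) % 2 = 0 ∧ (n - s₀) / 2 < H then ((a ((n - s₀) / 2) : ℝ) : ℂ) else 0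

theorem norm_gg (H s₀ : ℕ) (a : ℕ → ℝ) (ha : ∀ i, |a i| ≤ 1) (n : ℕ) : ‖gg H s₀ a n‖ ≤ 1 := by
  unfold gg
  split_ifs
  · rw [Complex.norm_real, Real.norm_eq_abs]
    exact ha _
  · rw [norm_zero]
    exact zero_le_one

theorem gg_val (H s₀ : ℕ) (a : ℕ → ℝ) {i : ℕ} (hi : i < H) : gg H s₀ a (s₀ + 2 * i) = (a i : ℂ) := by
  unfold gg
  have h1 : s₀ + 2 * i - s₀ = 2 * i := by omega
  have h2 : 2 * i / 2 = i := by omega
  rw [h1, h2, if_pos ⟨by omega, by omega, hi⟩]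

theorem sum_gg (H s₀ A : ℕ) (a : ℕ → ℝ) (h1 : 1 ≤ s₀) (h2 : s₀ + 2 * H ≤ A) (F : ℕ → ℂ) :
    ∑ n ∈ Icc 1 A, gg H s₀ a n * F n = ∑ i ∈ range H, (a i : ℂ) * F (s₀ + 2 * i) := by
  have h3 : ∑ n ∈ (range H).image (fun i => s₀ + 2 * i), gg H s₀ a n * F n =
      ∑ i ∈ range H, gg H s₀ a (s₀ + 2 * i) * F (s₀ + 2 * i) := by
    apply sum_image
    intro i _ j _ hij
    simp only at hij
    omega
  have h4 : ∑ n ∈ (range H).image (fun i => s₀ + 2 * i), gg H s₀ a n * F n =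
      ∑ n ∈ Icc 1 A, gg H s₀ a n * F n := by
    apply sum_subset
    · intro n hn
      rw [mem_image] at hn
      obtain ⟨i, hi, rfl⟩ := hn
      rw [mem_range] at hi
      rw [mem_Icc]
      omega
    · intro n _ hn
      have h5 : gg H s₀ a n = 0 := by
        unfold gg
        rw [if_neg]
        rintro ⟨h6, h7, h8⟩
        apply hn
        rw [mem_image]
        exact ⟨(n - s₀) / 2, mem_range.2 h8, by omega⟩
      rw [h5, zero_mul]
  rw [← h4, h3]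
  refine sum_congr rfl fun i hi => ?_
  rw [gg_val H s₀ a (mem_range.1 hi)]

theorem lam_val (z s t : ℕ) (hs : 1 ≤ s) :
    lamI ((s : ℤ) + 1 * (Polynomial.X : Polynomial ℤ).eval (t : ℤ)) -
      lamzI z ((s : ℤ) + 1 * (Polynomial.X : Polynomial ℤ).eval (t : ℤ)) =
    ArithmeticFunction.vonMangoldt (s + t) - lamz z (s + t) := by
  have h1 : ((s : ℤ) + 1 * (Polynomial.X : Polynomial ℤ).eval (t : ℤ)) = ((s + t : ℕ) : ℤ) := by
    rw [Polynomial.eval_X, one_mul]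
    push_cast
    rfl
  have h2 : (1 : ℤ) ≤ ((s + t : ℕ) : ℤ) := by
    push_cast
    omega
  rw [h1]
  unfold lamI lamzI
  rw [if_pos h2, if_pos h2, Int.toNat_natCast]

end NTa_

open NTa_ in
theorem t_NTa : S_NTa := by
  intro U
  obtain ⟨B0, hB0⟩ := Pool.Agent.H373R2.T7.bil_lam Polynomial.X
    (by rw [Polynomial.natDegree_X]) (by rw [Polynomial.leadingCoeff_X]; norm_num) 5 (by norm_num)
    (U + 1)
  refine ⟨B0, fun E => ?_⟩
  obtain ⟨N0, hN0⟩ := hB0 E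
  refine ⟨max N0 ⌈Real.exp 5⌉₊, fun N hN z hz1 hz2 H s₀ t₀ hs ht hsH htH a b ha hb => ?_⟩
  have hN1 : N0 ≤ N := (le_max_left _ _).trans hN
  have hN2 : Real.exp 5 ≤ N := (Nat.ceil_le.1 ((le_max_right _ _).trans hN))
  have hNp : (0 : ℝ) < N := (Real.exp_pos 5).trans_le hN2
  have hlog : 5 ≤ Real.log N := by
    rw [Real.le_log_iff_exp_le hNp]
    exact hN2
  have hlp : 0 < Real.log N := by linarith
  have key := hN0 N hN1 (5 * N)
    (by rw [Polynomial.natDegree_X, pow_one]; omega) (by rw [Polynomial.natDegree_X, pow_one])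
    (5 * N) le_rfl z hz1 hz2 1 (Or.inl rfl) (gg H s₀ a) (gg H t₀ b) (norm_gg H s₀ a ha)
    (norm_gg H t₀ b hb)
  have e1 : ∑ n ∈ Icc 1 (5 * N), ∑ m ∈ Icc 1 (5 * N), gg H s₀ a n * gg H t₀ b m *
      ((lamI (n + 1 * (Polynomial.X : Polynomial ℤ).eval (m : ℤ)) -
        lamzI z (n + 1 * (Polynomial.X : Polynomial ℤ).eval (m : ℤ)) : ℝ) : ℂ) =
      ((∑ i ∈ range H, ∑ j ∈ range H, a i * b j *
        (ArithmeticFunction.vonMangoldt (s₀ + 2 * i + (t₀ + 2 * j)) -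
        lamz z (s₀ + 2 * i + (t₀ + 2 * j))) : ℝ) : ℂ) := by
    have e2 : ∀ n, ∑ m ∈ Icc 1 (5 * N), gg H s₀ a n * gg H t₀ b m *
        ((lamI (n + 1 * (Polynomial.X : Polynomial ℤ).eval (m : ℤ)) -
          lamzI z (n + 1 * (Polynomial.X : Polynomial ℤ).eval (m : ℤ)) : ℝ) : ℂ) =
        gg H s₀ a n * ∑ j ∈ range H, (b j : ℂ) *
          ((lamI (n + 1 * (Polynomial.X : Polynomial ℤ).eval ((t₀ + 2 * j : ℕ) : ℤ)) -
          lamzI z (n + 1 * (Polynomial.X : Polynomial ℤ).eval ((t₀ + 2 * j : ℕ) : ℤ)) : ℝ) : ℂ) := by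
      intro n
      rw [← sum_gg H t₀ (5 * N) b ht htH (fun m =>
        ((lamI (n + 1 * (Polynomial.X : Polynomial ℤ).eval (m : ℤ)) -
          lamzI z (n + 1 * (Polynomial.X : Polynomial ℤ).eval (m : ℤ)) : ℝ) : ℂ)), mul_sum]
      refine sum_congr rfl fun m _ => ?_
      rw [mul_assoc]
    rw [sum_congr rfl (fun n _ => e2 n), sum_gg H s₀ (5 * N) a hs hsH (fun n =>
      ∑ j ∈ range H, (b j : ℂ) *
          ((lamI (n + 1 * (Polynomial.X : Polynomial ℤ).eval ((t₀ + 2 * j : ℕ) : ℤ)) -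
          lamzI z (n + 1 * (Polynomial.X : Polynomial ℤ).eval ((t₀ + 2 * j : ℕ) : ℤ)) : ℝ) : ℂ))]
    rw [Complex.ofReal_sum]
    refine sum_congr rfl fun i _ => ?_
    rw [Complex.ofReal_sum, mul_sum]
    refine sum_congr rfl fun j _ => ?_
    rw [lam_val z (s₀ + 2 * i) (t₀ + 2 * j) (by omega), Complex.ofReal_mul, Complex.ofReal_mul,
      mul_assoc]
  rw [e1, Complex.norm_real, Real.norm_eq_abs] at key
  refine key.trans ?_
  rw [pow_succ (Real.log N) U, div_le_div_iff₀ (by positivity) (by positivity)]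
  have hpU : 0 < Real.log N ^ U := by positivity
  push_cast
  have h1 : (N : ℝ) * (5 * N) * Real.log N ^ U = 5 * ((N : ℝ) ^ 2 * Real.log N ^ U) := by ring
  have h2 : (N : ℝ) ^ 2 * (Real.log N ^ U * Real.log N) =
      Real.log N * ((N : ℝ) ^ 2 * Real.log N ^ U) := by ring
  rw [h1, h2]
  exact mul_le_mul_of_nonneg_right hlog (by positivity)

end Pool.Agent.N785.PC
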