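import Pool.Agent.N785.PC.Stmts
import Pool.Agent.Y372.PC.Breg
import Pool.Agent.Y372.PC.Asym

/-!
# Project PC: the upper bound for the number of rows of the prime pyramid (helper195)

The proof follows the starting file for prime circles.
-/

set_option autoImplicit false

open Finset Filter Topology
open Pool.Agent.Y372.PC

namespace Pool.Agent.N785.PC.PYRU_

/-- the positions allowed for the successor of `x + 1` in the graph -/
def S (n : ℕ) (x : Fin n) : Finset (Fin n) :=
  univ.filter fun y => ((x : ℕ) + 1 + ((y : ℕ) + 1)).Prime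

/-- the positions allowed for the successor, with the closing edge -/
def S' (k : ℕ) (x : Fin (k + 1)) : Finset (Fin (k + 1)) := insert 0 (S (k + 1) x)

theorem length_eq {n u v : ℕ} {l : List ℕ} (hl : l ∈ HPn n u v) : l.length = n := by
  obtain ⟨h1, h2, -⟩ := hl
  have h3 : l.toFinset = Icc 1 n := by
    ext x
    rw [List.mem_toFinset, mem_Icc]
    exact h2 x
  rw [← List.toFinset_card_of_nodup h1, h3, Nat.card_Icc]
  omega

theorem exists_perm {k : ℕ} {l : List ℕ} (hl : l ∈ HPn (k + 1) 1 (k + 1)) :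
    ∃ (c L : Equiv.Perm (Fin (k + 1))), c ∈ adm (S' k) ∧
      (∀ (i : Fin (k + 1)) (h : (i : ℕ) < l.length), ((L i : Fin (k + 1)) : ℕ) + 1 = l[(i : ℕ)]) ∧
      L 0 = 0 ∧ ∀ i, c (L i) = L (i + 1) := by
  have hlen := length_eq hl
  obtain ⟨h1, h2, h3, -, h5⟩ := hl
  have hi : ∀ i : Fin (k + 1), (i : ℕ) < l.length := fun i => by rw [hlen]; exact i.2
  have hb : ∀ i : Fin (k + 1), 1 ≤ l[(i : ℕ)]'(hi i) ∧ l[(i : ℕ)]'(hi i) ≤ k + 1 := fun i =>
    (h2 _).1 (List.getElem_mem _)
  let L0 : Fin (k + 1) → Fin (k + 1) := fun i =>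
    ⟨l[(i : ℕ)]'(hi i) - 1, by have := hb i; omega⟩
  have hL0 : Function.Injective L0 := by
    intro i j hij
    have h6 : l[(i : ℕ)]'(hi i) - 1 = l[(j : ℕ)]'(hi j) - 1 := congrArg Fin.val hij
    have h7 : l[(i : ℕ)]'(hi i) = l[(j : ℕ)]'(hi j) := by
      have := hb i
      have := hb j
      omega
    exact Fin.ext ((List.Nodup.getElem_inj_iff h1).1 h7)
  let L : Equiv.Perm (Fin (k + 1)) := Equiv.ofBijective L0 (Finite.injective_iff_bijective.1 hL0)
  have hL : ∀ i : Fin (k + 1), ((L i : Fin (k + 1)) : ℕ) + 1 = l[(i : ℕ)]'(hi i) := by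
    intro i
    show l[(i : ℕ)]'(hi i) - 1 + 1 = _
    have := hb i
    omega
  let c : Equiv.Perm (Fin (k + 1)) := (L.symm.trans (Equiv.addRight 1)).trans L
  have hc : ∀ i, c (L i) = L (i + 1) := by
    intro i
    show L (L.symm (L i) + 1) = L (i + 1)
    rw [Equiv.symm_apply_apply]
  have hL00 : L 0 = 0 := by
    rw [List.head?_eq_getElem?] at h3
    have h6 : l[0]? = some (l[0]'(by omega)) := List.getElem?_eq_getElem _
    rw [h6] at h3
    have h7 : l[0]'(by omega) = 1 := Option.some.inj h3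
    have h8 := hL 0
    apply Fin.ext
    have h9 : l[((0 : Fin (k + 1)) : ℕ)]'(hi 0) = l[0]'(by omega) := rfl
    rw [h9, h7] at h8
    show ((L 0 : Fin (k + 1)) : ℕ) = 0
    omega
  refine ⟨c, L, ?_, fun i _ => hL i, hL00, hc⟩
  simp only [adm, mem_filter, mem_univ, true_and]
  intro x
  obtain ⟨i, rfl⟩ := L.surjective x
  rw [hc]
  unfold S'
  rw [mem_insert]
  by_cases hlast : i = Fin.last k
  · left
    rw [hlast, Fin.last_add_one, hL00]
  · right
    rw [S, mem_filter]
    refine ⟨mem_univ _, ?_⟩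
    rw [hL, hL]
    have h6 : ((i + 1 : Fin (k + 1)) : ℕ) = i + 1 := by
      rw [Fin.val_add_one, if_neg hlast]
    have h7 : (i : ℕ) + 1 < l.length := by
      rw [← h6]
      exact hi (i + 1)
    have h8 : l[((i + 1 : Fin (k + 1)) : ℕ)]'(hi (i + 1)) = l[(i : ℕ) + 1]'h7 := by
      congr 1
    rw [h8]
    exact List.isChain_iff_getElem.1 h5 i h7

theorem R_le (k : ℕ) : R (k + 1) ≤ (adm (S' k)).card := by
  classical
  have key : ∀ l : List ℕ, ∃ c : Equiv.Perm (Fin (k + 1)), l ∈ HPn (k + 1) 1 (k + 1) →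
      ∃ L : Equiv.Perm (Fin (k + 1)), c ∈ adm (S' k) ∧
      (∀ (i : Fin (k + 1)) (h : (i : ℕ) < l.length), ((L i : Fin (k + 1)) : ℕ) + 1 = l[(i : ℕ)]) ∧
      L 0 = 0 ∧ ∀ i, c (L i) = L (i + 1) := by
    intro l
    by_cases hl : l ∈ HPn (k + 1) 1 (k + 1)
    · obtain ⟨c, L, h⟩ := exists_perm hl
      exact ⟨c, fun _ => ⟨L, h⟩⟩
    · exact ⟨1, fun h => absurd h hl⟩
  choose c hc using key
  unfold R
  rw [← Set.ncard_coe_finset]
  refine Set.ncard_le_ncard_of_injOn c ?_ ?_ (Finset.finite_toSet _)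
  · intro l hl
    obtain ⟨L, h, -⟩ := hc l hl
    exact_mod_cast h
  · intro l hl l' hl' hcc
    obtain ⟨L, -, h1, h2, h3⟩ := hc l hl
    obtain ⟨L', -, h1', h2', h3'⟩ := hc l' hl'
    have hlen := length_eq hl
    have hlen' := length_eq hl'
    have hLL : ∀ (j : ℕ) (hj : j < k + 1), L ⟨j, hj⟩ = L' ⟨j, hj⟩ := by
      intro j
      induction j with
      | zero =>
        intro hj
        exact h2.trans h2'.symm
      | succ j ih =>
        intro hj
        have h4 : (⟨j + 1, hj⟩ : Fin (k + 1)) = ⟨j, by omega⟩ + 1 := by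
          apply Fin.ext
          rw [Fin.val_add_one, if_neg]
          intro h5
          have := congrArg Fin.val h5
          simp at this
          omega
        rw [h4, ← h3, ← h3', ih, hcc]
    refine List.ext_getElem (hlen.trans hlen'.symm) ?_
    intro i hi hi'
    have e1 := h1 ⟨i, by omega⟩ hi
    have e2 := h1' ⟨i, by omega⟩ hi'
    have e3 := congrArg Fin.val (hLL i (by omega))
    have e1' : ((L ⟨i, by omega⟩ : Fin (k + 1)) : ℕ) + 1 = l[i] := e1
    have e2' : ((L' ⟨i, by omega⟩ : Fin (k + 1)) : ℕ) + 1 = l'[i] := e2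
    rw [← e1', ← e2', e3]

theorem card_S (n : ℕ) (x : Fin n) :
    (S n x).card + Nat.primeCounting ((x : ℕ) + 1) ≤ Nat.primeCounting (n + ((x : ℕ) + 1)) := by
  have hpc : ∀ k, Nat.primeCounting k = ((Finset.range (k + 1)).filter Nat.Prime).card := by
    intro k
    rw [Nat.primeCounting, Nat.primeCounting', Nat.count_eq_card_filter_range]
  have hinj : Function.Injective fun y : Fin n => (x : ℕ) + 1 + ((y : ℕ) + 1) := by
    intro y z h
    refine Fin.ext ?_
    simp only at h
    omega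
  rw [hpc, hpc, ← Finset.card_image_of_injective (S n x) hinj, ← Finset.card_union_of_disjoint]
  · refine Finset.card_le_card ?_
    intro p hp
    rw [mem_union, mem_image, mem_filter, mem_range] at hp
    rw [mem_filter, mem_range]
    rcases hp with ⟨y, hy, rfl⟩ | ⟨h1, h2⟩
    · rw [S, mem_filter] at hy
      exact ⟨by have := y.2; omega, hy.2⟩
    · exact ⟨by omega, h2⟩
  · rw [Finset.disjoint_left]
    intro p hp hq
    rw [mem_image] at hp
    rw [mem_filter, mem_range] at hq
    obtain ⟨y, hy, rfl⟩ := hp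
    omega

theorem card_S' (k : ℕ) (x : Fin (k + 1)) : (S' k x).card ≤ (S (k + 1) x).card + 1 :=
  Finset.card_insert_le _ _

theorem tendsto_log_div : Tendsto (fun x : ℝ => Real.log x / x) atTop (𝓝 0) := by
  have := Real.isLittleO_log_id_atTop.tendsto_div_nhds_zero
  simpa using this

theorem tendsto_div_log : Tendsto (fun x : ℝ => x / Real.log x) atTop atTop := by
  have h2 : Tendsto (fun x : ℝ => Real.log x / x) atTop (𝓝[>] 0) := by
    rw [tendsto_nhdsWithin_iff]
    refine ⟨tendsto_log_div, ?_⟩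
    filter_upwards [eventually_gt_atTop 1] with x hx
    exact div_pos (Real.log_pos hx) (by linarith)
  have h3 := h2.inv_tendsto_nhdsGT_zero
  refine h3.congr fun x => ?_
  simp [inv_div]

theorem tendsto_err : Tendsto (fun d : ℕ => (1 + Real.log d) / d) atTop (𝓝 0) := by
  have h1 : Tendsto (fun x : ℝ => (1 + Real.log x) / x) atTop (𝓝 0) := by
    have := tendsto_inv_atTop_zero.add tendsto_log_div
    rw [add_zero] at this
    refine this.congr fun x => ?_
    rw [add_div, one_div]
  exact h1.comp tendsto_natCast_atTop_atTop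

end Pool.Agent.N785.PC.PYRU_

namespace Pool.Agent.N785.PC

open PYRU_

/-- **the upper bound for the prime pyramid** -/
theorem t_PYRU : S_PYRU := by
  intro ε hε
  set η : ℝ := min 1 (ε / 7) with hη
  have hη0 : 0 < η := by positivity
  have hη1 : η ≤ 1 := min_le_left _ _
  have hη2 : 7 * η ≤ ε := by
    have := min_le_right (1 : ℝ) (ε / 7)
    rw [← hη] at this
    linarith
  have hη3 : (1 + η) * ((1 + η) * (1 + η)) ≤ 1 + ε := by nlinarith [mul_pos hη0 hη0]
  obtain ⟨x₀, hx₀⟩ := window_up η hη0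
  set D : ℕ → ℕ := fun n => ⌊(1 + η) * ((n : ℝ) / Real.log n)⌋₊ + 1 with hD
  have hDt : Tendsto D atTop atTop :=
    tendsto_atTop_mono (fun n => Nat.le_succ _) (tendsto_nat_floor_atTop.comp
      ((tendsto_div_log.comp tendsto_natCast_atTop_atTop).const_mul_atTop
        (show (0 : ℝ) < 1 + η by linarith)))
  have hl : 0 < Real.log (1 + η) := Real.log_pos (by linarith)
  have h1 : ∀ᶠ n : ℕ in atTop, (1 + Real.log (D n)) / (D n) ≤ Real.log (1 + η) :=
    ((tendsto_err.comp hDt).eventually (Iic_mem_nhds hl))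
  have h2 : ∀ᶠ n : ℕ in atTop, 1 / η ≤ (n : ℝ) / Real.log n :=
    (tendsto_div_log.comp tendsto_natCast_atTop_atTop).eventually_ge_atTop (1 / η)
  obtain ⟨n₁, hn₁⟩ := eventually_atTop.1 (h1.and (h2.and (eventually_ge_atTop (max 3 x₀))))
  refine ⟨n₁, fun n hn => ?_⟩
  obtain ⟨g1, g2, g3⟩ := hn₁ n hn
  have hn3 : 3 ≤ n := (le_max_left _ _).trans g3
  have hnx : x₀ ≤ n := (le_max_right _ _).trans g3
  have hn3' : (3 : ℝ) ≤ n := by exact_mod_cast hn3
  have hn0 : (0 : ℝ) < n := by linarith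
  have hlog : 0 < Real.log n := Real.log_pos (by linarith)
  have hB0 : 0 < (1 + η) * ((n : ℝ) / Real.log n) := by positivity
  -- every row has at most `D n` admissible entries
  have hR : (R n : ℝ) ≤ Real.exp (n * gf (D n)) := by
    obtain ⟨k, rfl⟩ : ∃ k, n = k + 1 := ⟨n - 1, by omega⟩
    have hcard : ∀ x : Fin (k + 1), (S' k x).card ≤ D (k + 1) := by
      intro x
      refine (card_S' k x).trans ?_
      rw [hD]
      refine Nat.add_le_add_right ?_ 1
      refine Nat.le_floor ?_
      have k1 := card_S (k + 1) x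
      have k2 := hx₀ (k + 1) hnx ((x : ℕ) + 1) (by have := x.2; omega)
      have k3 : ((S (k + 1) x).card : ℝ) + Nat.primeCounting ((x : ℕ) + 1) ≤
          Nat.primeCounting (k + 1 + ((x : ℕ) + 1)) := by exact_mod_cast k1
      linarith
    have hsum : ∑ x : Fin (k + 1), Real.log ((S' k x).card.factorial : ℝ) / (S' k x).card ≤
        (k + 1 : ℕ) * gf (D (k + 1)) := by
      calc ∑ x : Fin (k + 1), Real.log ((S' k x).card.factorial : ℝ) / (S' k x).card
          ≤ ∑ _x : Fin (k + 1), gf (D (k + 1)) := Finset.sum_le_sum fun x _ => gf_mono (hcard x)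
        _ = (k + 1 : ℕ) * gf (D (k + 1)) := by
          rw [Finset.sum_const, Finset.card_univ, Fintype.card_fin, nsmul_eq_mul]
    calc (R (k + 1) : ℝ) ≤ ((adm (S' k)).card : ℝ) := by exact_mod_cast R_le k
      _ ≤ Real.exp (∑ x : Fin (k + 1), Real.log ((S' k x).card.factorial : ℝ) / (S' k x).card) :=
          bregman (S' k)
      _ ≤ _ := Real.exp_le_exp.2 hsum
  have g2' : 1 ≤ D n := Nat.le_add_left _ _
  have hD1 : (1 : ℝ) ≤ D n := by exact_mod_cast g2'
  have hDle : (D n : ℝ) ≤ (1 + η) * ((1 + η) * ((n : ℝ) / Real.log n)) := by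
    have k1 : (⌊(1 + η) * ((n : ℝ) / Real.log n)⌋₊ : ℝ) ≤ (1 + η) * ((n : ℝ) / Real.log n) :=
      Nat.floor_le hB0.le
    have k2 : (D n : ℝ) = (⌊(1 + η) * ((n : ℝ) / Real.log n)⌋₊ : ℝ) + 1 := by
      rw [hD]
      push_cast
      rfl
    have k3 : 1 ≤ η * ((n : ℝ) / Real.log n) := by
      rw [div_le_iff₀ hη0] at g2
      linarith
    rw [k2]
    nlinarith
  have hgf : gf (D n) ≤
      Real.log ((1 + η) * ((1 + η) * ((1 + η) * ((n : ℝ) / Real.log n))) / Real.exp 1) := by
    have k1 := gf_up (D n) g2'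
    have k2 : Real.log (D n) ≤ Real.log ((1 + η) * ((1 + η) * ((n : ℝ) / Real.log n))) :=
      Real.log_le_log (by linarith) hDle
    rw [Real.log_div (by positivity) (Real.exp_pos 1).ne', Real.log_exp,
      Real.log_mul (by positivity) (by positivity)]
    linarith
  have hX : 0 < (1 + η) * ((1 + η) * ((1 + η) * ((n : ℝ) / Real.log n))) / Real.exp 1 := by
    positivity
  calc (R n : ℝ) ≤ Real.exp (n * gf (D n)) := hR
    _ ≤ Real.exp (n * Real.log ((1 + η) * ((1 + η) * ((1 + η) * ((n : ℝ) / Real.log n))) /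
          Real.exp 1)) := by
        refine Real.exp_le_exp.2 ?_
        exact mul_le_mul_of_nonneg_left hgf hn0.le
    _ = ((1 + η) * ((1 + η) * ((1 + η) * ((n : ℝ) / Real.log n))) / Real.exp 1) ^ n := by
        rw [← Real.log_pow, Real.exp_log (by positivity)]
    _ ≤ ((1 + ε) * n / (Real.exp 1 * Real.log n)) ^ n := by
        refine pow_le_pow_left₀ hX.le ?_ n
        rw [show (1 + η) * ((1 + η) * ((1 + η) * ((n : ℝ) / Real.log n))) / Real.exp 1 =
          ((1 + η) * ((1 + η) * (1 + η))) * (n / (Real.exp 1 * Real.log n)) by field_simp,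
          mul_div_assoc]
        exact mul_le_mul_of_nonneg_right hη3 (by positivity)

end Pool.Agent.N785.PC
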