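import Pool.Agent.N785.PC.Stmts3
import Pool.Agent.N785.PC.PYRU

/-!
# Project PC2: the upper bound for the number of rows of the prime pyramid, with a rate (helper897)

The proof follows `PYRU.lean` (helper195).
-/

set_option autoImplicit false

open Finset Filter Topology
open Pool.Agent.Y372.PC

namespace Pool.Agent.N785.PC.PYRU2_

open Pool.Agent.N785.PC.PYRU_

open Classical in
theorem card_odd (n m : ℕ) (hm : n ≤ 2 * m) (x : Fin n) (hx : ((x : ℕ) + 1) % 2 = 1) :
    (S n x).card ≤ ((Ev m).filter fun y => ((x : ℕ) + 1 + y).Prime).card + 1 := by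
  have hinj : Function.Injective fun y : Fin n => (y : ℕ) + 1 := by
    intro y z h
    refine Fin.ext ?_
    simp only at h
    omega
  rw [← Finset.card_image_of_injective (S n x) hinj]
  refine (Finset.card_le_card ?_).trans (Finset.card_insert_le 1 _)
  intro p hp
  rw [mem_image] at hp
  obtain ⟨y, hy, rfl⟩ := hp
  rw [S, mem_filter] at hy
  have hy2 := y.2
  rw [mem_insert, mem_filter, Ev, mem_filter, mem_Icc]
  rcases hy.2.eq_two_or_odd with h2 | h2
  · left
    omega
  · right
    exact ⟨⟨⟨by omega, by omega⟩, by omega⟩, hy.2⟩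

open Classical in
theorem card_even (n m : ℕ) (hm : n ≤ 2 * m) (x : Fin n) (hx : ((x : ℕ) + 1) % 2 = 0) :
    (S n x).card ≤ ((Od m).filter fun y => (y + ((x : ℕ) + 1)).Prime).card := by
  have hinj : Function.Injective fun y : Fin n => (y : ℕ) + 1 := by
    intro y z h
    refine Fin.ext ?_
    simp only at h
    omega
  rw [← Finset.card_image_of_injective (S n x) hinj]
  refine Finset.card_le_card ?_
  intro p hp
  rw [mem_image] at hp
  obtain ⟨y, hy, rfl⟩ := hp
  rw [S, mem_filter] at hy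
  have hy2 := y.2
  rw [mem_filter, Od, mem_filter, mem_Icc]
  have h3 : ((y : ℕ) + 1 + ((x : ℕ) + 1)).Prime := by
    rw [add_comm]
    exact hy.2
  rcases hy.2.eq_two_or_odd with h2 | h2
  · omega
  · exact ⟨⟨⟨by omega, by omega⟩, by omega⟩, h3⟩

end Pool.Agent.N785.PC.PYRU2_

namespace Pool.Agent.N785.PC

open PYRU_ PYRU2_

/-- **the upper bound for the prime pyramid, with a rate** -/
theorem t_PYRU2 (h : S_DEG2) : S_PYRU2 := by
  classical
  obtain ⟨C, hC, m₀, hm₀⟩ := h
  obtain ⟨C1, hC1⟩ : ∃ C1 : ℝ, C1 = 4 * C + 9 := ⟨_, rfl⟩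
  have hC10 : 0 < C1 := by rw [hC1]; positivity
  refine ⟨13 * C1 + 24, by positivity, 2 * m₀ + 4, fun n hn => ?_⟩
  have hn4 : (4 : ℝ) ≤ n := by
    have : 4 ≤ n := by omega
    exact_mod_cast this
  have hn0 : (0 : ℝ) < n := by linarith
  obtain ⟨L, hL⟩ : ∃ L : ℝ, L = Real.log n := ⟨_, rfl⟩
  have hL1 : 1 ≤ L := by
    rw [hL, Real.le_log_iff_exp_le hn0]
    have := Real.exp_one_lt_d9
    linarith
  have hL0 : 0 < L := by linarith
  have hexp : Real.exp L = n := by rw [hL, Real.exp_log hn0]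
  have hL2 : L ^ 2 ≤ 2 * n := by
    have := Real.pow_div_factorial_le_exp L hL0.le 2
    rw [hexp] at this
    norm_num [Nat.factorial] at this
    linarith
  have hL3 : L ^ 3 ≤ 6 * n := by
    have := Real.pow_div_factorial_le_exp L hL0.le 3
    rw [hexp] at this
    norm_num [Nat.factorial] at this
    linarith
  have hLn : 2 * L ≤ n := by
    have h1 : Real.log ((n : ℝ) / 2) ≤ (n : ℝ) / 2 - 1 := Real.log_le_sub_one_of_pos (by positivity)
    rw [Real.log_div (by positivity) (by norm_num)] at h1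
    have h2 := Real.log_two_lt_d9
    linarith
  have hLn' : L ≤ n := by linarith
  -- the degrees
  obtain ⟨m, hm⟩ : ∃ m : ℕ, m = (n + 1) / 2 := ⟨_, rfl⟩
  have hm1 : n ≤ 2 * m := by omega
  have hm2 : 2 * m ≤ n + 1 := by omega
  have hmm : m₀ ≤ m := by omega
  obtain ⟨d1, d2⟩ := hm₀ m hmm
  have hm1' : (n : ℝ) ≤ 2 * m := by exact_mod_cast hm1
  have hm2' : (2 * m : ℝ) ≤ n + 1 := by exact_mod_cast hm2
  have hlm : L / 2 ≤ Real.log m := by
    have h1 : (n : ℝ) ≤ (m : ℝ) ^ 2 := by nlinarith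
    have h2 : Real.log n ≤ Real.log ((m : ℝ) ^ 2) := Real.log_le_log hn0 h1
    rw [Real.log_pow, ← hL] at h2
    push_cast at h2
    linarith
  have hdd : dd m ≤ (n + 1) / L := by
    unfold dd
    have h1 : L ≤ Real.log (2 * m) := by
      rw [hL]
      exact Real.log_le_log hn0 hm1'
    calc 2 * (m : ℝ) / Real.log (2 * m) ≤ 2 * (m : ℝ) / L :=
          div_le_div_of_nonneg_left (by positivity) hL0 h1
      _ ≤ (n + 1) / L := div_le_div_of_nonneg_right hm2' hL0.le
  have hdd0 : 0 ≤ dd m := by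
    unfold dd
    have h1 : 0 ≤ Real.log (2 * m) := Real.log_nonneg (by linarith)
    positivity
  have hdeg : (1 + C / Real.log m) * dd m ≤ (1 + 2 * C / L) * ((n + 1) / L) := by
    have h1 : C / Real.log m ≤ 2 * C / L := by
      rw [div_le_div_iff₀ (by linarith) hL0]
      nlinarith
    exact mul_le_mul (by linarith) hdd hdd0 (by positivity)
  obtain ⟨X, hX⟩ : ∃ X : ℝ, X = (1 + C1 / L) * (n / L) := ⟨_, rfl⟩
  have hnL : (2 : ℝ) ≤ n / L := by
    rw [le_div_iff₀ hL0]
    exact hLn
  have hXn : (n : ℝ) / L ≤ X := by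
    rw [hX]
    have h1 : 0 ≤ C1 / L * (n / L) := by positivity
    linarith
  have hdX : (1 + 2 * C / L) * (((n : ℝ) + 1) / L) + 2 ≤ X := by
    rw [hX, hC1]
    have e1 : (1 + 2 * C / L) * (((n : ℝ) + 1) / L) + 2 =
        (L * n + L + 2 * C * n + 2 * C + 2 * L ^ 2) / L ^ 2 := by
      field_simp
      ring
    have e2 : (1 + (4 * C + 9) / L) * ((n : ℝ) / L) = (L * n + (4 * C + 9) * n) / L ^ 2 := by
      field_simp
    rw [e1, e2]
    apply div_le_div_of_nonneg_right _ (by positivity)
    nlinarith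
  have hcard : ∀ x : Fin n, ((S n x).card : ℝ) + 1 ≤ X := by
    intro x
    refine le_trans ?_ hdX
    rcases Nat.mod_two_eq_zero_or_one ((x : ℕ) + 1) with hx | hx
    · have h1 := card_even n m hm1 x hx
      have h2 := d2 ((x : ℕ) + 1) (by
        rw [Ev, mem_filter, mem_Icc]
        have := x.2
        exact ⟨⟨by omega, by omega⟩, hx⟩)
      have h3 := (abs_le.1 h2).2
      have h4 : ((S n x).card : ℝ) ≤
          (((Od m).filter fun y => (y + ((x : ℕ) + 1)).Prime).card : ℝ) := by exact_mod_cast h1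
      have h5 : (((Od m).filter fun y => (y + ((x : ℕ) + 1)).Prime).card : ℝ) ≤
          (1 + C / Real.log m) * dd m := by
        linarith
      linarith
    · have h1 := card_odd n m hm1 x hx
      have h2 := d1 ((x : ℕ) + 1) (by
        rw [Od, mem_filter, mem_Icc]
        have := x.2
        exact ⟨⟨by omega, by omega⟩, hx⟩)
      have h3 := (abs_le.1 h2).2
      have h4 : ((S n x).card : ℝ) ≤
          (((Ev m).filter fun y => ((x : ℕ) + 1 + y).Prime).card : ℝ) + 1 := by exact_mod_cast h1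
      have h5 : (((Ev m).filter fun y => ((x : ℕ) + 1 + y).Prime).card : ℝ) ≤
          (1 + C / Real.log m) * dd m := by
        linarith
      linarith
  obtain ⟨D, hD⟩ : ∃ D : ℕ, D = ⌊X⌋₊ := ⟨_, rfl⟩
  have hX2 : 2 ≤ X := hnL.trans hXn
  have hDX : (D : ℝ) ≤ X := by
    rw [hD]
    exact Nat.floor_le (by linarith)
  have hD1 : X - 1 < D := by
    rw [hD]
    exact Nat.sub_one_lt_floor X
  have hDn : (1 / 2) * ((n : ℝ) / L) ≤ D := by linarith
  have hDpos : (1 : ℝ) ≤ D := by linarith
  have hDpos' : 1 ≤ D := by exact_mod_cast hDpos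
  have hR : (R n : ℝ) ≤ Real.exp (n * gf D) := by
    obtain ⟨k, rfl⟩ : ∃ k, n = k + 1 := ⟨n - 1, by omega⟩
    have hcard' : ∀ x : Fin (k + 1), (S' k x).card ≤ D := by
      intro x
      rw [hD]
      refine Nat.le_floor ?_
      have h1 := card_S' k x
      have h2 : ((S' k x).card : ℝ) ≤ ((S (k + 1) x).card : ℝ) + 1 := by exact_mod_cast h1
      exact h2.trans (hcard x)
    have hsum : ∑ x : Fin (k + 1), Real.log ((S' k x).card.factorial : ℝ) / (S' k x).card ≤
        (k + 1 : ℕ) * gf D := by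
      calc ∑ x : Fin (k + 1), Real.log ((S' k x).card.factorial : ℝ) / (S' k x).card
          ≤ ∑ _x : Fin (k + 1), gf D := Finset.sum_le_sum fun x _ => gf_mono (hcard' x)
        _ = (k + 1 : ℕ) * gf D := by
          rw [Finset.sum_const, Finset.card_univ, Fintype.card_fin, nsmul_eq_mul]
    calc (R (k + 1) : ℝ) ≤ ((adm (S' k)).card : ℝ) := by exact_mod_cast R_le k
      _ ≤ Real.exp (∑ x : Fin (k + 1), Real.log ((S' k x).card.factorial : ℝ) / (S' k x).card) :=
          bregman (S' k)
      _ ≤ _ := Real.exp_le_exp.2 hsum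
  have hlogD : Real.log D ≤ L - Real.log L + C1 / L := by
    have h1 : Real.log D ≤ Real.log X := Real.log_le_log (by linarith) hDX
    have h2 : Real.log X = Real.log (1 + C1 / L) + (L - Real.log L) := by
      rw [hX, Real.log_mul (by positivity) (by positivity), Real.log_div (by positivity)
        (by positivity), ← hL]
    have h3 : Real.log (1 + C1 / L) ≤ C1 / L := by
      have := Real.log_le_sub_one_of_pos (x := 1 + C1 / L) (by positivity)
      linarith
    linarith
  have hlogL : 0 ≤ Real.log L := Real.log_nonneg hL1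
  have hCL : C1 / L ≤ C1 := div_le_self hC10.le hL1
  have hsmall : (1 + Real.log D) / D ≤ 12 * (2 + C1) / L := by
    rw [div_le_div_iff₀ (by linarith) hL0]
    have h1 : 1 + Real.log D ≤ (2 + C1) * L := by nlinarith
    have h2 : (n : ℝ) ≤ 2 * L * D := by
      have h3 : (n : ℝ) = 2 * L * ((1 / 2) * ((n : ℝ) / L)) := by
        field_simp
      rw [h3]
      exact mul_le_mul_of_nonneg_left hDn (by positivity)
    have h4 : L ^ 3 ≤ 12 * L * D := by linarith
    have h5 : L ^ 2 ≤ 12 * D := by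
      have h6 : L * L ^ 2 ≤ L * (12 * D) := by nlinarith
      exact le_of_mul_le_mul_left h6 hL0
    calc (1 + Real.log D) * L ≤ ((2 + C1) * L) * L := mul_le_mul_of_nonneg_right h1 hL0.le
      _ = (2 + C1) * L ^ 2 := by ring
      _ ≤ (2 + C1) * (12 * D) := mul_le_mul_of_nonneg_left h5 (by positivity)
      _ = 12 * (2 + C1) * D := by ring
  have hgf : gf D ≤ L - Real.log L - 1 + (13 * C1 + 24) / L := by
    have h1 := gf_up D hDpos'
    have h2 : (13 * C1 + 24) / L = C1 / L + 12 * (2 + C1) / L := by ring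
    rw [h2]
    linarith
  refine hR.trans (Real.exp_le_exp.2 ?_)
  unfold mt
  rw [← hL]
  have h1 := mul_le_mul_of_nonneg_left hgf hn0.le
  refine h1.trans (le_of_eq ?_)
  ring

end Pool.Agent.N785.PC
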