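import Pool.Agent.N785.PC.Stmts
import Pool.Agent.H373R2.T7.LamZ

/-!
# Project PC: the analytic statements
-/

set_option autoImplicit false

namespace Pool.Agent.N785.PC

open Finset
open Pool.Agent.H373R2.T7 (lamz)

/-- replacing the von Mangoldt function by the sieve model in the middle -/
def S_NTa : Prop := ∀ U : ℕ, ∃ B : ℕ, ∀ E : ℕ, ∃ N₀ : ℕ, ∀ N : ℕ, N₀ ≤ N → ∀ z : ℕ, Real.log N ^ B ≤ z →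
  (z : ℝ) ≤ Real.log N ^ E → ∀ H s₀ t₀ : ℕ, 1 ≤ s₀ → 1 ≤ t₀ → s₀ + 2 * H ≤ 5 * N → t₀ + 2 * H ≤ 5 * N →
  ∀ a b : ℕ → ℝ, (∀ i, |a i| ≤ 1) → (∀ j, |b j| ≤ 1) →
  |∑ i ∈ range H, ∑ j ∈ range H, a i * b j * (ArithmeticFunction.vonMangoldt (s₀ + 2 * i + (t₀ + 2 * j)) -
    lamz z (s₀ + 2 * i + (t₀ + 2 * j)))| ≤ (N : ℝ) ^ 2 / Real.log N ^ U

/-- the inner sum with the sieve model -/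
def S_NTb : Prop := ∀ E : ℕ, ∃ N₀ : ℕ, ∀ N H : ℕ, N₀ ≤ N → H ≤ N → (N : ℝ) ≤ H * Real.log N ^ 5 →
  ∀ z : ℕ, 3 ≤ z → (z : ℝ) ≤ Real.log N ^ E →
  ∀ σ : ℤ, (σ = 1 ∨ σ = -1) → ∀ β : ℤ, ∀ s t₀ : ℕ, 1 ≤ s → 1 ≤ t₀ → s ≤ 5 * N → t₀ + 2 * H ≤ 5 * N →
  (∀ j : ℕ, j < H → 1 ≤ β + σ * (t₀ + 2 * j) ∧ β + σ * (t₀ + 2 * j) ≤ 10 * N) →
  Odd (s + t₀) → Odd (β + σ * t₀) →
  (H : ℝ) ≤ ∑ j ∈ range H, lamz z (s + (t₀ + 2 * j)) *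
    ArithmeticFunction.vonMangoldt (β + σ * (t₀ + 2 * j)).toNat

/-- the prime number theorem in a window -/
def S_NTc : Prop := ∃ N₀ : ℕ, ∀ N H : ℕ, N₀ ≤ N → H ≤ N → (N : ℝ) ≤ H * Real.log N ^ 5 →
  ∀ σ : ℤ, (σ = 1 ∨ σ = -1) → ∀ α : ℤ, ∀ s₀ : ℕ,
  (∀ i : ℕ, i < H → 1 ≤ α + σ * (s₀ + 2 * i) ∧ α + σ * (s₀ + 2 * i) ≤ 10 * N) →
  Odd (α + σ * s₀) →
  (H : ℝ) ≤ ∑ i ∈ range H, ArithmeticFunction.vonMangoldt (α + σ * (s₀ + 2 * i)).toNat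

end Pool.Agent.N785.PC
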